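import Pool.Agent.Lib.SA.Kit

/-! sa56 block ABSH: the height relative to a base field does not depend on the field used. -/

namespace D4C.SA

namespace XABSH

/-- two parallel tuples over two number fields inside one field -/
theorem key (K κ τ L₁ L₂ : Type) [Field K] [NumberField K] [Field κ] [Algebra K κ] [Fintype τ]
    [Field L₁] [NumberField L₁] [Algebra K L₁] [Algebra L₁ κ] [IsScalarTower K L₁ κ]
    [Field L₂] [NumberField L₂] [Algebra K L₂] [Algebra L₂ κ] [IsScalarTower K L₂ κ]
    (y₁ : τ → L₁) (y₂ : τ → L₂) (h₁ : y₁ ≠ 0) (h₂ : y₂ ≠ 0)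
    (hp : Par (fun i => algebraMap L₁ κ (y₁ i)) (fun i => algebraMap L₂ κ (y₂ i))) :
    Height.logHeight y₁ = Module.finrank K L₁ * (Height.logHeight y₂ / Module.finrank K L₂) := by
  let f₁ : L₁ →ₐ[K] κ := IsScalarTower.toAlgHom K L₁ κ
  let f₂ : L₂ →ₐ[K] κ := IsScalarTower.toAlgHom K L₂ κ
  have hf₁ : FiniteDimensional K f₁.fieldRange :=
    LinearEquiv.finiteDimensional (AlgEquiv.ofInjectiveField f₁).toLinearEquiv
  have hf₂ : FiniteDimensional K f₂.fieldRange :=
    LinearEquiv.finiteDimensional (AlgEquiv.ofInjectiveField f₂).toLinearEquiv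
  let E : IntermediateField K κ := f₁.fieldRange ⊔ f₂.fieldRange
  have hE : FiniteDimensional K E := IntermediateField.finiteDimensional_sup _ _
  have hN : NumberField E := NumberField.of_module_finite K _
  have m₁ : ∀ a, f₁ a ∈ E := fun a =>
    (le_sup_left : f₁.fieldRange ≤ E) (AlgHom.mem_fieldRange.2 ⟨a, rfl⟩)
  have m₂ : ∀ a, f₂ a ∈ E := fun a =>
    (le_sup_right : f₂.fieldRange ≤ E) (AlgHom.mem_fieldRange.2 ⟨a, rfl⟩)
  let g₁ : L₁ →ₐ[K] E := f₁.codRestrict E.toSubalgebra m₁
  let g₂ : L₂ →ₐ[K] E := f₂.codRestrict E.toSubalgebra m₂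
  let : Algebra L₁ E := g₁.toRingHom.toAlgebra
  let : Algebra L₂ E := g₂.toRingHom.toAlgebra
  have t₁ : IsScalarTower K L₁ E := IsScalarTower.of_algebraMap_eq fun a => (g₁.commutes a).symm
  have t₂ : IsScalarTower K L₂ E := IsScalarTower.of_algebraMap_eq fun a => (g₂.commutes a).symm
  have e₁ := All.a_HEXT L₁ E τ y₁
  have e₂ := All.a_HEXT L₂ E τ y₂
  have hp' : Par (fun i => algebraMap L₁ E (y₁ i)) (fun i => algebraMap L₂ E (y₂ i)) :=
    (par_map_iff (algebraMap E κ)).1 hp
  have e₃ := ht_par hp' ((map_ne_zero' (algebraMap L₁ E)).2 h₁)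
    ((map_ne_zero' (algebraMap L₂ E)).2 h₂)
  have d₁ : (Module.finrank K L₁ : ℝ) * Module.finrank L₁ E = Module.finrank K E := by
    exact_mod_cast Module.finrank_mul_finrank K L₁ E
  have d₂ : (Module.finrank K L₂ : ℝ) * Module.finrank L₂ E = Module.finrank K E := by
    exact_mod_cast Module.finrank_mul_finrank K L₂ E
  have p₁ : (0 : ℝ) < Module.finrank L₁ E := by exact_mod_cast Module.finrank_pos
  have p₂ : (0 : ℝ) < Module.finrank K L₂ := by exact_mod_cast Module.finrank_pos
  rw [e₁, e₂] at e₃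
  rw [← mul_div_assoc, eq_div_iff p₂.ne']
  apply mul_left_cancel₀ p₁.ne'
  calc (Module.finrank L₁ E : ℝ) * (Height.logHeight y₁ * Module.finrank K L₂)
      = (Module.finrank L₁ E * Height.logHeight y₁) * Module.finrank K L₂ := by ring
    _ = (Module.finrank K L₂ * Module.finrank L₂ E) * Height.logHeight y₂ := by rw [← e₃]; ring
    _ = Module.finrank L₁ E * (Module.finrank K L₁ * Height.logHeight y₂) := by
        rw [d₂, ← d₁]; ring

theorem eq (K κ τ L : Type) [Field K] [NumberField K] [Field κ] [Algebra K κ]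
    [Algebra.IsAlgebraic K κ] [Fintype τ] [Field L] [NumberField L] [Algebra K L] [Algebra L κ]
    [IsScalarTower K L κ] (y : τ → κ) (y' : τ → L) (hy : y ≠ 0) (hy' : y' ≠ 0)
    (hp : Par (fun i => algebraMap L κ (y' i)) y) :
    Height.logHeight y' = Module.finrank K L * vecHt K y := by
  have hf : FiniteDimensional K (IntermediateField.adjoin K (Set.range y)) :=
    IntermediateField.finiteDimensional_adjoin fun a _ =>
      (Algebra.IsAlgebraic.isAlgebraic a).isIntegral
  have hN : NumberField (IntermediateField.adjoin K (Set.range y)) :=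
    NumberField.of_module_finite K _
  refine key K κ τ L (IntermediateField.adjoin K (Set.range y)) y'
    (fun i => ⟨y i, IntermediateField.subset_adjoin K _ ⟨i, rfl⟩⟩) hy' ?_ hp
  exact (map_ne_zero' (algebraMap (IntermediateField.adjoin K (Set.range y)) κ)).1 hy

end XABSH

theorem st_ABSH : St_ABSH where
  eq := fun K κ τ L _ _ _ _ _ _ _ _ _ _ _ y y' hy hy' hp => XABSH.eq K κ τ L y y' hy hy' hp
  tower := by
    intro K κ τ L _ _ _ _ _ _ _ _ _ _ _ _ y hy
    let L₁ := IntermediateField.adjoin L (Set.range y)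
    have hf : FiniteDimensional L L₁ :=
      IntermediateField.finiteDimensional_adjoin fun a _ =>
        (Algebra.IsAlgebraic.isAlgebraic a).isIntegral
    have hN : NumberField L₁ := NumberField.of_module_finite L _
    let y' : τ → L₁ := fun i => ⟨y i, IntermediateField.subset_adjoin L _ ⟨i, rfl⟩⟩
    have hy' : y' ≠ 0 := (map_ne_zero' (algebraMap L₁ κ)).1 hy
    have hp : Par (fun i => algebraMap L₁ κ (y' i)) y := fun i j => mul_comm _ _
    have ht : IsScalarTower K L₁ κ := IsScalarTower.of_algebraMap_eq fun a => rfl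
    have e₁ := XABSH.eq L κ τ L₁ y y' hy hy' hp
    have e₂ := XABSH.eq K κ τ L₁ y y' hy hy' hp
    have d : (Module.finrank K L : ℝ) * Module.finrank L L₁ = Module.finrank K L₁ := by
      exact_mod_cast Module.finrank_mul_finrank K L L₁
    have p : (0 : ℝ) < Module.finrank L L₁ := by exact_mod_cast Module.finrank_pos
    apply mul_left_cancel₀ p.ne'
    rw [← e₁, e₂, ← d]
    ring

end D4C.SA
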