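import Pool.Agent.Lib.SA.Kit

/-! sa56 block ALG: from the cube for the even parts to the square for torsion points. -/

namespace D4C.SA

namespace XALG

variable {G C : Type} [AddCommGroup G] [AddCommGroup C]

/-- third difference of `F` at `w` -/
def thd (F : G → C) (w x y z : G) : C :=
  F (w + x + y + z) - F (w + x + y) - F (w + x + z) - F (w + y + z) + F (w + x) + F (w + y)
    + F (w + z) - F w

theorem thd_add (F : G → C) (w x x' y z : G) :
    thd F w (x + x') y z = thd F w x y z + thd F (w + x) x' y z := by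
  unfold thd
  have e : w + (x + x') = w + x + x' := (add_assoc w x x').symm
  rw [e]
  abel

theorem thd_swap12 (F : G → C) (w x y z : G) : thd F w x y z = thd F w y x z := by
  unfold thd
  have e : w + y + x = w + x + y := add_right_comm w y x
  rw [e]
  abel

theorem thd_swap23 (F : G → C) (w x y z : G) : thd F w x y z = thd F w x z y := by
  unfold thd
  have e1 : w + x + z + y = w + x + y + z := add_right_comm _ z y
  have e2 : w + z + y = w + y + z := add_right_comm w z y
  rw [e1, e2]
  abel

theorem thd_zero3 (F : G → C) (w x y : G) : thd F w x y 0 = 0 := by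
  unfold thd
  simp only [add_zero]
  abel

theorem thd_all (N : G → C) (h0 : N 0 = 0)
    (h : ∀ x y z, N (x + y + z) + N x + N y + N z = N (x + y) + N (x + z) + N (y + z))
    (w x y z : G) : thd N w x y z = 0 := by
  have h1 : ∀ x y z, thd N 0 x y z = 0 := by
    intro x y z
    unfold thd
    simp only [zero_add, h0, sub_zero]
    have h2 := sub_eq_zero.mpr (h x y z)
    refine Eq.trans ?_ h2
    abel
  have h3 := thd_add N 0 w x y z
  rw [h1, h1, zero_add, zero_add] at h3
  exact h3.symm

theorem thd_even (Λ N : G → C) (a : G) (hN : ∀ x, N x = Λ (a + x) + Λ (a - x)) (w x y z : G) :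
    thd N w x y z = thd Λ (a + w) x y z - thd Λ (a - w - (x + y + z)) x y z := by
  unfold thd
  simp only [hN]
  have e1 : a - w - (x + y + z) + x + y + z = a - w := by abel
  have e2 : a - w - (x + y + z) + x + y = a - (w + z) := by abel
  have e3 : a - w - (x + y + z) + x + z = a - (w + y) := by abel
  have e4 : a - w - (x + y + z) + y + z = a - (w + x) := by abel
  have e5 : a - w - (x + y + z) + x = a - (w + y + z) := by abel
  have e6 : a - w - (x + y + z) + y = a - (w + x + z) := by abel
  have e7 : a - w - (x + y + z) + z = a - (w + x + y) := by abel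
  have e8 : a - w - (x + y + z) = a - (w + x + y + z) := by abel
  rw [e1, e2, e3, e4, e5, e6, e7, e8]
  simp only [← add_assoc]
  abel

end XALG

open XALG in
theorem st_ALG : St_ALG := by
  intro G G₀ C _ _ _ ι Λ hΛ hdiv hcube c j hc x
  have h00 : Λ 0 = 0 := by simpa using hΛ 0
  have key : ∀ (a : G₀) (w x y z : G),
      thd Λ (ι a + w) x y z = thd Λ (ι a - w - (x + y + z)) x y z := by
    intro a w x y z
    have h0 : (fun x => Λ (ι a + x) + Λ (ι a - x)) 0 = 0 := by
      simp only [add_zero, sub_zero, hΛ]
    have h1 := thd_all (fun x => Λ (ι a + x) + Λ (ι a - x)) h0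
      (hcube a _ (fun _ => rfl)) w x y z
    rw [thd_even Λ _ (ι a) (fun _ => rfl)] at h1
    exact sub_eq_zero.mp h1
  have inv : ∀ (a : G₀) (w x y z : G), thd Λ (w + ι a) x y z = thd Λ w x y z := by
    intro a w x y z
    obtain ⟨b, rfl⟩ := hdiv a
    have h1 := key b (w + ι b) x y z
    have h2 := key 0 w x y z
    have e1 : ι b + (w + ι b) = w + ι (2 • b) := by
      rw [two_nsmul, map_add]; abel
    have e2 : ι b - (w + ι b) - (x + y + z) = ι 0 - w - (x + y + z) := by
      rw [map_zero]; abel
    have e3 : ι 0 + w = w := by rw [map_zero, zero_add]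
    rw [e1, e2] at h1
    rw [e3] at h2
    rw [h1, h2]
  have add1 : ∀ (a b : G₀) (y z : G),
      thd Λ 0 (ι (a + b)) y z = thd Λ 0 (ι a) y z + thd Λ 0 (ι b) y z := by
    intro a b y z
    rw [map_add, thd_add, inv]
  have dbl : ∀ (a b : G₀), thd Λ 0 (ι (2 • a)) (ι b) x = thd Λ 0 (ι a) (ι (2 • b)) x := by
    intro a b
    rw [two_nsmul, two_nsmul, add1, thd_swap12 Λ 0 (ι a) (ι (b + b)), add1,
      thd_swap12 Λ 0 (ι b) (ι a)]
  have van : ∀ (j : ℕ) (b : G₀), 2 ^ j • b = 0 → ∀ a : G₀, thd Λ 0 (ι a) (ι b) x = 0 := by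
    intro j
    induction j with
    | zero =>
      intro b hb a
      rw [pow_zero, one_nsmul] at hb
      rw [hb, map_zero, thd_swap23, thd_zero3]
    | succ j ih =>
      intro b hb a
      obtain ⟨a', rfl⟩ := hdiv a
      rw [dbl]
      apply ih
      rw [← mul_nsmul', ← pow_succ]
      exact hb
  have h := van j c hc (-c)
  unfold thd at h
  have e1 : (0 : G) + ι (-c) + ι c + x = x := by rw [map_neg]; abel
  have e2 : (0 : G) + ι (-c) + ι c = 0 := by rw [map_neg]; abel
  have e3 : (0 : G) + ι (-c) + x = x - ι c := by rw [map_neg]; abel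
  have e4 : (0 : G) + ι c + x = x + ι c := by abel
  rw [e1, e2, e3, e4] at h
  simp only [zero_add, hΛ, h00] at h
  have h' : Λ x + Λ x - (Λ (x + ι c) + Λ (x - ι c)) = 0 := by
    refine Eq.trans ?_ h
    abel
  exact (sub_eq_zero.mp h').symm

end D4C.SA
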