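import Pool.Agent.Lib.SA.Kit

/-! sa56 row AMP: the height of the image under a finite morphism. -/

namespace D4C.SA

open MvPolynomial Filter

namespace XAMP

/-- the two real estimates of the row -/
theorem est {C d : ℝ} (hC : 0 ≤ C) (hd : 0 ≤ d) {h v H : ℕ → ℝ} (hv : ∀ n, 0 ≤ v n)
    (hH : ∀ n, 0 ≤ H n) (h1 : ∀ n : ℕ, v n + n < 1 / ((n : ℝ) + 1) * h n)
    (h2 : ∀ n, h n ≤ C * (H n + 1)) :
    Tendsto H atTop atTop ∧ ∀ ε : ℝ, 0 < ε → ∀ᶠ n in atTop, d * v n ≤ ε * H n := by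
  have h3 : ∀ n : ℕ, (v n + n) * ((n : ℝ) + 1) ≤ (C + 1) * (H n + 1) := fun n => by
    have a1 := h1 n
    rw [one_div, inv_mul_eq_div, lt_div_iff₀ (by positivity)] at a1
    nlinarith [h2 n, hH n]
  have h4 : ∀ R : ℝ, ∀ᶠ n in atTop, R ≤ H n := fun R => by
    filter_upwards [tendsto_natCast_atTop_atTop.eventually_ge_atTop ((C + 1) * (R + 1))] with n hn
    have a1 := h3 n
    have a2 : (0 : ℝ) ≤ n := n.cast_nonneg
    have a3 : (C + 1) * (R + 1) ≤ (C + 1) * (H n + 1) := by nlinarith [hv n]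
    have := le_of_mul_le_mul_left a3 (by positivity)
    linarith
  refine ⟨tendsto_atTop.2 h4, fun ε hε => ?_⟩
  filter_upwards [h4 1, tendsto_natCast_atTop_atTop.eventually_ge_atTop (2 * d * (C + 1) / ε)]
    with n hn hn'
  rw [div_le_iff₀ hε] at hn'
  have a1 := h3 n
  have a2 : (0 : ℝ) ≤ n := n.cast_nonneg
  have a3 : v n * ((n : ℝ) + 1) ≤ (C + 1) * (2 * H n) := by nlinarith
  have a4 : d * v n * ((n : ℝ) + 1) ≤ ε * H n * ((n : ℝ) + 1) := by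
    calc d * v n * ((n : ℝ) + 1) = d * (v n * ((n : ℝ) + 1)) := by ring
      _ ≤ d * ((C + 1) * (2 * H n)) := mul_le_mul_of_nonneg_left a3 hd
      _ = 2 * d * (C + 1) * H n := by ring
      _ ≤ (n : ℝ) * ε * H n := mul_le_mul_of_nonneg_right hn' (hH n)
      _ ≤ ε * H n * ((n : ℝ) + 1) := by nlinarith [mul_nonneg hε.le (hH n)]
  exact le_of_mul_le_mul_right a4 (by positivity)

end XAMP

theorem st_AMP (hDSC : St_DSC) (hDSM : St_DSM) (hPQ2 : St_PQ2) (hFIN : St_FIN)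
    (hABSH : St_ABSH) : St_AMP := by
  intro L κ σ ρ _ _ _ _ _ _ _ _ _ B lam P
  obtain ⟨L', _, _, _, _, _, B', M', e, C, hS, hJ, hmap, hC, hz⟩ :=
    hDSC L κ σ (ρ ⊕ Fin P.N) B P.Q P.J P.nz.1 P.M
  have : Algebra.IsAlgebraic L' κ := Algebra.IsAlgebraic.tower_top (K := L) L'
  obtain ⟨hval, hmor⟩ := (hDSM L' κ σ (ρ ⊕ Fin P.N) B'.I P.J (T39.prime_I B') (sub_prime P.nz.1)
    B'.hom hJ).1 M' P.M e hmap
  have hmor' := hmor P.mor
  by_contra hcon
  push Not at hcon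
  choose p b y h1 h2 h3 h4 using fun n : ℕ => hcon (1 / ((n : ℝ) + 1)) n (by positivity)
  choose z hz1 hz2 hz3 using fun n => hz (p n) (b n) (h1 n) (h2 n)
  choose l hl using fun n => hmor' L' (B'.rp (z n)) (rp_zr _) (rp_ne _)
  have hv : ∀ n, P.M.Val (B.rp (b n)) fun i => algebraMap L' κ (l n i) := fun n =>
    (val_iff (hz1 n) (B.rep_rp _)).1 ((hval κ _ _).1 ((hl n).map (Algebra.ofId L' κ)))
  have hh : ∀ n, Height.logHeight (l n) = Module.finrank L L' * vecHt L (y n) := fun n =>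
    hABSH.eq L κ _ L' (y n) (l n) (h3 n).ne (hl n).ne ((hv n).uniq (h3 n) (h2 n))
  obtain ⟨e1, e2⟩ := XAMP.est (d := Module.finrank L L') (H := fun n => B'.ht (z n)) hC
    (Nat.cast_nonneg _) (fun n => vecHt_nonneg L (y n)) (fun n => Height.logHeight_nonneg _) h4 hz2
  have hU : (hyperfilter ℕ : Filter ℕ) ≤ atTop := Nat.hyperfilter_le_atTop
  obtain ⟨J, hnz, hev⟩ := hPQ2 L' κ σ (ρ ⊕ Fin P.N) B' M' (hyperfilter ℕ) z l (e1.mono_left hU)
    (Eventually.of_forall hl) fun ε hε =>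
      ((e2 ε hε).mono fun n hn => (hh n).trans_le hn).filter_mono hU
  obtain ⟨n, hn⟩ := hev.exists
  refine hFIN.inf L' κ σ B' J hnz (Set.Finite.of_injOn
    (f := fun c => hS.hom κ (B'.map (Algebra.ofId L' κ) (z n) + c)) (fun c hc => ?_)
    (fun c _ c' _ h => add_left_cancel (hom_inj hS h))
    (P.fin fun i => algebraMap L' κ (l n i)))
  set w := B'.map (Algebra.ofId L' κ) (z n) + c
  obtain ⟨l', hl'⟩ := hmor' κ (B'.rp w) (rp_zr _) (rp_ne _)
  have a1 : Zr P.J (B'.rp w) := hJ ▸ zr_ext.2 (rp_zr w)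
  exact ⟨(zr_iff P.nz.1.hom (rep_hom_rp hS w) (B.rep_rp _)).1 a1,
    (val_iff (rep_hom_rp hS w) (B.rep_rp _)).1
      ((hval κ _ _).1 (hl'.of_par (hv n).ne (hn c l' hc hl').symm))⟩

end D4C.SA
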