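import Pool.Agent.Lib.SA.Kit

/-! sa56 row CODQ: coprime elements vanish in codimension two. -/

namespace D4C.SA

open MvPolynomial

namespace XCODQ

variable {κ σ F : Type} [Field κ] [Field F] [Algebra κ F] {η : σ → F} {y : σ → κ}
  {I q : Ideal (MvPolynomial σ κ)}

/-- the numerator lies in `q` -/
def Num (q : Ideal (MvPolynomial σ κ)) (u : Oq η y) : Prop :=
  ∃ (d : ℕ) (G H : MvPolynomial σ κ), G.IsHomogeneous d ∧ H.IsHomogeneous d ∧ aeval y H ≠ 0 ∧
    (u : F) * aeval η H = aeval η G ∧ G ∈ q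

theorem num_any (hη : PGen I η) (hq : q.IsPrime) (hle : I ≤ q) (hy : Zr q y) {u : Oq η y}
    (hu : Num q u) {d : ℕ} {G H : MvPolynomial σ κ} (hG : G.IsHomogeneous d)
    (hH : H.IsHomogeneous d) (h : (u : F) * aeval η H = aeval η G) : G ∈ q := by
  obtain ⟨d', G', H', a1, a2, a3, a4, a5⟩ := hu
  have h1 : G' * H - H' * G ∈ I := (hη.2 _ _ ((a1.mul hH).sub (a2.mul hG))).1 (by
    rw [map_sub, map_mul, map_mul, ← a4, ← h]; ring)
  have h2 : H' * G ∈ q := by
    simpa using q.sub_mem (q.mul_mem_right H a5) (hle h1)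
  exact (hq.mem_or_mem h2).resolve_left fun h3 => a3 (hy _ h3)

theorem num_mul {u : Oq η y} (hu : Num q u) (v : Oq η y) : Num q (u * v) := by
  obtain ⟨d, G, H, a1, a2, a3, a4, a5⟩ := hu
  obtain ⟨d', G', H', b1, b2, b3, -, b5⟩ := v.2
  refine ⟨d + d', G * G', H * H', a1.mul b1, a2.mul b2, by rw [map_mul]; exact mul_ne_zero a3 b3,
    ?_, q.mul_mem_right _ a5⟩
  rw [map_mul, map_mul, ← a4, ← b5, Subalgebra.coe_mul]
  ring

theorem num_or (hη : PGen I η) (hq : q.IsPrime) (hle : I ≤ q) (hy : Zr q y) {u v : Oq η y}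
    (h : Num q (u * v)) : Num q u ∨ Num q v := by
  obtain ⟨d, G, H, a1, a2, a3, -, a5⟩ := u.2
  obtain ⟨d', G', H', b1, b2, b3, -, b5⟩ := v.2
  have h1 : G * G' ∈ q := num_any hη hq hle hy h (a1.mul b1) (a2.mul b2) (by
    rw [map_mul, map_mul, ← a5, ← b5, Subalgebra.coe_mul]; ring)
  exact (hq.mem_or_mem h1).imp (fun h2 => ⟨d, G, H, a1, a2, a3, a5, h2⟩)
    fun h2 => ⟨d', G', H', b1, b2, b3, b5, h2⟩

theorem num_prime (hη : PGen I η) (hq : q.IsPrime) (hle : I ≤ q) (hy : Zr q y)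
    [UniqueFactorizationMonoid (Oq η y)] (u : Oq η y) :
    u ≠ 0 → Num q u → ∃ π : Oq η y, Prime π ∧ Num q π := by
  refine UniqueFactorizationMonoid.induction_on_prime u (fun h => absurd rfl h) ?_ ?_
  · intro x hx _ h
    obtain ⟨v, hv⟩ := hx.exists_right_inv
    have h1 := num_mul h v
    rw [hv] at h1
    exact absurd (num_any hη hq hle hy h1 (isHomogeneous_one _ _) (isHomogeneous_one _ _)
      (by simp)) fun h2 => hq.ne_top ((Ideal.eq_top_iff_one q).2 h2)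
  · intro a p ha hp ih _ h
    exact (num_or hη hq hle hy h).elim (fun h1 => ⟨p, hp, h1⟩) (ih ha)

end XCODQ

open XCODQ in
theorem st_CODQ (hOQ : St_OQ) : St_CODQ := by
  intro κ σ ρ F _ _ _ _ I η hp hI hη y hy0 hy hU s hs ⟨i₀, hi₀⟩ q hq hqh hle hqy hG
  obtain ⟨k, hk⟩ := Function.ne_iff.1 hy0
  obtain ⟨hk0, hmem, -⟩ := (hOQ κ σ F I η y hη hy hy0).2.2.2.1 k hk
  obtain ⟨π, hπ, hn⟩ := num_prime hη hq hle hqy (s i₀) hi₀ (hG i₀)
  let e : σ → Oq η y := fun i => ⟨η i / η k, by simpa using hmem 1 (X i) (isHomogeneous_X κ i)⟩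
  have he : ∀ {d : ℕ} {G : MvPolynomial σ κ}, G.IsHomogeneous d →
      ((aeval e G : Oq η y) : F) * η k ^ d = aeval η G := fun {d G} h => by
    have h1 := aeval_map_alg (Oq η y).val e G
    have h2 : η = η k • fun i => (Oq η y).val (e i) := funext fun i => by
      simp [e, mul_div_cancel₀ _ hk0]
    conv_rhs => rw [h2, aeval_smul_hom h, h1]
    rw [mul_comm]
    rfl
  have hq' : ∀ {u : Oq η y} {d : ℕ} {G H : MvPolynomial σ κ}, G.IsHomogeneous d →
      H.IsHomogeneous d → (u : F) * aeval η H = aeval η G → aeval e G = u * aeval e H :=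
    fun {u d G H} h1 h2 h3 => Subtype.ext (mul_right_cancel₀ (pow_ne_zero d hk0) (by
      rw [he h1, Subalgebra.coe_mul, mul_assoc, he h2, h3]))
  have hP : (Ideal.span {π}).IsPrime := (Ideal.span_singleton_prime hπ.ne_zero).2 hπ
  let φ := IsScalarTower.toAlgHom κ (Oq η y) (Ideal.span {π}).ResidueField
  have hx : (fun i => φ (e i)) ≠ 0 := Function.ne_iff.2 ⟨k, by
    have : e k = 1 := Subtype.ext (div_self hk0)
    simp [this]⟩
  obtain ⟨l1, l2, l3, -, -⟩ := All.a_LOC κ σ _ _ hx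
  have key : ∀ {d : ℕ} {G : MvPolynomial σ κ}, G.IsHomogeneous d →
      (G ∈ loc κ (fun i => φ (e i)) ↔ π ∣ aeval e G) := fun {d G} h => by
    rw [← l3.2 G d h, aeval_map_alg, ← Ideal.mem_span_singleton]
    exact Ideal.algebraMap_residueField_eq_zero
  have h2 : loc κ (fun i => φ (e i)) ≤ q := T48.le_of_hom l1 fun G d h hm => by
    obtain ⟨c, hc⟩ := (key h).1 hm
    refine num_any hη hq hle hqy (num_mul hn c) h
      (by simpa using (isHomogeneous_X κ k).pow d : (X k ^ d).IsHomogeneous d) ?_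
    rw [← hc, map_pow, aeval_X, he h]
  have h1 : I < loc κ (fun i => φ (e i)) := by
    refine lt_of_le_of_ne (T48.le_of_hom hI fun G d h hm => (key h).2 ?_) fun h => ?_
    · have h3 := he h
      rw [(hη.2 G d h).2 hm, mul_eq_zero_iff_right (pow_ne_zero d hk0)] at h3
      rw [show aeval e G = 0 from Subtype.ext h3]
      exact dvd_zero _
    · obtain ⟨d, G, H, a1, a2, a3, a4, -⟩ := hn
      have h3 : G ∈ I := h ▸ (key a1).2 ⟨_, hq' a1 a2 a4⟩
      rw [(hη.2 G d a1).2 h3] at a4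
      rcases mul_eq_zero.1 a4 with h4 | h4
      · exact hπ.ne_zero (Subtype.ext h4)
      · exact a3 (hy _ ((hη.2 H d a2).1 h4))
  have h3 : loc κ (fun i => φ (e i)) < q := by
    refine lt_of_le_of_ne h2 fun h => ?_
    obtain ⟨l, hl⟩ := hs π hπ
    obtain ⟨d, G, H, a1, a2, a3, a4, a5⟩ := hG l
    have h4 := (key a1).1 (h ▸ a5)
    rw [hq' a1 a2 a4] at h4
    exact a3 (hqy _ (h2 ((key a2).2 ((hπ.dvd_or_dvd h4).resolve_left hl))))
  obtain ⟨⟨n1, e1⟩, -, c1⟩ := All.a_DIM κ σ I hp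
  obtain ⟨⟨n2, e2⟩, -, c2⟩ := All.a_DIM κ σ _ l2
  obtain ⟨⟨n3, e3⟩, -, -⟩ := All.a_DIM κ σ q hq
  have c3 := c1 _ l2 h1
  have c4 := c2 _ hq h3
  rw [e1, e2] at c3
  rw [e2, e3] at c4
  rw [e1, e3]
  have c5 : n3 + 2 ≤ n1 := by
    have := Nat.cast_lt.1 c3
    have := Nat.cast_lt.1 c4
    omega
  exact_mod_cast c5

end D4C.SA
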