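import Pool.Agent.Lib.SA.Kit

/-! sa56 block COL: the colon ideal. -/

set_option linter.unusedVariables false

namespace D4C.SA

open MvPolynomial

namespace XCOL

/-- extraction of the greatest common divisor -/
theorem extract {R ρ : Type} [CommRing R] [IsDomain R] [Fintype ρ] [Nonempty ρ]
    (hU : UniqueFactorizationMonoid R) (a : ρ → R) : ∃ (d : R) (s : ρ → R),
      (∀ i, a i = d * s i) ∧ Cop s ∧ ∀ z x : R, (∀ i, z ∣ x * s i) → z ∣ x := by
  classical
  let i1 : StrongNormalizationMonoid R := UniqueFactorizationMonoid.strongNormalizationMonoid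
  let i2 : NormalizedGCDMonoid R := UniqueFactorizationMonoid.toNormalizedGCDMonoid R
  obtain ⟨s, hs, h1⟩ := Finset.extract_gcd a (Finset.univ_nonempty (α := ρ))
  have key : ∀ z x : R, (∀ i, z ∣ x * s i) → z ∣ x := by
    intro z x h
    have h2 : z ∣ Finset.univ.gcd fun i => x * s i := Finset.dvd_gcd fun i _ => h i
    have h3 := h2.trans (Finset.gcd_mul_left' Finset.univ s x).dvd
    rwa [h1, mul_one] at h3
  refine ⟨_, s, fun i => hs i (Finset.mem_univ i), fun π hπ => ?_, key⟩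
  by_contra h
  push Not at h
  exact hπ.not_dvd_one (key π 1 fun i => by simpa using h i)

/-- members of the colon ideal -/
def W {κ σ ρ F : Type} [Field κ] [Field F] [Algebra κ F] (η : σ → F) (γ : ρ → F) (i₀ : ρ)
    (n : ℕ) (c : MvPolynomial σ κ) : Prop :=
  c.IsHomogeneous n ∧ ∀ i, ∃ w : MvPolynomial σ κ, w.IsHomogeneous n ∧
    aeval η c * γ i = γ i₀ * aeval η w

theorem W.mul {κ σ ρ F : Type} [Field κ] [Field F] [Algebra κ F] {η : σ → F} {γ : ρ → F} {i₀ : ρ}
    {n m : ℕ} {c r : MvPolynomial σ κ} (h : W η γ i₀ n c) (hr : r.IsHomogeneous m) :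
    W η γ i₀ (n + m) (c * r) := by
  refine ⟨h.1.mul hr, fun i => ?_⟩
  obtain ⟨w, hw, e⟩ := h.2 i
  refine ⟨w * r, hw.mul hr, ?_⟩
  rw [map_mul, map_mul]
  linear_combination aeval η r * e

end XCOL

open XCOL in
theorem st_COL (hOQ : St_OQ) : St_COL := by
  intro κ σ ρ F _ _ _ _ _ I η hη hrat hU γ i₀ hγ
  classical
  have : Nonempty ρ := ⟨i₀⟩
  have fg : (Submodule.span (MvPolynomial σ κ)
      {c : MvPolynomial σ κ | ∃ n, W η γ i₀ n c}).FG := IsNoetherian.noetherian _
  obtain ⟨T, hT, hsp⟩ := (Submodule.fg_span_iff_fg_span_finset_subset _).1 fg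
  have hdeg : ∀ g : T, ∃ n, W η γ i₀ n (g : MvPolynomial σ κ) := fun g => hT g.2
  choose deg hW using hdeg
  set n : ℕ := Finset.univ.sup deg with hn
  have hle : ∀ g, deg g ≤ n := fun g => Finset.le_sup (f := deg) (Finset.mem_univ g)
  let c' : T × σ → MvPolynomial σ κ := fun a => (a.1 : MvPolynomial σ κ) * X a.2 ^ (n - deg a.1)
  have hc' : ∀ a, W η γ i₀ n (c' a) := by
    intro a
    have h1 := (hW a.1).mul (isHomogeneous_X_pow (R := κ) a.2 (n - deg a.1))
    rwa [Nat.add_sub_cancel' (hle a.1)] at h1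
  let e := Fintype.equivFin (T × σ)
  refine ⟨_, n, fun j => c' (e.symm j), fun j => (hc' _).1, fun y k hy hk => ?_⟩
  have hy0 : y ≠ 0 := fun h => hk (by rw [h]; rfl)
  obtain ⟨hloc, ⟨r, hr, hru⟩, hfr, hk4, hden, -⟩ := hOQ κ σ F I η y hη hy hy0
  obtain ⟨hηk, hmem, -⟩ := hk4 k hk
  have := hloc
  have := hfr hrat
  -- clearing denominators
  obtain ⟨b, hb⟩ := IsLocalization.exist_integer_multiples_of_finite
    (nonZeroDivisors (Oq η y)) γ
  choose a ha using hb
  obtain ⟨d, s, hs, hcop, hdv⟩ := extract (hU y hy0 hy) a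
  have hb0 : ((b : Oq η y) : F) ≠ 0 := fun h =>
    nonZeroDivisors.coe_ne_zero b (Subtype.ext h)
  have hγs : ∀ i, γ i = ((d : F) / ((b : Oq η y) : F)) * s i := by
    intro i
    have h1 : ((a i : Oq η y) : F) = ((b : Oq η y) : F) * γ i := ha i
    rw [hs i, Subalgebra.coe_mul] at h1
    field_simp
    linear_combination -h1
  set t : F := (d : F) / ((b : Oq η y) : F) with ht
  have ht0 : t ≠ 0 := fun h => hγ (by rw [hγs, h, zero_mul])
  have hs0 : s i₀ ≠ 0 := fun h => hγ (by rw [hγs, h]; simp)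
  -- evaluation at the affine point
  have hx : ∀ i, η i / η k ∈ Oq η y := fun i => by
    simpa using hmem 1 (X i) (isHomogeneous_X _ _)
  let φ : MvPolynomial σ κ →ₐ[κ] Oq η y := aeval fun i => ⟨η i / η k, hx i⟩
  have hφ : ∀ (m : ℕ) (G : MvPolynomial σ κ), G.IsHomogeneous m →
      aeval η G = η k ^ m * (φ G : F) := by
    intro m G hG
    have h1 : ((φ G : Oq η y) : F) = aeval (fun i => η i / η k) G :=
      (aeval_map_alg (Oq η y).val (fun i => (⟨η i / η k, hx i⟩ : Oq η y)) G).symm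
    have h2 : η = η k • fun i => η i / η k := by
      funext i
      simp only [Pi.smul_apply, smul_eq_mul]
      field_simp
    rw [h1, ← aeval_smul_hom hG, ← h2]
  have hφk : φ (X k) = 1 := by
    apply Subtype.ext
    simp [φ, hηk]
  have hdvd : ∀ (m : ℕ) (c : MvPolynomial σ κ), W η γ i₀ m c → s i₀ ∣ φ c := by
    intro m c hc
    refine hdv _ _ fun i => ?_
    obtain ⟨w, hw, h1⟩ := hc.2 i
    refine ⟨φ w, Subtype.ext ?_⟩
    rw [hφ m c hc.1, hφ m w hw, hγs i, hγs i₀] at h1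
    have h2 : η k ^ m * t ≠ 0 := mul_ne_zero (pow_ne_zero _ hηk) ht0
    rw [Subalgebra.coe_mul, Subalgebra.coe_mul]
    apply mul_left_cancel₀ h2
    linear_combination h1
  choose u hu using fun a => hdvd n (c' a) (hc' a)
  refine ⟨s, t, fun j => u (e.symm j), ht0, hγs, hcop, ?_, fun j => ?_⟩
  · by_contra hno
    have hnu : ∀ a, u a ∈ IsLocalRing.maximalIdeal (Oq η y) := fun a h =>
      hno ⟨e a, by simpa using h⟩
    obtain ⟨D, G, H, hG, hH, hHy, hHη, hGH⟩ := hden ρ s
    have hGW : W η γ i₀ D (G i₀) := ⟨hG i₀, fun i => ⟨G i, hG i, by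
      rw [← hGH i, ← hGH i₀, hγs i, hγs i₀]; ring⟩⟩
    have hle' : Submodule.span (MvPolynomial σ κ) (T : Set (MvPolynomial σ κ)) ≤
        Ideal.comap φ (Ideal.span {s i₀} * IsLocalRing.maximalIdeal (Oq η y)) := by
      refine Submodule.span_le.2 fun g hg => ?_
      have h1 := hu (⟨g, hg⟩, k)
      simp only [c', map_mul, map_pow, hφk, one_pow, mul_one] at h1
      refine Ideal.mem_comap.2 ?_
      rw [h1]
      exact Ideal.mul_mem_mul (Ideal.mem_span_singleton_self _) (hnu _)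
    have h2 : G i₀ ∈ Submodule.span (MvPolynomial σ κ) (T : Set (MvPolynomial σ κ)) := by
      rw [← hsp]
      exact Submodule.subset_span ⟨D, hGW⟩
    obtain ⟨z, hz, h3⟩ := Ideal.mem_span_singleton_mul.1 (Ideal.mem_comap.1 (hle' h2))
    have h4 : φ (G i₀) = s i₀ * φ H := by
      apply Subtype.ext
      have h5 := hGH i₀
      rw [hφ D _ (hG i₀), hφ D _ hH] at h5
      rw [Subalgebra.coe_mul]
      apply mul_left_cancel₀ (pow_ne_zero D hηk)
      linear_combination -h5
    have h6 : z = φ H := mul_left_cancel₀ hs0 (h3.trans h4)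
    have h7 := hr (φ H) D H (X k ^ D) hH (isHomogeneous_X_pow k D) (by
      rw [hφ D _ hH, map_pow, aeval_X, mul_comm])
    have h8 : IsUnit (φ H) := (hru _).2 fun h => hHy (by rw [← h7, h, zero_mul])
    exact hz (h6 ▸ h8)
  · rw [hφ n _ (hc' _).1, hu, Subalgebra.coe_mul, mul_assoc]

end D4C.SA
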