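import Pool.Agent.Lib.SA.Kit

/-! Block DSC: a translate and a rational map descend to a number field. -/

namespace D4C.SA

open MvPolynomial

namespace XDSC

variable {L σ : Type} [Field L] [Fintype σ] [DecidableEq σ] (B : Pkg L σ) (L₀ : Type) [Field L₀]
  [Algebra L L₀] {κ : Type} [Field κ] [Algebra L κ] [Algebra L₀ κ] [IsScalarTower L L₀ κ]

theorem bc_A (a : Fin B.nl) : ((B.bc L₀).bc κ).A a = (B.bc κ).A a := funext fun i => by
  show MvPolynomial.map _ (MvPolynomial.map _ _) = MvPolynomial.map _ _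
  rw [MvPolynomial.map_map, ← IsScalarTower.algebraMap_eq]

theorem bc_o : ((B.bc L₀).bc κ).o = (B.bc κ).o := funext fun i =>
  (IsScalarTower.algebraMap_apply L L₀ κ (B.o i)).symm

theorem isSub_iff (J : Ideal (MvPolynomial σ κ)) :
    ((B.bc L₀).bc κ).IsSub J ↔ (B.bc κ).IsSub J :=
  ⟨fun h => ⟨(ext_ext (L' := L₀) B.I κ).ge.trans h.le, h.hom, h.gprime,
      bc_o (κ := κ) B L₀ ▸ h.o_mem, h.neg_mem,
      fun R _ _ x y hx hy a => bc_A (κ := κ) B L₀ a ▸ h.add_mem R x y hx hy a⟩,
    fun h => ⟨(ext_ext (L' := L₀) B.I κ).le.trans h.le, h.hom, h.gprime,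
      (bc_o (κ := κ) B L₀).symm ▸ h.o_mem, h.neg_mem,
      fun R _ _ x y hx hy a => (bc_A (κ := κ) B L₀ a).symm ▸ h.add_mem R x y hx hy a⟩⟩

omit [Fintype σ] [DecidableEq σ] in
theorem zr_back {Ω Ω' : Type} [Field Ω] [Field Ω'] [Algebra L Ω] [Algebra L Ω'] (f : Ω →ₐ[L] Ω')
    {I : Ideal (MvPolynomial σ L)} {x : σ → Ω} (h : Zr I fun i => f (x i)) : Zr I x :=
  fun F hF => (map_eq_zero f).1 (by rw [← aeval_map_alg]; exact h F hF)

/-- a field of definition that contains a given finite set -/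
theorem exists_field [NumberField L] [Algebra.IsAlgebraic L κ] (J : Ideal (MvPolynomial σ κ))
    (hJ : (B.bc κ).IsSub J) (T : Finset κ) :
    ∃ (L' : Type) (_ : Field L') (_ : NumberField L') (_ : Algebra L L') (_ : Algebra L' κ)
      (_ : IsScalarTower L L' κ) (J' : Ideal (MvPolynomial σ L')), (B.bc L').IsSub J' ∧
      ext J' κ = J ∧ ∀ c ∈ T, ∃ r, algebraMap L' κ r = c := by
  let L₁ := IntermediateField.adjoin L (T : Set κ)
  have : FiniteDimensional L L₁ := IntermediateField.finiteDimensional_adjoin fun x _ =>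
    (Algebra.IsAlgebraic.isAlgebraic x).isIntegral
  have : NumberField L₁ := NumberField.of_module_finite L _
  have : Algebra.IsAlgebraic L₁ κ := Algebra.IsAlgebraic.tower_top (K := L) L₁
  obtain ⟨L', _, J', h1, h2⟩ := All.a_DESC L₁ κ σ (B.bc L₁) J ((isSub_iff B L₁ J).2 hJ)
  refine ⟨L', inferInstance, NumberField.of_module_finite L₁ _, inferInstance, inferInstance,
    IsScalarTower.of_algebraMap_eq fun _ => rfl, J', (isSub_iff B L₁ J').1 h1, h2, fun c hc => ?_⟩
  exact ⟨algebraMap L₁ L' ⟨c, IntermediateField.subset_adjoin _ _ hc⟩, rfl⟩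

end XDSC

open XDSC in
theorem st_DSC : St_DSC := by
  intro L κ σ τ _ _ _ _ _ _ _ _ _ B Q J hJ M
  classical
  obtain ⟨L', _, _, _, _, _, J', h1, h2, h3⟩ := exists_field B J hJ
    ((Finset.univ.biUnion fun ai : M.ι × τ => (M.S ai.1 ai.2).coeffs) ∪
      Finset.univ.image (B.rp Q))
  have hS : ∀ a i, ∃ q : MvPolynomial σ L', MvPolynomial.map (algebraMap L' κ) q = M.S a i ∧
      q.support ⊆ (M.S a i).support := fun a i => T10.exists_lift _ _ fun d => by
    by_cases hd : coeff d (M.S a i) = 0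
    · exact ⟨0, by rw [hd, map_zero]⟩
    · exact h3 _ (Finset.mem_union_left _ (Finset.mem_biUnion.2
        ⟨(a, i), Finset.mem_univ _, coeff_mem_coeffs d hd⟩))
  choose S hS1 hS2 using hS
  choose q hq using fun i => h3 (B.rp Q i)
    (Finset.mem_union_right _ (Finset.mem_image_of_mem _ (Finset.mem_univ i)))
  let f := IsScalarTower.toAlgHom L L' κ
  have hq' : (fun i => f (q i)) = B.rp Q := funext hq
  obtain ⟨Q', hQ'⟩ := exists_pt (B := B) (x := q) ((map_ne_zero' f).1 (hq' ▸ rp_ne Q))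
    (zr_back f (hq' ▸ rp_zr Q))
  have hQ : B.map f Q' = Q := (hQ'.map f).eq (B.rep_rp Q) (hq' ▸ Par.refl _)
  have h := T99.sub2_sub B J' h1
  obtain ⟨C, β, hC, hβ, hadd⟩ := T65.htM_add (B := B) (L' := L') All.a_HT
  have hd : (1 : ℝ) ≤ Module.finrank L L' := by
    have : FiniteDimensional L L' := Module.Finite.of_restrictScalars_finite ℚ L L'
    exact_mod_cast Module.finrank_pos
  have hH : 0 ≤ htM B Q' := Height.logHeight_nonneg _
  refine ⟨L', inferInstance, inferInstance, inferInstance, inferInstance, inferInstance,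
    (B.bc L').sub J' h1, ⟨M.ι, M.fin, M.D, S,
      fun a i d hd => M.hom a i (mem_support_iff.1 (hS2 a i (mem_support_iff.2 hd))),
      fun a b i j => All.a_GPT.ctr L' κ σ J' _ ?_⟩, Equiv.refl _,
    β * Module.finrank L L' + (β * htM B Q' + C), h, h2, hS1, by positivity,
    fun p b hp hb => ?_⟩
  · rw [h2, map_sub, map_mul, map_mul, hS1, hS1, hS1, hS1]
    exact M.compat a b i j
  · have hw : B.map f (B.map (Algebra.ofId L L') p - Q') = b := by
      rw [map_sub, Pkg.map_map, Subsingleton.elim (f.comp _) (Algebra.ofId L κ), hp, hQ,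
        add_sub_cancel_left]
    have hz := (zr_iff hJ.hom (B.rep_rp b) (hw ▸ rep_map_rp f _)).1 hb
    rw [← h2, zr_ext] at hz
    obtain ⟨z, -, hz2⟩ := hom_surj h (B.rep_rp _) (zr_back (Algebra.ofId L' κ) hz)
    have e1 := T65.htM_hom h z
    have e2 := T65.htM_map (B := B) (L' := L') All.a_HEXT p
    have e3 := (hadd (B.map (Algebra.ofId L L') p - Q') Q').1
    have e4 := (hadd (B.map (Algebra.ofId L L') p) Q').2
    have p0 : 0 ≤ B.ht p := Height.logHeight_nonneg _
    have z0 : 0 ≤ ((B.bc L').sub J' h1).ht z := Height.logHeight_nonneg _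
    have k0 : 0 ≤ β * htM B Q' + C := by positivity
    have b0 : β ≤ β * Module.finrank L L' := le_mul_of_one_le_right (by linarith) hd
    rw [sub_add_cancel, e2] at e3
    rw [e2] at e4
    rw [← hz2, e1] at e3 e4
    refine ⟨z, ?_, ?_, ?_⟩
    · have := (rep_hom_rp h z).map f
      rwa [hz2, hw] at this
    · nlinarith [mul_le_mul_of_nonneg_right hd p0, mul_le_mul_of_nonneg_right b0 z0,
        mul_nonneg k0 z0]
    · nlinarith [mul_nonneg k0 p0]

end D4C.SA
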