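import Pool.Agent.Lib.SA.Kit

/-! sa56 row DSM: descent of rational maps along an algebraic extension of the base field. -/

namespace D4C.SA

open MvPolynomial

namespace XDSM

variable {L κ σ τ : Type} [Field L] [Field κ] [Algebra L κ]
  {I : Ideal (MvPolynomial σ L)} {J : Ideal (MvPolynomial σ κ)}

theorem ev_eq (M' : Rm I τ) (M : Rm J τ) (e : M'.ι ≃ M.ι)
    (h : ∀ a i, MvPolynomial.map (algebraMap L κ) (M'.S a i) = M.S (e a) i)
    {Ω : Type} [Field Ω] [Algebra L Ω] [Algebra κ Ω] [IsScalarTower L κ Ω] (x : σ → Ω)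
    (a : M'.ι) : M.ev (e a) x = M'.ev a x := by
  funext i
  show aeval x (M.S (e a) i) = aeval x (M'.S a i)
  rw [← h, aeval_map_tower]

/-- a prime above `q` whose cone has at least the dimension of the cone of `q` -/
theorem exists_above [Algebra.IsAlgebraic L κ] (q : Ideal (MvPolynomial σ L)) (hq : q.IsPrime) :
    ∃ q' : Ideal (MvPolynomial σ κ), q'.IsPrime ∧
      (∀ F ∈ q, MvPolynomial.map (algebraMap L κ) F ∈ q') ∧ cd q ≤ cd q' := by
  let R := MvPolynomial σ L ⧸ q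
  let K := FractionRing R
  let Ω := AlgebraicClosure K
  let f : κ →ₐ[L] Ω := IsAlgClosed.lift
  let _ : Algebra κ Ω := f.toRingHom.toAlgebra
  have : IsScalarTower L κ Ω := IsScalarTower.of_algebraMap_eq fun c => (f.commutes c).symm
  let g : R →ₐ[L] Ω := (IsScalarTower.toAlgHom L K Ω).comp (IsScalarTower.toAlgHom L R K)
  have hg : Function.Injective g :=
    (algebraMap K Ω).injective.comp (IsFractionRing.injective R K)
  let η : σ → Ω := fun i => g (Ideal.Quotient.mk q (X i))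
  have hη : ∀ F : MvPolynomial σ L, aeval η F = g (Ideal.Quotient.mk q F) := fun F => by
    have : (aeval η : MvPolynomial σ L →ₐ[L] Ω) = g.comp (Ideal.Quotient.mkₐ L q) :=
      MvPolynomial.algHom_ext fun i => by rw [aeval_X]; rfl
    rw [this]
    rfl
  let q' : Ideal (MvPolynomial σ κ) := RingHom.ker (aeval η : MvPolynomial σ κ →ₐ[κ] Ω)
  have hq' : q'.IsPrime := RingHom.ker_isPrime _
  have hmem : ∀ F : MvPolynomial σ L, MvPolynomial.map (algebraMap L κ) F ∈ q' ↔ F ∈ q := fun F => by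
    show aeval η (MvPolynomial.map (algebraMap L κ) F) = 0 ↔ _
    rw [aeval_map_tower, hη, map_eq_zero_iff g hg, Ideal.Quotient.eq_zero_iff_mem]
  refine ⟨q', hq', fun F hF => (hmem F).2 hF, ?_⟩
  let φ : MvPolynomial σ L →ₐ[L] MvPolynomial σ κ ⧸ q' :=
    (Ideal.Quotient.mkₐ L q').comp (MvPolynomial.mapAlgHom (Algebra.ofId L κ))
  have hφ : ∀ F, φ F = 0 ↔ F ∈ q := fun F => by
    rw [← hmem, ← Ideal.Quotient.eq_zero_iff_mem]
    rfl
  let ψ : R →ₐ[L] MvPolynomial σ κ ⧸ q' := Ideal.Quotient.liftₐ q φ fun F hF => (hφ F).2 hF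
  have hψ : Function.Injective ψ := by
    rw [injective_iff_map_eq_zero]
    intro u hu
    obtain ⟨F, rfl⟩ := Ideal.Quotient.mk_surjective u
    exact Ideal.Quotient.eq_zero_iff_mem.2 ((hφ F).1 hu)
  have h1 : Algebra.trdeg L R ≤ Algebra.trdeg L (MvPolynomial σ κ ⧸ q') :=
    trdeg_le_of_injective ψ hψ
  have h2 := trdeg_add_eq L κ (A := MvPolynomial σ κ ⧸ q')
  rw [trdeg_eq_zero, zero_add] at h2
  exact h1.trans h2.ge

end XDSM

theorem st_DSM : St_DSM := by
  intro L κ σ τ _ _ _ _ _ _ I J hI hJ _ hIJ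
  refine ⟨fun M' M e h => ⟨fun Ω _ _ _ _ x y => ?_, fun hM Ω _ _ x hx h0 => ?_⟩,
    fun ρ M' M e h hc q hq hIq hS => ?_⟩
  · constructor
    · rintro ⟨hy, a, h1, h2⟩
      exact ⟨hy, e a, by rwa [XDSM.ev_eq M' M e h], by rwa [XDSM.ev_eq M' M e h]⟩
    · rintro ⟨hy, a, h1, h2⟩
      obtain ⟨a, rfl⟩ := e.surjective a
      rw [XDSM.ev_eq M' M e h] at h1 h2
      exact ⟨hy, a, h1, h2⟩
  · let Ω' := AlgebraicClosure Ω
    let f : κ →ₐ[L] Ω' := IsAlgClosed.lift
    let _ : Algebra κ Ω' := f.toRingHom.toAlgebra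
    have : IsScalarTower L κ Ω' := IsScalarTower.of_algebraMap_eq fun c => (f.commutes c).symm
    let g : Ω →ₐ[L] Ω' := IsScalarTower.toAlgHom L Ω Ω'
    have hx' : Zr J fun i => g (x i) := by
      rw [← hIJ, zr_ext]
      intro F hF
      rw [aeval_map_alg, hx F hF, map_zero]
    obtain ⟨a, ha⟩ := hM.ev hx' ((map_ne_zero' g).2 h0)
    obtain ⟨a, rfl⟩ := e.surjective a
    rw [XDSM.ev_eq M' M e h, Rm.ev_map, map_ne_zero' g] at ha
    exact ⟨_, Rm.val_ev ha⟩
  · obtain ⟨q', h1, h2, h3⟩ := XDSM.exists_above (κ := κ) q hq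
    have hJq : J ≤ q' := by
      rw [← hIJ]
      exact Ideal.map_le_iff_le_comap.2 fun F hF => h2 F (hIq hF)
    have h4 := hc q' h1 hJq fun a i => by
      obtain ⟨a, rfl⟩ := e.surjective a
      rw [← h]
      exact h2 _ (hS a i)
    have h5 : cd J = cd I := by
      rw [← hIJ]
      exact (All.a_DIM L σ I hI).2.1 κ (hIJ ▸ hJ)
    rw [← h5]
    exact (add_le_add_left h3 2).trans h4

end D4C.SA
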