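import Pool.Agent.Lib.SA.Kit

/-! sa56 row FIN: infinite fibres and infinite subvarieties. -/

namespace D4C.SA

open MvPolynomial

theorem st_FIN : St_FIN where
  fib := by
    intro κ σ τ _ _ _ _ B M hM y₀ hinf
    let S : Set (MvPolynomial σ κ) := Set.range fun u : M.ι × τ × τ =>
      M.S u.1 u.2.1 * C (y₀ u.2.2) - M.S u.1 u.2.2 * C (y₀ u.2.1)
    have hS : ∀ F ∈ S, F.IsHomogeneous M.D := by
      rintro _ ⟨u, rfl⟩
      exact ((M.hom _ _).mul (isHomogeneous_C _ _)).sub ((M.hom _ _).mul (isHomogeneous_C _ _))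
    have hZ : IsHom (B.I ⊔ Ideal.span S) := T51.isHom_sup_span B.hom fun F hF => ⟨_, hS F hF⟩
    obtain ⟨p0, hp0⟩ := hinf.nonempty
    have hc : {p : B.Pt κ | M.Val (B.rp p) y₀} ⊆
        ⋃ q ∈ (B.I ⊔ Ideal.span S).minimalPrimes, {p : B.Pt κ | Zr q (B.rp p)} := by
      intro p hp
      have := RingHom.ker_isPrime (aeval (B.rp p) : MvPolynomial σ κ →ₐ[κ] κ)
      obtain ⟨q, hq, hle⟩ := Ideal.exists_minimalPrimes_le (I := B.I ⊔ Ideal.span S)
        (J := RingHom.ker (aeval (B.rp p) : MvPolynomial σ κ →ₐ[κ] κ))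
        (sup_le (fun F hF => rp_zr p F hF) (Ideal.span_le.2 (by
          rintro _ ⟨u, rfl⟩
          have := Rm.Val.par hp (rp_zr p) u.1 u.2.1 u.2.2
          simpa [Rm.ev, sub_eq_zero] using this)))
      exact Set.mem_biUnion hq fun F hF => hle hF
    obtain ⟨q, hq, h⟩ : ∃ q ∈ (B.I ⊔ Ideal.span S).minimalPrimes,
        {p : B.Pt κ | Zr q (B.rp p)}.Infinite := by
      by_contra! h
      exact hinf (((Ideal.finite_minimalPrimes_of_isNoetherianRing _ _).biUnion h).subset hc)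
    obtain ⟨p, hp, p', hp', hne⟩ := h.nontrivial
    refine ⟨q, hq.1.1, T39.isHom_minimal hZ hq, le_sup_left.trans hq.1.2, fun r hr => ?_,
      p, p', hp, hp', hne⟩
    refine hM.val (rp_zr r) (rp_ne r) (Rm.Val.ne hp0) fun a i j => ?_
    have := hr _ (hq.1.2 (Ideal.mem_sup_right (Ideal.subset_span ⟨(a, i, j), rfl⟩)))
    simpa [Rm.ev, sub_eq_zero] using this
  inf := by
    intro L κ σ _ _ _ _ _ _ B J ⟨hJ, b, hb, hb0⟩ hfin
    classical
    have key : ∀ p q : B.Pt κ, p ≠ q → ∃ F : MvPolynomial σ κ, F.IsHomogeneous 1 ∧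
        aeval (B.rp p) F = 0 ∧ aeval (B.rp q) F ≠ 0 := fun p q h => by
      have h1 : ¬ Par (B.rp p) (B.rp q) := fun h' => h ((B.rep_rp p).eq (B.rep_rp q) h')
      unfold Par at h1
      push Not at h1
      obtain ⟨i, j, h1⟩ := h1
      refine ⟨C (B.rp p i) * X j - C (B.rp p j) * X i,
        ((isHomogeneous_X κ j).C_mul _).sub ((isHomogeneous_X κ i).C_mul _), ?_, ?_⟩
      · simp [mul_comm]
      · simpa [sub_eq_zero] using h1
    have hz : Zr J (B.rp (0 : B.Pt κ)) := (subG hJ κ).zero_mem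
    choose! F hF hF0 hF1 using fun p (h : p ≠ 0) => key p 0 h
    obtain ⟨G, hG, hG0, hG1⟩ := key 0 b hb0.symm
    have hp := sub_prime hJ
    have h1 : G * ∏ p ∈ hfin.toFinset.erase 0, F p ∈ J := by
      refine mem_sub hJ (hG.mul (IsHomogeneous.prod _ _ (fun _ => 1) fun p hp =>
        hF p (Finset.ne_of_mem_erase hp))) fun p hp => ?_
      rw [map_mul, map_prod]
      by_cases h : p = 0
      · rw [h, hG0, zero_mul]
      · rw [Finset.prod_eq_zero (Finset.mem_erase.2 ⟨h, hfin.mem_toFinset.2 hp⟩) (hF0 p h), mul_zero]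
    rcases hp.mem_or_mem h1 with h | h
    · exact hG1 (hb _ h)
    · obtain ⟨p, h2, h3⟩ := Ideal.IsPrime.prod_mem_iff.1 h
      exact hF1 p (Finset.ne_of_mem_erase h2) (hz _ h3)

end D4C.SA
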