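import Pool.Agent.Lib.SA.Kit

/-! sa56 row FINP: the sharp bound along a generic sequence. -/

namespace D4C.SA

open MvPolynomial Filter

namespace XFINP

theorem est {ε c C C₀ d v h H H' : ℝ} (hε : 0 < ε) (hc : 0 < c) (hC : 0 ≤ C) (hd : 1 ≤ d)
    (h0 : 0 ≤ H) (h1 : d * v - d * h ≤ ε * c / (2 * (C + 1)) * H') (h2 : H' ≤ C * (H + 1))
    (h3 : c * H ≤ v + C₀) (h4 : 2 * C₀ / c + 1 ≤ H) : (1 - ε) * v ≤ h := by
  have a1 : ε * c / (2 * (C + 1)) * H' ≤ ε * c / (2 * (C + 1)) * ((C + 1) * (H + 1)) :=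
    mul_le_mul_of_nonneg_left (by nlinarith) (by positivity)
  have a2 : ε * c / (2 * (C + 1)) * ((C + 1) * (H + 1)) = ε * (c * (H + 1) / 2) := by
    field_simp
  have a3 : 2 * C₀ + c ≤ c * H := by
    have := mul_le_mul_of_nonneg_left h4 hc.le
    rwa [mul_add, mul_one, mul_div_cancel₀ _ hc.ne'] at this
  have a4 : ε * (c * (H + 1) / 2) ≤ ε * v := mul_le_mul_of_nonneg_left (by linarith) hε.le
  have a5 : 0 ≤ ε * (c * (H + 1) / 2) := by positivity
  by_contra hn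
  have a6 : 0 ≤ (d - 1) * (v - h) := mul_nonneg (by linarith) (by linarith)
  linarith

end XFINP

theorem st_FINP (hDSC : St_DSC) (hDSM : St_DSM) (hINEQ : St_INEQ) (hAMP : St_AMP)
    (hABSH : St_ABSH) : St_FINP := by
  intro L κ σ ρ _ _ _ _ _ _ _ _ _ B lam P U x l hht hl hG hgen ε hε
  obtain ⟨L', _, _, _, _, _, B', M', e, C, hS, hJ, hmap, hC, hz⟩ :=
    hDSC L κ σ (ρ ⊕ Fin P.N) B P.Q P.J P.nz.1 P.M
  have : Algebra.IsAlgebraic L' κ := Algebra.IsAlgebraic.tower_top (K := L) L'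
  obtain ⟨hval, hmor⟩ := (hDSM L' κ σ (ρ ⊕ Fin P.N) B'.I P.J (T39.prime_I B') (sub_prime P.nz.1)
    B'.hom hJ).1 M' P.M e hmap
  have hcod : Cd2 M' := (hDSM L' κ σ (Fin P.N) B'.I P.J (T39.prime_I B') (sub_prime P.nz.1)
    B'.hom hJ).2 ρ M' P.M e hmap P.cod
  have hmor' := hmor P.mor
  obtain ⟨c, C₀, hc, hamp⟩ := hAMP L κ σ ρ B lam P
  set b : ℕ → B.Pt κ := fun n => B.map (Algebra.ofId L κ) (x n) - P.Q with hb
  have hxb : ∀ n, B.map (Algebra.ofId L κ) (x n) = P.Q + b n := fun n => by simp [hb]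
  have hex : ∀ n, ∃ z : B'.Pt L', Zr P.J (B.rp (b n)) →
      (B.Rep (b n) fun i => algebraMap L' κ (B'.rp z i)) ∧
        B.ht (x n) ≤ C * (B'.ht z + 1) ∧ B'.ht z ≤ C * (B.ht (x n) + 1) := fun n => by
    by_cases h : Zr P.J (B.rp (b n))
    · obtain ⟨z, h'⟩ := hz (x n) (b n) (hxb n) h
      exact ⟨z, fun _ => h'⟩
    · exact ⟨0, fun h' => absurd h' h⟩
  choose z hz using hex
  choose y' hy' using fun n => hmor' L' (B'.rp (z n)) (rp_zr _) (rp_ne _)
  have hv : ∀ n, Zr P.J (B.rp (b n)) → P.M.Val (B.rp (b n)) fun i => algebraMap L' κ (y' n i) :=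
    fun n h => (val_iff (hz n h).1 (B.rep_rp _)).1
      ((hval κ _ _).1 ((hy' n).map (Algebra.ofId L' κ)))
  have hf : ∀ n, Zr P.J (B.rp (b n)) → ∃ a : κ, a ≠ 0 ∧
      ∀ i, algebraMap L' κ (y' n (Sum.inl i)) = a * algebraMap L κ (l n i) ^ P.m := fun n h =>
    P.fst (b n) (fun i => algebraMap L κ (l n i)) _ h (by
      rw [← hxb]
      exact (val_iff (rep_map_rp (Algebra.ofId L κ) (x n)) (B.rep_rp _)).1
        ((hl n).map (Algebra.ofId L κ))) (hv n h)
  have hne : ∀ n, Zr P.J (B.rp (b n)) → ∃ i, y' n (Sum.inl i) ≠ 0 := fun n h => by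
    obtain ⟨a, ha, h1⟩ := hf n h
    obtain ⟨i, hi⟩ := Function.ne_iff.1 (hl n).ne
    refine ⟨i, fun h0 => ?_⟩
    have := h1 i
    rw [h0, map_zero] at this
    exact mul_ne_zero ha (pow_ne_zero _ ((map_ne_zero _).2 hi)) this.symm
  have hh : ∀ n, Zr P.J (B.rp (b n)) → (Height.logHeight fun i => y' n (Sum.inl i)) =
      Module.finrank L L' * (P.m * Height.logHeight (l n)) := fun n h => by
    obtain ⟨a, ha, h1⟩ := hf n h
    obtain ⟨i, hi⟩ := hne n h
    obtain ⟨i', hi'⟩ := Function.ne_iff.1 (hl n).ne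
    rw [← Height.logHeight_pow, ← All.a_HEXT L L' ρ]
    refine ht_par ((par_map_iff (algebraMap L' κ)).1 fun j k => ?_)
      (Function.ne_iff.2 ⟨i', ?_⟩) (Function.ne_iff.2 ⟨i, hi⟩)
    · simp only [h1, Pi.pow_apply, map_pow, ← IsScalarTower.algebraMap_apply]
      ring
    · exact (map_ne_zero _).2 (pow_ne_zero _ hi')
  have hT : Tendsto (fun n => B'.ht (z n)) U atTop := by
    refine tendsto_atTop.2 fun R => ?_
    filter_upwards [hG, hht.eventually_ge_atTop ((C + 1) * (R + 1))] with n h1 h2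
    have a1 := (hz n h1).2.1
    have a2 : 0 ≤ B'.ht (z n) := Height.logHeight_nonneg _
    have a3 : (C + 1) * (R + 1) ≤ (C + 1) * (B'.ht (z n) + 1) := by nlinarith
    have := le_of_mul_le_mul_left a3 (by positivity)
    linarith
  have hlo := hINEQ L' σ ρ (Fin P.N) B' M' hcod U z y' hT (fun F d hF hFI => by
      filter_upwards [hG, hgen (MvPolynomial.map (algebraMap L' κ) F) d (hF.map _)
        fun h => hFI (All.a_GPT.ctr L' κ σ B'.I F (hJ ▸ h))] with n h1 h2 h3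
      refine h2 ((form_iff (hz n h1).1 (B.rep_rp _) (hF.map _)).1 ?_)
      rw [aeval_map_algebraMap]
      exact (aeval_map_alg (Algebra.ofId L' κ) _ F).trans (by rw [h3, map_zero]))
    (Eventually.of_forall hy') (by
      obtain ⟨n, h⟩ := hG.exists
      obtain ⟨i, hi⟩ := hne n h
      obtain ⟨a, ha⟩ := hmor'.ev (rp_zr (z n)) (rp_ne (z n))
      obtain ⟨t, ht⟩ := (hy' n).ev_eq (rp_zr _) a
      refine ⟨a, i, fun hI => ?_⟩
      have h1 : M'.ev a (B'.rp (z n)) (Sum.inl i) = 0 := rp_zr (z n) _ hI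
      rw [ht] at h1 ha
      rcases mul_eq_zero.1 h1 with h2 | h2
      · exact ha (by rw [h2, zero_smul])
      · exact hi h2)
  have hd : (1 : ℝ) ≤ Module.finrank L L' := by
    have : Module.Finite L L' := Module.Finite.of_restrictScalars_finite ℚ L L'
    exact_mod_cast Module.finrank_pos
  filter_upwards [hG, hlo (ε * c / (2 * (C + 1))) (by positivity),
    hht.eventually_ge_atTop (2 * C₀ / c + 1)] with n h1 h2 h3 y hy
  rw [hh n h1, hABSH.eq L κ _ L' y (y' n) hy.ne (hy' n).ne ((hv n h1).uniq hy h1)] at h2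
  exact XFINP.est hε hc hC hd (Height.logHeight_nonneg _) h2 (hz n h1).2.2
    (hamp (x n) (b n) y (hxb n) h1 hy) h3

end D4C.SA
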