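import Pool.Agent.Lib.SA.Kit

/-! sa56 row FPSI: the morphism on the translate in the original embedding. -/

namespace D4C.SA

open MvPolynomial

namespace XFPSI

/-- evaluation of a substituted form -/
theorem eval_aeval {κ σ σ' : Type} [Field κ] (x : σ → κ) (Φ : σ' → MvPolynomial σ κ)
    (F : MvPolynomial σ' κ) :
    eval x (aeval Φ F) = aeval (fun i => eval x (Φ i)) F := by
  exact (aeval_map_alg (aeval x : MvPolynomial σ κ →ₐ[κ] κ) Φ F).symm

end XFPSI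

theorem st_FPSI : St_FPSI := by
  intro κ σ σ' τ L _ _ _ _ _ _ A B E hE J M hJ hM Q G hG
  have hA : ∀ p : A.transl Q G, p.1 ∈ A.carrier := by
    rintro ⟨_, b, -, rfl⟩
    exact (Q + b).2
  have hz : ∀ p : A.transl Q G, Zr J (B.rp (E ⟨p.1, hA p⟩ - E Q)) := by
    rintro ⟨_, b, hb, rfl⟩
    have e : E (Q + b) - E Q = E b := by rw [map_add, add_sub_cancel_left]
    exact e ▸ (hG b).1 hb
  choose y hy using fun p : A.transl Q G => hM κ _ (hz p) (rp_ne _)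
  have hψ : ∀ p : A.transl Q G, M.Val (B.rp (E ⟨p.1, hA p⟩ - E Q))
      (Projectivization.mk κ (y p) (hy p).ne).rep := fun p =>
    (hy p).of_par (Projectivization.rep_nonzero _) (M56.par_of_eq_mk rfl).symm
  refine ⟨fun p => Projectivization.mk κ (y p) (hy p).ne, fun p => ?_, fun P h => hψ ⟨P.1, h⟩⟩
  obtain ⟨D, Φ, h1, h2, h3⟩ := hE ⟨p.1, hA p⟩
  have hc : B.Rep (-E Q) fun i => algebraMap κ κ (B.rp (-E Q) i) := B.rep_rp _
  have hw : ∀ P : A.carrier, B.Rep (E P + -E Q) (B.rp (E P - E Q)) := fun P => by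
    rw [← sub_eq_add_neg]
    exact B.rep_rp _
  obtain ⟨a, ha⟩ := hM.ev (hz p) (rp_ne _)
  obtain ⟨t, ⟨l, hl⟩, -, ht⟩ := trF_val (h3 _ h2) hc (hw _)
  refine ⟨D * (B.β * M.D), fun i => aeval Φ (trF B (M.S a i) (B.rp (-E Q)) l),
    fun i => (trF_hom (M.hom a i) _ l).aeval _ h1, ?_, fun p' h => ?_⟩
  · have e : (fun i => eval p.1.rep (aeval Φ (trF B (M.S a i) (B.rp (-E Q)) l))) =
        t l ^ M.D • M.ev a (B.rp (E ⟨p.1, hA p⟩ - E Q)) := by
      funext i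
      rw [XFPSI.eval_aeval]
      exact ht l _ _ (M.hom a i)
    rw [e]
    exact smul_ne_zero (pow_ne_zero _ hl) ha
  · obtain ⟨s, hs⟩ : ∃ s : κ, (fun i => eval p'.1.rep (Φ i)) = s • B.rp (E ⟨p'.1, hA p'⟩) := by
      by_cases h0 : (fun i => eval p'.1.rep (Φ i)) = 0
      · exact ⟨0, by rw [h0, zero_smul]⟩
      · obtain ⟨c, -, e⟩ := rep_smul (B.rep_rp _) (h3 ⟨p'.1, hA p'⟩ h0)
        exact ⟨c, e⟩
    obtain ⟨t', -, -, ht'⟩ := trF_val (B.rep_rp (E ⟨p'.1, hA p'⟩)) hc (hw _)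
    have e : (fun i => eval p'.1.rep (aeval Φ (trF B (M.S a i) (B.rp (-E Q)) l))) =
        (s ^ (B.β * M.D) * t' l ^ M.D) • M.ev a (B.rp (E ⟨p'.1, hA p'⟩ - E Q)) := by
      funext i
      rw [XFPSI.eval_aeval, hs, aeval_smul_hom (trF_hom (M.hom a i) _ l), ht' l _ _ (M.hom a i),
        ← mul_assoc]
      rfl
    refine M56.eq_mk_of_par ?_ h
    obtain ⟨c, hc'⟩ := (hψ p').ev_eq (hz p') a
    rw [e, hc', smul_smul]
    exact par_smul _ _

end D4C.SA
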