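import Pool.Agent.Lib.SA.Kit

/-! The morphism extending a power of the rational map. -/

namespace D4C.SA

open MvPolynomial

namespace XGEO1

variable {κ σ : Type} [Field κ] [Fintype σ]

/-- a homogeneous prime that is not irrelevant has a point -/
theorem exists_zero [IsAlgClosed κ] {q : Ideal (MvPolynomial σ κ)} (hq : q.IsPrime)
    (hi : ∃ i, X i ∉ q) : ∃ y : σ → κ, y ≠ 0 ∧ Zr q y := by
  by_contra hn
  push Not at hn
  obtain ⟨i, hi⟩ := hi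
  refine hi (T51.mem_of_vanish hq.isRadical fun y hy => ?_)
  by_cases h0 : y = 0
  · simp [h0]
  · exact absurd hy (hn y h0)

omit [Fintype σ] in
theorem le_of_forms {I q : Ideal (MvPolynomial σ κ)} (hI : IsHom I)
    (h : ∀ G ∈ I, ∀ n, G.IsHomogeneous n → G ∈ q) : I ≤ q := fun F hF => by
  rw [← sum_homogeneousComponent F]
  exact Ideal.sum_mem _ fun n _ => h _ (hI F hF n) n (homogeneousComponent_isHomogeneous n F)

end XGEO1

open XGEO1 in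
theorem st_GEO1 (hREG : St_REG) (hSYS : St_SYS) (hLOCV : St_LOCV) (hCODQ : St_CODQ) (hOQ : St_OQ)
    (hUFD : St_UFD) : St_GEO1 := by
  rintro κ σ ρ _ _ _ _ _ _ B lam ⟨a, i₀, hai⟩ ⟨b, hb⟩
  have hp : B.I.IsPrime := T39.prime_I B
  obtain ⟨F, _, _, η, hη, hr⟩ := exists_gen hp (exists_X B.o_ne B.o_mem)
  have hz : Zr B.I η := pgen_zr B.hom hη
  have hγ : lam.ev a η i₀ ≠ 0 := fun h => hai ((hη.2 _ _ (lam.hom a i₀)).1 h)
  have hγ' : lam.ev a η ≠ 0 := fun h => hγ (by rw [h]; rfl)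
  obtain ⟨m, N, u, hm, hloc⟩ := hREG κ σ ρ F B η hη hr (lam.ev a η) i₀ hγ
  set w : ρ ⊕ Fin N → F := Sum.elim (fun i => (lam.ev a η i / lam.ev a η i₀) ^ m) u with hw
  have hL : ∀ y : σ → κ, y ≠ 0 → Zr B.I y → ∃ (s : ρ → Oq η y) (t t' : F) (v : Fin N → Oq η y),
      t ≠ 0 ∧ (∀ i, lam.ev a η i = t * s i) ∧ Cop s ∧ s i₀ ≠ 0 ∧ t' ≠ 0 ∧
      Uni (Sum.elim (fun i => s i ^ m) v) ∧
      ∀ j, w j = t' * (Sum.elim (fun i => s i ^ m) v j : Oq η y) := by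
    intro y hy0 hy
    obtain ⟨s, t, v, ht, hs, hc, ⟨j, hj⟩, hv⟩ := hloc y hy0 hy
    have h0 : (s i₀ : F) ≠ 0 := fun h => hγ (by rw [hs, h, mul_zero])
    refine ⟨s, t, ((s i₀ : F) ^ m)⁻¹, v, ht, hs, hc, fun h => h0 (by rw [h]; rfl),
      inv_ne_zero (pow_ne_zero _ h0), ⟨Sum.inr j, hj⟩, ?_⟩
    rintro (i | j)
    · simp only [hw, Sum.elim_inl, hs, SubmonoidClass.coe_pow]
      rw [mul_div_mul_left _ _ ht, div_pow, div_eq_inv_mul]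
    · simp only [hw, Sum.elim_inr, hv]
      rw [inv_mul_cancel_left₀ (pow_ne_zero _ h0)]
  obtain ⟨M, hM, hMw⟩ := hSYS κ σ (ρ ⊕ Fin N) F B.I η B.hom hη w (fun y hy0 hy => by
    obtain ⟨s, t, t', v, -, -, -, -, h1, h2, h3⟩ := hL y hy0 hy
    exact ⟨_, t', h1, h2, h3⟩) ⟨B.o, B.o_ne, B.o_mem⟩
  refine ⟨m, N, M, hm, hM, ?_, ?_⟩
  · intro x l y hx hx0 hl hy
    obtain ⟨s, t, t', v, ht, hs, hc, -, h1, h2, h3⟩ := hL x hx0 hx
    obtain ⟨r, hr1, hr2⟩ := (hOQ κ σ F B.I η x hη hx hx0).2.1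
    obtain ⟨k1, k2⟩ := (hLOCV κ σ ρ F B.I η hη hz lam _ (lam.val_ev hγ') x hx0 hx r hr1 hr2 s t ht
      hs).1 l hl
    obtain ⟨c, hc0, hcl⟩ := k1 (k2 hc (hUFD κ σ F B η hη x hx0 hx))
    obtain ⟨c', hc0', hcy⟩ := ((hLOCV κ σ (ρ ⊕ Fin N) F B.I η hη hz M w hMw x hx0 hx r hr1 hr2 _ t'
      h1 h3).1 y hy).1 h2
    refine ⟨c' / c ^ m, div_ne_zero hc0' (pow_ne_zero _ hc0), fun i => ?_⟩
    rw [hcy, hcl, Sum.elim_inl, map_pow, mul_pow]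
    field_simp
  · intro q hq hle hS
    by_cases hi : ∃ i, X i ∉ q
    swap
    · push Not at hi
      rw [T23.cd_zero hq hi, zero_add]
      exact two_le_cd hb
    obtain ⟨q₀, n, hq₀, hh, hcd, hle₀, hmem⟩ := T23.exists_hom All.a_LOC All.a_DIM hq hi
    have hi₀ : ∃ i, X i ∉ q₀ := by
      by_contra hn
      push Not at hn
      rw [T23.cd_zero hq₀ hn] at hcd
      exact Nat.succ_ne_zero n (by exact_mod_cast hcd.symm)
    have hI : B.I ≤ q₀ := le_of_forms B.hom fun G hG k hk => hmem G (hle hG) k hk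
    obtain ⟨y, hy0, hyq⟩ := exists_zero hq₀ hi₀
    have hy : Zr B.I y := fun G hG => hyq G (hI hG)
    obtain ⟨s, t, t', v, -, -, hc, hs0, h1, h2, h3⟩ := hL y hy0 hy
    obtain ⟨r, hr1, hr2⟩ := (hOQ κ σ F B.I η y hη hy hy0).2.1
    obtain ⟨a', ha'⟩ := hM.ev hy hy0
    have key := (hLOCV κ σ (ρ ⊕ Fin N) F B.I η hη hz M w hMw y hy0 hy r hr1 hr2 _ t' h1 h3).2 q₀ hq₀
      hI hyq h2 a' ha'
    refine le_trans (add_le_add_left hle₀ 2) (hCODQ κ σ ρ F B.I η hp B.hom hη y hy0 hy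
      (hUFD κ σ F B η hη y hy0 hy) s hc ⟨i₀, hs0⟩ q₀ hq₀ hh hI hyq fun i => ?_)
    obtain ⟨d, G, H, g1, g2, g3, -, g5⟩ := (s i).2
    refine ⟨d, G, H, g1, g2, g3, g5, hq₀.mem_of_pow_mem m ?_⟩
    refine key (Sum.inl i) (hmem _ (hS a' i) _ (M.hom a' _)) (d * m) (G ^ m) (H ^ m) (g1.pow m)
      (g2.pow m) (by rw [map_pow]; exact pow_ne_zero _ g3) ?_
    rw [Sum.elim_inl, SubmonoidClass.coe_pow, map_pow, map_pow, ← mul_pow, g5]

end D4C.SA
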