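import Pool.Agent.Lib.SA.Kit

/-! The graph of an even morphism is a package. -/

set_option linter.unusedSectionVars false

namespace D4C.SA

open MvPolynomial

namespace XGRAPH

/-- tensor product of two vectors -/
def tn {σ τ R : Type} [CommRing R] (x : σ → R) (y : τ → R) : σ × τ → R := fun ij => x ij.1 * y ij.2

theorem tn_ne {σ τ Ω : Type} [Field Ω] {x : σ → Ω} {y : τ → Ω} (h1 : x ≠ 0) (h2 : y ≠ 0) :
    tn x y ≠ 0 := by
  obtain ⟨i, hi⟩ := Function.ne_iff.1 h1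
  obtain ⟨j, hj⟩ := Function.ne_iff.1 h2
  exact Function.ne_iff.2 ⟨(i, j), mul_ne_zero hi hj⟩

theorem tn_smul {σ τ R : Type} [CommRing R] (a b : R) (x : σ → R) (y : τ → R) :
    tn (a • x) (b • y) = (a * b) • tn x y := by
  funext ij
  simp only [tn, Pi.smul_apply, smul_eq_mul]
  ring

theorem col_tn {σ τ R : Type} [CommRing R] (c : R) (x : σ → R) (y : τ → R) (j : τ) :
    (fun i => (c • tn x y) (i, j)) = (c * y j) • x := by
  funext i
  simp only [tn, Pi.smul_apply, smul_eq_mul]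
  ring

section gen

variable {κ σ G : Type} [Field κ] [IsAlgClosed κ] [Fintype σ] {I : Ideal (MvPolynomial σ κ)}
  {On : G → (σ → κ) → Prop}

open T72

theorem par3 (hI : I.IsRadical) (ex : ∀ x, Zr I x → ∃ p, On p x)
    (hp : ∀ p x y, On p x → On p y → Par x y) {U V : Ex κ σ σ} (hU : U.Nat) (hV : V.Nat)
    (h : ∀ (p q r : G) (x y z : σ → κ), On p x → On q y → On r z →
      ∃ s : G, On s (U κ x y z) ∧ On s (V κ x y z))
    (R : Type) [CommRing R] [Algebra κ R] (x y z : σ → R) (hx : Zr I x)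
    (hy : Zr I y) (hz : Zr I z) : Par (U R x y z) (V R x y z) := by
  intro i j
  have := van3 (τ := Unit) hI
    (U := fun R _ _ x y z _ => U R x y z i * V R x y z j - U R x y z j * V R x y z i)
    (fun R R' _ _ _ _ f x y z => by
      funext _
      simp only [hU R R' f, hV R R' f, map_sub, map_mul])
    (fun x y z hx hy hz => by
      obtain ⟨p, hp1⟩ := ex _ hx
      obtain ⟨q, hq⟩ := ex _ hy
      obtain ⟨r, hr⟩ := ex _ hz
      obtain ⟨s, h1, h2⟩ := h p q r x y z hp1 hq hr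
      funext _
      exact sub_eq_zero.mpr (hp _ _ _ h1 h2 i j)) R x y z hx hy hz
  exact sub_eq_zero.mp (congrFun this ())

theorem zr3 (hI : I.IsRadical) (ex : ∀ x, Zr I x → ∃ p, On p x) (hzr : ∀ p x, On p x → Zr I x)
    {U : Ex κ σ σ} (hU : U.Nat)
    (h : ∀ (p q r : G) (x y z : σ → κ), On p x → On q y → On r z → ∃ s : G, On s (U κ x y z))
    (R : Type) [CommRing R] [Algebra κ R] (x y z : σ → R) (hx : Zr I x)
    (hy : Zr I y) (hz : Zr I z) : Zr I (U R x y z) := by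
  intro F hF
  have := van3 (τ := Unit) hI
    (U := fun R _ _ x y z _ => aeval (U R x y z) F)
    (fun R R' _ _ _ _ f x y z => by
      funext _
      simp only [hU R R' f, aeval_map_alg])
    (fun x y z hx hy hz => by
      obtain ⟨p, hp⟩ := ex _ hx
      obtain ⟨q, hq⟩ := ex _ hy
      obtain ⟨r, hr⟩ := ex _ hz
      obtain ⟨s, h1⟩ := h p q r x y z hp hq hr
      funext _
      exact hzr _ _ h1 F hF) R x y z hx hy hz
  exact congrFun this ()

/-- a package from a group of points -/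
noncomputable def pkg [DecidableEq σ] [AddCommGroup G] (hI : I.IsPrime) (hh : IsHom I)
    (ex : ∀ x, Zr I x → ∃ p, On p x) (hzr : ∀ p x, On p x → Zr I x)
    (hp : ∀ p x y, On p x → On p y → Par x y) (o : σ → κ) (ho : o ≠ 0) (ho' : On 0 o)
    (π : Equiv.Perm σ) (hπ : ∀ p x, On p x → On (-p) (x ∘ π)) {nl β : ℕ} (hβ : 1 ≤ β)
    (S : Fin nl → σ → MvPolynomial (σ ⊕ σ) κ)
    (hS : ∀ a i, (S a i).IsWeightedHomogeneous (bw σ) (β, β))
    (hc : ∀ (Ω : Type) [Field Ω] [Algebra κ Ω] (x y : σ → Ω), Zr I x → Zr I y → x ≠ 0 → y ≠ 0 →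
      ∃ a, ev2 (S a) x y ≠ 0)
    (add : ∀ a {p q : G} {x y : σ → κ}, On p x → On q y → On (p + q) (ev2 (S a) x y)) :
    Pkg κ σ where
  I := I
  hom := hh
  gprime := All.a_IRR κ σ _ hI
  o := o
  o_ne := ho
  o_mem := hzr _ _ ho'
  π := π
  nl := nl
  β := β
  β_pos := hβ
  A := S
  A_hom := hS
  complete := hc
  neg_mem R _ _ x hx :=
    zr3 hI.isRadical ex hzr (natP π) (fun _ _ _ _ _ _ h _ _ => ⟨_, hπ _ _ h⟩) R x x x hx hx hx
  add_mem R _ _ x y hx hy a :=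
    zr3 hI.isRadical ex hzr (natS (S a) nat1 nat2) (fun _ _ _ _ _ _ h h' _ => ⟨_, add a h h'⟩)
      R x y x hx hy hx
  compat R _ _ x y hx hy a b := par3 hI.isRadical ex hp (natS (S a) nat1 nat2)
    (natS (S b) nat1 nat2)
    (fun _ _ _ _ _ _ h h' _ => ⟨_, add a h h', add b h h'⟩) R x y x hx hy hx
  comm R _ _ x y hx hy a b := par3 hI.isRadical ex hp (natS (S a) nat1 nat2)
    (natS (S b) nat2 nat1)
    (fun p q _ _ _ _ h h' _ => ⟨p + q, add a h h', by
      rw [add_comm p q]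
      exact add b h' h⟩) R x y x hx hy hx
  assoc R _ _ x y z hx hy hz a b c d :=
    par3 hI.isRadical ex hp (natS (S a) (natS (S b) nat1 nat2) nat3)
      (natS (S c) nat1 (natS (S d) nat2 nat3))
      (fun p q r _ _ _ h h' h'' => ⟨p + q + r, add a (add b h h') h'', by
        rw [add_assoc p q r]
        exact add c h (add d h' h'')⟩) R x y z hx hy hz
  zero R _ _ x hx a := par3 hI.isRadical ex hp (natS (S a) (natO _) nat1) nat1
    (fun p _ _ _ _ _ h _ _ => ⟨0 + p, add a ho' h, by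
      rw [zero_add]
      exact h⟩) R x x x hx hx hx
  neg R _ _ x hx a := par3 hI.isRadical ex hp (natS (S a) (natP π) nat1) (natO _)
    (fun p _ _ _ _ _ h _ _ => ⟨-p + p, add a (hπ _ _ h) h, by
      rw [neg_add_cancel]
      exact ho'⟩) R x x x hx hx hx

end gen

section key

variable {κ σ τ : Type} [Field κ] [Fintype σ] [Fintype τ] {I : Ideal (MvPolynomial σ κ)}
  {M : Rm I τ}

theorem aeval_tn {R : Type} [CommRing R] [Algebra κ R] (a : M.ι) (x : σ → R)
    (F : MvPolynomial (σ × τ) κ) :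
    aeval x (aeval (tn (X : σ → MvPolynomial σ κ) (M.S a)) F) = aeval (tn x (M.ev a x)) F := by
  rw [← aeval_map_alg (aeval x : MvPolynomial σ κ →ₐ[κ] R)]
  congr 2
  funext ij
  simp [tn, Rm.ev]

/-- the ideal of the graph -/
theorem key (hp : I.IsPrime) (hh : IsHom I) (hi : ∃ i, X i ∉ I) (hM : M.Mor) :
    ∃ I' : Ideal (MvPolynomial (σ × τ) κ), I'.IsPrime ∧ IsHom I' ∧
      ∀ (Ω : Type) [Field Ω] [Algebra κ Ω],
        (∀ (x : σ → Ω) (y : τ → Ω), Zr I x → M.Val x y → Zr I' (tn x y)) ∧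
        ∀ w : σ × τ → Ω, w ≠ 0 → Zr I' w →
          ∃ (x : σ → Ω) (y : τ → Ω), Zr I x ∧ x ≠ 0 ∧ M.Val x y ∧ w = tn x y := by
  obtain ⟨Ω0, _, _, _, η, hη0, hη⟩ := All.a_GPT.ex κ σ I hp hi
  have hz : Zr I η := fun F hF => (hη F).2 hF
  obtain ⟨y0, hy0⟩ := hM Ω0 η hz hη0
  obtain ⟨l1, l2, l3, -, -⟩ := All.a_LOC κ (σ × τ) Ω0 (tn η y0) (tn_ne hη0 hy0.ne)
  refine ⟨loc κ (tn η y0), l2, l1, fun Ω _ _ => ⟨fun x y hx hy => ?_, fun w hw0 hw => ?_⟩⟩
  · have : loc κ (tn η y0) ≤ RingHom.ker (aeval (tn x y) : MvPolynomial (σ × τ) κ →ₐ[κ] Ω) := by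
      refine Ideal.span_le.2 ?_
      rintro F ⟨⟨n, hn⟩, hF⟩
      obtain ⟨-, a, ha, hpar⟩ := hy
      obtain ⟨c, rfl⟩ := par_smul' hpar ha
      obtain ⟨c', hc'⟩ := hy0.ev_eq hz a
      have h1 : aeval η (aeval (tn (X : σ → MvPolynomial σ κ) (M.S a)) F) = 0 := by
        rw [aeval_tn, hc', ← one_smul Ω0 η, tn_smul, aeval_smul_hom hn, hF, mul_zero]
      have h2 := hx _ ((hη _).1 h1)
      rw [aeval_tn] at h2
      show aeval (tn x (c • M.ev a x)) F = 0
      conv_lhs => rw [← one_smul Ω x, tn_smul, aeval_smul_hom hn, one_smul]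
      rw [h2, mul_zero]
    exact fun F hF => this hF
  · have hk : ∀ (F : MvPolynomial (σ × τ) κ) (n : ℕ), F.IsHomogeneous n →
        aeval (tn η y0) F = 0 → aeval w F = 0 := fun F n hF h => hw F ((l3.2 F n hF).1 h)
    obtain ⟨⟨i0, j0⟩, h0⟩ := Function.ne_iff.1 hw0
    have h0 : w (i0, j0) ≠ 0 := h0
    have hcol : ∀ (F : MvPolynomial σ κ) (n : ℕ), F.IsHomogeneous n →
        aeval (tn η y0) (rename (fun i => (i, j0)) F) = y0 j0 ^ n * aeval η F := fun F n hF => by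
      rw [aeval_rename, ← aeval_smul_hom hF]
      congr 2
      funext i
      simp [tn, mul_comm]
    have hx : Zr I fun i => w (i, j0) := fun F hF => by
      rw [← sum_homogeneousComponent F, map_sum]
      refine Finset.sum_eq_zero fun n _ => ?_
      have h1 := homogeneousComponent_isHomogeneous n F
      have h2 := hk _ n (h1.rename_isHomogeneous (f := fun i => (i, j0)))
        (by rw [hcol _ n h1, hz _ (hh F hF n), mul_zero])
      rwa [aeval_rename] at h2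
    have hx0 : (fun i => w (i, j0)) ≠ 0 := Function.ne_iff.2 ⟨i0, h0⟩
    refine ⟨fun i => w (i, j0), fun j => w (i0, j) / w (i0, j0), hx, hx0,
      hM.val hx hx0 (Function.ne_iff.2 ⟨j0, by simp [h0]⟩) fun a k l => ?_, funext fun ij => ?_⟩
    · have h1 := hk (rename (fun i => (i, j0)) (M.S a k) * X (i0, l) -
        rename (fun i => (i, j0)) (M.S a l) * X (i0, k)) (M.D + 1)
        (((M.hom a k).rename_isHomogeneous.mul (isHomogeneous_X _ _)).sub
          ((M.hom a l).rename_isHomogeneous.mul (isHomogeneous_X _ _))) (by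
          rw [map_sub, map_mul, map_mul, hcol _ _ (M.hom a k), hcol _ _ (M.hom a l), aeval_X,
            aeval_X]
          have := hy0.par hz a k l
          simp only [Rm.ev] at this
          simp only [tn]
          linear_combination (y0 j0 ^ M.D * η i0) * this)
      rw [map_sub, map_mul, map_mul, aeval_rename, aeval_rename, aeval_X, aeval_X,
        sub_eq_zero] at h1
      simp only [Rm.ev]
      rw [← mul_div_assoc, ← mul_div_assoc]
      exact congrArg (· / w (i0, j0)) h1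
    · have h1 := hk (X ij * X (i0, j0) - X (ij.1, j0) * X (i0, ij.2)) (1 + 1)
        (((isHomogeneous_X _ _).mul (isHomogeneous_X _ _)).sub
          ((isHomogeneous_X _ _).mul (isHomogeneous_X _ _))) (by
          simp only [map_sub, map_mul, aeval_X, tn]
          ring)
      simp only [map_sub, map_mul, aeval_X] at h1
      simp only [tn]
      field_simp
      linear_combination h1

end key

section law

variable {κ σ τ : Type} [Field κ] [Fintype σ] [DecidableEq σ] [Fintype τ] [DecidableEq τ]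
  (B : Pkg κ σ) (M : Rm B.I τ)

/-- a law of `B` on two columns -/
noncomputable def lawP (a : Fin B.nl) (j j' : τ) (i : σ) : MvPolynomial ((σ × τ) ⊕ (σ × τ)) κ :=
  rename (Sum.map (fun s => (s, j)) fun s => (s, j')) (B.A a i)

/-- the laws of the graph -/
noncomputable def law (l : Fin B.nl × τ × τ × M.ι) :
    σ × τ → MvPolynomial ((σ × τ) ⊕ (σ × τ)) κ :=
  tn (lawP B l.1 l.2.1 l.2.2.1) (M.ev l.2.2.2 (lawP B l.1 l.2.1 l.2.2.1))

theorem lawP_hom (a : Fin B.nl) (j j' : τ) (i : σ) :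
    (lawP B a j j' i).IsWeightedHomogeneous (bw (σ × τ)) (B.β, B.β) :=
  T62.wh_rename _ (fun t => by cases t <;> rfl) (B.A_hom a i)

theorem law_hom (l : Fin B.nl × τ × τ × M.ι) (ik : σ × τ) :
    (law B M l ik).IsWeightedHomogeneous (bw (σ × τ))
      (B.β + M.D * B.β, B.β + M.D * B.β) := by
  have h1 := T1.wh_aeval (w := bw (σ × τ)) (multiplesHom (ℕ × ℕ) (B.β, B.β) |>.comp
    (Nat.castAddMonoidHom ℕ)) (M.hom l.2.2.2 ik.2) (x := lawP B l.1 l.2.1 l.2.2.1)
    fun s => by simpa using lawP_hom B l.1 l.2.1 l.2.2.1 s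
  have h2 := (lawP_hom B l.1 l.2.1 l.2.2.1 ik.1).mul h1
  convert h2 using 1
  · rfl
  · simp

theorem ev2_law {R : Type} [CommRing R] [Algebra κ R] (l : Fin B.nl × τ × τ × M.ι)
    (w w' : σ × τ → R) : ev2 (law B M l) w w' =
      tn (ev2 (B.A l.1) (fun i => w (i, l.2.1)) fun i => w' (i, l.2.2.1))
        (M.ev l.2.2.2 (ev2 (B.A l.1) (fun i => w (i, l.2.1)) fun i => w' (i, l.2.2.1))) := by
  have h1 : (fun i => aeval (Sum.elim w w') (lawP B l.1 l.2.1 l.2.2.1 i)) =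
      ev2 (B.A l.1) (fun i => w (i, l.2.1)) fun i => w' (i, l.2.2.1) := by
    funext i
    rw [lawP, aeval_rename, ev2]
    congr 2
    funext s
    cases s <;> rfl
  rw [← h1, Rm.ev_map (aeval (Sum.elim w w') : MvPolynomial _ κ →ₐ[κ] R)]
  funext ik
  simp only [ev2, law, tn, map_mul]

variable {B M} {Ω : Type} [Field Ω] [Algebra κ Ω]

/-- chosen value at a point -/
noncomputable def vl (hM : M.Mor) (p : B.Pt Ω) : τ → Ω :=
  (hM Ω (B.rp p) (rp_zr p) (rp_ne p)).choose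

theorem vl_val (hM : M.Mor) (p : B.Pt Ω) : M.Val (B.rp p) (vl hM p) :=
  (hM Ω (B.rp p) (rp_zr p) (rp_ne p)).choose_spec

/-- `w` is a multiple of the coordinates of the point of the graph over `p` -/
def On (hM : M.Mor) (p : B.Pt Ω) (w : σ × τ → Ω) : Prop := ∃ c : Ω, w = c • tn (B.rp p) (vl hM p)

variable {hM : M.Mor}

theorem on_self (p : B.Pt Ω) : On hM p (tn (B.rp p) (vl hM p)) := ⟨1, (one_smul _ _).symm⟩

theorem On.smul {p : B.Pt Ω} {w : σ × τ → Ω} (h : On hM p w) (c : Ω) : On hM p (c • w) := by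
  obtain ⟨c', rfl⟩ := h
  exact ⟨c * c', smul_smul _ _ _⟩

theorem on_val {p : B.Pt Ω} {x : σ → Ω} {y : τ → Ω} (hx : B.Rep p x) (hy : M.Val x y) :
    On hM p (tn x y) := by
  obtain ⟨c, hc⟩ := par_smul' ((vl_val hM p).uniq ((val_iff hx (B.rep_rp p)).1 hy) (rp_zr p))
    (vl_val hM p).ne
  obtain ⟨c', -, hc'⟩ := rep_smul (B.rep_rp p) hx
  exact ⟨c' * c, by rw [← tn_smul, ← hc, ← hc']⟩

theorem On.par {p : B.Pt Ω} {w w' : σ × τ → Ω} (h : On hM p w) (h' : On hM p w') : Par w w' := by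
  obtain ⟨c, rfl⟩ := h
  obtain ⟨c', rfl⟩ := h'
  intro i j
  simp only [Pi.smul_apply, smul_eq_mul]
  ring

theorem On.add (l : Fin B.nl × τ × τ × M.ι) {p q : B.Pt Ω} {w w' : σ × τ → Ω} (h : On hM p w)
    (h' : On hM q w') : On hM (p + q) (ev2 (law B M l) w w') := by
  obtain ⟨c, rfl⟩ := h
  obtain ⟨c', rfl⟩ := h'
  obtain ⟨t, ht⟩ := (B.rep_rp p).law_eq_smul (B.rep_rp q) (B.rep_rp (p + q)) l.1
  obtain ⟨t', ht'⟩ := (vl_val hM (p + q)).ev_eq (rp_zr _) l.2.2.2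
  rw [ev2_law, col_tn, col_tn, B.ev2_smul, ht, smul_smul, Rm.ev_smul, ht', smul_smul, tn_smul]
  exact ⟨_, rfl⟩

end law

end XGRAPH

open XGRAPH in
theorem st_GRAPH : St_GRAPH := by
  intro κ σ τ _ _ _ _ _ _ B M hM π' hπ
  obtain ⟨I', hp, hh, hk⟩ := key (T39.prime_I B) B.hom (exists_X B.o_ne B.o_mem) hM
  have hzr : ∀ (Ω : Type) [Field Ω] [Algebra κ Ω] (p : B.Pt Ω) (w : σ × τ → Ω),
      On hM p w → Zr I' w := by
    rintro Ω _ _ p w ⟨c, rfl⟩
    exact ((hk Ω).1 _ _ (rp_zr p) (vl_val hM p)).smul hh c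
  have ex : ∀ w : σ × τ → κ, Zr I' w → ∃ p : B.Pt κ, On hM p w := fun w hw => by
    by_cases h0 : w = 0
    · exact ⟨0, 0, by rw [h0, zero_smul]⟩
    · obtain ⟨x, y, h1, h2, h3, rfl⟩ := (hk κ).2 w h0 hw
      obtain ⟨p, hp⟩ := exists_pt h2 h1
      exact ⟨p, on_val hp h3⟩
  have hneg : ∀ (p : B.Pt κ) (w : σ × τ → κ), On hM p w →
      On hM (-p) (w ∘ Equiv.prodCongr B.π π') := by
    rintro p w ⟨c, rfl⟩
    exact (on_val (B.rep_rp p).neg (hπ _ _ (rp_zr p) (rp_ne p) (vl_val hM p))).smul c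
  let E := Fintype.equivFin (Fin B.nl × τ × τ × M.ι)
  have hc : ∀ (Ω : Type) [Field Ω] [Algebra κ Ω] (w w' : σ × τ → Ω), Zr I' w → Zr I' w' → w ≠ 0 →
      w' ≠ 0 → ∃ a, ev2 (law B M (E.symm a)) w w' ≠ 0 := fun Ω _ _ w w' hw hw' h0 h0' => by
    obtain ⟨x, y, h1, h2, h3, rfl⟩ := (hk Ω).2 w h0 hw
    obtain ⟨x', y', h1', h2', h3', rfl⟩ := (hk Ω).2 w' h0' hw'
    obtain ⟨j, hj⟩ := Function.ne_iff.1 h3.ne
    obtain ⟨j', hj'⟩ := Function.ne_iff.1 h3'.ne
    obtain ⟨a, ha⟩ := B.complete Ω x x' h1 h1' h2 h2'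
    have hu : ev2 (B.A a) (y j • x) (y' j' • x') ≠ 0 := by
      rw [B.ev2_smul]
      exact smul_ne_zero (mul_ne_zero (pow_ne_zero _ hj) (pow_ne_zero _ hj')) ha
    obtain ⟨b, hb⟩ := hM.ev (B.add_mem Ω _ _ (h1.smul B.hom (y j)) (h1'.smul B.hom (y' j')) a) hu
    refine ⟨E (a, j, j', b), ?_⟩
    rw [E.symm_apply_apply, ev2_law, ← one_smul Ω (tn x y), ← one_smul Ω (tn x' y'), col_tn, col_tn,
      one_mul, one_mul]
    exact tn_ne hu hb
  let B' : Pkg κ (σ × τ) := pkg (On := On hM) hp hh ex (hzr κ) (fun _ _ _ h h' => h.par h')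
    (tn (B.rp 0) (vl hM 0)) (tn_ne (rp_ne 0) (vl_val hM 0).ne) (on_self 0)
    (Equiv.prodCongr B.π π') hneg (le_trans B.β_pos (Nat.le_add_right _ _))
    (fun a => law B M (E.symm a)) (fun a => law_hom B M _) hc fun a _ _ _ _ h h' => h.add _ h'
  refine ⟨B', fun Ω _ _ => ?_⟩
  have hu : ∀ p : B.Pt Ω, Uni (tn (B.rp p) (vl hM p)) := fun p =>
    uni_iff_ne_zero.2 (tn_ne (rp_ne p) (vl_val hM p).ne)
  let f : B.Pt Ω → B'.Pt Ω := fun p => B'.pt _ (hu p) (hzr Ω p _ (on_self p))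
  have hf : ∀ p, B'.Rep (f p) (tn (B.rp p) (vl hM p)) := fun p => Pkg.rep_pt _ _ _
  have hadd : ∀ p q, f (p + q) = f p + f q := fun p q => by
    obtain ⟨a, ha⟩ := (hf p).exists_add (hf q)
    exact (hf _).eq ha ((on_self (p + q)).par ((on_self p).add _ (on_self q)))
  exact ⟨AddMonoidHom.mk' f hadd, fun p x y hx hy => (hf p).of_par
    (uni_iff_ne_zero.2 (tn_ne (rep_ne hx) hy.ne)) ((on_self p).par (on_val hx hy))⟩

end D4C.SA
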