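import Pool.Agent.Lib.SA.Kit

/-! sa56 row INEQ: the first block carries almost all of the height. -/

namespace D4C.SA

open MvPolynomial Filter

theorem st_INEQ (hPG : D4C.St_PG) : St_INEQ := by
  intro L σ ρ τ _ _ _ _ _ _ B M hcd U x y hT hgen hval hne ε hε
  obtain ⟨a0, i0, h0⟩ := hne
  let e : Fin (Fintype.card (M.ι × ρ)) ≃ M.ι × ρ := (Fintype.equivFin _).symm
  have h1 := hPG L σ B _ M.D (fun j => M.S (e j).1 (Sum.inl (e j).2)) (fun j => M.hom _ _)
    (fun q hq hle hf => hcd q hq hle fun a i => by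
      simpa only [Equiv.apply_symm_apply] using hf (e.symm (a, i)))
    U x (fun n => B.rp (x n)) (fun n => B.rep_rp _) hT hgen (ε / 2) (half_pos hε)
  obtain ⟨C, hC⟩ := Height.logHeight_eval_le' (ι := σ)
    (p := fun ak : M.ι × (ρ ⊕ τ) => M.S ak.1 ak.2) fun ak => M.hom _ _
  have h2 := hT.eventually_ge_atTop (C / (ε / 2))
  have h3 := hgen _ _ (M.hom a0 (Sum.inl i0)) h0
  filter_upwards [h1, h2, h3, hval] with n g1 g2 g3 g4
  choose c hc using g4.ev_eq (rp_zr (x n))
  have hc' : ∀ a k, aeval (B.rp (x n)) (M.S a k) = c a * y n k := fun a k => congrFun (hc a) k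
  rw [hc'] at g3
  have hc0 : c ≠ 0 := Function.ne_iff.2 ⟨a0, left_ne_zero_of_mul g3⟩
  have hy0 : (fun i => y n (Sum.inl i)) ≠ 0 := Function.ne_iff.2 ⟨i0, right_ne_zero_of_mul g3⟩
  have k1 := Height.logHeight_fun_mul_eq hc0 hy0
  have k2 := Height.logHeight_fun_mul_eq hc0 g4.ne
  have k3 := Height.logHeight_comp_equiv e fun a : M.ι × ρ => c a.1 * y n (Sum.inl a.2)
  have k4 := hC (B.rp (x n))
  simp only [← coe_aeval_eq_eval, RingHom.coe_coe, hc'] at k4
  simp only [hc'] at g1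
  rw [k2, ← ht_rp] at k4
  rw [k1] at k3
  have k5 : (M.D - ε / 2) * B.ht (x n) ≤
      Height.logHeight c + Height.logHeight fun i => y n (Sum.inl i) := k3 ▸ g1
  rw [div_le_iff₀ (half_pos hε)] at g2
  linarith

end D4C.SA
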