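import Pool.Agent.Lib.SA.Kit

/-! Row INV of the sa56 blueprint: the abelian subvariety that leaves a morphism invariant. -/

namespace D4C.SA

open MvPolynomial

namespace XINV

variable {κ σ τ : Type} [Field κ] [Fintype σ] [DecidableEq σ] {B : Pkg κ σ}

/-- the translations that do not change the morphism -/
def stab (M : Rm B.I τ) (hM : M.Mor) : AddSubgroup (B.Pt κ) where
  carrier := {b | ∀ (t : B.Pt κ) (y : τ → κ), M.Val (B.rp t) y → M.Val (B.rp (t + b)) y}
  zero_mem' := fun t y h => by rwa [add_zero]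
  add_mem' := fun {a b} ha hb t y h => by
    rw [← add_assoc]
    exact hb _ y (ha t y h)
  neg_mem' := fun {b} hb t y h => by
    obtain ⟨y', hy'⟩ := hM κ (B.rp (t + -b)) (rp_zr _) (rp_ne _)
    have h1 := hb _ y' hy'
    rw [neg_add_cancel_right] at h1
    exact hy'.of_par h.ne (h1.uniq h (rp_zr _))

/-- the stabiliser is closed -/
theorem closed (M : Rm B.I τ) (hM : M.Mor) {b : B.Pt κ}
    (hb : Zr (vanishingIdeal κ (T39.cone B (stab M hM))) (B.rp b)) : b ∈ stab M hM := by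
  intro t y h
  refine hM.val (rp_zr _) (rp_ne _) h.ne fun a i j => ?_
  have hF : (C (y j) * M.S a i - C (y i) * M.S a j : MvPolynomial σ κ).IsHomogeneous M.D :=
    ((M.hom a i).C_mul _).sub ((M.hom a j).C_mul _)
  have key : ∀ x : σ → κ, aeval x (C (y j) * M.S a i - C (y i) * M.S a j : MvPolynomial σ κ) = 0 ↔
      M.ev a x i * y j = M.ev a x j * y i := fun x => by
    simp only [map_sub, map_mul, aeval_C, Algebra.algebraMap_self, RingHom.id_apply, Rm.ev,
      sub_eq_zero]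
    rw [mul_comm (y j), mul_comm (y i)]
  rw [← key, add_comm t b, trF_pts b t hF]
  intro l
  refine hb _ (mem_vanishingIdeal_iff.mpr ?_)
  rintro x ⟨s, hs, hx⟩
  refine (trF_iff hx (B.rep_rp t) (B.rep_rp (s + t)) hF).1 ?_ l
  rw [key, add_comm s t]
  exact (hs t y h).par (rp_zr _) a i j

/-- a generic point of `q`, moved by a rational point of `q`, lies on the closure -/
theorem gen_mem [IsAlgClosed κ] (S : AddSubgroup (B.Pt κ)) {q : Ideal (MvPolynomial σ κ)}
    (hp : q.IsPrime) (hh : IsHom q) (hle : B.I ≤ q) {p₀ : B.Pt κ} (h0 : Zr q (B.rp p₀))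
    (hS : ∀ b : B.Pt κ, Zr q (B.rp b) → b + -p₀ ∈ S) {Ω : Type} [Field Ω] [Algebra κ Ω]
    {p : B.Pt Ω} {x : σ → Ω} (hx : B.Rep p x) (hg : PGen q x) :
    p + B.map (Algebra.ofId κ Ω) (-p₀) ∈ T39.clos S Ω := by
  have hc : B.Rep (B.map (Algebra.ofId κ Ω) (-p₀)) fun i => algebraMap κ Ω (B.rp (-p₀) i) :=
    rep_map_rp _ _
  obtain ⟨a, ha⟩ := hx.exists_add hc
  refine ⟨_, ha, T39.zr_of_forms (T39.isHom_cone _) fun F hF n hn => ?_⟩
  rw [← trF_ev]
  refine (hg.2 _ _ (trF_hom hn _ a)).2 ?_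
  refine mem_of_pts' hp hh hle (exists_X (rp_ne p₀) h0) (trF_hom hn _ a) fun b hb => ?_
  exact (trF_pts b (-p₀) hn).1 (T39.zr_cone ⟨_, hS b hb, B.rep_rp _⟩ F hF) a

end XINV

open XINV in
theorem st_INV : St_INV := by
  intro κ σ τ _ _ _ _ _ B M hM q hp hh hle ⟨p, p', hq, hq', hne⟩ H
  have hS : ∀ b b' : B.Pt κ, Zr q (B.rp b) → Zr q (B.rp b') → b + -b' ∈ stab M hM := by
    intro b b' hb hb' t y h
    have h1 := H b' b (t + -b') y hb' hb (by rwa [show b' + (t + -b') = t by abel])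
    rwa [show b + (t + -b') = t + (b + -b') by abel] at h1
  obtain ⟨J, hJ, h1, Ω, _, _, j, u, u', w, hu, hu', hw, hg⟩ :=
    All.a_GEN κ σ B q hp hh hle (exists_X (rp_ne p) hq)
  have h2 : ∑ i, (u i - u' i) ∈ T39.clos (stab M hM) Ω := by
    refine AddSubgroup.sum_mem _ fun i _ => ?_
    obtain ⟨x, hx, gx⟩ := hu i
    obtain ⟨x', hx', gx'⟩ := hu' i
    have h3 := AddSubgroup.sub_mem _
      (gen_mem (stab M hM) hp hh hle hq (fun b hb => hS b p hb hq) hx gx)
      (gen_mem (stab M hM) hp hh hle hq (fun b hb => hS b p hb hq) hx' gx')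
    rwa [add_sub_add_right_eq_sub] at h3
  obtain ⟨x, hx, hz⟩ := h2
  have h4 := T39.le_of_pgen (T39.isHom_cone _) hg (T39.zr_rep (T39.isHom_cone _) hx hw hz)
  refine ⟨J, hJ, ⟨p - p', h1 κ p p' _ _ _ (B.rep_rp p) (B.rep_rp p') hq hq' (B.rep_rp _),
    sub_ne_zero.2 hne⟩, fun t b y hb h => ?_⟩
  exact closed M hM (fun F hF => hb F (h4 hF)) t y h

end D4C.SA
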