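import Pool.Agent.Lib.SA.Kit

/-! sa56 row LOCV: the value at a point is the residue of a local unimodular vector. -/

namespace D4C.SA

open MvPolynomial

namespace XLOCV

variable {κ σ τ F : Type} [Field κ] [Field F] [Algebra κ F] {I : Ideal (MvPolynomial σ κ)}
  {η : σ → F} {y : σ → κ}

theorem par_u (hZ : Zr I η) {M : Rm I τ} {w : τ → F} (hw : M.Val η w) {u : τ → Oq η y} {t : F}
    (ht : t ≠ 0) (hu : ∀ j, w j = t * u j) (a : M.ι) (i j : τ) :
    aeval η (M.S a i) * (u j : F) = aeval η (M.S a j) * (u i : F) := by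
  have h := hw.par hZ a i j
  rw [hu, hu] at h
  refine mul_left_cancel₀ ht ?_
  simp only [Rm.ev] at h
  linear_combination h

theorem exists_s (hZ : Zr I η) {M : Rm I τ} {w : τ → F} (hw : M.Val η w) {u : τ → Oq η y} {t : F}
    (ht : t ≠ 0) (hu : ∀ j, w j = t * u j) {r : Oq η y →ₐ[κ] κ} (hr : IsRes r) {k : σ}
    (hk : η k ≠ 0) (hm : ∀ (d : ℕ) (G : MvPolynomial σ κ), G.IsHomogeneous d →
      aeval η G / η k ^ d ∈ Oq η y) (a : M.ι) :
    ∃ s : τ → Oq η y, Par s u ∧ ∀ j, r (s j) * y k ^ M.D = M.ev a y j := by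
  refine ⟨fun j => ⟨aeval η (M.S a j) / η k ^ M.D, hm _ _ (M.hom a j)⟩, fun i j => ?_, fun j => ?_⟩
  · refine Subtype.ext ?_
    have h := par_u hZ hw ht hu a i j
    simp only [MulMemClass.coe_mul]
    rw [div_mul_eq_mul_div, div_mul_eq_mul_div, h]
  · have h := hr ⟨aeval η (M.S a j) / η k ^ M.D, hm _ _ (M.hom a j)⟩ M.D (M.S a j) (X k ^ M.D)
      (M.hom a j) (by simpa using (isHomogeneous_X κ k).pow M.D)
      (by simp [div_mul_cancel₀ _ (pow_ne_zero M.D hk)])
    simpa [Rm.ev] using h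

end XLOCV

theorem st_LOCV (hOQ : St_OQ) : St_LOCV := by
  intro κ σ τ F _ _ _ _ _ I η hη hZ M w hw y hy0 hy r hr hun u t ht hu
  obtain ⟨k, hk⟩ := Function.ne_iff.1 hy0
  have hk : y k ≠ 0 := hk
  obtain ⟨-, -, -, h4, -, -⟩ := hOQ κ σ F I η y hη hy hy0
  obtain ⟨hηk, hm, -⟩ := h4 k hk
  refine ⟨fun z hz => ?_, ?_⟩
  · obtain ⟨hz0, b, hb, hbz⟩ := hz
    obtain ⟨s, hs, hrs⟩ := XLOCV.exists_s hZ hw ht hu hr hηk hm b
    refine ⟨fun ⟨j₀, hj₀⟩ => ?_, fun hc hufd => ?_⟩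
    · have h0 : (fun j => r (u j)) ≠ 0 := Function.ne_iff.2 ⟨j₀, (hun _).1 hj₀⟩
      have h1 : Par (fun j => r (u j)) (M.ev b y) := fun i j => by
        have := congrArg r (hs i j)
        rw [map_mul, map_mul] at this
        rw [← hrs, ← hrs]
        linear_combination (-(y k ^ M.D)) * this
      obtain ⟨c, hc, hz⟩ := M56.smul_of_par (par_trans h1 hb hbz) h0 hz0
      exact ⟨c, hc, fun j => by rw [hz]; rfl⟩
    · obtain ⟨j₀, hj₀⟩ := Function.ne_iff.1 hb
      have hj₀ : M.ev b y j₀ ≠ 0 := hj₀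
      have hsu : IsUnit (s j₀) := (hun _).2 fun h => hj₀ (by rw [← hrs, h, zero_mul])
      have hdvd : ∀ j, u j₀ ∣ u j := fun j =>
        (hsu.dvd_mul_left).1 (by rw [hs j₀ j]; exact Dvd.intro_left _ rfl)
      have hne : u j₀ ≠ 0 := fun h => hw.ne (funext fun j => by
        have := hdvd j
        rw [h, zero_dvd_iff] at this
        rw [hu, this]
        simp)
      by_contra hn
      have hnu : ¬ IsUnit (u j₀) := fun h => hn ⟨j₀, h⟩
      obtain ⟨π, hπ, hd⟩ := WfDvdMonoid.exists_irreducible_factor hnu hne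
      obtain ⟨i, hi⟩ := hc π (UniqueFactorizationMonoid.irreducible_iff_prime.1 hπ)
      exact hi (hd.trans (hdvd i))
  · intro q hq hIq hqy _ a ha j hj d G H hG hH _ hGH
    obtain ⟨j₀, hj₀⟩ := Function.ne_iff.1 ha
    have hj₀ : aeval y (M.S a j₀) ≠ 0 := hj₀
    obtain ⟨d₀, G₀, H₀, g1, g2, g3, -, g5⟩ := (u j₀).2
    have hp := XLOCV.par_u hZ hw ht hu a j₀ j
    have hI : M.S a j₀ * G * H₀ - M.S a j * G₀ * H ∈ I := by
      refine (hη.2 _ (M.D + d + d₀) ?_).1 ?_
      · refine (((M.hom a j₀).mul hG).mul g2).sub ?_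
        have := ((M.hom a j).mul g1).mul hH
        rwa [add_right_comm] at this
      · simp only [map_sub, map_mul]
        rw [← hGH, ← g5]
        linear_combination (aeval η H * aeval η H₀) * hp
    have h1 : M.S a j₀ * G * H₀ ∈ q := by
      have := q.add_mem (hIq hI) (q.mul_mem_right H (q.mul_mem_right G₀ hj))
      rwa [sub_add_cancel] at this
    rcases hq.mem_or_mem h1 with h2 | h2
    · rcases hq.mem_or_mem h2 with h3 | h3
      · exact absurd (hqy _ h3) hj₀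
      · exact h3
    · exact absurd (hqy _ h2) g3

end D4C.SA
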