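import Pool.Agent.Lib.SA.Kit

/-! sa56 row MAIN: the theorem for packages. -/

namespace D4C.SA

open MvPolynomial Filter

theorem st_MAIN (hML : St_ML) (hPIECE : St_PIECE) (hFINP : St_FINP) : St_MAIN := by
  intro L κ σ ρ _ _ _ _ _ _ _ _ _ B lam ε hε
  classical
  have := T17.countable_alg L κ
  have : CharZero κ := charZero_of_injective_algebraMap (algebraMap L κ).injective
  obtain ⟨J, hJ⟩ := T17.enum_ideals κ σ
  have : Countable (B.Pt κ) := (show Function.Injective (B.rp : B.Pt κ → σ → κ) from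
    fun p q h => (B.rep_rp p).eq (B.rep_rp q) (h ▸ Par.refl _)).countable
  obtain ⟨e, he⟩ := exists_surjective_nat (B.Pt κ × ℕ)
  let T : ℕ → Prop := fun k => ∃ P : Pc B κ lam, P.Q = (e k).1 ∧ P.J = J (e k).2
  choose pc hpc hpc' using fun k : {k // T k} => k.2
  by_contra hcon
  have h1 : ∀ n : ℕ, ∃ (p : B.Pt L) (l : ρ → L), lam.Val (B.rp p) l ∧ (n : ℝ) ≤ B.ht p ∧
      (∀ k ≤ n, NZ B (J k) → ∃ (b : B.Pt κ) (l' : ρ → κ), Zr (J k) (B.rp b) ∧
        lam.Val (B.rp (B.map (Algebra.ofId L κ) p + b)) l' ∧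
        ¬ Par (fun i => algebraMap L κ (l i)) l') ∧
      ∀ k : {k // T k}, k.1 ≤ n → Zr (pc k).J (B.rp (B.map (Algebra.ofId L κ) p - (pc k).Q)) →
        ∃ y, (pc k).M.Val (B.rp (B.map (Algebra.ofId L κ) p - (pc k).Q)) y ∧
          (pc k).m * Height.logHeight l < (1 - ε) * vecHt L y := by
    intro n
    by_contra h
    have : Finite {k : {k // T k} // k.1 ≤ n} :=
      ((Set.finite_Iic n).preimage Subtype.val_injective.injOn).to_subtype
    obtain ⟨k, ⟨f⟩⟩ := Finite.exists_equiv_fin {k : {k // T k} // k.1 ≤ n}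
    refine hcon ⟨n, {I | I ∈ J '' Set.Iic n ∧ NZ B I}, k, fun j => pc (f.symm j).1,
      ((Set.finite_Iic n).image J).subset fun I hI => hI.1, fun I hI => hI.2,
      fun p l hl hn hc => ?_⟩
    by_contra h'
    refine h ⟨p, l, hl, hn, fun k hk hv => hc _ ⟨⟨k, hk, rfl⟩, hv⟩, fun k hk hz => ?_⟩
    by_contra h''
    refine h' ⟨f ⟨k, hk⟩, ?_⟩
    beta_reduce
    rw [f.symm_apply_apply]
    exact ⟨hz, fun y hy => not_lt.1 fun hlt => h'' ⟨y, hy, hlt⟩⟩
  choose p l hl hn hc hlt using h1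
  have hU : ((hyperfilter ℕ : Ultrafilter ℕ) : Filter ℕ) ≤ atTop := by
    rw [← Nat.cofinite_eq_atTop]; exact hyperfilter_le_cofinite
  have ht : Tendsto (fun n => B.ht (p n)) (hyperfilter ℕ) atTop :=
    (tendsto_atTop_mono hn tendsto_natCast_atTop_atTop).mono_left hU
  have hv : ∀ n, lam.Val (B.rp (B.map (Algebra.ofId L κ) (p n))) fun i => algebraMap L κ (l n i) :=
    fun n => (val_iff (rep_map_rp _ _) (B.rep_rp _)).1 ((hl n).map (Algebra.ofId L κ))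
  obtain ⟨Q, I, h2, h3, h4⟩ := hML L κ σ B (hyperfilter ℕ) p ht
  obtain ⟨n0, hn0⟩ := h3.exists
  rcases hPIECE L κ σ ρ B lam Q I h2 ⟨_, _, hn0, by rw [add_sub_cancel]; exact hv n0⟩ with
    ⟨I', h5, h6⟩ | h5
  · obtain ⟨k, rfl⟩ := hJ I'
    obtain ⟨n, h7, h8⟩ := (h3.and ((eventually_ge_atTop k).filter_mono hU)).exists
    obtain ⟨b, l', h9, h10, h11⟩ := hc n k h8 h5
    exact h11 (h6 _ b _ _ h7 h9 (by rw [add_sub_cancel]; exact hv n)
      (by rw [add_sub_cancel]; exact h10))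
  · obtain ⟨k', rfl⟩ := hJ I
    obtain ⟨k, hk⟩ := he (Q, k')
    have hT : T k := by
      show ∃ P : Pc B κ lam, P.Q = (e k).1 ∧ P.J = J (e k).2
      rw [hk]
      exact h5
    have e1 : (pc ⟨k, hT⟩).Q = Q := (hpc _).trans (congrArg Prod.fst hk)
    have e2 : (pc ⟨k, hT⟩).J = J k' := (hpc' _).trans (congrArg (fun x => J x.2) hk)
    rw [← e1, ← e2] at h3 h4
    obtain ⟨n, ⟨h7, h8⟩, h9⟩ := ((h3.and ((eventually_ge_atTop k).filter_mono hU)).and
      (hFINP L κ σ ρ B lam _ (hyperfilter ℕ) p l ht hl h3 h4 ε hε)).exists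
    obtain ⟨y, h10, h11⟩ := hlt n ⟨k, hT⟩ h8 h7
    exact absurd (h9 y h10) (not_le.2 h11)

end D4C.SA
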