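import Pool.Agent.Lib.SA.Kit

/-! Block ML: Mordell-Lang along an ultrafilter. -/

set_option linter.unusedSectionVars false

namespace D4C.SA

open MvPolynomial Filter

namespace XML

/-- finitely many members of a set generate the same ideal -/
theorem ev_all {R : Type} [CommRing R] [IsNoetherianRing R] {l : Filter ℕ} (K : ℕ → Ideal R)
    (S : Set R) (h : ∀ G ∈ S, ∀ᶠ n in l, G ∈ K n) : ∀ᶠ n in l, ∀ G ∈ S, G ∈ K n := by
  obtain ⟨s, hs, he⟩ := (Submodule.fg_span_iff_fg_span_finset_subset (R := R) S).1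
    (IsNoetherian.noetherian _)
  have h1 : ∀ᶠ n in l, ∀ G ∈ s, G ∈ K n := (eventually_all_finset s).2 fun G hG => h G (hs hG)
  filter_upwards [h1] with n hn G hG
  have h2 : Submodule.span R S ≤ K n := by
    rw [he, Submodule.span_le]
    exact fun G hG => hn G hG
  exact h2 (Submodule.subset_span hG)

variable {L σ κ : Type} [Field L] [Fintype σ] [DecidableEq σ] {B : Pkg L σ} [Field κ]
  [Algebra L κ]

/-- forms that vanish on the sequence vanish on its translates by `J` -/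
def Inv (B : Pkg L σ) (U : Ultrafilter ℕ) (w : ℕ → B.Pt κ) (J : Ideal (MvPolynomial σ κ)) : Prop :=
  ∀ (F : MvPolynomial σ κ) (d : ℕ), F.IsHomogeneous d →
    (∀ᶠ n in U, aeval (B.rp (w n)) F = 0) →
    ∀ᶠ n in U, ∀ b : B.Pt κ, Zr J (B.rp b) → aeval (B.rp (w n + b)) F = 0

theorem two {U : Ultrafilter ℕ} {w : ℕ → B.Pt κ} {J J' : Ideal (MvPolynomial σ κ)}
    (hJ' : Inv B U w J') {F : MvPolynomial σ κ} {d : ℕ} (hF : F.IsHomogeneous d)
    (h : ∀ᶠ n in U, ∀ b : B.Pt κ, Zr J (B.rp b) → aeval (B.rp (w n + b)) F = 0) :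
    ∀ᶠ n in U, ∀ b b' : B.Pt κ, Zr J (B.rp b) → Zr J' (B.rp b') →
      aeval (B.rp (w n + b' + b)) F = 0 := by
  let K : ℕ → Ideal (MvPolynomial σ κ) := fun n => ⨅ b' : {b' : B.Pt κ // Zr J' (B.rp b')},
    RingHom.ker (aeval (B.rp (w n + b'.1)) : MvPolynomial σ κ →ₐ[κ] κ)
  have hK : ∀ n G, G ∈ K n ↔ ∀ b' : B.Pt κ, Zr J' (B.rp b') → aeval (B.rp (w n + b')) G = 0 :=
    fun n G => by simp only [K, Ideal.mem_iInf, RingHom.mem_ker, Subtype.forall]
  have h1 := ev_all (l := U) K {G | ∃ b a, Zr J (B.rp b) ∧ G = trF B F (B.rp b) a} (by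
    rintro _ ⟨b, a, hb, rfl⟩
    simp only [hK]
    refine hJ' _ _ (trF_hom hF _ a) ?_
    filter_upwards [h] with n hn
    exact (trF_pts _ _ hF).1 (hn b hb) a)
  filter_upwards [h1] with n hn b b' hb hb'
  exact (trF_pts _ _ hF).2 fun a => (hK n _).1 (hn _ ⟨b, a, hb, rfl⟩) b' hb'

theorem inv_sum {U : Ultrafilter ℕ} {w : ℕ → B.Pt κ} {J J' J'' : Ideal (MvPolynomial σ κ)}
    (hJ : Inv B U w J) (hJ' : Inv B U w J')
    (hS : ∀ (F : MvPolynomial σ κ) (d : ℕ), F.IsHomogeneous d →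
      (∀ b b' : B.Pt κ, Zr J (B.rp b) → Zr J' (B.rp b') → aeval (B.rp (b + b')) F = 0) → F ∈ J'') :
    Inv B U w J'' := by
  intro F d hF h
  filter_upwards [two hJ' hF (hJ F d hF h)] with n hn c hc
  rw [add_comm]
  refine (trF_pts _ _ hF).2 fun a => hc _ (hS _ _ (trF_hom hF _ a) fun b b' hb hb' => ?_)
  refine (trF_pts _ _ hF).1 ?_ a
  have := hn b b' hb hb'
  rwa [show w n + b' + b = b + b' + w n by abel] at this

theorem inv_move {U : Ultrafilter ℕ} {w w' : ℕ → B.Pt κ} {J J' : Ideal (MvPolynomial σ κ)}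
    (hs : (B.bc κ).IsSub J) (hJ : Inv B U w J) (hJ' : Inv B U w' J')
    (hw : ∀ n, Zr J (B.rp (w n - w' n))) : Inv B U w J' := by
  intro F d hF h
  have h1 : ∀ᶠ n in U, ∀ b : B.Pt κ, Zr J (B.rp b) → aeval (B.rp (w' n + b)) F = 0 := by
    filter_upwards [hJ F d hF h] with n hn b hb
    have := hn (b - (w n - w' n)) ((subG hs κ).sub_mem (x := b) hb (hw n))
    rwa [show w n + (b - (w n - w' n)) = w' n + b by abel] at this
  filter_upwards [two hJ' hF h1] with n hn b' hb'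
  have := hn _ b' (hw n) hb'
  rwa [show w' n + b' + (w n - w' n) = w n + b' by abel] at this

/-- forms over the big field reduce to forms over the small field -/
theorem inv_of {U : Ultrafilter ℕ} {x : ℕ → B.Pt L} {J : Ideal (MvPolynomial σ κ)}
    (h : ∀ (G : MvPolynomial σ L) (d : ℕ), G.IsHomogeneous d →
      (∀ᶠ n in U, aeval (B.rp (x n)) G = 0) → ∀ᶠ n in U, ∀ b : B.Pt κ, Zr J (B.rp b) →
        aeval (B.rp (B.map (Algebra.ofId L κ) (x n) + b)) G = 0) :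
    Inv B U (fun n => B.map (Algebra.ofId L κ) (x n)) J := by
  intro F d hF h0
  obtain ⟨ι, b, s, G, hb, e⟩ := T51.exists_decomp (κ := L) F
  have e' : F = ∑ i ∈ s, C (b i) *
      MvPolynomial.map (algebraMap L κ) (homogeneousComponent d (G i)) := by
    rw [← homogeneousComponent_eq_self hF, e, map_sum]
    refine Finset.sum_congr rfl fun i _ => ?_
    rw [homogeneousComponent_C_mul, T83.map_hc]
  have h1 : ∀ i ∈ s, ∀ᶠ n in U, aeval (B.rp (x n)) (homogeneousComponent d (G i)) = 0 := by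
    intro i hi
    filter_upwards [h0] with n hn
    rw [form_iff (B.rep_rp _) (rep_map_rp (Algebra.ofId L κ) (x n)) hF, e'] at hn
    have h2 := T51.eval_decomp b s (fun i => homogeneousComponent d (G i)) (B.rp (x n))
    have h3 : ∑ i ∈ s, aeval (B.rp (x n)) (homogeneousComponent d (G i)) • b i = 0 := by
      rw [← h2, ← hn, ← coe_aeval_eq_eval]
      rfl
    exact linearIndependent_iff'.mp hb s _ h3 i hi
  have h4 := (eventually_all_finset s).2 fun i hi =>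
    h _ d (homogeneousComponent_isHomogeneous d (G i)) (h1 i hi)
  filter_upwards [h4] with n hn c hc
  rw [e', map_sum]
  refine Finset.sum_eq_zero fun i hi => ?_
  rw [map_mul, aeval_map_tower, hn i hi c hc, mul_zero]

theorem strk (hSTRK : St_STRK) [NumberField L] [IsAlgClosed κ] (U : Ultrafilter ℕ)
    (x : ℕ → B.Pt L) (hx : Tendsto (fun n => B.ht (x n)) U atTop) :
    ∃ J : Ideal (MvPolynomial σ κ), NZ B J ∧ Inv B U (fun n => B.map (Algebra.ofId L κ) (x n)) J ∧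
    ∃ (L' : Type) (_ : Field L') (_ : NumberField L') (_ : Algebra L L') (_ : Algebra L' κ)
      (_ : IsScalarTower L L' κ) (z : ℕ → B.Pt L'),
      (Lo U (fun n => B.ht (x n)) fun n => htM B (z n)) ∧ ∀ᶠ n in U,
        Zr J (B.rp (B.map (IsScalarTower.toAlgHom L L' κ)
          (B.map (Algebra.ofId L L') (x n) - z n))) := by
  obtain ⟨J, h1, h2, h3⟩ := hSTRK L κ σ B U x hx
  refine ⟨J, h1, inv_of fun G d hG h => ?_, h3⟩
  have h4 := h2 Unit d (fun _ => G) (fun _ _ => 1) (fun _ => hG) (fun ε hε => .of_forall fun n => by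
    rw [Height.logHeight_eq_zero_of_subsingleton]
    exact mul_nonneg hε.le (Height.logHeight_nonneg _)) (by simpa using h)
  simpa using h4

/-- a biggest member of a family of subvarieties -/
theorem exists_max (P : Ideal (MvPolynomial σ κ) → Prop) (hP : ∀ J, P J → (B.bc κ).IsSub J)
    (h0 : ∃ J, P J) : ∃ J, P J ∧ ∀ J', P J' → J' ≤ J → J' = J := by
  have hI : (ext B.I κ).IsPrime := B.gprime κ
  obtain ⟨N, hN⟩ := cd_fin hI
  have hle : ∀ J, P J → (cd J).toNat ≤ N := fun J hJ => by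
    obtain ⟨n, hn⟩ := cd_fin (sub_prime (hP J hJ))
    rcases (show ext B.I κ ≤ J from (hP J hJ).le).lt_or_eq with h | h
    · have := (All.a_DIM κ σ _ hI).2.2 J (sub_prime (hP J hJ)) h
      rw [hn, hN] at this
      rw [hn, Cardinal.toNat_natCast]
      exact_mod_cast this.le
    · rw [← h, hN, Cardinal.toNat_natCast]
  let s : Set ℕ := (fun J => (cd J).toNat) '' {J | P J}
  have hb : BddAbove s := ⟨N, by rintro _ ⟨J, hJ, rfl⟩; exact hle J hJ⟩
  obtain ⟨J, hJ, e⟩ := Nat.sSup_mem (s := s) (h0.elim fun J hJ => ⟨_, J, hJ, rfl⟩) hb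
  refine ⟨J, hJ, fun J' hJ' h => h.lt_or_eq.resolve_left fun hlt => ?_⟩
  have h1 := (All.a_DIM κ σ _ (sub_prime (hP J' hJ'))).2.2 J (sub_prime (hP J hJ)) hlt
  have h2 : (cd J').toNat ≤ (cd J).toNat := by
    have := le_csSup hb ⟨J', hJ', rfl⟩
    rwa [← e] at this
  obtain ⟨n, hn⟩ := cd_fin (sub_prime (hP J hJ))
  obtain ⟨n', hn'⟩ := cd_fin (sub_prime (hP J' hJ'))
  rw [hn, hn'] at h1 h2
  rw [Cardinal.toNat_natCast, Cardinal.toNat_natCast] at h2
  exact absurd (by exact_mod_cast h1 : n < n') (not_lt.2 h2)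

theorem generic [IsAlgClosed κ] {U : Ultrafilter ℕ} {w : ℕ → B.Pt κ}
    {J : Ideal (MvPolynomial σ κ)} (hs : (B.bc κ).IsSub J) (hJ : Inv B U w J) {Q : B.Pt κ}
    (hQ : ∀ᶠ n in U, Zr J (B.rp (w n - Q))) (F : MvPolynomial σ κ) (d : ℕ)
    (hF : F.IsHomogeneous d) (hFJ : F ∉ J) : ∀ᶠ n in U, aeval (B.rp (w n - Q)) F ≠ 0 := by
  refine Ultrafilter.eventually_not.2 fun h => hFJ ?_
  have h1 : ∀ a, ∀ᶠ n in U, ∀ b : B.Pt κ, Zr J (B.rp b) →
      aeval (B.rp (w n + b)) (trF B F (B.rp (-Q)) a) = 0 := fun a => by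
    refine hJ _ _ (trF_hom hF _ a) ?_
    filter_upwards [h] with n hn
    rw [sub_eq_add_neg] at hn
    exact (trF_pts _ _ hF).1 hn a
  obtain ⟨n, h2, h3⟩ := ((eventually_all.2 h1).and hQ).exists
  refine mem_sub hs hF fun b hb => ?_
  have h4 := (trF_pts _ _ hF).2 fun a =>
    h2 a (b - (w n - Q)) ((subG hs κ).sub_mem (x := b) hb h3)
  rwa [show w n + (b - (w n - Q)) + -Q = b by abel] at h4

end XML

open XML in
theorem st_ML (hSTRK : St_STRK) (hSUM : St_SUM) (hRET : St_RET) : St_ML := by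
  intro L κ σ _ _ _ _ _ _ _ B U x hx
  let ι := B.map (Algebra.ofId L κ)
  obtain ⟨J, ⟨hJ, hI⟩, hmax⟩ := exists_max (B := B)
    (fun J => NZ B J ∧ Inv B U (fun n => ι (x n)) J) (fun J h => h.1.1) (by
      obtain ⟨J, h1, h2, -⟩ := strk (κ := κ) hSTRK U x hx
      exact ⟨J, h1, h2⟩)
  have hy : ∀ n, ∃ y : B.Pt L, Zr J (B.rp (ι (x n) - ι y)) ∧
      ∀ y' : B.Pt L, Zr J (B.rp (ι (x n) - ι y')) → B.ht y ≤ B.ht y' := fun n => by
    have h0 : Zr J (B.rp (ι (x n) - ι (x n))) := by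
      rw [sub_self]
      exact (subG hJ.1 κ).zero_mem
    obtain ⟨y, ⟨h1, h2⟩, h3⟩ := Set.exists_min_image
      {y : B.Pt L | B.ht y ≤ B.ht (x n) ∧ Zr J (B.rp (ι (x n) - ι y))} B.ht
      (((isHt_ht B).north (B.ht (x n))).subset fun y h => h.1) ⟨x n, le_rfl, h0⟩
    refine ⟨y, h2, fun y' h => ?_⟩
    rcases le_total (B.ht y') (B.ht (x n)) with h4 | h4
    · exact h3 y' ⟨h4, h⟩
    · exact h1.trans h4
  choose y hy1 hy2 using hy
  have hnt : ¬ Tendsto (fun n => B.ht (y n)) U atTop := by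
    intro ht
    obtain ⟨J', hJ', hI', L', _, _, _, _, _, z, hz1, hz2⟩ := strk (κ := κ) hSTRK U y ht
    obtain ⟨J'', s1, s2, s3, s4⟩ := hSUM L κ σ B J J' hJ.1 hJ'.1
    have hnz : NZ B J'' := by
      obtain ⟨b, hb, hb0⟩ := hJ.2
      exact ⟨s1, b, fun G hG => hb G (s2 hG), hb0⟩
    have e := hmax J'' ⟨hnz, inv_sum hI (inv_move hJ.1 hI hI' hy1) s4⟩ s2
    rw [e] at s3
    obtain ⟨C, hC, hR⟩ := hRET (B.Pt L) (B.Pt L') B.ht (htM B) (isHt_ht B) (isHt_htM B L')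
      (B.map (Algebra.ofId L L')) ((subG hJ.1 κ).comap (B.map (IsScalarTower.toAlgHom L L' κ)))
    have hpos : 0 < 1 / (2 * (C + 1)) := by positivity
    obtain ⟨n, ⟨h1, h2⟩, h3⟩ := (((hz1 _ hpos).and hz2).and
      (ht.eventually_gt_atTop (2 * C))).exists
    obtain ⟨y1, h4, h5⟩ := hR (y n) (z n) fun G hG => h2 G (s3 hG)
    have h6 : ι (y n - y1) ∈ subG hJ.1 κ := by
      rwa [AddSubgroup.mem_comap, Pkg.map_map, Subsingleton.elim
        ((IsScalarTower.toAlgHom L L' κ).comp (Algebra.ofId L L')) (Algebra.ofId L κ)] at h4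
    have h7 := (subG hJ.1 κ).add_mem (x := ι (x n) - ι (y n)) (hy1 n) h6
    rw [map_sub, sub_add_sub_cancel] at h7
    have h8 := hy2 n y1 h7
    have h9 : 0 ≤ B.ht (y n) := (isHt_ht B).nonneg _
    have h10 : C * htM B (z n) ≤ B.ht (y n) / 2 := by
      calc C * htM B (z n) ≤ C * (1 / (2 * (C + 1)) * B.ht (y n)) := by gcongr
        _ ≤ (C + 1) * (1 / (2 * (C + 1)) * B.ht (y n)) := by gcongr; linarith
        _ = B.ht (y n) / 2 := by field_simp
    linarith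
  obtain ⟨M, hM⟩ : ∃ M : ℝ, ∀ᶠ n in U, B.ht (y n) ≤ M := by
    rw [tendsto_atTop, not_forall] at hnt
    obtain ⟨M, hM⟩ := hnt
    exact ⟨M, (Ultrafilter.eventually_not.2 hM).mono fun n h => (not_le.1 h).le⟩
  obtain ⟨y0, -, h0⟩ := (Ultrafilter.eventually_exists_mem_iff (f := U)
    (P := fun a n => y n = a) ((isHt_ht B).north M)).1 (hM.mono fun n h => ⟨y n, h, rfl⟩)
  have hQ : ∀ᶠ n in U, Zr J (B.rp (ι (x n) - ι y0)) := h0.mono fun n h => h ▸ hy1 n
  exact ⟨ι y0, J, hJ, hQ, generic hJ.1 hI hQ⟩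

end D4C.SA
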