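import Pool.Agent.Lib.SA.Kit

set_option linter.unusedVariables false

namespace D4C.SA

open MvPolynomial

namespace XOQ

variable {κ σ F : Type} [Field κ] [Field F] [Algebra κ F] {I : Ideal (MvPolynomial σ κ)}
  {η : σ → F} {y : σ → κ}

theorem kill (hη : PGen I η) (hy : Zr I y) {G : MvPolynomial σ κ} {d : ℕ}
    (hG : G.IsHomogeneous d) (h : aeval η G = 0) : aeval y G = 0 := hy _ ((hη.2 G d hG).1 h)

theorem ex (hη : PGen I η) (hy : Zr I y) (u : Oq η y) : ∃ r : κ, ∀ (d : ℕ)
    (G H : MvPolynomial σ κ), G.IsHomogeneous d → H.IsHomogeneous d →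
    (u : F) * aeval η H = aeval η G → r * aeval y H = aeval y G := by
  obtain ⟨d, G, H, a1, a2, a3, a4, a5⟩ := u.2
  refine ⟨aeval y G / aeval y H, fun d' G' H' b1 b2 b5 => ?_⟩
  have h1 : (G * H' - G' * H).IsHomogeneous (d + d') :=
    (a1.mul b2).sub (add_comm d' d ▸ b1.mul a2)
  have h2 := kill hη hy h1 (by
    rw [map_sub, map_mul, map_mul, ← a5, ← b5]
    ring)
  rw [map_sub, map_mul, map_mul, sub_eq_zero] at h2
  rw [div_mul_eq_mul_div, h2, mul_div_cancel_right₀ _ a3]

/-- the value at the point -/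
noncomputable def res (hη : PGen I η) (hy : Zr I y) (u : Oq η y) : κ := (ex hη hy u).choose

theorem res_spec (hη : PGen I η) (hy : Zr I y) (u : Oq η y) {d : ℕ} {G H : MvPolynomial σ κ}
    (hG : G.IsHomogeneous d) (hH : H.IsHomogeneous d) (h : (u : F) * aeval η H = aeval η G) :
    res hη hy u * aeval y H = aeval y G := (ex hη hy u).choose_spec d G H hG hH h

theorem res_c (hη : PGen I η) (hy : Zr I y) (c : κ) :
    res hη hy (algebraMap κ (Oq η y) c) = c := by
  have := res_spec hη hy (algebraMap κ (Oq η y) c) (G := C c) (H := 1) (isHomogeneous_C _ _)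
    (isHomogeneous_one _ _) (by simp)
  simpa using this

/-- evaluation at the point -/
noncomputable def rho (hη : PGen I η) (hy : Zr I y) : Oq η y →ₐ[κ] κ where
  toFun := res hη hy
  map_one' := by simpa using res_c hη hy 1
  map_zero' := by simpa using res_c hη hy 0
  commutes' := fun c => by simpa using res_c hη hy c
  map_mul' := fun u v => by
    obtain ⟨d, G, H, a1, a2, a3, a4, a5⟩ := u.2
    obtain ⟨d', G', H', b1, b2, b3, b4, b5⟩ := v.2
    have h := res_spec hη hy (u * v) (a1.mul b1) (a2.mul b2) (by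
      rw [map_mul, map_mul, ← a5, ← b5, Subalgebra.coe_mul]
      ring)
    rw [map_mul, map_mul, ← res_spec hη hy u a1 a2 a5, ← res_spec hη hy v b1 b2 b5] at h
    refine mul_right_cancel₀ (mul_ne_zero a3 b3) (h.trans ?_)
    ring
  map_add' := fun u v => by
    obtain ⟨d, G, H, a1, a2, a3, a4, a5⟩ := u.2
    obtain ⟨d', G', H', b1, b2, b3, b4, b5⟩ := v.2
    have h := res_spec hη hy (u + v) ((a1.mul b2).add (a2.mul b1)) (a2.mul b2) (by
      rw [map_add, map_mul, map_mul, map_mul, ← a5, ← b5, Subalgebra.coe_add]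
      ring)
    rw [map_add, map_mul, map_mul, map_mul, ← res_spec hη hy u a1 a2 a5,
      ← res_spec hη hy v b1 b2 b5] at h
    refine mul_right_cancel₀ (mul_ne_zero a3 b3) (h.trans ?_)
    ring

theorem rho_res (hη : PGen I η) (hy : Zr I y) : IsRes (rho hη hy) :=
  fun u _ _ _ hG hH h => res_spec hη hy u hG hH h

theorem unit_iff (hη : PGen I η) (hy : Zr I y) (u : Oq η y) : IsUnit u ↔ rho hη hy u ≠ 0 := by
  refine ⟨fun h => (h.map (rho hη hy)).ne_zero, fun h => ?_⟩
  obtain ⟨d, G, H, a1, a2, a3, a4, a5⟩ := u.2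
  have h1 : aeval y G ≠ 0 := by
    rw [← rho_res hη hy u d G H a1 a2 a5]
    exact mul_ne_zero h a3
  have h2 : aeval η G ≠ 0 := fun h0 => h1 (kill hη hy a1 h0)
  have h3 : (u : F) ≠ 0 := fun h0 => h2 (by rw [← a5, h0, zero_mul])
  have h4 : (u : F)⁻¹ ∈ Oq η y := ⟨d, H, G, a2, a1, h1, h2, by
    rw [← a5, inv_mul_cancel_left₀ h3]⟩
  exact isUnit_iff_exists_inv.2 ⟨⟨_, h4⟩, Subtype.ext (mul_inv_cancel₀ h3)⟩

theorem ne (hη : PGen I η) (hy : Zr I y) {k : σ} (hk : y k ≠ 0) : η k ≠ 0 := fun h =>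
  hk (by simpa using kill hη hy (isHomogeneous_X κ k) (by simpa using h))

theorem div_mem (hη : PGen I η) (hy : Zr I y) {k : σ} (hk : y k ≠ 0) {d : ℕ}
    {G : MvPolynomial σ κ} (hG : G.IsHomogeneous d) : aeval η G / η k ^ d ∈ Oq η y := by
  have h := pow_ne_zero d (ne hη hy hk)
  refine ⟨d, G, X k ^ d, hG, by simpa using (isHomogeneous_X κ k).pow d,
    by simpa using fun h0 => absurd h0 hk, by simpa using fun h0 => absurd h0 (ne hη hy hk), ?_⟩
  rw [map_pow, aeval_X, div_mul_cancel₀ _ h]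

theorem frac (hη : PGen I η) (hy : Zr I y) (h0 : y ≠ 0) (hr : rat κ η = ⊤) :
    IsFractionRing (Oq η y) F := by
  obtain ⟨k, hk⟩ := Function.ne_iff.1 h0
  refine IsFractionRing.of_field _ _ fun z => ?_
  obtain ⟨d, U, V, a1, a2, a3, a4⟩ := T58.rat_ratio (L := κ) η (t := z) (hr ▸ trivial)
  refine ⟨⟨_, div_mem hη hy hk a1⟩, ⟨_, div_mem hη hy hk a2⟩, ?_⟩
  change z = aeval η U / η k ^ d / (aeval η V / η k ^ d)
  rw [div_div_div_cancel_right₀ (pow_ne_zero d (ne hη hy hk)), ← a4, mul_div_cancel_right₀ _ a3]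

theorem den {ι : Type} (s : Finset ι) (u : ι → Oq η y) : ∃ (d : ℕ) (G : ι → MvPolynomial σ κ)
    (H : MvPolynomial σ κ), (∀ i ∈ s, (G i).IsHomogeneous d) ∧ H.IsHomogeneous d ∧
      aeval y H ≠ 0 ∧ aeval η H ≠ 0 ∧ ∀ i ∈ s, (u i : F) * aeval η H = aeval η (G i) := by
  classical
  induction s using Finset.induction_on with
  | empty => exact ⟨0, fun _ => 0, 1, by simp, isHomogeneous_one _ _, by simp, by simp, by simp⟩
  | insert j s hj ih =>
    obtain ⟨d, G, H, a1, a2, a3, a4, a5⟩ := ih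
    obtain ⟨d', G', H', b1, b2, b3, b4, b5⟩ := (u j).2
    refine ⟨d + d', fun i => if i = j then H * G' else G i * H', H * H', fun i hi => ?_, a2.mul b2,
      by rw [map_mul]; exact mul_ne_zero a3 b3, by rw [map_mul]; exact mul_ne_zero a4 b4,
      fun i hi => ?_⟩
    · by_cases h : i = j
      · simpa only [h, if_true] using a2.mul b1
      · simpa only [h, if_false] using
          (a1 i ((Finset.mem_insert.1 hi).resolve_left h)).mul b2
    · by_cases h : i = j
      · simp only [h, if_true, map_mul, ← b5]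
        ring
      · simp only [h, if_false, map_mul, ← a5 i ((Finset.mem_insert.1 hi).resolve_left h)]
        ring

end XOQ

theorem st_OQ : St_OQ := by
  intro κ σ F _ _ _ _ I η y hη hy h0
  refine ⟨?_, ⟨XOQ.rho hη hy, XOQ.rho_res hη hy, XOQ.unit_iff hη hy⟩, XOQ.frac hη hy h0,
    fun k hk => ⟨XOQ.ne hη hy hk, fun d G hG => XOQ.div_mem hη hy hk hG, fun V hV => ?_⟩,
    fun ι _ u => ?_, fun hr hU u hu => ?_⟩
  · refine IsLocalRing.of_isUnit_or_isUnit_one_sub_self fun a => ?_
    rw [XOQ.unit_iff hη hy, XOQ.unit_iff hη hy, map_sub, map_one]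
    by_cases h : XOQ.rho hη hy a = 0
    · right
      rw [h, sub_zero]
      exact one_ne_zero
    · exact Or.inl h
  · refine le_antisymm (T44.gv_le fun i => ?_) (T44.le_gv V η k)
    have h1 := hV _ (XOQ.div_mem hη hy hk (isHomogeneous_X κ i))
    rw [aeval_X, pow_one] at h1
    have h2 := (V.valuation_le_one_iff _).2 h1
    have h3 : V.valuation (η k) ≠ 0 := (Valuation.ne_zero_iff _).2 (XOQ.ne hη hy hk)
    rwa [map_div₀, div_le_one₀ (zero_lt_iff.2 h3)] at h2
  · obtain ⟨d, G, H, a1, a2, a3, a4, a5⟩ := XOQ.den Finset.univ u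
    exact ⟨d, G, H, fun i => a1 i (Finset.mem_univ i), a2, a3, a4,
      fun i => a5 i (Finset.mem_univ i)⟩
  · have := XOQ.frac hη hy h0 hr
    have h1 : IsIntegrallyClosed (Oq η y) := inferInstance
    have h2 : IsIntegrallyClosedIn (Oq η y) F :=
      (isIntegrallyClosed_iff_isIntegrallyClosedIn F).1 h1
    have h3 : IsIntegrallyClosedIn (Oq η y).toSubring F := h2
    by_contra hn
    obtain ⟨V, a1, a2⟩ :=
      (Oq η y).toSubring.exists_le_valuationSubring_of_isIntegrallyClosedIn (x := u) hn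
    exact a2 (hu V fun v hv => a1 hv)

end D4C.SA
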