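import Pool.Agent.Lib.SA.Kit

/-! sa56 row PG: the gcd bound along a generic sequence. -/

namespace D4C.SA

open MvPolynomial Filter

theorem st_PG (hCOD2 : St_COD2) : D4C.St_PG := by
  intro L σ _ _ _ _ B r e f hf hcod U x xr hxr hT hg ε hε
  obtain ⟨L', _, _, _, B', g, x', y, xs, hD, hdim, ⟨Ch⟩, hxs, hgen⟩ := All.a_STR2 L σ B U x hT
  have hH0 : ∀ n, 0 ≤ B.ht (x n) := fun n => Height.logHeight_nonneg _
  rcases Nat.eq_zero_or_pos e with rfl | he
  · refine Eventually.of_forall fun n => ?_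
    have h1 := Height.logHeight_nonneg fun i => aeval (xr n) (f i)
    have h2 := mul_nonneg hε.le (hH0 n)
    simp only [Nat.cast_zero, zero_sub, neg_mul]
    linarith
  obtain ⟨hT', c, hc, hcmp⟩ := All.a_DECH L σ B U x L' B' x' y hT hD
  obtain ⟨v, hv⟩ := T34.small_rep All.a_SMP B U _ hT' y fun δ hδ => by
    filter_upwards [hD.small (δ / c) (by positivity), hcmp] with n h1 h2
    refine h1.trans ?_
    rw [div_mul_eq_mul_div, div_le_iff₀ hc]
    nlinarith [h2.1]
  let _ : Algebra L (sm U L' fun n => B'.ht (x' n)) :=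
    ((algebraMap L' (sm U L' fun n => B'.ht (x' n))).comp (algebraMap L L')).toAlgebra
  have _ : IsScalarTower L L' (sm U L' fun n => B'.ht (x' n)) :=
    IsScalarTower.of_algebraMap_eq fun _ => rfl
  let _ : Algebra L (Ul U L') := ((algebraMap L' (Ul U L')).comp (algebraMap L L')).toAlgebra
  have tw : T10.Tow U L L' := fun _ => rfl
  have hpull := T34.hom_pull B f hf v
  obtain ⟨hJh, hspan⟩ := All.a_HSPAN _ σ _ (pullF B f v) _ hpull
  have hN : 1 ≤ B.β * e := Nat.mul_pos B.β_pos he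
  obtain ⟨e1, D, ξ, hsop, hdvd, hξ⟩ := All.a_HSOP _ σ (ext B'.I (sm U L' fun n => B'.ht (x' n)))
    (Ideal.span (Set.range (pullF B f v))) (g + 1) 2 (B.β * e) (B'.gprime _) B'.hom.ext hJh
    (All.a_SUBF L σ B L' _ B' (g + 1) hD.sub hdim).2 hN fun q' hq h1 h2 => by
      exact_mod_cast hCOD2 L σ B r e f hf hcod U x xr hxr hg L' B' g x' y hD hdim _ v hv q' hq h1
        fun u => h2 (Ideal.subset_span ⟨u, rfl⟩)
  obtain ⟨k, rfl⟩ : ∃ k, e1 = k + B.β * e :=
    ⟨e1 - B.β * e, (Nat.sub_add_cancel (Nat.le_of_dvd hsop.e_pos hdvd)).symm⟩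
  obtain ⟨G0, hG0, hξ0⟩ := hspan (ξ 0) k (hsop.hom 0) (hξ 0 (by simp))
  obtain ⟨G1, hG1, hξ1⟩ := hspan (ξ 1) k (hsop.hom 1) (hξ 1 (by simp))
  obtain ⟨a0, ha0⟩ := T10.toU_surj (aeval xs (ξ 0))
  obtain ⟨a1, ha1⟩ := T10.toU_surj (aeval xs (ξ 1))
  obtain ⟨hne, hE⟩ := All.a_EBU2 L' σ B' g hdim Ch U x' hT' xs hxs hgen _ D ξ hsop
    (fun n => ![a0 n, a1 n]) ha0 ha1
  obtain ⟨xr', hxr', rfl⟩ := hxs
  obtain ⟨vr, hvr, hvs⟩ := hv
  have hlam : ∀ᶠ n in U, ∃ l : Fin B.nl → L', ∀ a,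
      ev2 (B.A a) (xr' n) (vr n) = l a • fun s => algebraMap L L' (xr n s) := by
    filter_upwards [hD.eq, hxr', hvr] with n h1 h2 h3
    have h4 := (hxr n).map (Algebra.ofId L L')
    rw [h1] at h4
    choose l hl using (hD.sub.rep h2).law_eq_smul h3 h4
    exact ⟨l, hl⟩
  obtain ⟨lam, hlam⟩ := hlam.choice
  have hcore := T34.core (R := sm U L' fun n => B'.ht (x' n)) B f (Ω := Ul U L') (fun _ => rfl) hf
    v (fun i => toU U fun n => xr' n i) (fun s => toU U fun n => algebraMap L L' (xr n s))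
    (fun a => toU U fun n => lam n a) fun a => by
      refine (congrArg _ hvs).trans ((T10.ev2_toU tw _ xr' vr).trans (funext fun s => ?_))
      rw [Pi.smul_apply, smul_eq_mul, ← map_mul]
      exact T10.toU_eq_iff.2 (hlam.mono fun n hn => congrFun (hn a) s)
  have hB := All.a_BILU U L' _ hT' σ (Fin 2 × σ) (Fin r) (k + B.β * e)
    (fun u i => ∑ a, ![G0, G1] u.1 (a, i) * (ev2 (B.A a) X (fun s => C (v s)) u.2) ^ e) xr'
    (fun n i => algebraMap L L' (aeval (xr n) (f i)))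
    (fun n u => ![a0 n, a1 n] u.1 * ((fun s => algebraMap L L' (xr n s)) ^ e) u.2)
    (fun u i => IsHomogeneous.sum _ _ _ fun a _ => by
      refine IsHomogeneous.mul ?_ ((T34.hom_half (B.A_hom a u.2) v).pow e)
      obtain ⟨j, s⟩ := u
      fin_cases j
      · exact hG0 _
      · exact hG1 _)
    hgen.1 (by
      have h1 : ∀ i, (toU U fun n => algebraMap L L' (aeval (xr n) (f i))) =
          aeval (fun s => toU U fun n => algebraMap L L' (xr n s)) (f i) := fun i => by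
        rw [T10.aeval_toU tw (fun n s => algebraMap L L' (xr n s))]
        exact congrArg _ (funext fun n =>
          (aeval_map_alg (Algebra.ofId L L') (xr n) (f i)).symm)
      rintro ⟨j, s⟩
      simp only [h1]
      fin_cases j
      · refine Eq.trans ?_ (hcore G0 s)
        rw [← hξ0, ← ha0, ← map_pow, ← map_mul]
        rfl
      · refine Eq.trans ?_ (hcore G1 s)
        rw [← hξ1, ← ha1, ← map_pow, ← map_mul]
        rfl)
  rw [← ha0] at hne
  have hd : (1 : ℝ) ≤ Module.finrank L L' := by exact_mod_cast Module.finrank_pos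
  filter_upwards [hE (ε / (2 * c)) (by positivity), hB (ε / (2 * c)) (by positivity), hcmp, hxr',
    T10.toU_ne_zero.1 hne] with n h1 h2 h3 h4 h5
  have h6 : (fun s => algebraMap L L' (xr n s)) ≠ 0 :=
    uni_iff_ne_zero.1 ((hxr n).uni.map (algebraMap L L'))
  have h7 : ((fun s => algebraMap L L' (xr n s)) ^ e) ≠ 0 := fun h => h6 (funext fun s =>
    pow_eq_zero_iff he.ne' |>.1 (congrFun h s))
  rw [Height.logHeight_fun_mul_eq (x := ![a0 n, a1 n]) (fun h => h5 (congrFun h 0)) h7,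
    Height.logHeight_pow, All.a_HEXT, All.a_HEXT, ← (hxr n).ht, ← h4.ht] at h2
  have h8 : ε / (2 * c) * B'.ht (x' n) ≤ ε / 2 * B.ht (x n) := by
    refine (mul_le_mul_of_nonneg_left h3.2 (by positivity)).trans (le_of_eq ?_)
    field_simp
  have h9 := mul_nonneg hε.le (hH0 n)
  by_contra hlt0
  have hlt : ε * B.ht (x n) <
      e * B.ht (x n) - Height.logHeight fun i => aeval (xr n) (f i) := by
    linarith [not_le.1 hlt0]
  have h10 := mul_le_mul_of_nonneg_right hd (h9.trans hlt.le)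
  linarith

end D4C.SA
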