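import Pool.Agent.Lib.SA.Kit

/-! Row PIECE: the geometric alternative on a translate. -/

namespace D4C.SA

open MvPolynomial

theorem st_PIECE (hRM : St_RM) (hGEO1 : St_GEO1) (hFIN : St_FIN) (hRIG : St_RIG) (hINV : St_INV)
    (hROOT : St_ROOT) : St_PIECE := by
  intro L κ σ ρ _ _ _ _ _ _ _ _ B lam Q J hNZ hdef
  obtain ⟨hJ, b₀, hb₀, hb₀0⟩ := hNZ
  obtain ⟨b₁, l₁, hb₁, hl₁⟩ := hdef
  have h2 : Sub2 B ((B.bc κ).sub J hJ) := T99.sub2_sub B J hJ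
  obtain ⟨lam1, hlam⟩ := hRM.tr L σ ρ B lam κ Q J (sub_prime hJ) hJ.le
  have hQ : B.map (IsScalarTower.toAlgHom L κ κ) Q = Q :=
    (rep_map_rp (IsScalarTower.toAlgHom L κ κ) Q).eq (B.rep_rp Q) (Par.refl _)
  have key : ∀ (b : B.Pt κ) (x : σ → κ) (l : ρ → κ), B.Rep b x →
      (lam1.Val x l ↔ lam.Val (B.rp (Q + b)) l) := fun b x l hx =>
    hlam κ b x _ l hx (by rw [hQ]; exact B.rep_rp _)
  have surj : ∀ b : B.Pt κ, Zr J (B.rp b) → ∃ t : ((B.bc κ).sub J hJ).Pt κ,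
      ((B.bc κ).sub J hJ).Rep t (B.rp b) ∧ h2.hom κ t = b := fun b hb =>
    hom_surj h2 (B.rep_rp b) hb
  have hnz : ∃ a i, lam1.S a i ∉ J := by
    obtain ⟨-, a, ha, -⟩ := (key b₁ _ l₁ (B.rep_rp b₁)).2 hl₁
    obtain ⟨i, hi⟩ := Function.ne_iff.1 ha
    exact ⟨a, i, fun h => hi (hb₁ _ h)⟩
  have hpt : ∃ t : ((B.bc κ).sub J hJ).Pt κ, t ≠ 0 := by
    obtain ⟨t, -, ht⟩ := surj b₀ hb₀
    exact ⟨t, fun h => hb₀0 (by rw [← ht, h, map_zero])⟩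
  obtain ⟨m, N, M, hm, hM, hF, hC⟩ := hGEO1 κ σ ρ ((B.bc κ).sub J hJ) lam1 hnz hpt
  by_cases hfin : ∀ y : ρ ⊕ Fin N → κ,
      {p : ((B.bc κ).sub J hJ).Pt κ | M.Val (((B.bc κ).sub J hJ).rp p) y}.Finite
  · refine Or.inr ⟨⟨Q, J, ⟨hJ, b₀, hb₀, hb₀0⟩, m, N, hm, M, hM, fun y => ?_,
      fun b l y hb hl hy => ?_, hC⟩, rfl, rfl⟩
    · refine ((hfin y).image (h2.hom κ)).subset fun b hb => ?_
      obtain ⟨t, ht, he⟩ := surj b hb.1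
      exact ⟨t, (val_iff ht (Pkg.rep_rp _ t)).1 hb.2, he⟩
    · exact hF (B.rp b) l y hb (rp_ne b) ((key b _ l (B.rep_rp b)).2 hl) hy
  · obtain ⟨y₀, hy₀⟩ := not_forall.1 hfin
    obtain ⟨q, hq, hqh, hqI, hqv, hq2⟩ := hFIN.fib κ σ _ ((B.bc κ).sub J hJ) M hM y₀ hy₀
    obtain ⟨J', hJ', ⟨c, hc, hc0⟩, hinv⟩ := hINV κ σ _ ((B.bc κ).sub J hJ) M hM q hq hqh hqI hq2
      (hRIG κ σ _ ((B.bc κ).sub J hJ) M hM q hq hqh hqI y₀ hqv)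
    have hroot := hROOT κ σ ρ _ ((B.bc κ).sub J hJ) lam1 m M hm hM hF J' hJ' hinv
    have hle : J ≤ J' := hJ'.le
    refine Or.inl ⟨J', ⟨⟨le_trans hJ.le hle, hJ'.hom, hJ'.gprime, hJ'.o_mem, hJ'.neg_mem,
      hJ'.add_mem⟩, h2.hom κ c, (zr_iff hJ'.hom (rep_hom_rp h2 c) (B.rep_rp _)).1 hc,
      fun h => hc0 (hom_inj h2 (h.trans (map_zero _).symm))⟩, fun b b' l l' hb hb' hl hl' => ?_⟩
    obtain ⟨t, -, rfl⟩ := surj b hb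
    obtain ⟨t', ht', rfl⟩ := surj b' fun F hF => hb' F (hle hF)
    refine hroot t t' l l' ((zr_iff hJ'.hom ht' (Pkg.rep_rp _ t')).1 hb')
      ((key _ _ l (rep_hom_rp h2 t)).2 hl) ((key _ _ l' (rep_hom_rp h2 (t + t'))).2 ?_)
    rwa [map_add, ← add_assoc]

end D4C.SA
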