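import Pool.Agent.Lib.SA.Kit

/-! SharpAll block PQ2: values of small height are constant along the translates. -/

open MvPolynomial Filter

namespace D4C.SA

namespace XPQ2

theorem sum_ite {ρ σ L R : Type} [Fintype ρ] [DecidableEq ρ] [Field L] [CommRing R] [Algebra L R]
    (c : ρ → R) (x : σ → R) (F G : MvPolynomial σ L) (i j : ρ) :
    ∑ u, c u * aeval x ((if u = j then F else 0) - if u = i then G else 0) =
      c j * aeval x F - c i * aeval x G := by
  simp only [map_sub, mul_sub, Finset.sum_sub_distrib, apply_ite (aeval x), map_zero, mul_ite,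
    mul_zero, Finset.sum_ite_eq', Finset.mem_univ, if_true]

end XPQ2

theorem st_PQ2 (hSTRK : St_STRK) : St_PQ2 := by
  intro L κ σ ρ _ _ _ _ _ _ _ _ B lam U x l hx hl hLo
  classical
  obtain ⟨J, hJ, K1, -⟩ := hSTRK L κ σ B U x hx
  refine ⟨J, hJ, ?_⟩
  have key : ∀ (a : lam.ι) (i j : ρ), ∀ᶠ n in U, ∀ b : B.Pt κ, Zr J (B.rp b) →
      algebraMap L κ (l n j) * lam.ev a (B.rp (B.map (Algebra.ofId L κ) (x n) + b)) i -
        algebraMap L κ (l n i) * lam.ev a (B.rp (B.map (Algebra.ofId L κ) (x n) + b)) j = 0 := by
    intro a i j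
    have h := K1 ρ lam.D
      (fun u => (if u = j then lam.S a i else 0) - if u = i then lam.S a j else 0) l
      (fun u => by
        refine IsHomogeneous.sub ?_ ?_
        · split_ifs
          · exact lam.hom a i
          · exact isHomogeneous_zero _ _ _
        · split_ifs
          · exact lam.hom a j
          · exact isHomogeneous_zero _ _ _) hLo (by
        filter_upwards [hl] with n hn
        rw [XPQ2.sum_ite]
        have := hn.par (rp_zr (x n)) a i j
        simp only [Rm.ev] at this
        linear_combination this)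
    filter_upwards [h] with n hn b hb
    have := hn b hb
    rw [XPQ2.sum_ite (fun u => algebraMap L κ (l n u))] at this
    exact this
  have key' : ∀ᶠ n in U, ∀ (a : lam.ι) (i j : ρ), ∀ b : B.Pt κ, Zr J (B.rp b) →
      algebraMap L κ (l n j) * lam.ev a (B.rp (B.map (Algebra.ofId L κ) (x n) + b)) i -
        algebraMap L κ (l n i) * lam.ev a (B.rp (B.map (Algebra.ofId L κ) (x n) + b)) j = 0 :=
    eventually_all.2 fun a => eventually_all.2 fun i => eventually_all.2 fun j => key a i j
  filter_upwards [key'] with n hn b l' hb hv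
  obtain ⟨-, a, ha, hp⟩ := hv
  refine par_trans (fun i j => ?_) ha hp
  have := hn a i j b hb
  linear_combination -this

end D4C.SA
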