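import Pool.Agent.Lib.SA.Kit

/-! A multiple of the moving part is free. -/

namespace D4C.SA

open MvPolynomial

theorem st_REG (hCOL : St_COL) (hSYS : St_SYS) (hUFD : St_UFD) (hREG1 : St_REG1) (hCOV : St_COV)
    (hOQ : St_OQ) : St_REG := by
  intro κ σ ρ F _ _ _ _ _ _ _ _ B η hη hr γ i₀ hγ
  classical
  obtain ⟨N₀, n, c, hc, hloc⟩ := hCOL κ σ ρ F B.I η hη hr (hUFD κ σ F B η hη) γ i₀ hγ
  have hL : ∀ y : σ → κ, y ≠ 0 → Zr B.I y → ∃ (u : Fin N₀ → Oq η y) (t : F), t ≠ 0 ∧ Uni u ∧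
      ∀ j, aeval η (c j) = t * u j := by
    intro y hy0 hy
    obtain ⟨k, hk⟩ := Function.ne_iff.1 hy0
    obtain ⟨s, t, u, -, hs, -, hu, he⟩ := hloc y k hy hk
    have h0 : (s i₀ : F) ≠ 0 := fun h => hγ (by rw [hs, h, mul_zero])
    exact ⟨u, η k ^ n * s i₀,
      mul_ne_zero (pow_ne_zero _ ((hOQ κ σ F B.I η y hη hy hy0).2.2.2.1 k hk).1) h0, hu, he⟩
  obtain ⟨M, hM, hMw⟩ := hSYS κ σ (Fin N₀) F B.I η B.hom hη (fun j => aeval η (c j)) hL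
    ⟨B.o, B.o_ne, B.o_mem⟩
  obtain ⟨j₀, hj₀⟩ := Function.ne_iff.1 hMw.ne
  obtain ⟨N₁, cc, htor, hcov⟩ := hCOV κ σ B (c j₀) n (hc j₀)
    fun h => hj₀ ((hη.2 _ _ (hc j₀)).2 h)
  choose jj hjj using htor
  choose Na ua hNa hva using fun a =>
    hREG1 κ σ (Fin N₀) F B η hη hr n c hc M hM hMw (cc a) (jj a) (hjj a)
  have hP : ∀ a, Na a * ∏ b ∈ Finset.univ.erase a, Na b = ∏ b, Na b := fun a =>
    Finset.mul_prod_erase _ _ (Finset.mem_univ a)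
  refine ⟨2 * ∏ b, Na b, N₁, fun a => ua a ^ ∏ b ∈ Finset.univ.erase a, Na b, ?_, fun y hy0 hy => ?_⟩
  · have : 0 < ∏ b, Na b := Finset.prod_pos fun b _ => hNa b
    omega
  obtain ⟨k, hk⟩ := Function.ne_iff.1 hy0
  obtain ⟨s, t, u, ht, hs, hcop, hu, he⟩ := hloc y k hy hk
  obtain ⟨p, hp⟩ := exists_pt hy0 hy
  choose v hv1 hv2 using fun a => hva a p y k hp hk (s i₀) u hu he
  refine ⟨s, t, fun a => v a ^ ∏ b ∈ Finset.univ.erase a, Na b, ht, hs, hcop, ?_, fun a => ?_⟩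
  · obtain ⟨a, h1, h2⟩ := hcov p
    exact ⟨a, (hv2 a (fun h => h1 (congrFun h j₀)) fun h => h2 (congrFun h j₀)).pow _⟩
  · rw [SubmonoidClass.coe_pow, hv1, mul_pow, ← pow_mul, mul_assoc, hP]

end D4C.SA
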