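import Pool.Agent.Lib.SA.Kit

/-! sa56 row REG1: the function with divisor `N (D (+c) + D (-c) - 2 D)`. -/

set_option linter.unusedSectionVars false
set_option linter.unusedVariables false

namespace D4C.SA

open MvPolynomial

namespace XREG1

theorem alg {Γ : Type} [CommGroupWithZero Γ] {x₁ x₂ s a A b b₁ b₂ : Γ} {n N₁ N₂ : ℕ}
    (hx : x₁ ≠ 0) (E₁ : x₁ * A ^ N₁ = a ^ (2 * N₁)) (E₂ : x₂ * (b₁ * b₂) ^ N₂ = b ^ (2 * N₂))
    (ha : a = b ^ n * s) :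
    s ^ (2 * (N₁ * N₂)) * (x₂ ^ (n * N₁) / x₁ ^ N₂) * (b₁ ^ n * b₂ ^ n) ^ (N₁ * N₂) =
      A ^ (N₁ * N₂) := by
  have h1 : x₁ ^ N₂ * A ^ (N₁ * N₂) = a ^ (2 * (N₁ * N₂)) := by
    rw [pow_mul A, ← mul_pow, E₁, ← pow_mul, mul_assoc]
  have h2 : x₂ ^ (n * N₁) * (b₁ ^ n * b₂ ^ n) ^ (N₁ * N₂) = b ^ (n * (2 * (N₁ * N₂))) := by
    rw [← mul_pow b₁, ← pow_mul (b₁ * b₂), show n * (N₁ * N₂) = N₂ * (n * N₁) by ring,
      pow_mul (b₁ * b₂) N₂, ← mul_pow, E₂, ← pow_mul]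
    congr 1
    ring
  have h3 : x₁ ^ N₂ ≠ 0 := pow_ne_zero _ hx
  apply mul_left_cancel₀ h3
  rw [h1, ha, mul_pow (b ^ n), ← pow_mul b, ← h2, div_eq_mul_inv]
  calc _ = (x₁ ^ N₂ * (x₁ ^ N₂)⁻¹) * (x₂ ^ (n * N₁) * (b₁ ^ n * b₂ ^ n) ^ (N₁ * N₂) *
        s ^ (2 * (N₁ * N₂))) := by ac_rfl
    _ = _ := by rw [mul_inv_cancel₀ h3, one_mul]

variable {κ σ τ F : Type} [Field κ] [Fintype σ] [Fintype τ] [Field F] [Algebra κ F]
  {I : Ideal (MvPolynomial σ κ)}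

/-- values at two generic points -/
theorem val_gen {η η' : σ → F} (h : PGen I η) (h' : PGen I η') {n : ℕ}
    {cf : τ → MvPolynomial σ κ} (hc : ∀ j, (cf j).IsHomogeneous n) {M : Rm I τ}
    (hv : M.Val η fun j => aeval η (cf j)) : M.Val η' fun j => aeval η' (cf j) := by
  obtain ⟨h0, a, ha, hp⟩ := hv
  have key : ∀ (G : MvPolynomial σ κ) (d : ℕ), G.IsHomogeneous d →
      (aeval η G = 0 ↔ aeval η' G = 0) := fun G d hG => (h.2 G d hG).trans (h'.2 G d hG).symm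
  refine ⟨fun e => h0 (funext fun j => (key _ _ (hc j)).2 (congrFun e j)), a,
    fun e => ha (funext fun j => (key _ _ (M.hom a j)).2 (congrFun e j)), fun i j => ?_⟩
  have h1 := (key (M.S a i * cf j - M.S a j * cf i) _
    (((M.hom a i).mul (hc j)).sub ((M.hom a j).mul (hc i)))).1 (by
      rw [map_sub, map_mul, map_mul, sub_eq_zero]
      exact hp i j)
  rw [map_sub, map_mul, map_mul, sub_eq_zero] at h1
  exact h1

/-- size of a tuple of forms at a valuation ring over the local ring -/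
theorem size (hOQ : St_OQ) {η : σ → F} {y : σ → κ} (h : PGen I η) (hy : Zr I y) (h0 : y ≠ 0)
    {n : ℕ} {cf : τ → MvPolynomial σ κ} (hc : ∀ j, (cf j).IsHomogeneous n)
    (V : ValuationSubring F) (hV : ∀ u ∈ Oq η y, u ∈ V) :
    gv V η ≠ 0 ∧ (gv V fun j => aeval η (cf j)) ≤ gv V η ^ n ∧
      ((fun j => aeval y (cf j)) ≠ 0 → (gv V fun j => aeval η (cf j)) = gv V η ^ n) := by
  obtain ⟨k, hk⟩ := Function.ne_iff.1 h0
  obtain ⟨-, -, -, h4, -, -⟩ := hOQ κ σ F I η y h hy h0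
  obtain ⟨h5, h6, h7⟩ := h4 k hk
  have h8 : V.valuation (η k) ≠ 0 := (map_ne_zero V.valuation).2 h5
  have h9 : (gv V fun j => aeval η (cf j)) ≤ gv V η ^ n := by
    refine T44.gv_le fun j => ?_
    have := (V.valuation_le_one_iff _).2 (hV _ (h6 n _ (hc j)))
    rw [map_div₀, map_pow, div_le_one₀ (pow_pos (zero_lt_iff.2 h8) _)] at this
    rwa [h7 V hV]
  refine ⟨by rwa [h7 V hV], h9, fun hn => le_antisymm h9 ?_⟩
  obtain ⟨j, hj⟩ := Function.ne_iff.1 hn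
  have hj : aeval y (cf j) ≠ 0 := hj
  have hj' : aeval η (cf j) ≠ 0 := fun e => hj (hy _ ((h.2 _ _ (hc j)).1 e))
  have hm : η k ^ n / aeval η (cf j) ∈ Oq η y :=
    ⟨n, X k ^ n, cf j, by simpa using (isHomogeneous_X κ k).pow n, hc j, hj, hj', by
      rw [div_mul_cancel₀ _ hj', map_pow, aeval_X]⟩
  have := (V.valuation_le_one_iff _).2 (hV _ hm)
  rw [map_div₀, map_pow, div_le_one₀ (zero_lt_iff.2 ((map_ne_zero V.valuation).2 hj'))] at this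
  rw [h7 V hV]
  exact this.trans (T44.le_gv V (fun j => aeval η (cf j)) j)

/-- a unimodular vector has size one -/
theorem gv_uni {η : σ → F} {y : σ → κ} {w : τ → Oq η y} (hw : Uni w) (V : ValuationSubring F)
    (hV : ∀ u ∈ Oq η y, u ∈ V) : (gv V fun j => (w j : F)) = 1 := by
  obtain ⟨j, z, hz⟩ := hw
  refine le_antisymm (T44.gv_le fun i => (V.valuation_le_one_iff _).2 (hV _ (w i).2)) ?_
  refine le_trans ?_ (T44.le_gv V (fun j => (w j : F)) j)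
  have h1 : ((w j : Oq η y) : F) * ((z⁻¹ : (Oq η y)ˣ) : Oq η y) = 1 := by
    rw [← hz, ← Subalgebra.coe_mul, Units.mul_inv, Subalgebra.coe_one]
  have h2 := congrArg V.valuation h1
  rw [map_mul, map_one] at h2
  have h3 := (V.valuation_le_one_iff _).2 (hV _ ((z⁻¹ : (Oq η y)ˣ) : Oq η y).2)
  calc 1 = _ := h2.symm
    _ ≤ V.valuation (w j : F) * 1 := mul_le_mul_right h3 _
    _ = _ := mul_one _

end XREG1

open XREG1

theorem st_REG1 (hSQF : St_SQF) (hRM : St_RM) (hOQ : St_OQ) (hUFD : St_UFD) (hTRG : St_TRG) :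
    St_REG1 := by
  intro κ σ τ F _ _ _ _ _ _ _ _ _ B η hη hr n cf hc M hM hv c j hj
  obtain ⟨e, he⟩ := exists_pt (B := B) hη.1 (pgen_zr B.hom hη)
  have r₁ := B.rep_rp (e + B.map (Algebra.ofId κ F) c)
  have r₂ := B.rep_rp (e - B.map (Algebra.ofId κ F) c)
  obtain ⟨g₁, t₁⟩ := hTRG κ σ F B e η _ c he hη r₁
  obtain ⟨g₂, t₂⟩ := hTRG κ σ F B e η (B.rp (e - B.map (Algebra.ofId κ F) c)) (-c) he hη
    (by rw [map_neg, ← sub_eq_add_neg]; exact r₂)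
  obtain ⟨N₁, u₁, hN₁, hu₁, E₁⟩ := hSQF κ σ τ B M hM F c j hj e η _ _ _ _ _ he r₁ r₂ hv
    (val_gen hη g₁ hc hv) (val_gen hη g₂ hc hv)
  obtain ⟨M₀, hM₀, hid⟩ := hRM.idm κ σ B.I
  obtain ⟨N₂, u₂, hN₂, hu₂, E₂⟩ := hSQF κ σ σ B M₀ hM₀ F c j hj e η _ _ _ _ _ he r₁ r₂
    (hid F _ hη.1) (hid F _ g₁.1) (hid F _ g₂.1)
  refine ⟨N₁ * N₂, u₂ ^ (n * N₁) / u₁ ^ N₂, Nat.mul_pos hN₁ hN₂, fun p y k hp hk s w hw hs => ?_⟩
  have hy0 := rep_ne hp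
  obtain ⟨-, -, -, h4, -, h6⟩ := hOQ κ σ F B.I η y hη hp.zr hy0
  have h6 := h6 hr (hUFD κ σ F B η hη y hy0 hp.zr)
  have o₁ := t₁ p y _ hp (B.rep_rp (p + c))
  have o₂ := t₂ p y (B.rp (p - c)) hp (by rw [← sub_eq_add_neg]; exact B.rep_rp _)
  have hs0 : (s : F) ≠ 0 := fun h => hv.1 (funext fun i => by rw [hs, h]; simp)
  have hx0 : (s : F) ^ (2 * (N₁ * N₂)) * (u₂ ^ (n * N₁) / u₁ ^ N₂) ≠ 0 :=
    mul_ne_zero (pow_ne_zero _ hs0) (div_ne_zero (pow_ne_zero _ hu₂) (pow_ne_zero _ hu₁))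
  have key : ∀ V : ValuationSubring F, (∀ v ∈ Oq η y, v ∈ V) →
      V.valuation ((s : F) ^ (2 * (N₁ * N₂)) * (u₂ ^ (n * N₁) / u₁ ^ N₂)) ≤ 1 ∧
      ((fun j => aeval (B.rp (p + c)) (cf j)) ≠ 0 → (fun j => aeval (B.rp (p - c)) (cf j)) ≠ 0 →
        V.valuation ((s : F) ^ (2 * (N₁ * N₂)) * (u₂ ^ (n * N₁) / u₁ ^ N₂)) = 1) := by
    intro V hV
    have hO : Ov κ V := fun a => hV _ ((Oq η y).algebraMap_mem a)
    obtain ⟨a1, a2, a3⟩ := size hOQ g₁ (rp_zr _) (rp_ne (p + c)) hc V (by rwa [o₁])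
    obtain ⟨b1, b2, b3⟩ := size hOQ g₂ (rp_zr _) (rp_ne (p - c)) hc V (by rwa [o₂])
    have ha : (gv V fun j => aeval η (cf j)) = gv V η ^ n * V.valuation (s : F) := by
      have : (fun j => aeval η (cf j)) = (η k ^ n * (s : F)) • fun j => (w j : F) :=
        funext fun j => hs j
      rw [this, T44.gv_smul, gv_uni hw V hV, mul_one, map_mul, map_pow, (h4 k hk).2.2 V hV]
    have h := alg ((map_ne_zero V.valuation).2 hu₁) (E₁ V hO) (E₂ V hO) ha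
    have hB := pow_pos (zero_lt_iff.2 (mul_ne_zero (pow_ne_zero n a1) (pow_ne_zero n b1)))
      (N₁ * N₂)
    rw [map_mul, map_div₀, map_pow, map_pow, map_pow]
    refine ⟨?_, fun c1 c2 => ?_⟩
    · rw [← mul_le_mul_iff_left₀ hB, h, one_mul]
      exact pow_le_pow_left' (mul_le_mul' a2 b2) _
    · rw [a3 c1, b3 c2] at h
      exact mul_right_cancel₀ hB.ne' (by rw [h, one_mul])
  refine ⟨⟨_, h6 _ fun V hV => (V.valuation_le_one_iff _).1 (key V hV).1⟩, rfl, fun c1 c2 => ?_⟩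
  refine IsUnit.of_mul_eq_one ⟨_, h6 ((s : F) ^ (2 * (N₁ * N₂)) * (u₂ ^ (n * N₁) / u₁ ^ N₂))⁻¹
    fun V hV => (V.valuation_le_one_iff _).1 ?_⟩ (Subtype.ext (mul_inv_cancel₀ hx0))
  rw [map_inv₀, (key V hV).2 c1 c2, inv_one]

end D4C.SA
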