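import Pool.Agent.Lib.SA.Kit

/-! Row RET of the sa56 blueprint: a partner of comparable height. -/

namespace D4C.SA

namespace XRET

variable {G : Type} [AddCommGroup G] {h : G → ℝ}

/-- a height restricts to a subgroup -/
theorem sub (hh : IsHt h) (W : AddSubgroup G) : IsHt (fun p : W => h p) := by
  obtain ⟨β, C, hβ, hC, hadd, hdbl⟩ := hh.est
  refine ⟨?_, fun p => hh.nonneg _, fun p => hh.neg _,
    ⟨β, C, hβ, hC, fun p q => hadd _ _, fun k p => hdbl k _⟩, fun b => ?_⟩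
  · have h1 : Module.Finite ℤ G := Module.Finite.iff_addGroup_fg.mpr hh.fg
    have h2 : Module.Finite ℤ (AddSubgroup.toIntSubmodule W) := inferInstance
    exact Module.Finite.iff_addGroup_fg.mp h2
  · exact (hh.north b).preimage Subtype.val_injective.injOn

/-- a height dominates every function with the two upper estimates -/
theorem dom (hh : IsHt h) {F : G → ℝ} {β : ℝ} (hβ : 1 ≤ β)
    (hadd : ∀ p q, F (p + q) ≤ β * (F p + F q))
    (hdbl : ∀ (κ : ℕ) p, F (2 ^ κ • p) ≤ 2 * 4 ^ κ * F p) :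
    ∃ C : ℝ, 0 ≤ C ∧ ∀ p, F p ≤ C * (h p + 1) := by
  obtain ⟨r, φ, hs, hf⟩ := T32.lattice G hh.fg
  obtain ⟨K, hK1, hK⟩ := T32.upper hs hf hβ hadd hdbl
  obtain ⟨β', C, hβ', hC, hadd0, hdbl0⟩ := hh.est
  have hadd' : ∀ p q, h (p + q) + C ≤ β' * ((h p + C) + (h q + C)) := fun p q => by
    have := hadd0 p q
    nlinarith
  obtain ⟨K', -, hK'⟩ := T32.upper (H := fun p => h p + C) hs hf hβ' hadd' fun κ p => by
    have h1 := (abs_le.mp (hdbl0 κ p)).2
    have h2 : (1 : ℝ) ≤ 4 ^ κ := one_le_pow₀ (by norm_num)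
    have h3 := hh.nonneg p
    nlinarith [mul_nonneg (sub_nonneg.mpr h2) hC, mul_nonneg (zero_le_one.trans h2) h3]
  obtain ⟨j, c, hc, hL⟩ := T32.lower (H := fun p => h p + C) (C := 2 * C) hs hβ' hadd'
    (fun p => by rw [hh.neg]) (fun κ p => by
      have h1 := (abs_le.mp (hdbl0 κ p)).1
      nlinarith) (fun b => (hh.north (b - C)).subset fun p hp => by
        simp only [Set.mem_ofPred_eq] at hp ⊢
        linarith) hK'
  refine ⟨4 * K / c * (1 + C) + 4 * K * 4 ^ j, by positivity, fun p => ?_⟩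
  obtain ⟨m, hm1, hm2⟩ := T32.scale (φ p)
  have h1 := hK _ p hm1
  simp only [pow_succ] at h1
  have h2 := hh.nonneg p
  have h3 : 0 ≤ 4 * K / c := by positivity
  have h4 : (0 : ℝ) ≤ 4 * K * 4 ^ j := by positivity
  rcases le_or_gt m j with hj | hj
  · have h5 : (4 : ℝ) ^ m ≤ 4 ^ j := pow_le_pow_right₀ (by norm_num) hj
    have h6 : 0 ≤ 4 * K / c * (1 + C) := by positivity
    nlinarith [mul_nonneg h6 h2, mul_nonneg h4 h2]
  · have h5 := hL m p hj.le (hm2.resolve_left (by omega))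
    have h6 : K * (4 ^ m * 4) = 4 * K / c * (c * 4 ^ m) := by field_simp
    have h7 := mul_le_mul_of_nonneg_left h5 h3
    nlinarith [mul_nonneg h4 h2, mul_nonneg (mul_nonneg h3 hC) h2]

end XRET

theorem st_RET : St_RET := by
  intro G G' _ _ h h' hh hh' ι H
  let W : AddSubgroup G' := ι.range ⊔ H
  have hW : ∀ z : G', z ∈ W ↔ ∃ y, ι y - z ∈ H := fun z => by
    rw [AddSubgroup.mem_sup]
    constructor
    · rintro ⟨_, ⟨y, rfl⟩, b, hb, rfl⟩
      exact ⟨y, by simpa using hb⟩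
    · rintro ⟨y, hy⟩
      exact ⟨ι y, ⟨y, rfl⟩, -(ι y - z), H.neg_mem hy, by abel⟩
  have hmin : ∀ z : W, ∃ y, ι y - z ∈ H ∧ ∀ y', ι y' - z ∈ H → h y ≤ h y' := fun z => by
    obtain ⟨y0, hy0⟩ := (hW z).mp z.2
    obtain ⟨y, hy, hm⟩ := Set.exists_min_image {y | ι y - z ∈ H ∧ h y ≤ h y0} h
      ((hh.north (h y0)).subset fun y hy => hy.2) ⟨y0, hy0, le_rfl⟩
    refine ⟨y, hy.1, fun y' hy' => ?_⟩
    rcases le_total (h y') (h y0) with h1 | h1
    · exact hm y' ⟨hy', h1⟩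
    · exact hy.2.trans h1
  choose m hm1 hm2 using hmin
  obtain ⟨β, C, hβ, hC, hadd, hdbl⟩ := hh.est
  obtain ⟨K, hK0, hK⟩ := XRET.dom (XRET.sub hh' W) (F := fun z => h (m z) + C) hβ
    (fun p q => by
      have h1 := hm2 (p + q) (m p + m q) (by
        have := H.add_mem (hm1 p) (hm1 q)
        rw [map_add, AddSubgroup.coe_add]
        convert this using 1
        abel)
      have h2 := hadd (m p) (m q)
      nlinarith)
    (fun κ p => by
      have h0 := hm2 (2 ^ κ • p) (2 ^ κ • m p) (by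
        have := H.nsmul_mem (hm1 p) (2 ^ κ)
        rw [map_nsmul, AddSubgroup.coe_nsmul, ← smul_sub]
        exact this)
      have h1 := (abs_le.mp (hdbl κ (m p))).2
      have h2 : (1 : ℝ) ≤ 4 ^ κ := one_le_pow₀ (by norm_num)
      have h3 := hh.nonneg (m p)
      nlinarith [mul_nonneg (sub_nonneg.mpr h2) hC, mul_nonneg (zero_le_one.trans h2) h3])
  refine ⟨K, hK0, fun y z hyz => ?_⟩
  have hz : z ∈ W := (hW z).mpr ⟨y, hyz⟩
  refine ⟨m ⟨z, hz⟩, ?_, ?_⟩
  · have := H.sub_mem hyz (hm1 ⟨z, hz⟩)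
    rw [map_sub]
    convert this using 1
    abel
  · have := hK ⟨z, hz⟩
    simp only at this
    linarith

end D4C.SA
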