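import Pool.Agent.Lib.SA.Kit

/-! sa56 row RIG: rigidity of a morphism that is constant on a subvariety. -/

set_option linter.unusedSectionVars false

namespace D4C.SA

open MvPolynomial

namespace XRIG

variable {κ σ τ : Type} [Field κ] [Fintype σ] [DecidableEq σ] [Fintype τ] {B : Pkg κ σ}
  {M : Rm B.I τ}

section plc

variable {k K Ω : Type} [Field k] [Field K] [Field Ω] [Algebra k K] [Algebra k Ω] [Algebra κ k]
  [Algebra κ K] [Algebra κ Ω] [IsScalarTower κ k K] [IsScalarTower κ k Ω]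

/-- `ρ` is the reduction of points along `P` -/
def IsRed (B : Pkg κ σ) (P : Plc k K Ω) (ρ : B.Pt K →+ B.Pt Ω) : Prop :=
  ∀ (p : B.Pt K) (x : σ → P.O), (B.Rep p fun i => (x i : K)) → (fun i => P.ψ (x i)) ≠ 0 →
    B.Rep (ρ p) fun i => P.ψ (x i)

/-- values specialise -/
theorem spv (hM : M.Mor) (P : Plc k K Ω) {ρ : B.Pt K →+ B.Pt Ω} (hρ : IsRed B P ρ) (r : B.Pt K)
    (y : τ → P.O) (hy : M.Val (B.rp r) fun j => (y j : K)) (h0 : (fun j => P.ψ (y j)) ≠ 0) :
    M.Val (B.rp (ρ r)) fun j => P.ψ (y j) := by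
  let _ : Algebra k P.O := ((algebraMap k K).codRestrict P.O.toSubring P.mem).toAlgebra
  let _ : Algebra κ P.O := ((algebraMap k P.O).comp (algebraMap κ k)).toAlgebra
  have : IsScalarTower κ k P.O := IsScalarTower.of_algebraMap_eq' rfl
  have : IsScalarTower k P.O K := IsScalarTower.of_algebraMap_eq' rfl
  have : IsScalarTower κ P.O K := IsScalarTower.of_algebraMap_eq fun a =>
    IsScalarTower.algebraMap_apply κ k K a
  let ψ : P.O →ₐ[k] Ω := { P.ψ with commutes' := P.alg }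
  obtain ⟨x, hx, x0, -⟩ := T51.exists_rep_plc (B := B) P r
  have h1 := hρ r x hx x0
  refine (val_iff h1 (B.rep_rp _)).1 (hM.val h1.zr x0 h0 fun a => ?_)
  have h2 := ((val_iff (B.rep_rp r) hx).1 hy).par hx.zr a
  have h3 := Rm.ev_map (M := M) (IsScalarTower.toAlgHom κ P.O K) a x
  have h4 : Par (M.ev a x) y := fun i j => Subtype.ext (by
    have := h2 i j
    rw [show (M.ev a fun i => (x i : K)) = fun i => ((M.ev a x i : P.O) : K) from h3] at this
    exact this)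
  have h5 := Rm.ev_map (M := M) (ψ.restrictScalars κ) a x
  rw [show (M.ev a fun i => P.ψ (x i)) = fun i => P.ψ (M.ev a x i) from h5]
  exact h4.map P.ψ

/-- scaling into the valuation ring -/
theorem scale (P : Plc k K Ω) {y : τ → K} (hy : y ≠ 0) : ∃ (y' : τ → P.O) (c : K), c ≠ 0 ∧
    (fun j => (y' j : K)) = c • y ∧ (fun j => P.ψ (y' j)) ≠ 0 := by
  obtain ⟨y', c, hc, ⟨i, hi⟩, h⟩ := T51.exists_uni (O := P.O) y hy
  exact ⟨y', c, hc, h, fun h0 => (P.ker _).mp (congrFun h0 i) hi⟩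

theorem val_smul {x : σ → K} {y : τ → K} (h : M.Val x y) {c : K} (hc : c ≠ 0) :
    M.Val x (c • y) := h.of_par (smul_ne_zero hc h.ne) (par_smul c y)

end plc

/-- a generic point specialises to every point over the base field -/
theorem spec {k K : Type} [Field k] [IsAlgClosed k] [Field K] [Algebra k K] [Algebra κ k]
    [Algebra κ K] [IsScalarTower κ k K] {J : Ideal (MvPolynomial σ k)} (hJ : IsHom J) {z : B.Pt K}
    {x : σ → K} (hz : B.Rep z x) (hx : ∀ F, aeval x F = 0 ↔ F ∈ J) (p : B.Pt k)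
    (hp : Zr J (B.rp p)) : ∃ (P : Plc k K k) (ρ : B.Pt K →+ B.Pt k), IsRed B P ρ ∧ ρ z = p ∧
      (∀ b : B.Pt k, ρ (B.map (IsScalarTower.toAlgHom κ k K) b) = b) ∧
      ∀ (q : Ideal (MvPolynomial σ k)) (b : B.Pt K), IsHom q → Zr q (B.rp b) →
        Zr q (B.rp (ρ b)) := by
  have hg : PGen J (B.rp z) :=
    ⟨rp_ne z, fun F n hF => (form_iff (B.rep_rp z) hz hF).trans (hx F)⟩
  obtain ⟨P, hP⟩ := All.a_GSP k K k σ (B.rp z) (B.rp p) (rp_ne z) (rp_ne p)
    (by rw [(All.a_GPT.eq k σ K J _ hJ hg).1]; exact hp)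
  obtain ⟨ρ, h1, h2, h3, h4⟩ := All.a_RHO κ σ B k K k P
  exact ⟨P, ρ, h3, (h1 z p).1 hP, fun b => (h2 b).trans (B.map_id' b), h4⟩

theorem ne_of_par {Ω : Type} [Field Ω] {x y : τ → Ω} (h : Par x y) (hx : x ≠ 0) {i : τ}
    (hi : y i ≠ 0) : x i ≠ 0 := fun h0 => hx (funext fun j => by
  have := h j i
  rw [h0, zero_mul] at this
  exact (mul_eq_zero.1 this).resolve_right hi)

end XRIG

open XRIG in
theorem st_RIG : St_RIG := by
  intro κ σ τ _ _ _ _ _ B M hM q hq hh hle y₀ h₀ p p' t y hp hp' hy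
  obtain ⟨i, hi⟩ := Function.ne_iff.1 (h₀ p hp).ne
  have hi : y₀ i ≠ 0 := hi
  obtain ⟨k, _, _, _, s, s0, hs⟩ :=
    All.a_GPT.ex κ σ B.I (T39.prime_I B) (exists_X B.o_ne B.o_mem)
  obtain ⟨ts, hts⟩ := exists_pt (B := B) s0 fun F hF => (hs F).2 hF
  have hA : ∀ (z : B.Pt k) (w : τ → k), Zr q (B.rp z) → M.Val (B.rp (z + ts)) w → w i ≠ 0 := by
    intro z w hz hw
    obtain ⟨P, ρ, h1, h2, -, h4⟩ := spec (κ := κ) (k := κ) B.hom hts hs 0 (rp_zr _)
    obtain ⟨w', c, hc, e, w0⟩ := scale P hw.ne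
    have h5 := spv hM P h1 (z + ts) w' (e ▸ val_smul hw hc) w0
    rw [map_add, h2, add_zero] at h5
    have h6 := ne_of_par (h5.uniq (h₀ _ (h4 q z hh hz)) (rp_zr _)) w0 hi
    intro h7
    have h8 : w' i = 0 := Subtype.ext (by
      have := congrFun e i
      simp only [Pi.smul_apply, h7, smul_zero] at this
      exact this)
    exact h6 (by simp only [h8, map_zero])
  have hk : ∀ b : B.Pt κ, Zr q (B.rp b) →
      Zr (ext q k) (B.rp (B.map (IsScalarTower.toAlgHom κ κ k) b)) := fun b hb =>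
    zr_ext.2 ((zr_iff hh (rep_map_rp _ b) (B.rep_rp _)).1 (hb.map _))
  obtain ⟨K, _, _, _, zx, z0, hzx⟩ := All.a_GPT.ex k σ (ext q k) (All.a_IRR κ σ q hq k)
    (exists_X (rp_ne _) (hk p hp))
  let _ : Algebra κ K := ((algebraMap k K).comp (algebraMap κ k)).toAlgebra
  have : IsScalarTower κ k K := IsScalarTower.of_algebraMap_eq' rfl
  have hz1 : Zr (ext q k) zx := fun F hF => (hzx F).2 hF
  obtain ⟨z, hz⟩ := exists_pt (B := B) z0 fun F hF => zr_ext.1 hz1 F (hle hF)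
  have hz2 : Zr (ext q k) (B.rp z) := (zr_iff hh.ext hz (B.rep_rp z)).1 hz1
  obtain ⟨Y, hY⟩ := hM K _ (rp_zr (z + B.map (IsScalarTower.toAlgHom κ k K) ts)) (rp_ne _)
  have hB : ∀ P : Plc k K k, Y i ≠ 0 ∧ ∀ j, Y j / Y i ∈ P.O := by
    intro P
    obtain ⟨ρ, -, h2, h3, h4⟩ := All.a_RHO κ σ B k K k P
    obtain ⟨Y', c, hc, e, w0⟩ := scale P hY.ne
    have h5 := spv hM P h3 _ Y' (e ▸ val_smul hY hc) w0
    rw [map_add, (h2 ts).trans (B.map_id' ts)] at h5
    have h6 := hA _ _ (zr_ext.1 (h4 _ z hh.ext hz2)) h5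
    obtain ⟨b, hb⟩ : ∃ b, Y' i * b = 1 :=
      IsUnit.exists_right_inv (by_contra fun h => h6 ((P.ker _).2 h))
    have h7 : c * Y i * b = 1 := by
      have := congrArg Subtype.val hb
      rw [← show (Y' i : K) = c * Y i from congrFun e i]
      exact this
    have h8 : Y i ≠ 0 := fun h => by
      rw [h, mul_zero, zero_mul] at h7
      exact zero_ne_one h7
    refine ⟨h8, fun j => ?_⟩
    have h9 : Y j / Y i = ((Y' j * b : P.O) : K) := by
      rw [div_eq_iff h8]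
      have : ((Y' j * b : P.O) : K) = c * Y j * b := by
        rw [← show (Y' j : K) = c * Y j from congrFun e j]
        rfl
      rw [this]
      linear_combination (-Y j) * h7
    rw [h9]
    exact (Y' j * b).2
  have hg : ∀ j, ∃ c : k, Y j / Y i = algebraMap k K c := fun j => by
    by_contra h
    obtain ⟨P, hP⟩ := All.a_PL2.inf k K (Y j / Y i) fun c hc => h ⟨c, hc⟩
    exact hP ((hB P).2 j)
  choose g hg using hg
  have hC : ∀ b : B.Pt κ, Zr q (B.rp b) →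
      M.Val (B.rp (B.map (IsScalarTower.toAlgHom κ κ k) b + ts)) g := by
    intro b hb
    obtain ⟨P, ρ, h1, h2, h3, -⟩ := spec (κ := κ) hh.ext hz hzx _ (hk b hb)
    have h8 := (hB P).1
    have e : (fun j => algebraMap k K (g j)) = (Y i)⁻¹ • Y := funext fun j => by
      rw [← hg j, div_eq_inv_mul]
      rfl
    have e' : (fun j => P.ψ ⟨algebraMap k K (g j), P.mem _⟩) = g := funext fun j => P.alg _
    have g0 : g ≠ 0 := (map_ne_zero' (algebraMap k K)).1
      (e ▸ smul_ne_zero (inv_ne_zero h8) hY.ne)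
    have h5 := spv hM P h1 _ (fun j => ⟨algebraMap k K (g j), P.mem _⟩)
      (e ▸ val_smul hY (inv_ne_zero h8)) (e'.symm ▸ g0)
    rwa [map_add, h2, h3, e'] at h5
  obtain ⟨P, ρ, h1, h2, h3, -⟩ := spec (κ := κ) (k := κ) B.hom hts hs t (rp_zr _)
  obtain ⟨g', c, hc, e, w0⟩ := scale P (hC p hp).ne
  have hD : ∀ b : B.Pt κ, Zr q (B.rp b) → M.Val (B.rp (b + t)) fun j => P.ψ (g' j) := by
    intro b hb
    have h5 := spv hM P h1 _ g' (e ▸ val_smul (hC b hb) hc) w0
    rwa [map_add, h2, h3] at h5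
  exact (hD p' hp').of_par hy.ne ((hD p hp).uniq hy (rp_zr _))

end D4C.SA
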