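import Pool.Agent.Lib.SA.Kit

/-! sa56 row RM: translate, negative, tensor product and identity of rational maps. -/

set_option linter.unusedSectionVars false

namespace D4C.SA

open MvPolynomial Filter

namespace XRM

theorem par_left {τ R : Type} [CommRing R] {x y : τ → R} (h : Par x y) (c : R) :
    Par (c • x) y := fun i j => by
  simp only [Pi.smul_apply, smul_eq_mul]
  rw [mul_assoc, mul_assoc, h i j]

theorem par_ev {L σ τ : Type} [Field L] {I : Ideal (MvPolynomial σ L)} (M : Rm I τ) {Ω : Type}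
    [Field Ω] [Algebra L Ω] {u v : σ → Ω} (hu : Zr I u) (hv : Zr I v) (h : Par u v) (a b : M.ι) :
    Par (M.ev a u) (M.ev b v) := by
  by_cases h0 : u = 0
  · have : u = (0 : Ω) • v := by rw [h0, zero_smul]
    rw [this, Rm.ev_smul]
    exact par_left (M.ev_par hv a b) _
  · obtain ⟨t, rfl⟩ := par_smul' h h0
    rw [Rm.ev_smul]
    exact (par_left (M.ev_par hu b a) _).symm

theorem aeval_mk {L σ : Type} [Field L] (I : Ideal (MvPolynomial σ L)) (F : MvPolynomial σ L) :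
    aeval (fun i => Ideal.Quotient.mkₐ L I (X i)) F = 0 ↔ F ∈ I := by
  rw [aeval_map_alg, aeval_X_left_apply]
  exact Ideal.Quotient.eq_zero_iff_mem

theorem exists_ker {κ σ : Type} [Field κ] {J : Ideal (MvPolynomial σ κ)} (hJ : J.IsPrime) :
    ∃ (K : Type) (_ : Field K) (_ : Algebra κ K) (x : σ → K), ∀ F, aeval x F = 0 ↔ F ∈ J := by
  refine ⟨FractionRing (MvPolynomial σ κ ⧸ J), inferInstance, inferInstance,
    fun i => IsScalarTower.toAlgHom κ (MvPolynomial σ κ ⧸ J) _ (Ideal.Quotient.mkₐ κ J (X i)),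
    fun F => ?_⟩
  rw [aeval_map_alg, ← aeval_mk J F]
  exact map_eq_zero_iff _ (IsFractionRing.injective (MvPolynomial σ κ ⧸ J) _)

section tr

variable {L σ τ : Type} [Field L] [Fintype σ] [DecidableEq σ] {B : Pkg L σ} (M : Rm B.I τ)
  {κ : Type} [Field κ] [Algebra L κ] (c : B.Pt κ)

theorem tr_ev {R : Type} [CommRing R] [Algebra L R] [Algebra κ R] [IsScalarTower L κ R]
    (a : M.ι) (l : Fin B.nl) (x : σ → R) :
    (fun i => aeval x (trF B (MvPolynomial.map (algebraMap L κ) (M.S a i)) (B.rp c) l)) =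
      M.ev a (ev2 (B.A l) x fun s => algebraMap κ R (B.rp c s)) := funext fun i => by
  rw [trF_ev, aeval_map_tower]
  rfl

/-- the translated map -/
noncomputable def trM {J : Ideal (MvPolynomial σ κ)} (hJ : J.IsPrime) (hle : ext B.I κ ≤ J) :
    Rm J τ where
  ι := M.ι × Fin B.nl
  fin := inferInstance
  D := B.β * M.D
  S := fun a i => trF B (MvPolynomial.map (algebraMap L κ) (M.S a.1 i)) (B.rp c) a.2
  hom := fun a i => trF_hom ((M.hom a.1 i).map _) _ _
  compat := fun a b i j => by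
    obtain ⟨K, _, _, x, hx⟩ := exists_ker hJ
    let _ : Algebra L K := ((algebraMap κ K).comp (algebraMap L κ)).toAlgebra
    have : IsScalarTower L κ K := IsScalarTower.of_algebraMap_eq' rfl
    have h1 : Zr B.I x := zr_ext.1 fun G hG => (hx G).2 (hle hG)
    have h2 : Zr B.I fun s => algebraMap κ K (B.rp c s) :=
      (rp_zr c).map (IsScalarTower.toAlgHom L κ K)
    have h3 := par_ev M (B.add_mem K _ _ h1 h2 a.2) (B.add_mem K _ _ h1 h2 b.2)
      (B.compat K _ _ h1 h2 a.2 b.2) a.1 b.1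
    rw [← tr_ev, ← tr_ev] at h3
    rw [← hx, map_sub, map_mul, map_mul, sub_eq_zero]
    exact h3 i j

theorem trM_val {J : Ideal (MvPolynomial σ κ)} (hJ : J.IsPrime) (hle : ext B.I κ ≤ J) {Ω : Type}
    [Field Ω] [Algebra L Ω] [Algebra κ Ω] [IsScalarTower L κ Ω] {p : B.Pt Ω} {x w : σ → Ω}
    (y : τ → Ω) (hx : B.Rep p x) (hw : B.Rep (B.map (IsScalarTower.toAlgHom L κ Ω) c + p) w) :
    (trM M c hJ hle).Val x y ↔ M.Val w y := by
  rw [add_comm] at hw
  obtain ⟨t, ⟨l, hl⟩, ht, -⟩ := trF_val (c := B.rp c) hx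
    (rep_map_rp (IsScalarTower.toAlgHom L κ Ω) c) hw
  have e : ∀ a : M.ι × Fin B.nl, (trM M c hJ hle).ev a x = t a.2 ^ M.D • M.ev a.1 w := fun a => by
    rw [← Rm.ev_smul, ← ht, ← tr_ev]
    rfl
  constructor
  · rintro ⟨h0, a, h1, h2⟩
    rw [e a] at h1 h2
    exact ⟨h0, a.1, right_ne_zero_of_smul h1, par_trans (par_smul _ _) h1 h2⟩
  · rintro ⟨h0, a, h1, h2⟩
    refine ⟨h0, (a, l), ?_, ?_⟩ <;> rw [e (a, l)]
    · exact smul_ne_zero (pow_ne_zero _ hl) h1
    · exact par_left h2 _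

/-- the map composed with negation -/
noncomputable def negM : Rm B.I τ where
  ι := M.ι
  fin := inferInstance
  D := M.D
  S := fun a i => rename B.π (M.S a i)
  hom := fun a i => (M.hom a i).rename_isHomogeneous
  compat := fun a b i j => by
    have h1 : Zr B.I fun s => Ideal.Quotient.mkₐ L B.I (X s) := fun G hG => (aeval_mk _ G).2 hG
    have h2 := B.neg_mem _ _ h1 _ (M.compat a b i j)
    rw [← aeval_rename, aeval_mk, map_sub, map_mul, map_mul] at h2
    exact h2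

theorem negM_ev {Ω : Type} [Field Ω] [Algebra L Ω] (a : M.ι) (x : σ → Ω) :
    (negM M).ev a x = M.ev a (x ∘ B.π) := by
  funext i
  show aeval x (rename B.π (M.S a i)) = aeval (x ∘ B.π) (M.S a i)
  rw [aeval_rename]

end tr

section ten

variable {L σ τ τ' : Type} [Field L] {I : Ideal (MvPolynomial σ L)} (M : Rm I τ) (M' : Rm I τ')

/-- the tensor product -/
noncomputable def tenM : Rm I (τ × τ') where
  ι := M.ι × M'.ι
  fin := inferInstance
  D := M.D + M'.D
  S := fun a i => M.S a.1 i.1 * M'.S a.2 i.2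
  hom := fun a i => (M.hom a.1 i.1).mul (M'.hom a.2 i.2)
  compat := fun a b i j => by
    have h := I.add_mem (I.mul_mem_right (M'.S a.2 i.2 * M'.S b.2 j.2) (M.compat a.1 b.1 i.1 j.1))
      (I.mul_mem_left (M.S a.1 j.1 * M.S b.1 i.1) (M'.compat a.2 b.2 i.2 j.2))
    refine (congrArg (· ∈ I) ?_).mp h
    ring

variable {Ω : Type} [Field Ω] [Algebra L Ω]

theorem tenM_ev (a : M.ι × M'.ι) (x : σ → Ω) :
    (tenM M M').ev a x = fun ij => M.ev a.1 x ij.1 * M'.ev a.2 x ij.2 :=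
  funext fun _ => map_mul _ _ _

theorem ten_ne {u : τ → Ω} {v : τ' → Ω} :
    (fun ij : τ × τ' => u ij.1 * v ij.2) ≠ 0 ↔ u ≠ 0 ∧ v ≠ 0 := by
  constructor
  · intro h
    refine ⟨fun h0 => h ?_, fun h0 => h ?_⟩ <;> funext ij <;> simp [h0]
  · rintro ⟨hu, hv⟩
    obtain ⟨i, hi⟩ := Function.ne_iff.1 hu
    obtain ⟨j, hj⟩ := Function.ne_iff.1 hv
    exact Function.ne_iff.2 ⟨(i, j), mul_ne_zero hi hj⟩

theorem tenM_val (x : σ → Ω) (z : τ × τ' → Ω) :
    (tenM M M').Val x z ↔ ∃ y y', M.Val x y ∧ M'.Val x y' ∧ z = fun ij => y ij.1 * y' ij.2 := by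
  constructor
  · rintro ⟨h0, a, h1, h2⟩
    rw [tenM_ev M M' a] at h1 h2
    obtain ⟨hu, hv⟩ := ten_ne.1 h1
    obtain ⟨t, ht⟩ := par_smul' h2 h1
    have ht0 : t ≠ 0 := fun h => h0 (by rw [ht, h, zero_smul])
    refine ⟨t • M.ev a.1 x, M'.ev a.2 x, ⟨smul_ne_zero ht0 hu, a.1, hu, par_smul _ _⟩,
      Rm.val_ev hv, ?_⟩
    rw [ht]
    funext ij
    simp only [Pi.smul_apply, smul_eq_mul, mul_assoc]
  · rintro ⟨y, y', ⟨h0, a, h1, h2⟩, ⟨h0', a', h1', h2'⟩, rfl⟩
    refine ⟨ten_ne.2 ⟨h0, h0'⟩, (a, a'), ?_, ?_⟩ <;> rw [tenM_ev M M' (a, a')]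
    · exact ten_ne.2 ⟨h1, h1'⟩
    · intro i j
      have e1 := h2 i.1 j.1
      have e2 := h2' i.2 j.2
      calc M.ev a x i.1 * M'.ev a' x i.2 * (y j.1 * y' j.2)
          = (M.ev a x i.1 * y j.1) * (M'.ev a' x i.2 * y' j.2) := by ring
        _ = M.ev a x j.1 * M'.ev a' x j.2 * (y i.1 * y' i.2) := by rw [e1, e2]; ring

end ten

/-- the identity -/
noncomputable def idM {L σ : Type} [Field L] (I : Ideal (MvPolynomial σ L)) : Rm I σ where
  ι := Unit
  fin := inferInstance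
  D := 1
  S := fun _ => X
  hom := fun _ i => isHomogeneous_X L i
  compat := fun _ _ i j => by rw [mul_comm, sub_self]; exact I.zero_mem

theorem idM_val {L σ : Type} [Field L] (I : Ideal (MvPolynomial σ L)) {Ω : Type} [Field Ω]
    [Algebra L Ω] {x : σ → Ω} (h : x ≠ 0) : (idM I).Val x x := by
  have e : (idM I).ev () x = x := by
    funext i
    show aeval x (X i : MvPolynomial σ L) = x i
    rw [aeval_X]
  refine ⟨h, (), ?_, ?_⟩ <;> rw [e]
  · exact h
  · exact Par.refl _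

end XRM

theorem st_RM : St_RM where
  tr := fun _ _ _ _ _ _ _ M _ _ _ c _ hJ hle =>
    ⟨XRM.trM M c hJ hle, fun _ _ _ _ _ _ _ _ y hx hw => XRM.trM_val M c hJ hle y hx hw⟩
  neg := fun _ _ _ _ _ _ _ M => ⟨XRM.negM M, fun _ _ _ x y => by
    simp only [Rm.Val]
    exact and_congr_right fun _ => exists_congr fun a => by rw [XRM.negM_ev M a]⟩
  ten := fun _ _ _ _ _ _ M M' => ⟨XRM.tenM M M', fun _ _ _ x z => XRM.tenM_val M M' x z⟩
  idm := fun _ _ _ I => ⟨XRM.idM I, fun _ _ _ x _ h => ⟨x, XRM.idM_val I h⟩,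
    fun _ _ _ _ h => XRM.idM_val I h⟩

end D4C.SA
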