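import Pool.Agent.Lib.SA.Kit

/-! sa56 row ROOT: invariance of a power of a rational map gives invariance of the map. -/

namespace D4C.SA

open MvPolynomial

namespace XROOT

variable {κ σ ρ : Type} [Field κ] [Fintype σ] [DecidableEq σ] {B : Pkg κ σ}

/-- values of the translated tuples at a point -/
theorem vals (lam : Rm B.I ρ) (t b : B.Pt κ) : ∃ s : Fin B.nl → κ, (∃ e, s e ≠ 0) ∧
    ∀ e a k, aeval (B.rp b) (trF B (lam.S a k) (B.rp t) e) =
      s e * lam.ev a (B.rp (t + b)) k := by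
  have hw : B.Rep (b + t) (B.rp (t + b)) := by
    rw [add_comm]
    exact B.rep_rp _
  obtain ⟨s, ⟨e, he⟩, -, h⟩ := trF_val (κ := κ) (B.rep_rp b) (B.rep_rp t) hw
  exact ⟨fun e => s e ^ lam.D, ⟨e, pow_ne_zero _ he⟩, fun e a k => h e _ _ (lam.hom a k)⟩

/-- the main step, for one pair of indices -/
theorem pair [CharZero κ] [IsAlgClosed κ] (lam : Rm B.I ρ) {m : ℕ} (hm : 1 ≤ m)
    {J : Ideal (MvPolynomial σ κ)} (hJ : B.IsSub J) (t : B.Pt κ) {l : ρ → κ}
    (hl : lam.Val (B.rp t) l)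
    (hp : ∀ (b : B.Pt κ) (l' : ρ → κ), Zr J (B.rp b) → lam.Val (B.rp (t + b)) l' →
      ∃ c : κ, c ≠ 0 ∧ ∀ i, l i ^ m = c * l' i ^ m)
    {i j : ρ} (hi : l i ≠ 0) (hj : l j ≠ 0) {b : B.Pt κ} (hb : Zr J (B.rp b)) (a : lam.ι) :
    l i * lam.ev a (B.rp (t + b)) j = l j * lam.ev a (B.rp (t + b)) i := by
  have hpr : J.IsPrime := sub_prime' hJ
  have hX : ∃ k, X k ∉ J := exists_X B.o_ne hJ.o_mem
  have h0 : Zr J (B.rp (0 : B.Pt κ)) := (zr_iff hJ.hom Pkg.rep_zero (B.rep_rp 0)).1 hJ.o_mem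
  have hT : ∀ e a k, (trF B (lam.S a k) (B.rp t) e).IsHomogeneous (B.β * lam.D) :=
    fun e a k => trF_hom (lam.hom a k) _ e
  obtain ⟨s0, ⟨e0, he0⟩, hs0⟩ := vals lam t 0
  have hl0 : lam.Val (B.rp (t + 0)) l := by rwa [add_zero]
  obtain ⟨-, a0, ha0, hpa⟩ := id hl0
  obtain ⟨c0, hc0⟩ := hl0.ev_eq (rp_zr _) a0
  have hc : c0 ≠ 0 := fun h => ha0 (by rw [hc0, h, zero_smul])
  set U := C (l i) * trF B (lam.S a0 j) (B.rp t) e0 with hU
  set V := C (l j) * trF B (lam.S a0 i) (B.rp t) e0 with hV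
  have hUh : U.IsHomogeneous (B.β * lam.D) := (hT e0 a0 j).C_mul _
  have hVh : V.IsHomogeneous (B.β * lam.D) := (hT e0 a0 i).C_mul _
  have h1 : U ^ m - V ^ m ∈ J := by
    refine mem_of_pts' hpr hJ.hom hJ.le hX ((hUh.pow m).sub (hVh.pow m)) fun q hq => ?_
    obtain ⟨s, -, hs⟩ := vals lam t q
    simp only [hU, hV, map_sub, map_pow, map_mul, aeval_C, hs, Algebra.algebraMap_self,
      RingHom.id_apply, mul_pow]
    by_cases h : lam.ev a0 (B.rp (t + q)) = 0
    · simp [h, zero_pow (show m ≠ 0 by omega)]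
    · obtain ⟨c, -, hc⟩ := hp q _ hq (Rm.val_ev h)
      rw [hc i, hc j]
      ring
  have h2 : U - V ∈ J := by
    rw [← Commute.mul_geom_sum₂ (Commute.all U V) m] at h1
    refine (hpr.mem_or_mem h1).resolve_right fun h => ?_
    have h3 := h0 _ h
    have hu : aeval (B.rp (0 : B.Pt κ)) U = s0 e0 * c0 * l i * l j := by
      simp only [hU, map_mul, aeval_C, hs0, hc0, Algebra.algebraMap_self, RingHom.id_apply,
        Pi.smul_apply, smul_eq_mul]
      ring
    have hv : aeval (B.rp (0 : B.Pt κ)) V = s0 e0 * c0 * l i * l j := by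
      simp only [hV, map_mul, aeval_C, hs0, hc0, Algebra.algebraMap_self, RingHom.id_apply,
        Pi.smul_apply, smul_eq_mul]
      ring
    simp only [map_sum, map_mul, map_pow, hu, hv] at h3
    rw [geom_sum₂_self] at h3
    exact mul_ne_zero (Nat.cast_ne_zero.2 (by omega))
      (pow_ne_zero _ (mul_ne_zero (mul_ne_zero (mul_ne_zero he0 hc) hi) hj)) h3
  have h4 : ∀ e, C (l i) * trF B (lam.S a j) (B.rp t) e - C (l j) * trF B (lam.S a i) (B.rp t) e
      ∈ J := fun e => by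
    have h5 : (C (l i) * trF B (lam.S a j) (B.rp t) e - C (l j) * trF B (lam.S a i) (B.rp t) e) *
        trF B (lam.S a0 j) (B.rp t) e0 ∈ J := by
      refine mem_of_pts' hpr hJ.hom hJ.le hX
        ((((hT e a j).C_mul _).sub ((hT e a i).C_mul _)).mul (hT e0 a0 j)) fun q hq => ?_
      obtain ⟨s, -, hs⟩ := vals lam t q
      have h6 := hq _ h2
      have h7 := lam.ev_par (rp_zr (t + q)) a a0 i j
      simp only [hU, hV, map_sub, map_mul, aeval_C, hs, Algebra.algebraMap_self,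
        RingHom.id_apply] at h6 ⊢
      linear_combination (s e * lam.ev a (B.rp (t + q)) j) * h6 - l j * s e * s e0 * h7
    refine (hpr.mem_or_mem h5).resolve_right fun h => ?_
    have h3 := h0 _ h
    rw [hs0, hc0] at h3
    exact mul_ne_zero he0 (mul_ne_zero hc hj) h3
  obtain ⟨s, ⟨e, he⟩, hs⟩ := vals lam t b
  have h8 := hb _ (h4 e)
  simp only [map_sub, map_mul, aeval_C, hs, Algebra.algebraMap_self, RingHom.id_apply] at h8
  apply mul_left_cancel₀ he
  linear_combination h8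

end XROOT

theorem st_ROOT : St_ROOT := by
  intro κ σ ρ τ _ _ _ _ _ B lam m M hm hM hF J hJ hinv t b l l' hb hl hl'
  have hp : ∀ (b : B.Pt κ) (l' : ρ → κ), Zr J (B.rp b) → lam.Val (B.rp (t + b)) l' →
      ∃ c : κ, c ≠ 0 ∧ ∀ i, l i ^ m = c * l' i ^ m := fun q k hq hk => by
    obtain ⟨y, hy⟩ := hM κ _ (rp_zr t) (rp_ne t)
    obtain ⟨u, hu, h1⟩ := hF _ _ _ (rp_zr t) (rp_ne t) hl hy
    obtain ⟨v, hv, h2⟩ := hF _ _ _ (rp_zr _) (rp_ne _) hk (hinv t q y hq hy)
    refine ⟨v / u, div_ne_zero hv hu, fun i => ?_⟩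
    field_simp
    linear_combination h2 i - h1 i
  obtain ⟨c, hc, h⟩ := hp b l' hb hl'
  have hz : ∀ i, l i = 0 → l' i = 0 := fun i hi => by
    have h1 := h i
    rw [hi, zero_pow (by omega)] at h1
    exact pow_eq_zero_iff (show m ≠ 0 by omega) |>.1 ((mul_eq_zero.1 h1.symm).resolve_left hc)
  intro i j
  by_cases hi : l i = 0
  · rw [hi, hz i hi, zero_mul, mul_zero]
  by_cases hj : l j = 0
  · rw [hj, hz j hj, zero_mul, mul_zero]
  obtain ⟨-, a, ha, hpa⟩ := hl'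
  obtain ⟨d, rfl⟩ := par_smul' hpa ha
  have h1 := XROOT.pair lam hm hJ t hl hp hi hj hb a
  simp only [Pi.smul_apply, smul_eq_mul]
  linear_combination d * h1

end D4C.SA
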