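import Pool.Agent.Lib.SA.Kit

/-! sa56 row SQ: theorem of the square for a morphism and a point killed by a power of two. -/

set_option linter.unusedSectionVars false

namespace D4C.SA

open MvPolynomial

namespace XSQ

/-- families of nonzero values -/
abbrev Fam (κ Ω : Type) [Field κ] [Field Ω] [Algebra κ Ω] : Type :=
  ∀ O : {O : ValuationSubring Ω // Ov κ O}, (O.1.ValueGroup)ˣ

variable (κ : Type) {Ω : Type} [Field κ] [Field Ω] [Algebra κ Ω]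

/-- principal families -/
noncomputable def pr : Ωˣ →* Fam κ Ω :=
  MonoidHom.pi fun O => Units.map (O.1.valuation : Ω →* O.1.ValueGroup)

/-- the family of a vector -/
noncomputable def fm {ι : Type} [Fintype ι] (x : ι → Ω) : Fam κ Ω := fun O =>
  open Classical in if h : gv O.1 x = 0 then 1 else Units.mk0 _ h

/-- the class of a vector -/
noncomputable def cl {ι : Type} [Fintype ι] (x : ι → Ω) :
    Additive (Fam κ Ω ⧸ (pr κ (Ω := Ω)).range) := Additive.ofMul (QuotientGroup.mk (fm κ x))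

variable {κ}

theorem gv_ne {ι : Type} [Fintype ι] (O : ValuationSubring Ω) {x : ι → Ω} (h : x ≠ 0) :
    gv O x ≠ 0 := by
  obtain ⟨i, h1, h2, -⟩ := T44.att O x h
  rw [h2]
  exact (map_ne_zero _).2 h1

theorem fm_val {ι : Type} [Fintype ι] {x : ι → Ω} (h : x ≠ 0)
    (O : {O : ValuationSubring Ω // Ov κ O}) : (fm κ x O : O.1.ValueGroup) = gv O.1 x := by
  simp [fm, gv_ne O.1 h]

theorem mk_iff (f g : Fam κ Ω) :
    (QuotientGroup.mk f : Fam κ Ω ⧸ (pr κ (Ω := Ω)).range) = QuotientGroup.mk g ↔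
      ∃ u : Ω, u ≠ 0 ∧ ∀ O : {O : ValuationSubring Ω // Ov κ O},
        O.1.valuation u * (f O : O.1.ValueGroup) = g O := by
  rw [QuotientGroup.eq]
  constructor
  · rintro ⟨u, hu⟩
    refine ⟨u, u.ne_zero, fun O => ?_⟩
    have h1 : pr κ u * f = g := by rw [hu, mul_comm, mul_inv_cancel_left]
    rw [← h1]
    rfl
  · rintro ⟨u, hu, h⟩
    refine ⟨Units.mk0 u hu, ?_⟩
    rw [eq_inv_mul_iff_mul_eq, mul_comm]
    funext O
    exact Units.ext (h O)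

theorem cl_par {ι : Type} [Fintype ι] {x y : ι → Ω} (h : Par x y) (hx : x ≠ 0) (hy : y ≠ 0) :
    cl κ x = cl κ y := by
  obtain ⟨c, hc, rfl⟩ := M56.smul_of_par h hx hy
  refine congrArg Additive.ofMul ((mk_iff _ _).2 ⟨c, hc, fun O => ?_⟩)
  rw [fm_val hx, fm_val hy, T44.gv_smul]

theorem gv_tn {ι ι' : Type} [Fintype ι] [Fintype ι'] (O : ValuationSubring Ω) {x : ι → Ω}
    {y : ι' → Ω} (hx : x ≠ 0) (hy : y ≠ 0) :
    gv O (fun ij : ι × ι' => x ij.1 * y ij.2) = gv O x * gv O y := by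
  apply le_antisymm
  · refine T44.gv_le fun ij => ?_
    rw [map_mul]
    exact mul_le_mul' (T44.le_gv O x _) (T44.le_gv O y _)
  · obtain ⟨i, -, h1, -⟩ := T44.att O x hx
    obtain ⟨j, -, h2, -⟩ := T44.att O y hy
    rw [h1, h2, ← map_mul]
    exact T44.le_gv O (fun ij : ι × ι' => x ij.1 * y ij.2) (i, j)

theorem tn_ne {ι ι' : Type} {x : ι → Ω} {y : ι' → Ω} (hx : x ≠ 0) (hy : y ≠ 0) :
    (fun ij : ι × ι' => x ij.1 * y ij.2) ≠ 0 := by
  obtain ⟨i, hi⟩ := Function.ne_iff.1 hx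
  obtain ⟨j, hj⟩ := Function.ne_iff.1 hy
  exact Function.ne_iff.2 ⟨(i, j), mul_ne_zero hi hj⟩

theorem cl_tn {ι ι' : Type} [Fintype ι] [Fintype ι'] {x : ι → Ω} {y : ι' → Ω} (hx : x ≠ 0)
    (hy : y ≠ 0) : cl κ (fun ij : ι × ι' => x ij.1 * y ij.2) = cl κ x + cl κ y := by
  refine congrArg Additive.ofMul (?_ : _ = (QuotientGroup.mk (fm κ x * fm κ y) : _ ⧸ _))
  refine congrArg _ (funext fun O => Units.ext ?_)
  rw [fm_val (tn_ne hx hy), gv_tn O.1 hx hy, Pi.mul_apply, Units.val_mul, fm_val hx, fm_val hy]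

theorem cl_const {ι : Type} [Fintype ι] {x : ι → κ} (hx : x ≠ 0) :
    cl κ (fun i => Algebra.ofId κ Ω (x i)) = 0 := by
  refine congrArg Additive.ofMul (?_ : _ = (QuotientGroup.mk (1 : Fam κ Ω) : _ ⧸ _))
  refine congrArg _ (funext fun O => Units.ext ?_)
  rw [fm_val ((map_ne_zero' (Algebra.ofId κ Ω)).2 hx)]
  obtain ⟨i, hi⟩ := Function.ne_iff.1 hx
  have hi : x i ≠ 0 := hi
  have h1 : ∀ a : κ, O.1.valuation (Algebra.ofId κ Ω a) ≤ 1 := fun a =>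
    (O.1.valuation_le_one_iff _).2 (O.2 a)
  refine le_antisymm (T44.gv_le fun j => h1 _) ?_
  refine le_trans ?_ (T44.le_gv O.1 (fun i => Algebra.ofId κ Ω (x i)) i)
  have h2 : O.1.valuation (Algebra.ofId κ Ω (x i)) * O.1.valuation (Algebra.ofId κ Ω (x i)⁻¹) =
      1 := by rw [← map_mul, ← map_mul, mul_inv_cancel₀ hi, map_one, map_one]
  calc ((1 : Fam κ Ω) O : O.1.ValueGroup) = 1 := rfl
    _ = _ := h2.symm
    _ ≤ _ := mul_le_of_le_one_right' (h1 _)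

theorem cl_cube {σ : Type} [Fintype σ] [DecidableEq σ] [CharZero κ] [IsAlgClosed κ]
    [IsAlgClosed Ω] (B : Pkg κ σ) (x y z : B.Pt Ω) :
    cl κ (B.rp (x + y + z)) + cl κ (B.rp x) + cl κ (B.rp y) + cl κ (B.rp z) =
      cl κ (B.rp (x + y)) + cl κ (B.rp (x + z)) + cl κ (B.rp (y + z)) := by
  obtain ⟨c, hc, h⟩ := cube x y z
  refine congrArg Additive.ofMul (?_ : (QuotientGroup.mk (fm κ (B.rp (x + y + z)) * fm κ (B.rp x) *
    fm κ (B.rp y) * fm κ (B.rp z)) : _ ⧸ _) =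
      QuotientGroup.mk (fm κ (B.rp (x + y)) * fm κ (B.rp (x + z)) * fm κ (B.rp (y + z))))
  refine (mk_iff _ _).2 ⟨c, hc, fun O => ?_⟩
  have h1 := h O.1 O.2
  simp only [EqF, Fin.prod_univ_four, Fin.prod_univ_three, Matrix.cons_val] at h1
  simpa only [Pi.mul_apply, Units.val_mul, fm_val (rp_ne _)] using h1

end XSQ

open XSQ in
theorem st_SQ (hRM : St_RM) (hGRAPH : St_GRAPH) (hALG : St_ALG) : St_SQ := by
  intro κ σ τ _ _ _ _ _ _ _ B M hM Ω _ _ _ c j hc p x x₁ x₂ y y₁ y₂ hx hx₁ hx₂ hy hy₁ hy₂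
  choose v hv using fun q : B.Pt Ω => hM Ω (B.rp q) (rp_zr q) (rp_ne q)
  have hΛ : ∀ {q : B.Pt Ω} {w : σ → Ω} {z : τ → Ω}, B.Rep q w → M.Val w z →
      cl κ (v q) = cl κ z := fun {q w z} h1 h2 =>
    cl_par ((hv q).uniq ((val_iff h1 (B.rep_rp q)).1 h2) (rp_zr q)) (hv q).ne h2.ne
  have key := hALG (B.Pt Ω) (B.Pt κ) _ (B.map (Algebra.ofId κ Ω)) (fun q => cl κ (v q))
    (fun a => ?_) (fun a => All.a_ONTO κ σ B κ a) (fun a N hN => ?_) c j hc p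
  · simp only [hΛ hx hy, hΛ hx₁ hy₁, hΛ hx₂ hy₂] at key
    obtain ⟨u, hu, h⟩ := (mk_iff (fm κ y₁ * fm κ y₂) (fm κ y * fm κ y)).1
      (congrArg Additive.toMul key)
    refine ⟨u, hu, fun O hO => ?_⟩
    have h1 := h ⟨O, hO⟩
    simpa only [Pi.mul_apply, Units.val_mul, fm_val hy.ne, fm_val hy₁.ne, fm_val hy₂.ne, sq]
      using h1
  · obtain ⟨z, hz⟩ := hM κ (B.rp a) (rp_zr a) (rp_ne a)
    exact (hΛ (rep_map_rp _ a) (hz.map (Algebra.ofId κ Ω))).trans (cl_const hz.ne)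
  · obtain ⟨M₁, h₁⟩ := hRM.tr κ σ τ B M κ a B.I (T39.prime_I B) (T39.ext_self B.I).le
    obtain ⟨M₂, h₂⟩ := hRM.neg κ σ τ B M₁
    obtain ⟨M₃, h₃⟩ := hRM.ten κ σ τ τ B.I M₁ M₂
    have hval : ∀ (K : Type) [Field K] [Algebra κ K] (q : B.Pt K) (w : σ → K) (z z' : τ → K),
        B.Rep q w → M.Val (B.rp (B.map (Algebra.ofId κ K) a + q)) z →
        M.Val (B.rp (B.map (Algebra.ofId κ K) a + -q)) z' →
        M₃.Val w fun ij => z ij.1 * z' ij.2 := fun K _ _ q w z z' hw hz hz' =>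
      (h₃ K w _).2 ⟨z, z', (h₁ K q w _ z hw (B.rep_rp _)).2 hz,
        (h₂ K w z').2 ((h₁ K (-q) _ _ z' hw.neg (B.rep_rp _)).2 hz'), rfl⟩
    have hmor : M₃.Mor := fun K _ _ w hw h0 => by
      obtain ⟨q, hq⟩ := exists_pt (B := B) h0 hw
      obtain ⟨z, hz⟩ := hM K _ (rp_zr (B.map (Algebra.ofId κ K) a + q)) (rp_ne _)
      obtain ⟨z', hz'⟩ := hM K _ (rp_zr (B.map (Algebra.ofId κ K) a + -q)) (rp_ne _)
      exact ⟨_, hval K q w z z' hq hz hz'⟩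
    obtain ⟨B', hB'⟩ := hGRAPH κ σ (τ × τ) B M₃ hmor (Equiv.prodComm τ τ) fun w z hw h0 hz => by
      obtain ⟨q, hq⟩ := exists_pt (B := B) h0 hw
      obtain ⟨z₁, z₂, e₁, e₂, rfl⟩ := (h₃ κ w z).1 hz
      refine (h₃ κ _ _).2 ⟨z₂, z₁, (h₂ κ w z₂).1 e₂, (h₂ κ _ z₁).2 ?_,
        funext fun ij => mul_comm _ _⟩
      exact (val_iff hq (by simpa using hq.neg.neg)).1 e₁
    obtain ⟨e, he⟩ := hB' Ω
    have hH : ∀ q : B.Pt Ω, cl κ (B'.rp (e q)) = cl κ (B.rp q) + N q := fun q => by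
      have h1 := hval Ω q _ _ _ (B.rep_rp q) (hv _) (hv _)
      have h2 := he q _ _ (B.rep_rp q) h1
      rw [cl_par ((B'.rep_rp _).par h2) (rp_ne _) (rep_ne h2), cl_tn (rp_ne q) h1.ne,
        cl_tn (hv _).ne (hv _).ne, hN, sub_eq_add_neg]
    intro r s t
    have h1 := cl_cube B' (e r) (e s) (e t)
    have h2 := cl_cube B r s t
    simp only [← map_add, hH] at h1
    apply add_left_cancel (a := cl κ (B.rp (r + s)) + cl κ (B.rp (r + t)) + cl κ (B.rp (s + t)))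
    calc _ = cl κ (B.rp (r + s + t)) + N (r + s + t) + (cl κ (B.rp r) + N r) +
          (cl κ (B.rp s) + N s) + (cl κ (B.rp t) + N t) := by rw [← h2]; abel
      _ = _ := by rw [h1]; abel

end D4C.SA
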