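import Pool.Agent.Lib.SA.Kit

/-! The theorem of the square over any field, after taking a norm. -/

namespace D4C.SA

open MvPolynomial

namespace XSQF

theorem gv_tn {K ι ι' : Type} [Field K] [Fintype ι] [Fintype ι'] (O : ValuationSubring K)
    (x : ι → K) (y : ι' → K) :
    gv O (fun ij : ι × ι' => x ij.1 * y ij.2) = gv O x * gv O y := by
  apply le_antisymm
  · refine T44.gv_le fun ij => ?_
    rw [map_mul]
    exact mul_le_mul' (T44.le_gv O x _) (T44.le_gv O y _)
  · by_cases hx : x = 0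
    · rw [hx, T44.gv_zero, zero_mul]
      exact zero_le
    by_cases hy : y = 0
    · rw [hy, T44.gv_zero, mul_zero]
      exact zero_le
    obtain ⟨i, -, hi, -⟩ := T44.att O x hx
    obtain ⟨j, -, hj, -⟩ := T44.att O y hy
    rw [hi, hj, ← map_mul]
    exact T44.le_gv O (fun ij : ι × ι' => x ij.1 * y ij.2) (i, j)

theorem norm1 {L F σ : Type} [Field L] [Field F] [Algebra L F] [Fintype σ] (w x : σ → F)
    (c : AlgebraicClosure F) (hc : c ≠ 0)
    (h : ∀ O : ValuationSubring (AlgebraicClosure F), Ov L O →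
      O.valuation c * gv O (fun l => algebraMap F _ (w l)) ^ 1 =
        gv O (fun l => algebraMap F _ (x l)) ^ 1) :
    ∃ (N : ℕ) (t : F), 1 ≤ N ∧ t ≠ 0 ∧ ∀ O : ValuationSubring F, Ov L O →
      O.valuation t * gv O w ^ N = gv O x ^ N := by
  have ha : IsAlgebraic F c := Algebra.IsAlgebraic.isAlgebraic c
  have hi : IsIntegral F c := ha.isIntegral
  set P := (minpoly F c).map (algebraMap F (AlgebraicClosure F)) with hPdef
  have hm : P.Monic := (minpoly.monic hi).map _
  have hs : P.Splits := IsAlgClosed.splits P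
  have hd : P.natDegree = (minpoly F c).natDegree := Polynomial.natDegree_map _
  refine ⟨(minpoly F c).natDegree, (minpoly F c).coeff 0, minpoly.natDegree_pos hi,
    minpoly.coeff_zero_ne_zero hi hc, fun O hO => ?_⟩
  obtain ⟨O', rfl⟩ := All.a_PL2.up F (AlgebraicClosure F) (algebraMap F _) O
  rw [← T58.ext1 All.a_GV]
  have h1 : ∀ r ∈ P.roots, O'.valuation r * gv O' (fun l => algebraMap F _ (w l)) =
      gv O' (fun l => algebraMap F _ (x l)) := by
    intro r hr
    have hr' : Polynomial.aeval r (minpoly F c) = 0 := by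
      rw [Polynomial.aeval_def, ← Polynomial.eval_map]
      exact Polynomial.isRoot_of_mem_roots hr
    obtain ⟨g, rfl⟩ := minpoly.exists_algEquiv_of_root' ha hr'
    have h2 := (T58.ext1 All.a_GV (g : AlgebraicClosure F →+* AlgebraicClosure F) O' c _ _ 1 1).2
      (h _ fun a => by
        rw [ValuationSubring.mem_comap, IsScalarTower.algebraMap_apply L F (AlgebraicClosure F)]
        simpa using hO a)
    simpa using h2
  have h3 := T58.prod_rel O' _ _ _ h1
  rw [← hs.natDegree_eq_card_roots, hd] at h3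
  rw [← h3, ← Polynomial.coeff_map, ← hPdef, hs.coeff_zero_eq_prod_roots_of_monic hm]
  simp

end XSQF

open XSQF in
theorem st_SQF (hSQ : St_SQ) : St_SQF := by
  intro κ σ τ _ _ _ _ _ _ _ B M hM F _ _ c j hc p x x₁ x₂ y y₁ y₂ hx hx₁ hx₂ hy hy₁ hy₂
  let ι := IsScalarTower.toAlgHom κ F (AlgebraicClosure F)
  have e : B.map ι (B.map (Algebra.ofId κ F) c) = B.map (Algebra.ofId κ _) c := by
    rw [Pkg.map_map, Subsingleton.elim (ι.comp (Algebra.ofId κ F)) (Algebra.ofId κ _)]
  have h1 := hx₁.map ι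
  have h2 := hx₂.map ι
  rw [map_add, e] at h1
  rw [map_sub, e] at h2
  obtain ⟨u, hu, h⟩ := hSQ κ σ τ B M hM (AlgebraicClosure F) c j hc _ _ _ _ _ _ _ (hx.map ι) h1 h2
    (hy.map ι) (hy₁.map ι) (hy₂.map ι)
  obtain ⟨N, t, hN, ht, h'⟩ := norm1 (L := κ) (fun ij : τ × τ => y₁ ij.1 * y₂ ij.2)
    (fun ij : τ × τ => y ij.1 * y ij.2) u hu fun O hO => by
      have h3 := h O hO
      rw [sq, ← gv_tn, ← gv_tn] at h3
      simp only [pow_one, map_mul]
      exact h3
  refine ⟨N, t, hN, ht, fun O hO => ?_⟩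
  have h4 := h' O hO
  rwa [gv_tn, gv_tn, ← sq, ← pow_mul] at h4

end D4C.SA
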