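import Pool.Agent.Lib.SA.Kit

/-! STRK: consequences of the structure theorem. -/

namespace D4C.SA

open MvPolynomial Filter

namespace XSTRK

/-- membership in an extended ideal holds at most levels -/
theorem level {L σ : Type} [Field L] (U : Ultrafilter ℕ) (I : Ideal (MvPolynomial σ L))
    (G' : MvPolynomial σ (ℕ → L))
    (h : MvPolynomial.map (toU U).toRingHom G' ∈ ext I (Ul U L)) :
    ∀ᶠ n in U, MvPolynomial.map (lv L n) G' ∈ I := by
  have key : ∀ G ∈ ext I (Ul U L), ∃ G1 : MvPolynomial σ (ℕ → L),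
      MvPolynomial.map (toU U).toRingHom G1 = G ∧ ∀ᶠ n in U, MvPolynomial.map (lv L n) G1 ∈ I := by
    intro G hG
    refine Submodule.span_induction (p := fun G _ => ∃ G1 : MvPolynomial σ (ℕ → L),
      MvPolynomial.map (toU U).toRingHom G1 = G ∧ ∀ᶠ n in U, MvPolynomial.map (lv L n) G1 ∈ I)
      ?_ ?_ ?_ ?_ hG
    · rintro _ ⟨g, hg, rfl⟩
      refine ⟨MvPolynomial.map (Pi.constRingHom ℕ L) g, by rw [MvPolynomial.map_map]; rfl,
        Eventually.of_forall fun n => ?_⟩
      rw [MvPolynomial.map_map, show (lv L n).comp (Pi.constRingHom ℕ L) = RingHom.id L from rfl,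
        MvPolynomial.map_id]
      exact hg
    · exact ⟨0, map_zero _, Eventually.of_forall fun n => by rw [map_zero]; exact I.zero_mem⟩
    · rintro _ _ - - ⟨G1, rfl, h1⟩ ⟨G2, rfl, h2⟩
      refine ⟨G1 + G2, map_add _ _ _, ?_⟩
      filter_upwards [h1, h2] with n a1 a2
      rw [map_add]
      exact I.add_mem a1 a2
    · rintro a _ - ⟨G1, rfl, h1⟩
      obtain ⟨a', rfl⟩ := MvPolynomial.map_surjective (toU U).toRingHom T10.toU_surj a
      refine ⟨a' * G1, map_mul _ _ _, h1.mono fun n a1 => ?_⟩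
      rw [map_mul]
      exact I.mul_mem_left _ a1
  obtain ⟨G1, h1, h2⟩ := key _ h
  have h3 := (T10.map_eq_zero_iff' (U := U) (G' - G1)).1 (by rw [map_sub, h1, sub_self])
  filter_upwards [h2, h3] with n a1 a2
  rw [map_sub, sub_eq_zero] at a2
  rwa [a2]

theorem mem_of_eq_of_mem {R : Type} [CommRing R] {I : Ideal R} {a b : R} (h : a = b) (hb : b ∈ I) :
    a ∈ I := h ▸ hb

variable {L σ ι : Type} [Field L] [Fintype σ] [DecidableEq σ] [Fintype ι] (B : Pkg L σ)

/-- the form `sum c u * Φ u (X + v)` by the law `a` -/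
noncomputable def pl {R : Type} [CommRing R] [Algebra L R] (Φ : ι → MvPolynomial σ L) (c : ι → R)
    (v : σ → R) (a : Fin B.nl) : MvPolynomial σ R :=
  ∑ u, C (c u) * aeval (ev2 (B.A a) X fun s => (C (v s) : MvPolynomial σ R)) (Φ u)

variable {R R' : Type} [CommRing R] [Algebra L R] [CommRing R'] [Algebra L R']
  {Φ : ι → MvPolynomial σ L}

theorem pl_hom {d : ℕ} (hΦ : ∀ u, (Φ u).IsHomogeneous d) (c : ι → R) (v : σ → R) (a : Fin B.nl) :
    (pl B Φ c v a).IsHomogeneous (B.β * d) :=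
  IsHomogeneous.sum _ _ _ fun u _ => by
    have := (isHomogeneous_C σ (c u)).mul
      ((hΦ u).aeval _ fun s => T34.hom_half (B.A_hom a s) v)
    rwa [zero_add] at this

theorem pl_map (f : R →ₐ[L] R') (c : ι → R) (v : σ → R) (a : Fin B.nl) :
    MvPolynomial.map f.toRingHom (pl B Φ c v a) = pl B Φ (fun u => f (c u)) (fun s => f (v s)) a := by
  rw [pl, pl, map_sum]
  refine Finset.sum_congr rfl fun u _ => ?_
  have h1 := aeval_map_alg (mapAlgHom f : MvPolynomial σ R →ₐ[L] MvPolynomial σ R')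
    (ev2 (B.A a) X fun s => (C (v s) : MvPolynomial σ R)) (Φ u)
  rw [← ev2_map] at h1
  simp only [mapAlgHom_apply, map_X, map_C] at h1
  rw [map_mul, map_C]
  exact congrArg _ h1.symm

theorem pl_ev [Algebra R R'] [IsScalarTower L R R'] (c : ι → R) (v : σ → R) (a : Fin B.nl)
    (x : σ → R') : aeval x (pl B Φ c v a) =
      ∑ u, algebraMap R R' (c u) * aeval (ev2 (B.A a) x fun s => algebraMap R R' (v s)) (Φ u) := by
  rw [pl, map_sum]
  refine Finset.sum_congr rfl fun u _ => ?_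
  have h1 := aeval_map_alg ((aeval x : MvPolynomial σ R →ₐ[R] R').restrictScalars L)
    (ev2 (B.A a) X fun s => (C (v s) : MvPolynomial σ R)) (Φ u)
  rw [← ev2_map] at h1
  simp only [AlgHom.restrictScalars_apply, aeval_X, aeval_C] at h1
  rw [map_mul, aeval_C, h1]

theorem pl_smul (t : R) (c : ι → R) (v : σ → R) (a : Fin B.nl) :
    pl B Φ (t • c) v a = C t * pl B Φ c v a := by
  rw [pl, pl, Finset.mul_sum]
  refine Finset.sum_congr rfl fun u _ => ?_
  rw [Pi.smul_apply, smul_eq_mul, map_mul, mul_assoc]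

omit [Fintype σ] [DecidableEq σ] in
theorem sum_smul {d : ℕ} (hΦ : ∀ u, (Φ u).IsHomogeneous d) (c : ι → R) (t : R) (w : σ → R) :
    ∑ u, c u * aeval (t • w) (Φ u) = t ^ d * ∑ u, c u * aeval w (Φ u) := by
  rw [Finset.mul_sum]
  refine Finset.sum_congr rfl fun u _ => ?_
  rw [aeval_smul_hom (hΦ u)]
  ring

end XSTRK

open XSTRK

theorem st_STRK : St_STRK := by
  intro L κ σ _ _ _ _ _ _ _ B U x hT
  obtain ⟨L', _, _, _, B', g, x', y, xs, hD, hdim, -, hxs, hgen⟩ := All.a_STR2 L σ B U x hT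
  let _ : Algebra L' κ := (IsAlgClosed.lift : L' →ₐ[L] κ).toRingHom.toAlgebra
  have tw0 : IsScalarTower L L' κ :=
    IsScalarTower.of_algebraMap_eq fun a => ((IsAlgClosed.lift : L' →ₐ[L] κ).commutes a).symm
  obtain ⟨hJ, hcd⟩ := All.a_SUBF L σ B L' κ B' (g + 1) hD.sub hdim
  have hmap : ∀ q : B'.Pt L', B.map (IsScalarTower.toAlgHom L L' κ) (hD.sub.hom L' q) =
      hD.sub.hom κ (B'.map (Algebra.ofId L' κ) q) := fun q =>
    (hom_map hD.sub (Algebra.ofId L' κ) q).symm
  refine ⟨_, ⟨hJ, ?_⟩, ?_, L', inferInstance, inferInstance, inferInstance, inferInstance, tw0, y,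
    hD.small, ?_⟩
  · obtain ⟨b, w, h1, h2, h3⟩ := T57.exists_pt All.a_LOC B hJ
      (by rw [hcd]; exact_mod_cast (by omega : 2 ≤ g + 1 + 1))
    exact ⟨b, (zr_iff hJ.hom h1 (B.rep_rp b)).1 h2, h3⟩
  swap
  · filter_upwards [hD.eq] with n h1
    rw [h1, add_sub_cancel_right, hmap]
    exact (zr_iff hJ.hom (rep_hom_rp hD.sub _) (B.rep_rp _)).1 (zr_ext.2 (rp_zr _))
  intro ι _ d Φ c hΦ hc hz
  by_cases h0 : (fun u => toU U fun n => algebraMap L L' (c n u)) = 0
  · have h1 : ∀ᶠ n in U, ∀ u, algebraMap L L' (c n u) = 0 :=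
      eventually_all.2 fun u => T10.toU_eq_zero.1 (congrFun h0 u)
    filter_upwards [h1] with n h2 b _
    refine Finset.sum_eq_zero fun u _ => ?_
    rw [IsScalarTower.algebraMap_apply L L' κ, h2, map_zero, zero_mul]
  obtain ⟨hT', e, he, hcmp⟩ := All.a_DECH L σ B U x L' B' x' y hT hD
  have hlo : ∀ α : ℕ → ℝ, Lo U (fun n => B.ht (x n)) α → Lo U (fun n => B'.ht (x' n)) α :=
    fun α hα δ hδ => by
      filter_upwards [hα (δ / e) (by positivity), hcmp] with n h1 h2
      refine h1.trans ?_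
      rw [div_mul_eq_mul_div, div_le_iff₀ he]
      nlinarith [h2.1]
  obtain ⟨v, hv⟩ := T34.small_rep All.a_SMP B U _ hT' y (hlo _ hD.small)
  have hd : (0 : ℝ) < Module.finrank L L' := by exact_mod_cast Module.finrank_pos
  obtain ⟨t, cs, hcs⟩ := (All.a_SMP ι U L' _ hT' (fun n u => algebraMap L L' (c n u)) h0).1
    (hlo _ fun δ hδ => by
      filter_upwards [hc (δ / Module.finrank L L') (by positivity)] with n h1
      rw [All.a_HEXT]
      rw [div_mul_eq_mul_div, le_div_iff₀ hd] at h1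
      linarith)
  have ht : t ≠ 0 := fun h => h0 (by rw [hcs, h, zero_smul])
  let _ : Algebra L (sm U L' fun n => B'.ht (x' n)) :=
    ((algebraMap L' (sm U L' fun n => B'.ht (x' n))).comp (algebraMap L L')).toAlgebra
  let _ : Algebra L (Ul U L') := ((algebraMap L' (Ul U L')).comp (algebraMap L L')).toAlgebra
  have tw1 := IsScalarTower.of_algebraMap_eq (R := L) (S := sm U L' fun n => B'.ht (x' n))
    (A := Ul U L') fun _ => rfl
  have tw : T10.Tow U L L' := fun _ => rfl
  obtain ⟨xr', hxr', rfl⟩ := hxs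
  obtain ⟨vr, hvr, hvs⟩ := hv
  have hlam : ∀ᶠ n in U, ∀ a, ∑ u, algebraMap L L' (c n u) *
      aeval (ev2 (B.A a) (xr' n) (vr n)) (Φ u) = 0 := by
    filter_upwards [hD.eq, hxr', hvr, hz] with n h1 h2 h3 h5 a
    have h4 := rep_map_rp (Algebra.ofId L L') (x n)
    rw [h1] at h4
    obtain ⟨l, hl⟩ := (hD.sub.rep h2).law_eq_smul h3 h4 a
    rw [hl, sum_smul hΦ]
    simp only [aeval_map_alg]
    simp only [Algebra.ofId_apply, ← map_mul, ← map_sum, h5, map_zero, mul_zero]
  have hI : ∀ᶠ n in U, ∀ a, pl B Φ (fun u => algebraMap L L' (c n u)) (vr n) a ∈ B'.I := by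
    refine eventually_all.2 fun a => ?_
    have h1 : pl B Φ cs v a ∈ ext B'.I (sm U L' fun n => B'.ht (x' n)) := by
      refine (hgen.2 _ _ (pl_hom B hΦ cs v a)).1 (mul_left_cancel₀ ht ?_)
      rw [pl_ev, mul_zero, Finset.mul_sum]
      refine Eq.trans (Finset.sum_congr rfl fun u _ => ?_) ((map_sum (toU U) (fun u n =>
        algebraMap L L' (c n u) * aeval (ev2 (B.A a) (xr' n) (vr n)) (Φ u)) _).symm.trans
        (T10.toU_eq_zero.2 (hlam.mono fun n hn => by rw [Finset.sum_apply]; exact hn a)))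
      have h2 : t * algebraMap _ (Ul U L') (cs u) = toU U fun n => algebraMap L L' (c n u) :=
        (congrFun hcs u).symm
      have h3 : (fun s => algebraMap _ (Ul U L') (v s)) = fun i => toU U fun n => vr n i := hvs
      rw [← mul_assoc, h2, h3, T10.ev2_toU tw, T10.aeval_toU tw, ← map_mul]
      rfl
    have h2 := level U B'.I (pl B Φ (fun u n => algebraMap L L' (c n u)) (fun s n => vr n s) a) (by
      have h3 := pl_map B (Φ := Φ) (T10.toUk tw) (fun u n => algebraMap L L' (c n u))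
        (fun s n => vr n s) a
      have h4 := pl_map B (Φ := Φ)
        (IsScalarTower.toAlgHom L (sm U L' fun n => B'.ht (x' n)) (Ul U L')) cs v a
      have h5 : pl B Φ (fun u => toU U fun n => algebraMap L L' (c n u))
          (fun s => toU U fun n => vr n s) a ∈ ext B'.I (Ul U L') := by
        rw [hcs, ← hvs, pl_smul, ← ext_ext (L' := sm U L' fun n => B'.ht (x' n))]
        exact Ideal.mul_mem_left _ _ (mem_of_eq_of_mem h4.symm (Ideal.mem_map_of_mem _ h1))
      exact mem_of_eq_of_mem h3 h5)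
    exact h2.mono fun n hn => mem_of_eq_of_mem (pl_map B (Φ := Φ) (Pi.evalAlgHom L (fun _ => L') n)
      (fun u n => algebraMap L L' (c n u)) (fun s n => vr n s) a).symm hn
  filter_upwards [hI, hD.eq, hvr] with n h1 h2 h3 b hb
  obtain ⟨q, -, rfl⟩ := hom_surj hD.sub (B.rep_rp b) (zr_ext.1 hb)
  have h4 : B.map (Algebra.ofId L κ) (x n) + hD.sub.hom κ q =
      hD.sub.hom κ (B'.map (Algebra.ofId L' κ) (x' n) + q) +
        B.map (IsScalarTower.toAlgHom L L' κ) (y n) := by
    rw [map_add, ← hmap, add_right_comm, ← map_add, ← h2, Pkg.map_map]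
    congr 3
    exact Subsingleton.elim _ _
  obtain ⟨a, ha⟩ := (rep_hom_rp hD.sub (B'.map (Algebra.ofId L' κ) (x' n) + q)).exists_add
    (h3.map (IsScalarTower.toAlgHom L L' κ))
  rw [← h4] at ha
  obtain ⟨s, -, hs⟩ := rep_smul ha (B.rep_rp _)
  have h5 := rp_zr (B'.map (Algebra.ofId L' κ) (x' n) + q) _ (h1 a)
  rw [pl_ev] at h5
  simp only [← IsScalarTower.algebraMap_apply] at h5
  rw [hs, sum_smul hΦ]
  exact mul_eq_zero_of_right _ h5

end D4C.SA
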