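import Pool.Agent.Lib.SA.Kit

/-! sa56 row SUM: the sum of two abelian subvarieties. -/

namespace D4C.SA

open MvPolynomial Pointwise

namespace XSUM

variable {κ σ : Type} [Field κ] [IsAlgClosed κ] [Fintype σ] [DecidableEq σ] {P : Pkg κ σ}

/-- an abelian subvariety is the closure of its points -/
theorem van {J : Ideal (MvPolynomial σ κ)} (hJ : P.IsSub J) {S : Set (P.Pt κ)}
    (hS : ∀ p, p ∈ S ↔ Zr J (P.rp p)) : vanishingIdeal κ (T39.cone P S) = J := by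
  refine le_antisymm (fun F hF => ?_) fun F hF => mem_vanishingIdeal_iff.mpr ?_
  · rw [← sum_homogeneousComponent F]
    exact J.sum_mem fun n _ => mem_of_pts' (sub_prime' hJ) hJ.hom hJ.le
      (exists_X P.o_ne hJ.o_mem) (homogeneousComponent_isHomogeneous n F) fun b hb =>
        T39.zr_cone ⟨b, (hS b).2 hb, P.rep_rp b⟩ _ (T39.isHom_cone S F hF n)
  · rintro x ⟨p, hp, hx⟩
    exact (zr_iff hJ.hom (P.rep_rp p) hx).1 ((hS p).1 hp) F hF

omit [IsAlgClosed κ] in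
theorem anti {S T : Set (P.Pt κ)} (h : S ⊆ T) :
    vanishingIdeal κ (T39.cone P T) ≤ vanishingIdeal κ (T39.cone P S) := fun F hF =>
  mem_vanishingIdeal_iff.mpr fun _ ⟨p, hp, hx⟩ => T39.zr_cone ⟨p, h hp, hx⟩ F hF

theorem core {J J' : Ideal (MvPolynomial σ κ)} (hJ : P.IsSub J) (hJ' : P.IsSub J')
    {S S' : AddSubgroup (P.Pt κ)} (hS : ∀ p, p ∈ S ↔ Zr J (P.rp p))
    (hS' : ∀ p, p ∈ S' ↔ Zr J' (P.rp p)) :
    P.IsSub (vanishingIdeal κ (T39.cone P (S ⊔ S' : AddSubgroup (P.Pt κ)))) := by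
  obtain ⟨Ω, _, _, η, hη, -⟩ := exists_gen (sub_prime' hJ) (exists_X P.o_ne hJ.o_mem)
  obtain ⟨p, hp⟩ := exists_pt (B := P) hη.1 (hJ.zr (pgen_zr hJ.hom hη))
  have hg : T32.Gen (S : Set (P.Pt κ)) p := ⟨η, hp, by rwa [van hJ hS]⟩
  obtain ⟨Ω', _, _, f, q, -, h2⟩ := hg.step (sub_prime' hJ') hJ'.le (exists_X P.o_ne hJ'.o_mem)
    (van hJ' (S := S') hS')
  have he : ((S ⊔ S' : AddSubgroup (P.Pt κ)) : Set (P.Pt κ)) = S + S' :=
    Set.ext fun x => AddSubgroup.mem_sup.trans Set.mem_add.symm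
  exact ⟨T39.le_cone _, T39.isHom_cone _, All.a_IRR κ σ _ (he ▸ h2.prime), T39.o_cone _,
    T39.neg_cone _, T39.add_cone _⟩

end XSUM

theorem st_SUM : St_SUM := by
  intro L κ σ _ _ _ _ _ _ B J J' hJ hJ'
  have h := sub2_bc B κ
  have key : ∀ {I : Ideal (MvPolynomial σ κ)} (hI : (B.bc κ).IsSub I) (p : (B.bc κ).Pt κ),
      p ∈ (subG hI κ).comap (h.hom κ) ↔ Zr I ((B.bc κ).rp p) := fun hI p =>
    zr_iff hI.hom (B.rep_rp _) (rep_hom_rp h p)
  refine ⟨_, XSUM.core hJ hJ' (key hJ) (key hJ'), ?_, ?_, fun F d hF h0 => ?_⟩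
  · exact (XSUM.anti (SetLike.coe_subset_coe.2 le_sup_left)).trans (XSUM.van hJ (key hJ)).le
  · exact (XSUM.anti (SetLike.coe_subset_coe.2 le_sup_right)).trans (XSUM.van hJ' (key hJ')).le
  · refine mem_vanishingIdeal_iff.mpr ?_
    rintro x ⟨p, hp, hx⟩
    obtain ⟨b, hb, b', hb', rfl⟩ := AddSubgroup.mem_sup.1 hp
    have h1 := h.rep hx
    rw [map_add] at h1
    exact (form_iff (B.rep_rp _) h1 hF).1 (h0 _ _ hb hb')

end D4C.SA
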