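import Pool.Agent.Lib.SA.Kit

/-! sa56 row SYS: a vector that is locally unimodular everywhere is the value of a morphism. -/

namespace D4C.SA

open MvPolynomial

namespace XSYS

variable {κ σ τ F : Type} [Field κ] [Fintype σ] [Fintype τ] [Field F] [Algebra κ F]

/-- forms that represent `w` near one point -/
theorem loc_forms (hOQ : St_OQ) {I : Ideal (MvPolynomial σ κ)} {η : σ → F} (hη : PGen I η)
    {w : τ → F} {y : σ → κ} (h0 : y ≠ 0) (hy : Zr I y) {u : τ → Oq η y} {t : F} (ht : t ≠ 0)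
    (hu : Uni u) (hw : ∀ j, w j = t * u j) :
    w ≠ 0 ∧ ∃ (d : ℕ) (G : τ → MvPolynomial σ κ) (c : F), (∀ j, (G j).IsHomogeneous d) ∧
      (∃ j, aeval y (G j) ≠ 0) ∧ ∀ j, aeval η (G j) = c * w j := by
  obtain ⟨-, ⟨r, hr, hun⟩, -, -, h5, -⟩ := hOQ κ σ F I η y hη hy h0
  obtain ⟨d, G, H, g1, g2, g3, -, g5⟩ := h5 τ u
  obtain ⟨j, hj⟩ := hu
  refine ⟨fun h => ?_, d, G, aeval η H / t, g1, ⟨j, ?_⟩, fun i => ?_⟩
  · have h1 : t * (u j : F) = 0 := by rw [← hw j, h]; rfl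
    exact (hj.map (Oq η y).val).ne_zero ((mul_eq_zero.1 h1).resolve_left ht)
  · rw [← hr (u j) d (G j) H (g1 j) g2 (g5 j)]
    exact mul_ne_zero ((hun _).1 hj) g3
  · rw [← g5 i, hw i]
    field_simp

omit [Fintype τ] in
/-- finitely many members of a family of tuples generate the same ideal -/
theorem fin_gen {P : Type} (G : P → τ → MvPolynomial σ κ) :
    ∃ T : Finset P, ∀ J : Ideal (MvPolynomial σ κ), (∀ q ∈ T, ∀ i, G q i ∈ J) →
      ∀ p j, G p j ∈ J := by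
  classical
  have hfg : (Submodule.span (MvPolynomial σ κ)
      (Set.range fun pj : P × τ => G pj.1 pj.2)).FG := IsNoetherian.noetherian _
  obtain ⟨s, hs, he⟩ := (Submodule.fg_span_iff_fg_span_finset_subset _).1 hfg
  have h1 : ∀ g : s, ∃ pj : P × τ, G pj.1 pj.2 = g := fun g => hs g.2
  choose f hf using h1
  refine ⟨Finset.univ.image fun g => (f g).1, fun J hJ p j => ?_⟩
  have h2 : Submodule.span (MvPolynomial σ κ) (s : Set (MvPolynomial σ κ)) ≤ J := by
    refine Submodule.span_le.2 fun g hg => ?_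
    have h3 := hJ _ (Finset.mem_image_of_mem _ (Finset.mem_univ ⟨g, hg⟩)) (f ⟨g, hg⟩).2
    rwa [hf] at h3
  exact h2 (he ▸ Submodule.subset_span ⟨(p, j), rfl⟩)

end XSYS

theorem st_SYS (hOQ : St_OQ) : St_SYS := by
  intro κ σ τ F _ _ _ _ _ _ I η hI hη w hloc hex
  classical
  have key : ∀ p : {y : σ → κ // y ≠ 0 ∧ Zr I y}, w ≠ 0 ∧
      ∃ (d : ℕ) (G : τ → MvPolynomial σ κ) (c : F), (∀ j, (G j).IsHomogeneous d) ∧
        (∃ j, aeval p.1 (G j) ≠ 0) ∧ ∀ j, aeval η (G j) = c * w j := fun p => by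
    obtain ⟨u, t, ht, hu, hw⟩ := hloc p.1 p.2.1 p.2.2
    exact XSYS.loc_forms hOQ hη p.2.1 p.2.2 ht hu hw
  obtain ⟨y0, hy0⟩ := hex
  have hw0 : w ≠ 0 := (key ⟨y0, hy0⟩).1
  choose d G c g1 g2 g3 using fun p => (key p).2
  obtain ⟨T, hT⟩ := XSYS.fin_gen G
  have hh : ∀ (a : T × σ) (j : τ),
      (G a.1.1 j * X a.2 ^ (T.sup d - d a.1.1)).IsHomogeneous (T.sup d) := fun a j => by
    have h1 := (g1 a.1.1 j).mul ((isHomogeneous_X κ a.2).pow (T.sup d - d a.1.1))
    have h2 : d a.1.1 ≤ T.sup d := Finset.le_sup a.1.2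
    rwa [one_mul, Nat.add_sub_cancel' h2] at h1
  have hv : ∀ (a : T × σ) (j : τ), aeval η (G a.1.1 j * X a.2 ^ (T.sup d - d a.1.1)) =
      (c a.1.1 * η a.2 ^ (T.sup d - d a.1.1)) * w j := fun a j => by
    rw [map_mul, map_pow, aeval_X, g3]
    ring
  let M : Rm I τ :=
    { ι := T × σ
      fin := inferInstance
      D := T.sup d
      S := fun a j => G a.1.1 j * X a.2 ^ (T.sup d - d a.1.1)
      hom := hh
      compat := fun a b i j => by
        refine (hη.2 _ _ (((hh a i).mul (hh b j)).sub ((hh a j).mul (hh b i)))).1 ?_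
        rw [map_sub, map_mul, map_mul _ (G a.1.1 j * _), hv, hv, hv, hv]
        ring }
  have hM : M.Mor := by
    intro Ω _ _ x hx hx0
    by_contra hn
    obtain ⟨k, hk⟩ := Function.ne_iff.1 hx0
    have hk : x k ≠ 0 := hk
    have h1 : ∀ q ∈ T, ∀ i, G q i ∈ RingHom.ker (aeval (R := κ) x) := fun q hq i => by
      by_contra h2
      refine hn ⟨_, Rm.val_ev (M := M) (a := (⟨q, hq⟩, k)) (Function.ne_iff.2 ⟨i, ?_⟩)⟩
      change aeval x (G q i * X k ^ (T.sup d - d q)) ≠ 0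
      rw [map_mul, map_pow, aeval_X]
      exact mul_ne_zero h2 (pow_ne_zero _ hk)
    have h3 : X k ∈ RingHom.ker (aeval (R := κ) x) :=
      T51.mem_of_vanish (RingHom.ker_isPrime _).isRadical fun y hy => by
        by_cases h0 : y = 0
        · rw [h0, aeval_X]; rfl
        · obtain ⟨j, hj⟩ := g2 ⟨y, h0, fun H hH => hy H (hx H hH)⟩
          exact absurd (hy _ (hT _ h1 _ j)) hj
    rw [RingHom.mem_ker, aeval_X] at h3
    exact hk h3
  refine ⟨M, hM, hM.val (pgen_zr hI hη) hη.1 hw0 fun a => ?_⟩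
  exact (par_of_smul (c := c a.1.1 * η a.2 ^ (T.sup d - d a.1.1)) (funext (hv a))).symm

end D4C.SA
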