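import Pool.Agent.Lib.SA.Kit

/-! sa56 row TD: transcendence degrees of loci of points. -/

namespace D4C.SA

open MvPolynomial

namespace XTD

variable {k Ω : Type} [Field k] [Field Ω] [Algebra k Ω]

theorem low {ι : Type} {t : ι → Ω} (ht : AlgebraicIndependent k t) (E : IntermediateField k Ω)
    (h : ∀ i, t i ∈ E) : Cardinal.mk ι ≤ Algebra.trdeg k E := by
  have h6 : AlgebraicIndependent k fun j => (⟨t j, h j⟩ : E) :=
    AlgebraicIndependent.of_comp E.val ht
  exact h6.cardinalMk_le_trdeg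

theorem key (k : Type) [Field k] [Algebra k Ω] (S : Set Ω) : ∃ t : Set Ω, t ⊆ S ∧
    AlgebraicIndependent k (fun z : t => (z : Ω)) ∧
      Algebra.trdeg k (IntermediateField.adjoin k S) ≤ Cardinal.mk t := by
  obtain ⟨t, ht⟩ := (AlgebraicIndependent.matroid k Ω).exists_isBasis S
  obtain ⟨h1, h2, h3⟩ := AlgebraicIndependent.matroid_isBasis_iff.mp ht
  have h4 : AlgebraicIndependent k (fun z : t => (z : Ω)) := h1
  refine ⟨t, h2, h4, ?_⟩
  have h5 : Algebra.trdeg k (IntermediateField.adjoin k (Set.range fun z : t => (z : Ω))) =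
      Cardinal.mk t := by
    rw [← h4.aevalEquivField.trdeg_eq, T7.trdeg_frac, MvPolynomial.trdeg_of_isDomain,
      Cardinal.lift_id]
  rw [← h5, Subtype.range_coe]
  refine T73.trdeg_le fun z hz => ?_
  have h7 : IntermediateField.adjoin k S ≤
      (algebraicClosure (IntermediateField.adjoin k t) Ω).restrictScalars k :=
    IntermediateField.adjoin_le_iff.mpr fun a ha => mem_algebraicClosure_iff.mpr
      (IntermediateField.isAlgebraic_adjoin_iff.mpr (h3 a ha))
  exact mem_algebraicClosure_iff.mp (h7 hz)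

theorem mono1 (k' : Type) [Field k'] [Algebra k k'] [Algebra k' Ω] [IsScalarTower k k' Ω]
    (S : Set Ω) : Algebra.trdeg k' (IntermediateField.adjoin k' S) ≤
      Algebra.trdeg k (IntermediateField.adjoin k S) := by
  obtain ⟨t, h1, h2, h3⟩ := key k' S
  exact h3.trans (low (h2.restrictScalars (algebraMap k k').injective) _
    fun z => IntermediateField.subset_adjoin _ _ (h1 z.2))

theorem mono2 (k' : Type) [Field k'] [Algebra k k'] [Algebra k' Ω] [IsScalarTower k k' Ω]
    [Algebra.IsAlgebraic k k'] (S : Set Ω) : Algebra.trdeg k (IntermediateField.adjoin k S) ≤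
      Algebra.trdeg k' (IntermediateField.adjoin k' S) := by
  obtain ⟨t, h1, h2, h3⟩ := key k S
  exact h3.trans (low (h2.extendScalars k') _
    fun z => IntermediateField.subset_adjoin _ _ (h1 z.2))

theorem exch (Ω₀ : Type) [Field Ω₀] [Algebra k Ω₀] [Algebra Ω₀ Ω] [IsScalarTower k Ω₀ Ω]
    (S : Set Ω₀) (T S' : Set Ω) (hS : ∀ z ∈ S, algebraMap Ω₀ Ω z ∈ S') :
    Algebra.trdeg k (IntermediateField.adjoin k S) +
      Algebra.trdeg Ω₀ (IntermediateField.adjoin Ω₀ T) ≤
    Algebra.trdeg k (IntermediateField.adjoin k T) +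
      Algebra.trdeg (IntermediateField.adjoin k T)
        (IntermediateField.adjoin (IntermediateField.adjoin k T) S') := by
  obtain ⟨s, s1, s2, s3⟩ := key k S
  obtain ⟨t, t1, t2, t3⟩ := key Ω₀ T
  rw [trdeg_add_eq k (IntermediateField.adjoin k T)]
  have h1 := low (s2.sumElim_comp t2)
    ((IntermediateField.adjoin (IntermediateField.adjoin k T) S').restrictScalars k) (by
      rintro (z | z)
      · exact (IntermediateField.adjoin (IntermediateField.adjoin k T) S').algebraMap_mem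
          ⟨z, IntermediateField.subset_adjoin _ _ (t1 z.2)⟩
      · exact IntermediateField.subset_adjoin (IntermediateField.adjoin k T) S' (hS _ (s1 z.2)))
  rw [Cardinal.mk_sum, Cardinal.lift_id, Cardinal.lift_id, add_comm] at h1
  exact (add_le_add s3 t3).trans h1

theorem indep (F ι : Type) [Field F] : ∃ (Ω : Type) (_ : Field Ω) (_ : Algebra F Ω)
    (_ : IsAlgClosed Ω) (z : ι → Ω), AlgebraicIndependent F z := by
  let Ω := AlgebraicClosure (FractionRing (MvPolynomial ι F))
  let f : MvPolynomial ι F →ₐ[F] Ω := IsScalarTower.toAlgHom F _ Ω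
  have hf : Function.Injective f := by
    change Function.Injective (algebraMap (MvPolynomial ι F) Ω)
    rw [IsScalarTower.algebraMap_eq _ (FractionRing (MvPolynomial ι F)) Ω, RingHom.coe_comp]
    exact (RingHom.injective _).comp (IsFractionRing.injective _ _)
  exact ⟨Ω, inferInstance, inferInstance, inferInstance, _,
    (algebraicIndependent_X ι F).map' hf⟩

theorem free (k σ Ω₀ : Type) [Field k] [Field Ω₀] [Algebra k Ω₀]
    (q : Ideal (MvPolynomial σ k)) [hq : q.IsPrime] (h : ∃ i, X i ∉ q) :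
    ∃ (Ω : Type) (_ : Field Ω) (_ : Algebra k Ω) (_ : Algebra Ω₀ Ω) (_ : IsScalarTower k Ω₀ Ω)
      (b : σ → Ω), b ≠ 0 ∧ Zr q b ∧ cd q ≤ cd (loc Ω₀ b) := by
  obtain ⟨ι, g, hg⟩ := T51.exists_basis q
  obtain ⟨Ω, iF, i0, hac, z, hz⟩ := indep Ω₀ ι
  let ik : Algebra k Ω := ((algebraMap Ω₀ Ω).comp (algebraMap k Ω₀)).toAlgebra
  have hT : IsScalarTower k Ω₀ Ω := IsScalarTower.of_algebraMap_eq' rfl
  have hz' : AlgebraicIndependent k z := hz.restrictScalars (algebraMap k Ω₀).injective
  set t : ι → MvPolynomial σ k ⧸ q := fun i => Ideal.Quotient.mk q (g i) with ht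
  let R := Algebra.adjoin k (Set.range t)
  let e : MvPolynomial ι k ≃ₐ[k] R := hg.1.aevalEquiv
  let ψ : R →ₐ[k] Ω := (aeval z).comp e.symm.toAlgHom
  have hψ : Function.Injective ψ :=
    (algebraicIndependent_iff_injective_aeval.mp hz').comp e.symm.injective
  have hal : Algebra.IsAlgebraic R (MvPolynomial σ k ⧸ q) := hg.isAlgebraic
  let iR : Algebra R Ω := ψ.toRingHom.toAlgebra
  have hfs : FaithfulSMul R Ω := (faithfulSMul_iff_algebraMap_injective R Ω).mpr hψ
  let φ : (MvPolynomial σ k ⧸ q) →ₐ[R] Ω := IsAlgClosed.lift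
  have hφ : Function.Injective φ := by
    let _ : Algebra (MvPolynomial σ k ⧸ q) Ω := φ.toRingHom.toAlgebra
    have := IsScalarTower.of_algebraMap_eq (R := R) (S := MvPolynomial σ k ⧸ q) (A := Ω)
      fun r => (φ.commutes r).symm
    exact Algebra.IsAlgebraic.injective_tower_top (R := R) (MvPolynomial σ k ⧸ q) hψ
  let b : σ → Ω := fun i => φ (Ideal.Quotient.mk q (X i))
  have hb : ∀ F : MvPolynomial σ k, aeval b F = φ (Ideal.Quotient.mk q F) := fun F => by
    induction F using MvPolynomial.induction_on with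
    | C a =>
      rw [aeval_C]
      exact (ψ.commutes a).symm.trans (φ.commutes (algebraMap k R a)).symm
    | add p r hp hr => rw [map_add, map_add, map_add, hp, hr]
    | mul_X p i hp => rw [map_mul, map_mul, map_mul, hp, aeval_X]
  have hzg : ∀ j, aeval b (g j) = z j := fun j => by
    have h1 : e (X j) = ⟨t j, Algebra.subset_adjoin ⟨j, rfl⟩⟩ :=
      Subtype.ext ((hg.1.algebraMap_aevalEquiv (X j)).trans (aeval_X _ j))
    have h2 := φ.commutes ⟨t j, Algebra.subset_adjoin ⟨j, rfl⟩⟩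
    rw [hb]
    refine h2.trans ?_
    change aeval z (e.symm _) = _
    rw [← h1, e.symm_apply_apply, aeval_X]
  obtain ⟨i, hi⟩ := h
  refine ⟨Ω, iF, ik, i0, hT, b, fun h0 => hi ?_, fun F hF => ?_, ?_⟩
  · exact Ideal.Quotient.eq_zero_iff_mem.mp (hφ ((congrFun h0 i).trans (map_zero φ).symm))
  · rw [hb, Ideal.Quotient.eq_zero_iff_mem.mpr hF, map_zero]
  · unfold cd
    rw [← hg.cardinalMk_eq_trdeg]
    have : Nontrivial (MvPolynomial σ Ω₀ ⧸ loc Ω₀ b) :=
      Ideal.Quotient.nontrivial_iff.mpr (T51.prime_loc b).ne_top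
    have h6 : AlgebraicIndependent Ω₀ fun j =>
        Ideal.Quotient.mk (loc Ω₀ b) (MvPolynomial.map (algebraMap k Ω₀) (g j)) := by
      refine AlgebraicIndependent.of_comp
        (Ideal.Quotient.liftₐ (loc Ω₀ b) (aeval b) (T51.zr_loc b)) ?_
      have h7 : z = fun j => aeval b (MvPolynomial.map (algebraMap k Ω₀) (g j)) :=
        funext fun j => by rw [aeval_map_algebraMap, hzg]
      rw [h7] at hz
      exact hz
    exact h6.cardinalMk_le_trdeg

end XTD

theorem st_TD : St_TD := by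
  refine ⟨fun k σ Ω₀ Ω _ _ _ _ _ _ _ _ x w hx hw => ?_,
    fun k k' σ Ω _ _ _ _ _ _ _ _ w hw => ?_, fun k σ Ω₀ _ _ _ _ q hq _ h => XTD.free k σ Ω₀ q h⟩
  · have hx' : (fun i => algebraMap Ω₀ Ω (x i)) ≠ 0 := fun h0 => hx (funext fun i =>
      (algebraMap Ω₀ Ω).injective ((congrFun h0 i).trans (map_zero _).symm))
    rw [T51.cd_loc hx, T51.cd_loc hw, T51.cd_loc hw, T51.cd_loc hx', add_add_add_comm,
      add_add_add_comm _ 1 _ 1]
    refine add_le_add_left (XTD.exch Ω₀ _ _ _ ?_) _
    rintro _ ⟨ij, rfl⟩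
    exact ⟨ij, (map_div₀ _ _ _).symm⟩
  · rw [T51.cd_loc hw, T51.cd_loc hw]
    exact ⟨add_le_add_left (XTD.mono1 k' _) 1, fun _ => add_le_add_left (XTD.mono2 k' _) 1⟩

end D4C.SA
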