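import Pool.Agent.Lib.SA.Kit

/-! sa56 row TRG: translates of a generic point. -/

set_option linter.unusedSectionVars false

namespace D4C.SA

open MvPolynomial

namespace XTRG

variable {κ σ F : Type} [Field κ] [IsAlgClosed κ] [Fintype σ] [DecidableEq σ]
  [Field F] [Algebra κ F] {B : Pkg κ σ}

theorem repc (c : B.Pt κ) :
    B.Rep (B.map (Algebra.ofId κ F) c) fun i => algebraMap κ F (B.rp c i) :=
  rep_map_rp (Algebra.ofId κ F) c

theorem pgen {e : B.Pt F} {η η' : σ → F} {c : B.Pt κ} (he : B.Rep e η) (hg : PGen B.I η)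
    (h' : B.Rep (e + B.map (Algebra.ofId κ F) c) η') : PGen B.I η' := by
  refine ⟨rep_ne h', fun G d hG => ⟨fun h0 => ?_, fun h0 => h'.zr G h0⟩⟩
  have h1 := (trF_iff he (repc c) h' hG).1 h0
  refine mem_I hG fun b => ?_
  have h2 : b = (b - c) + c := (sub_add_cancel b c).symm
  rw [h2, trF_pts _ _ hG]
  intro a
  exact rp_zr _ _ ((hg.2 _ _ (trF_hom hG _ a)).1 (h1 a))

theorem le {e : B.Pt F} {η η' : σ → F} {c : B.Pt κ} (he : B.Rep e η) (hg : PGen B.I η)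
    (h' : B.Rep (e + B.map (Algebra.ofId κ F) c) η') {p : B.Pt κ} {y y' : σ → κ}
    (hy : B.Rep p y) (hy' : B.Rep (p + c) y') : Oq η' y' ≤ Oq η y := by
  rintro u ⟨d, G, H, hG, hH, h1, -, h3⟩
  obtain ⟨t, ⟨a, ha⟩, -, ht⟩ := trF_val (κ := κ) (c := B.rp c) hy (B.rep_rp c) hy'
  obtain ⟨s, -, -, hs⟩ := trF_val he (repc c) h'
  have h4 : aeval y (trF B H (B.rp c) a) ≠ 0 := by
    rw [ht a H d hH]
    exact mul_ne_zero (pow_ne_zero _ ha) h1
  refine ⟨B.β * d, trF B G (B.rp c) a, trF B H (B.rp c) a, trF_hom hG _ a, trF_hom hH _ a, h4,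
    fun h0 => h4 (hy.zr _ ((hg.2 _ _ (trF_hom hH _ a)).1 h0)), ?_⟩
  rw [hs a H d hH, hs a G d hG, ← h3]
  ring

end XTRG

theorem st_TRG : St_TRG := by
  intro κ σ F _ _ _ _ _ _ B e η η' c he hg h'
  have hg' := XTRG.pgen he hg h'
  refine ⟨hg', fun p y y' hy hy' => le_antisymm (XTRG.le he hg h' hy hy') ?_⟩
  refine XTRG.le (c := -c) h' hg' ?_ hy' ?_
  · rw [map_neg, add_neg_cancel_right]
    exact he
  · rw [add_neg_cancel_right]
    exact hy

end D4C.SA
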