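import Pool.Agent.Lib.SA.Kit

/-! sa56 row UFD: all local rings of an abelian variety are factorial. -/

namespace D4C.SA

open MvPolynomial

namespace XUFD

variable {κ σ F F' : Type} [Field κ] [Field F] [Algebra κ F] [Field F'] [Algebra κ F']

/-- the two elements are given by the same quotient of forms -/
def Rel (η : σ → F) (η' : σ → F') (y : σ → κ) (u : F) (v : F') : Prop :=
  ∃ (d : ℕ) (G H : MvPolynomial σ κ), G.IsHomogeneous d ∧ H.IsHomogeneous d ∧
    aeval y H ≠ 0 ∧ aeval η H ≠ 0 ∧ aeval η' H ≠ 0 ∧ u * aeval η H = aeval η G ∧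
      v * aeval η' H = aeval η' G

variable {I : Ideal (MvPolynomial σ κ)} {η : σ → F} {η' : σ → F'} {y : σ → κ}

theorem Rel.symm {u : F} {v : F'} (h : Rel η η' y u v) : Rel η' η y v u := by
  obtain ⟨d, G, H, a1, a2, a3, a4, a5, a6, a7⟩ := h
  exact ⟨d, G, H, a1, a2, a3, a5, a4, a7, a6⟩

theorem Rel.mul {u u' : F} {v v' : F'} (h : Rel η η' y u v) (h' : Rel η η' y u' v') :
    Rel η η' y (u * u') (v * v') := by
  obtain ⟨d, G, H, a1, a2, a3, a4, a5, a6, a7⟩ := h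
  obtain ⟨d', G', H', b1, b2, b3, b4, b5, b6, b7⟩ := h'
  refine ⟨d + d', G * G', H * H', a1.mul b1, a2.mul b2, by rw [map_mul]; exact mul_ne_zero a3 b3,
    by rw [map_mul]; exact mul_ne_zero a4 b4, by rw [map_mul]; exact mul_ne_zero a5 b5, ?_, ?_⟩
  · rw [map_mul, map_mul, ← a6, ← b6]
    ring
  · rw [map_mul, map_mul, ← a7, ← b7]
    ring

theorem Rel.uniq (hη : PGen I η) (hη' : PGen I η') {u : F} {v v' : F'} (h : Rel η η' y u v)
    (h' : Rel η η' y u v') : v = v' := by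
  obtain ⟨d, G, H, a1, a2, -, -, a5, a6, a7⟩ := h
  obtain ⟨d', G', H', b1, b2, -, -, b5, b6, b7⟩ := h'
  have hh : (G * H' - H * G').IsHomogeneous (d + d') := (a1.mul b2).sub (a2.mul b1)
  have h1 : aeval η (G * H' - H * G') = 0 := by
    rw [map_sub, map_mul, map_mul, ← a6, ← b6]
    ring
  have h2 := (hη'.2 _ _ hh).2 ((hη.2 _ _ hh).1 h1)
  rw [map_sub, map_mul, map_mul, ← a7, ← b7] at h2
  refine mul_right_cancel₀ (mul_ne_zero a5 b5) ?_
  linear_combination h2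

theorem tot (hη : PGen I η) (hη' : PGen I η') (u : Oq η y) :
    ∃ v : Oq η' y, Rel η η' y (u : F) (v : F') := by
  obtain ⟨d, G, H, a1, a2, a3, a4, a5⟩ := u.2
  have h1 : aeval η' H ≠ 0 := fun h => a4 ((hη.2 _ _ a2).2 ((hη'.2 _ _ a2).1 h))
  have h2 : aeval η' G / aeval η' H * aeval η' H = aeval η' G := div_mul_cancel₀ _ h1
  exact ⟨⟨_, d, G, H, a1, a2, a3, h1, h2⟩, d, G, H, a1, a2, a3, a4, h1, a5, h2⟩

/-- the local ring does not depend on the generic point -/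
noncomputable def eqv (hη : PGen I η) (hη' : PGen I η') (y : σ → κ) : Oq η y ≃* Oq η' y where
  toFun u := (tot hη hη' u).choose
  invFun v := (tot hη' hη v).choose
  left_inv u := Subtype.ext
    ((tot hη' hη _).choose_spec.uniq hη' hη (tot hη hη' u).choose_spec.symm)
  right_inv v := Subtype.ext
    ((tot hη hη' _).choose_spec.uniq hη hη' (tot hη' hη v).choose_spec.symm)
  map_mul' u u' := Subtype.ext ((tot hη hη' (u * u')).choose_spec.uniq hη hη'
    ((tot hη hη' u).choose_spec.mul (tot hη hη' u').choose_spec))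

end XUFD

theorem st_UFD (hUFD0 : St_UFD0) (hTRG : St_TRG) : St_UFD := by
  intro κ σ F _ _ _ _ _ _ B η hη y hy0 hy
  obtain ⟨y0, h0, h1, h2⟩ := hUFD0 κ σ F B.I η B.hom hη
  obtain ⟨p, hp⟩ := exists_pt (B := B) hy0 hy
  obtain ⟨p0, hp0⟩ := exists_pt (B := B) h0 h1
  obtain ⟨e, he⟩ := exists_pt (B := B) hη.1 (pgen_zr B.hom hη)
  obtain ⟨h3, h4⟩ := hTRG κ σ F B e η _ (p0 - p) he hη (B.rep_rp _)
  rw [← h4 p y y0 hp (by rwa [add_sub_cancel])]
  exact (XUFD.eqv hη h3 y0).uniqueFactorizationMonoid h2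

end D4C.SA
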