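import Pool.Agent.Lib.SA.Kit

/-! sa56 row UFD0: one factorial local ring. -/

namespace D4C.SA

open MvPolynomial

namespace XUFD0

theorem exists_hom (k A : Type) [Field k] [IsAlgClosed k] [CommRing A] [Nontrivial A]
    [Algebra k A] [Algebra.FiniteType k A] : Nonempty (A →ₐ[k] k) := by
  obtain ⟨m, hm⟩ := Ideal.exists_maximal A
  letI : Field (A ⧸ m) := Ideal.Quotient.field m
  have : Module.Finite k (A ⧸ m) := finite_of_finite_type_of_isJacobsonRing k (A ⧸ m)
  exact ⟨(IsAlgClosed.lift : (A ⧸ m) →ₐ[k] k).comp (Ideal.Quotient.mkₐ k m)⟩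

theorem generic_ufd (k A : Type) [Field k] [IsAlgClosed k] [CommRing A] [IsDomain A]
    [Algebra k A] [Algebra.FiniteType k A] :
    ∃ φ : A →ₐ[k] k, ∀ (B : Type) [CommRing B] [IsDomain B] [Algebra A B]
      [(RingHom.ker φ).IsPrime] [IsLocalization.AtPrime B (RingHom.ker φ)],
      UniqueFactorizationMonoid B := by
  have hfp : Algebra.FinitePresentation k A :=
    Algebra.FinitePresentation.of_finiteType.mp inferInstance
  have hfr : IsFractionRing A (Localization.AtPrime (⊥ : Ideal A)) := by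
    simpa [Ideal.primeCompl_bot] using
      Localization.isLocalization (M := (⊥ : Ideal A).primeCompl)
  have hs0 : Algebra.FormallySmooth k (FractionRing A) := Algebra.FormallySmooth.of_perfectField
  have hs : Algebra.IsSmoothAt k (⊥ : Ideal A) :=
    Algebra.FormallySmooth.of_equiv
      ((FractionRing.algEquiv A (Localization.AtPrime (⊥ : Ideal A))).restrictScalars k)
  obtain ⟨f, hf, hsm⟩ := Algebra.IsSmoothAt.exists_notMem_smooth k (⊥ : Ideal A)
  have hf0 : f ≠ 0 := by simpa using hf
  have hle : Submonoid.powers f ≤ nonZeroDivisors A :=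
    powers_le_nonZeroDivisors_of_noZeroDivisors hf0
  have hdom : IsDomain (Localization.Away f) := IsLocalization.isDomain_localization hle
  obtain ⟨ψ⟩ := exists_hom k (Localization.Away f)
  have hp : (RingHom.ker ψ).IsPrime := RingHom.ker_isPrime ψ
  have hu := Pool.Agent.Lib.MV.UFD.smooth_ufd k (RingHom.ker ψ) (Localization.AtPrime (RingHom.ker ψ))
  refine ⟨ψ.comp (IsScalarTower.toAlgHom k A (Localization.Away f)), fun B _ _ _ _ hB => ?_⟩
  have hl : IsLocalization.AtPrime (Localization.AtPrime (RingHom.ker ψ))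
      (RingHom.ker (ψ.comp (IsScalarTower.toAlgHom k A (Localization.Away f)))) :=
    IsLocalization.isLocalization_isLocalization_atPrime_isLocalization (Submonoid.powers f)
      (Localization.AtPrime (RingHom.ker ψ)) (RingHom.ker ψ)
  exact (IsLocalization.algEquiv
    (RingHom.ker (ψ.comp (IsScalarTower.toAlgHom k A (Localization.Away f)))).primeCompl
    (Localization.AtPrime (RingHom.ker ψ)) B).toMulEquiv.uniqueFactorizationMonoid hu

variable {κ σ F : Type} [Field κ] [Field F] [Algebra κ F]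

theorem aeval_div {x : σ → F} {j : σ} (hj : x j ≠ 0) {G : MvPolynomial σ κ} {d : ℕ}
    (hG : G.IsHomogeneous d) : aeval x G = x j ^ d * aeval (fun i => x i / x j) G := by
  have h1 : x = x j • fun i => x i / x j := funext fun i => by
    simp [mul_div_cancel₀ _ hj]
  conv_lhs => rw [h1]
  exact aeval_smul_hom hG _ _

theorem aeval_hz {x : σ → F} {j : σ} (hj : x j = 1) (P : MvPolynomial σ κ) :
    aeval x (T13.hz j P) = aeval x P := by
  conv_rhs => rw [← sum_homogeneousComponent P]
  simp [T13.hz, hj]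

theorem aeval_hz' {x : σ → F} {j : σ} (hj : x j ≠ 0) (P : MvPolynomial σ κ) :
    aeval x (T13.hz j P) = x j ^ P.totalDegree * aeval (fun i => x i / x j) P := by
  rw [aeval_div hj (T13.hz_hom j P), aeval_hz (x := fun i => x i / x j) (j := j) (div_self hj)]

end XUFD0

open XUFD0 in
theorem st_UFD0 (hOQ : St_OQ) : St_UFD0 := by
  intro κ σ F _ _ _ _ _ I η hI hη
  obtain ⟨j, hj⟩ : ∃ j, η j ≠ 0 := Function.ne_iff.mp hη.1
  set u : σ → F := fun i => η i / η j with hu
  have hft : Algebra.FiniteType κ (Algebra.adjoin κ (Set.range u)) :=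
    Algebra.FiniteType.of_surjective (T13.evA κ u) (T13.evA_surj u)
  obtain ⟨φ, hφ⟩ := generic_ufd κ (Algebra.adjoin κ (Set.range u))
  set y : σ → κ := fun i => φ (T13.evA κ u (X i)) with hy
  have hev : ∀ P : MvPolynomial σ κ, aeval y P = φ (T13.evA κ u P) := fun P => by
    have : (aeval y : MvPolynomial σ κ →ₐ[κ] κ) = φ.comp (T13.evA κ u) :=
      MvPolynomial.algHom_ext fun i => by simp [hy]
    rw [this]; rfl
  have hyj : y j = 1 := by
    have : T13.evA κ u (X j) = 1 := Subtype.ext (by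
      rw [T13.evA_coe]; simp [hu, div_self hj])
    simp [hy, this]
  have hy0 : y ≠ 0 := fun h => by simp [h] at hyj
  have hz : Zr I y := fun P hP => by
    rw [← sum_homogeneousComponent P, map_sum]
    refine Finset.sum_eq_zero fun n _ => ?_
    have h1 := (hη.2 _ n (homogeneousComponent_isHomogeneous n P)).2 (hI P hP n)
    rw [aeval_div hj (homogeneousComponent_isHomogeneous n P), mul_eq_zero,
      or_iff_right (pow_ne_zero _ hj)] at h1
    have h2 : T13.evA κ u (homogeneousComponent n P) = 0 := Subtype.ext h1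
    rw [hev, h2, map_zero]
  have hXy : ∀ d : ℕ, aeval y (X j ^ d : MvPolynomial σ κ) ≠ 0 := fun d => by simp [hyj]
  have hXη : ∀ d : ℕ, aeval η (X j ^ d : MvPolynomial σ κ) = η j ^ d := fun d => by simp
  have hle : Algebra.adjoin κ (Set.range u) ≤ Oq η y := fun a ha => by
    obtain ⟨P, hP⟩ := T13.evA_surj (k := κ) u ⟨a, ha⟩
    have ha' : a = aeval u P := (congrArg Subtype.val hP).symm
    refine ⟨P.totalDegree, T13.hz j P, X j ^ P.totalDegree, T13.hz_hom j P,
      isHomogeneous_X_pow j _, hXy _, by rw [hXη]; exact pow_ne_zero _ hj, ?_⟩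
    rw [hXη, aeval_hz' hj, ha', mul_comm]
  letI : Algebra (Algebra.adjoin κ (Set.range u)) (Oq η y) :=
    (Subalgebra.inclusion hle).toRingHom.toAlgebra
  have hmap : ∀ a : Algebra.adjoin κ (Set.range u),
      ((algebraMap (Algebra.adjoin κ (Set.range u)) (Oq η y) a : Oq η y) : F) = a := fun _ => rfl
  have hp : (RingHom.ker φ).IsPrime := RingHom.ker_isPrime φ
  have hl : IsLocalization.AtPrime (Oq η y) (RingHom.ker φ) := by
    refine (isLocalization_iff _ _).2 ⟨?_, ?_, ?_⟩
    · rintro ⟨s, hs⟩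
      obtain ⟨P, rfl⟩ := T13.evA_surj (k := κ) u s
      have h1 : φ (T13.evA κ u P) ≠ 0 := hs
      have h2 : aeval u P ≠ 0 := fun h => h1 (by
        rw [show T13.evA κ u P = 0 from Subtype.ext h, map_zero])
      have h3 : aeval η (T13.hz j P) ≠ 0 := by
        rw [aeval_hz' hj]; exact mul_ne_zero (pow_ne_zero _ hj) h2
      refine IsUnit.of_mul_eq_one (⟨(aeval u P)⁻¹, P.totalDegree, X j ^ P.totalDegree, T13.hz j P,
        isHomogeneous_X_pow j _, T13.hz_hom j P, ?_, h3, ?_⟩ : Oq η y) (Subtype.ext ?_)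
      · rw [aeval_hz hyj, hev]; exact h1
      · rw [hXη, aeval_hz' hj, mul_comm (η j ^ _), ← mul_assoc, inv_mul_cancel₀ h2, one_mul]
      · exact mul_inv_cancel₀ h2
    · rintro ⟨v, d, G, H, a1, a2, a3, a4, a5⟩
      refine ⟨(T13.evA κ u G, ⟨T13.evA κ u H, fun h => a3 ((hev H).trans h)⟩), Subtype.ext ?_⟩
      rw [aeval_div hj a1, aeval_div hj a2, mul_left_comm] at a5
      exact mul_left_cancel₀ (pow_ne_zero _ hj) a5
    · intro a b h
      exact ⟨1, by rw [show a = b from Subtype.ext
        ((hmap a).symm.trans ((congrArg Subtype.val h).trans (hmap b)))]⟩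
  exact ⟨y, hy0, hz, hφ (Oq η y)⟩

end D4C.SA
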