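import Pool.Agent.Lib.SA.Fin2
import Pool.Agent.Lib.SA.B_RM
import Pool.Agent.Lib.SA.B_GRAPH
import Pool.Agent.Lib.SA.B_ALG
import Pool.Agent.Lib.SA.B_SQ
import Pool.Agent.Lib.SA.B_SQF
import Pool.Agent.Lib.SA.B_OQ
import Pool.Agent.Lib.SA.B_UFD0
import Pool.Agent.Lib.SA.B_TRG
import Pool.Agent.Lib.SA.B_UFD
import Pool.Agent.Lib.SA.B_COL
import Pool.Agent.Lib.SA.B_SYS
import Pool.Agent.Lib.SA.B_LOCV
import Pool.Agent.Lib.SA.B_REG1
import Pool.Agent.Lib.SA.B_COV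
import Pool.Agent.Lib.SA.B_REG
import Pool.Agent.Lib.SA.B_CODQ
import Pool.Agent.Lib.SA.B_GEO1
import Pool.Agent.Lib.SA.B_RIG
import Pool.Agent.Lib.SA.B_INV
import Pool.Agent.Lib.SA.B_ROOT
import Pool.Agent.Lib.SA.B_FIN
import Pool.Agent.Lib.SA.B_PIECE
import Pool.Agent.Lib.SA.B_STRK
import Pool.Agent.Lib.SA.B_SUM
import Pool.Agent.Lib.SA.B_RET
import Pool.Agent.Lib.SA.B_ML
import Pool.Agent.Lib.SA.B_PQ2
import Pool.Agent.Lib.SA.B_TD
import Pool.Agent.Lib.SA.B_COD2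
import Pool.Agent.Lib.SA.B_PG
import Pool.Agent.Lib.SA.B_INEQ
import Pool.Agent.Lib.SA.B_ABSH
import Pool.Agent.Lib.SA.B_DSC
import Pool.Agent.Lib.SA.B_DSM
import Pool.Agent.Lib.SA.B_AMP
import Pool.Agent.Lib.SA.B_FINP
import Pool.Agent.Lib.SA.B_MAIN
import Pool.Agent.Lib.SA.B_FPSI

/-! sa56: all rows put together. -/

namespace D4C.SA.Fin

theorem b_SQF : St_SQF := st_SQF (st_SQ st_RM st_GRAPH st_ALG)
theorem b_UFD : St_UFD := st_UFD (st_UFD0 st_OQ) st_TRG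
theorem b_REG : St_REG := st_REG (st_COL st_OQ) (st_SYS st_OQ) b_UFD
  (st_REG1 b_SQF st_RM st_OQ b_UFD st_TRG) st_COV st_OQ
theorem b_GEO1 : St_GEO1 :=
  st_GEO1 b_REG (st_SYS st_OQ) (st_LOCV st_OQ) (st_CODQ st_OQ) st_OQ b_UFD
theorem b_PIECE : St_PIECE := st_PIECE st_RM b_GEO1 st_FIN st_RIG st_INV st_ROOT
theorem b_ML : St_ML := st_ML st_STRK st_SUM st_RET
theorem b_INEQ : St_INEQ := st_INEQ (st_PG (st_COD2 st_TD))
theorem b_AMP : St_AMP := st_AMP st_DSC st_DSM (st_PQ2 st_STRK) st_FIN st_ABSH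
theorem b_MAIN : St_MAIN := st_MAIN b_ML b_PIECE (st_FINP st_DSC st_DSM b_INEQ b_AMP st_ABSH)

/-- the statement for a tuple of forms and the Weil height -/
theorem all : St_ALL := st_ALL st_FMOD b_MAIN b_AMP st_FPSI st_ABSH

/-- the statement for a morphism on an open subset and the canonical height -/
theorem all2 : St_ALL2 := st_ALL2 b_MAIN b_AMP st_FPSI st_ABSH

end D4C.SA.Fin
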