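import Pool.Agent.Lib.SA.Kit

/-! sa56 row ALL: the final statement. -/

namespace D4C.SA

open MvPolynomial

namespace XALL

theorem exists_min {ι : Type} [Fintype ι] (c : ι → ℝ) (h : ∀ j, 0 < c j) :
    ∃ a : ℝ, 0 < a ∧ ∀ j, a ≤ c j := by
  have h0 : 0 ≤ ∑ j, (c j)⁻¹ := Finset.sum_nonneg fun j _ => (inv_pos.2 (h j)).le
  refine ⟨(1 + ∑ j, (c j)⁻¹)⁻¹, by positivity, fun j => ?_⟩
  rw [inv_le_comm₀ (by positivity) (h j)]
  have := Finset.single_le_sum (f := fun j => (c j)⁻¹) (fun j _ => (inv_pos.2 (h j)).le)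
    (Finset.mem_univ j)
  linarith

theorem mem_carrier {κ σ : Type} [Field κ] {A : AbVar κ σ} {Q : A.carrier}
    {G : AddSubgroup A.carrier} (p : A.transl Q G) : p.1 ∈ A.carrier := by
  obtain ⟨b, -, hb⟩ := p.2
  rw [hb]
  exact (Q + b).2

theorem mem_transl {κ σ : Type} [Field κ] {A : AbVar κ σ} {Q P : A.carrier}
    {G : AddSubgroup A.carrier} : P.1 ∈ A.transl Q G ↔ P - Q ∈ G :=
  ⟨fun ⟨b, hb, h⟩ => by rwa [Subtype.val_injective h, add_sub_cancel_left],
    fun h => ⟨_, h, by rw [add_sub_cancel]⟩⟩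

end XALL

open XALL

theorem st_ALL (hFMOD : St_FMOD) (hMAIN : St_MAIN) (hAMP : St_AMP) (hFPSI : St_FPSI)
    (hABSH : St_ABSH) : St_ALL := by
  intro K _ _ n A r d f hf ε hε
  obtain ⟨L, _, _, _, _, _, B, E, lam, hM⟩ :=
    hFMOD K (AlgebraicClosure K) (Fin (n + 1)) (Fin r) A d f hf
  have : Algebra.IsAlgebraic L (AlgebraicClosure K) := Algebra.IsAlgebraic.tower_top (K := K) L
  obtain ⟨C, JJ, k, P, hfin, hNZ, hb⟩ := hMAIN L (AlgebraicClosure K) _ _ B lam ε hε
  have : Finite JJ := hfin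
  choose G hG hG' using hM.sub
  choose c C1 hc hC1 using fun j => hAMP L (AlgebraicClosure K) _ _ B lam (P j)
  choose ψ hψ hψ' using fun j => hFPSI (AlgebraicClosure K) _ _ _ L A B E hM.loc (P j).J (P j).M
    (P j).nz.1.hom (P j).mor (E.symm (P j).Q) (G _ (P j).nz) (hG' _ (P j).nz)
  simp only [AddEquiv.apply_symm_apply] at hψ'
  obtain ⟨c0, hc0, hc1⟩ := exists_min c hc
  have hD : (1 : ℝ) ≤ Module.finrank K L := by exact_mod_cast Module.finrank_pos
  have hS : ∀ j, C1 j ≤ |C| + ∑ j, |C1 j| := fun j => by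
    have := Finset.single_le_sum (f := fun j => |C1 j|) (fun _ _ => abs_nonneg _)
      (Finset.mem_univ j)
    linarith [le_abs_self (C1 j), abs_nonneg C]
  have hS0 : 0 ≤ ∑ j, |C1 j| := Finset.sum_nonneg fun _ _ => abs_nonneg _
  have hT : ∀ j (p : A.carrier), p.1 ∈ A.transl (E.symm (P j).Q) (G _ (P j).nz) ↔
      Zr (P j).J (B.rp (E p - (P j).Q)) := fun j p => by
    rw [mem_transl, hG', map_sub, AddEquiv.apply_symm_apply]
  refine ⟨c0, |C| + ∑ j, |C1 j|, Set.range fun J : JJ => G _ (hNZ J.1 J.2), k,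
    fun j => E.symm (P j).Q, fun j => G _ (P j).nz, fun j => (P j).m, fun j => (P j).N, ψ, hc0,
    Set.finite_range _, ?_, fun j => ⟨hG _ _, (P j).m_pos, hψ j, fun z => ?_, fun p hp => ?_,
      fun p x hx hp => ?_⟩, fun p x hx hp hfx hC hn => ?_⟩
  · rintro _ ⟨J, rfl⟩
    exact hG _ _
  · refine Set.Finite.of_finite_image (f := fun p => E ⟨p.1, mem_carrier p⟩ - (P j).Q)
      (((P j).fin z.rep).subset ?_) fun p _ q _ h => ?_
    · rintro _ ⟨p, hp, rfl⟩
      refine ⟨(hT j ⟨p.1, mem_carrier p⟩).1 p.2, ?_⟩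
      have := hψ' j ⟨p.1, mem_carrier p⟩ p.2
      rwa [show ψ j ⟨p.1, p.2⟩ = z from hp] at this
    · exact Subtype.ext (Subtype.mk.inj (E.injective (sub_left_injective h)))
  · refine (P j).fst _ _ _ ((hT j ⟨p.1, mem_carrier p⟩).1 p.2) ?_ (hψ' j ⟨p.1, mem_carrier p⟩ p.2)
    rw [add_sub_cancel]
    exact (hM.val _ _).2 ⟨hp, hp, Par.refl _⟩
  · obtain ⟨q, h1, h2, -⟩ := hM.rat ⟨p.1, mem_carrier p⟩ x ((map_ne_zero' _).1 hx)
      (M56.par_of_eq_mk hp)
    have h3 := hC1 j q _ _ (by rw [h1, add_sub_cancel]) ((hT j ⟨p.1, mem_carrier p⟩).1 p.2)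
      (hψ' j ⟨p.1, mem_carrier p⟩ p.2)
    rw [hABSH.tower K _ _ L _ (Projectivization.rep_nonzero _)] at h3
    have h4 : c0 * (Module.finrank K L * Height.logHeight x) ≤ c j * B.ht q :=
      mul_le_mul (hc1 j) h2 (mul_nonneg (by linarith) (Height.logHeight_nonneg _)) (hc j).le
    have h5 := hS j
    refine le_of_mul_le_mul_left ?_ (show (0 : ℝ) < Module.finrank K L by linarith)
    nlinarith [abs_nonneg C]
  · obtain ⟨q, h1, h2, h3⟩ := hM.rat p x ((map_ne_zero' _).1 hx) (M56.par_of_eq_mk hp)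
    obtain ⟨j, h4, h5⟩ := hb q _ (h3 hfx) (by
      nlinarith [le_abs_self C, Height.logHeight_nonneg x]) fun J hJ => by
      have h6 := hn _ ⟨⟨J, hJ⟩, rfl⟩
      unfold AbVar.Contracts at h6
      push Not at h6
      obtain ⟨b, h7, i, i', h8⟩ := h6
      have h9 : (fun i => aeval (p + b).1.rep (f i)) ≠ 0 := fun h =>
        h8 (by rw [congrFun h i, congrFun h i']; simp)
      refine ⟨E b, fun i => aeval (p + b).1.rep (f i), (hG' _ _ _).1 h7, ?_, fun h => h8 ?_⟩
      · rw [h1, ← map_add]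
        exact (hM.val _ _).2 ⟨h9, h9, Par.refl _⟩
      · obtain ⟨t, ht⟩ := par_smul' (M56.par_of_eq_mk hp).symm hx
        have h10 : ∀ i, aeval p.1.rep (f i) =
            t ^ d * algebraMap L (AlgebraicClosure K) (algebraMap K L (eval x (f i))) := fun i => by
          rw [ht, aeval_smul_hom (hf i), ← IsScalarTower.algebraMap_apply]
          exact congrArg _ (aeval_map_alg (Algebra.ofId K _) x (f i))
        have h11 := h i' i
        rw [h10, h10]
        linear_combination t ^ d * h11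
    rw [h1] at h4 h5
    refine ⟨j, (hT j p).2 h4, ?_⟩
    have h6 := h5 _ (hψ' j p ((hT j p).2 h4))
    rw [hABSH.tower K _ _ L _ (Projectivization.rep_nonzero _),
      All.a_HEXT K L _ fun i => eval x (f i)] at h6
    refine le_of_mul_le_mul_left ?_ (show (0 : ℝ) < Module.finrank K L by linarith)
    linarith

end D4C.SA
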