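import Pool.Agent.Lib.SA.Kit

/-! sa56 row COD2: codimension two on the ambient variety passes to the small field. -/

namespace D4C.SA

open MvPolynomial Filter

namespace XCOD2

variable {L σ : Type} [Field L] [Fintype σ] [DecidableEq σ]

/-- a point is rational over the field of its ratios -/
theorem rat_pt (B : Pkg L σ) {k Ω : Type} [Field k] [Field Ω] [Algebra k Ω] [Algebra L Ω]
    {p : B.Pt Ω} {w : σ → Ω} (hw : B.Rep p w) [Algebra L (rat k w)]
    [IsScalarTower L (rat k w) Ω] :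
    ∃ W : B.Pt (rat k w), B.map (IsScalarTower.toAlgHom L (rat k w) Ω) W = p := by
  obtain ⟨j, hj⟩ := Function.ne_iff.1 (rep_ne hw)
  have hj : w j ≠ 0 := hj
  let u : σ → rat k w := fun i =>
    ⟨w i / w j, IntermediateField.subset_adjoin _ _ ⟨(i, j), rfl⟩⟩
  let φ := IsScalarTower.toAlgHom L (rat k w) Ω
  have h1 : (fun i => φ (u i)) = (w j)⁻¹ • w := funext fun i => div_eq_inv_mul _ _
  have h2 := hw.smul (isUnit_iff_ne_zero.2 (inv_ne_zero hj))
  rw [← h1] at h2
  obtain ⟨W, hW⟩ := exists_pt (B := B) ((map_ne_zero' φ).1 (rep_ne h2)) fun F hF =>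
    (map_eq_zero φ).1 (by rw [← aeval_map_alg, h2.zr F hF])
  exact ⟨W, (hW.map φ).eq h2 (Par.refl _)⟩

/-- the inequality between the four loci -/
theorem core (hTD : St_TD) {L' Ω₀ Ω : Type} [Field L'] [Field Ω₀] [Field Ω] [Algebra L L']
    [Algebra.IsAlgebraic L L'] [Algebra L Ω₀] [Algebra L' Ω₀] [Algebra L Ω] [Algebra L' Ω]
    [Algebra Ω₀ Ω] [IsScalarTower L L' Ω₀] [IsScalarTower L L' Ω] [IsScalarTower L Ω₀ Ω]
    [IsScalarTower L' Ω₀ Ω] {B : Pkg L σ} {B' : Pkg L' σ} (h : Sub2 B B') {g : ℕ}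
    (hg : B'.IsDim g) {X' : B'.Pt Ω₀} {Y : B.Pt Ω₀} {xs : σ → Ω₀}
    (hx : B.Rep (h.hom Ω₀ X' + Y) xs) {P : B'.Pt Ω} {b w : σ → Ω} (hb : B'.Rep P b)
    (hw : B.Rep (h.hom Ω P + B.map (IsScalarTower.toAlgHom L Ω₀ Ω) Y) w) :
    cd (loc L xs) + cd (loc Ω₀ b) ≤ cd (loc L w) + (g + 1 : ℕ) := by
  have e1 := (hTD.mono L L' σ Ω₀ xs (rep_ne hx)).2 inferInstance
  have e2 := (hTD.mono L L' σ Ω w (rep_ne hw)).1
  have e3 := hTD.exch L' σ Ω₀ Ω xs w (rep_ne hx) (rep_ne hw)
  have e4 := All.a_RATL L σ B Ω₀ Ω (-Y) _ w b hw (by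
    rw [map_neg, add_comm, add_neg_cancel_right]
    exact h.rep hb)
  let _ : Algebra L (rat L' w) :=
    ((algebraMap L' (rat L' w)).comp (algebraMap L L')).toAlgebra
  have t1 : IsScalarTower L L' (rat L' w) := IsScalarTower.of_algebraMap_eq' rfl
  have t2 : IsScalarTower L (rat L' w) Ω := IsScalarTower.of_algebraMap_eq fun a =>
    IsScalarTower.algebraMap_apply L L' Ω a
  obtain ⟨W, hW⟩ := rat_pt (k := L') B hw
  let Z := B'.map (IsScalarTower.toAlgHom L' Ω₀ Ω) X' - P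
  have e5 := All.a_RATL L σ B (rat L' w) Ω W (h.hom Ω Z) (B'.rp Z)
    (fun i => algebraMap Ω₀ Ω (xs i)) (rep_hom_rp h Z) (by
      have h1 := hx.map (IsScalarTower.toAlgHom L Ω₀ Ω)
      rw [map_add] at h1
      rw [hW, map_sub, hom_map h]
      have h2 : ∀ s t u : B.Pt Ω, s + t + (u - s) = u + t := fun s t u => by abel
      rw [h2]
      exact h1)
  have e6 : cd (loc (rat L' w) (B'.rp Z)) ≤ (g + 1 : ℕ) :=
    (T51.cd_anti (T57.le_loc B'.hom.ext (zr_ext.2 (rp_zr Z)))).trans_eq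
      (All.a_SUBF L σ B L' (rat L' w) B' g h hg).2
  exact (add_le_add e1 e4).trans (e3.trans (add_le_add e2 (e5.trans e6)))

end XCOD2

open XCOD2 T23 in
theorem st_COD2 (hTD : St_TD) : St_COD2 := by
  intro L σ _ _ _ _ B r e f hf hc U x xr hxr hgen L' _ _ _ B' g x' y hD hg κ _ _ v hv q' hq h1 h2
  by_cases h0 : ∀ i, X i ∈ q'
  · rw [cd_zero hq h0]
    exact_mod_cast (by omega : 0 + 2 ≤ g + 1 + 1)
  push Not at h0
  obtain ⟨q, m, q1, q2, q3, q4, q5⟩ := exists_hom All.a_LOC All.a_DIM hq h0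
  have q6 : ∃ i, X i ∉ q := by
    by_contra hn
    push Not at hn
    rw [cd_zero q1 hn] at q3
    exact Nat.succ_ne_zero m (by exact_mod_cast q3.symm)
  obtain ⟨Ω, _, _, _, _, b, b0, b1, b2⟩ := hTD.free κ σ (Ul U L') q q1 q2 q6
  let _ : Algebra L (Ul U L') := ((algebraMap L' (Ul U L')).comp (algebraMap L L')).toAlgebra
  let _ : Algebra L' Ω := ((algebraMap (Ul U L') Ω).comp (algebraMap L' (Ul U L'))).toAlgebra
  let _ : Algebra L Ω := ((algebraMap L' Ω).comp (algebraMap L L')).toAlgebra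
  have t1 := IsScalarTower.of_algebraMap_eq' (R := L) (S := L') (A := Ul U L') rfl
  have t2 : IsScalarTower L L' Ω := IsScalarTower.of_algebraMap_eq' rfl
  have t3 := IsScalarTower.of_algebraMap_eq' (R := L) (S := Ul U L') (A := Ω) rfl
  have t4 := IsScalarTower.of_algebraMap_eq' (R := L') (S := Ul U L') (A := Ω) rfl
  have t5 := IsScalarTower.of_algebraMap_eq (R := L') (S := κ) (A := Ω) fun a => by
    rw [IsScalarTower.algebraMap_apply κ (Ul U L') Ω]
    rfl
  have t6 := IsScalarTower.of_algebraMap_eq (R := L) (S := κ) (A := Ω) fun a => by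
    rw [IsScalarTower.algebraMap_apply L L' κ, ← IsScalarTower.algebraMap_apply L' κ Ω]
    rfl
  have ht : T10.Tow U L L' := fun _ => rfl
  obtain ⟨ul, -, hul0, hul⟩ := T10.ulp B U L' ht
  let ι := IsScalarTower.toAlgHom L (Ul U L') Ω
  have hY := (hul y _).1 hv
  -- the class of the points on the subvariety
  let xs' : σ → Ul U L' := fun i => toU U fun n => B'.rp (x' n) i
  have hX' := (hul (fun n => hD.sub.hom L' (x' n)) xs').1
    ⟨_, .of_forall fun n => rep_hom_rp hD.sub (x' n), rfl⟩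
  obtain ⟨X', -, hX''⟩ := hom_surj hD.sub hX'
    ((T10.zr_toU T10.tow_self).2 (.of_forall fun n => rp_zr (x' n)))
  -- the class of the points
  let xs : σ → Ul U L' := fun i => toU U fun n => algebraMap L L' (xr n i)
  have hX := (hul (fun n => B.map (Algebra.ofId L L') (x n)) xs).1
    ⟨_, .of_forall fun n => (hxr n).map (Algebra.ofId L L'), rfl⟩
  have hsum : ul (fun n => B.map (Algebra.ofId L L') (x n)) =
      hD.sub.hom (Ul U L') X' + ul y := by
    rw [hX'', ← map_add, ← sub_eq_zero, ← map_sub, hul0]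
    exact hD.eq.mono fun n hn => sub_eq_zero.2 hn
  rw [hsum] at hX
  have e0 : cd B.I ≤ cd (loc L xs) := T51.cd_anti (Ideal.span_le.2 fun F hF => by
    obtain ⟨⟨d, hd⟩, hF⟩ := hF
    by_contra hn
    rw [T10.aeval_toU ht] at hF
    refine T10.toU_ne_zero.2 ((hgen F d hd hn).mono fun n hn => ?_) hF
    have := aeval_map_alg (Algebra.ofId L L') (xr n) F
    exact this.trans_ne ((map_ne_zero _).2 hn))
  -- the free point
  have hz : Zr B'.I b := (zr_ext (L' := κ)).1 fun G hG => by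
    rw [← sum_homogeneousComponent G, map_sum]
    exact Finset.sum_eq_zero fun n _ => b1 _ (q5 _ (h1 (B'.hom.ext _ hG n)) n
      (homogeneousComponent_isHomogeneous n _))
  obtain ⟨P, hP⟩ := exists_pt (B := B') b0 hz
  obtain ⟨a, ha⟩ := (hD.sub.rep hP).exists_add (hY.map ι)
  have e1 := core hTD hD.sub hg hX hP ha
  obtain ⟨-, l2, l3, -, -⟩ := All.a_LOC L σ Ω _ (rep_ne ha)
  have e2 := hc _ l2 (T57.le_loc B.hom ha.zr) fun i => (l3.2 _ _ (hf i)).1 (by
    have h7 := b1 _ (q5 _ (h2 (a, i)) _ (pullF_hom B f hf v (a, i)))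
    have h8 := alg_pullF B f ((aeval b : MvPolynomial σ κ →ₐ[κ] Ω).restrictScalars L) v (a, i)
    simp only [AlgHom.coe_restrictScalars', aeval_X, aeval_C,
      IsScalarTower.algebraMap_apply κ (Ul U L') Ω] at h8
    exact h8.symm.trans h7)
  obtain ⟨N, hN⟩ := cd_fin (T39.prime_I B)
  have e3 := (add_le_add_left ((add_le_add e0 (q4.trans b2)).trans e1) 2).trans_eq
    (add_right_comm _ _ _)
  have e4 := e3.trans (add_le_add_left e2 _)
  rw [hN, add_assoc, add_comm, add_comm (N : Cardinal)] at e4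
  exact (Cardinal.add_nat_le_add_nat_iff N).1 e4

end D4C.SA
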