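import Pool.Agent.Lib.SA.Kit

/-! sa56 row COV: finitely many torsion points move every point off a hypersurface. -/

set_option linter.unusedSectionVars false

namespace D4C.SA

open MvPolynomial

namespace XCOV

variable {κ σ : Type} [Field κ] [IsAlgClosed κ] [Fintype σ] [DecidableEq σ] {B : Pkg κ σ}
  {G : MvPolynomial σ κ} {n : ℕ}

theorem nz (hG : G.IsHomogeneous n) (h : G ∉ B.I) (q : B.Pt κ) :
    ∃ l, trF B G (B.rp q) l ∉ B.I := by
  by_contra hc
  push Not at hc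
  refine h (mem_I hG fun b => ?_)
  have := (trF_pts (b - q) q hG).2 fun l => rp_zr _ _ (hc l)
  rwa [sub_add_cancel] at this

theorem neg_iff (hG : G.IsHomogeneous n) {c : B.Pt κ} {x : σ → κ} (hx : B.Rep c x) :
    aeval x (rename B.π G) = 0 ↔ aeval (B.rp (-c)) G = 0 := by
  rw [aeval_rename]
  exact form_iff hx.neg (B.rep_rp _) hG

theorem nz_neg (hG : G.IsHomogeneous n) (h : G ∉ B.I) : rename B.π G ∉ B.I := by
  intro hc
  refine h (mem_I hG fun b => ?_)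
  have := (neg_iff hG (B.rep_rp (-b))).1 (rp_zr _ _ hc)
  rwa [neg_neg] at this

theorem ex [CharZero κ] (hG : G.IsHomogeneous n) (h : G ∉ B.I) (p : B.Pt κ) :
    ∃ c : B.Pt κ, (∃ j : ℕ, 2 ^ j • c = 0) ∧ aeval (B.rp (p + c)) G ≠ 0 ∧
      aeval (B.rp (p + -c)) G ≠ 0 := by
  obtain ⟨l, hl⟩ := nz hG h p
  have hF := trF_hom (B := B) hG (B.rp p) l
  have h1 : trF B G (B.rp p) l * rename B.π (trF B G (B.rp p) l) ∉ B.I := fun hc =>
    ((T39.prime_I B).mem_or_mem hc).elim hl (nz_neg hF hl)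
  rw [← T39.dense_tors All.a_TORS All.a_GEN All.a_DIM B, mem_vanishingIdeal_iff] at h1
  push Not at h1
  obtain ⟨x, ⟨c, hc, hx⟩, h2⟩ := h1
  rw [map_mul] at h2
  refine ⟨c, hc, fun h0 => left_ne_zero_of_mul h2 ?_, fun h0 => right_ne_zero_of_mul h2 ?_⟩
  · rw [add_comm] at h0
    exact (form_iff hx (B.rep_rp c) hF).2 ((trF_pts c p hG).1 h0 l)
  · rw [add_comm] at h0
    exact (neg_iff hF hx).2 ((trF_pts (-c) p hG).1 h0 l)

end XCOV

open XCOV in
theorem st_COV : St_COV := by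
  intro κ σ _ _ _ _ _ B G n hG h
  let S : Set (MvPolynomial σ κ) := {F | ∃ c : B.Pt κ, (∃ j : ℕ, 2 ^ j • c = 0) ∧
    ∃ l l', F = trF B G (B.rp c) l * trF B G (B.rp (-c)) l'}
  obtain ⟨T, hT, hs⟩ := (Submodule.fg_span_iff_fg_span_finset_subset (R := MvPolynomial σ κ) S).1
    (IsNoetherian.noetherian _)
  choose c hc l l' hF using fun F : T => hT F.2
  refine ⟨T.card, fun a => c (T.equivFin.symm a), fun a => hc _, fun p => ?_⟩
  obtain ⟨c0, h0, h1, h2⟩ := ex hG h p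
  obtain ⟨m, hm⟩ := not_forall.1 (mt (trF_pts p c0 hG).2 h1)
  obtain ⟨m', hm'⟩ := not_forall.1 (mt (trF_pts p (-c0) hG).2 h2)
  have h3 : ∃ F : T, aeval (B.rp p) (F : MvPolynomial σ κ) ≠ 0 := by
    by_contra hn
    push Not at hn
    have h4 : Submodule.span (MvPolynomial σ κ) (T : Set (MvPolynomial σ κ)) ≤
        RingHom.ker (aeval (B.rp p) : MvPolynomial σ κ →ₐ[κ] κ) :=
      Submodule.span_le.2 fun F hF' => hn ⟨F, hF'⟩
    have h5 := h4 (hs ▸ Submodule.subset_span (show _ ∈ S from ⟨c0, h0, m, m', rfl⟩))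
    rw [RingHom.mem_ker, map_mul] at h5
    exact mul_ne_zero hm hm' h5
  obtain ⟨F, h4⟩ := h3
  rw [hF F, map_mul] at h4
  refine ⟨T.equivFin F, ?_, ?_⟩ <;> simp only [Equiv.symm_apply_apply]
  · exact fun h0 => left_ne_zero_of_mul h4 ((trF_pts p _ hG).1 h0 _)
  · rw [sub_eq_add_neg]
    exact fun h0 => right_ne_zero_of_mul h4 ((trF_pts p _ hG).1 h0 _)

end D4C.SA
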