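import Pool.Agent.Lib.SA.Kit

/-! sa56 row FMOD: package models with a rational map. -/

namespace D4C.SA

open MvPolynomial

namespace XFMOD

variable {K L σ ρ : Type} [Field K] [Field L] [Algebra K L]

/-- the forms `f i (X (., j))` -/
noncomputable def col (L : Type) [Field L] [Algebra K L] (f : ρ → MvPolynomial σ K) (j : σ)
    (i : ρ) : MvPolynomial (σ × σ) L :=
  rename (fun s => (s, j)) (MvPolynomial.map (algebraMap K L) (f i))

theorem col_ev {f : ρ → MvPolynomial σ K} {d : ℕ} (hf : ∀ i, (f i).IsHomogeneous d) {R : Type}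
    [CommRing R] [Algebra K R] [Algebra L R] [IsScalarTower K L R] (x y : σ → R) (j : σ) (i : ρ) :
    aeval (fun ij : σ × σ => x ij.1 * y ij.2) (col L f j i) = y j ^ d * aeval x (f i) := by
  unfold col
  rw [aeval_rename, aeval_map_tower, ← aeval_smul_hom (hf i)]
  congr 2
  funext i
  simp [mul_comm]

theorem val_iff' {I : Ideal (MvPolynomial (σ × σ) L)} {lam : Rm I ρ} {f : ρ → MvPolynomial σ K}
    {d : ℕ} (hf : ∀ i, (f i).IsHomogeneous d) (e : σ ≃ lam.ι) (he : ∀ j, lam.S (e j) = col L f j)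
    {Ω : Type} [Field Ω] [Algebra K Ω] [Algebra L Ω] [IsScalarTower K L Ω] (x : σ → Ω)
    {y : σ → Ω} (hy : y ≠ 0) (l : ρ → Ω) :
    lam.Val (fun ij : σ × σ => x ij.1 * y ij.2) l ↔
      l ≠ 0 ∧ (fun i => aeval x (f i)) ≠ 0 ∧ Par (fun i => aeval x (f i)) l := by
  have h1 : ∀ j, lam.ev (e j) (fun ij : σ × σ => x ij.1 * y ij.2) =
      y j ^ d • fun i => aeval x (f i) := fun j => funext fun i => by
    simp only [Rm.ev, he, col_ev hf, Pi.smul_apply, smul_eq_mul]
  constructor
  · rintro ⟨h0, a, h2, h3⟩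
    obtain ⟨j, rfl⟩ := e.surjective a
    rw [h1] at h2 h3
    exact ⟨h0, fun h => h2 (by rw [h, smul_zero]), par_trans (par_smul _ _) h2 h3⟩
  · rintro ⟨h0, h2, h3⟩
    obtain ⟨j, hj⟩ := Function.ne_iff.1 hy
    refine ⟨h0, e j, ?_, ?_⟩ <;> rw [h1]
    · exact smul_ne_zero (pow_ne_zero _ hj) h2
    · exact par_trans (par_smul _ _).symm h2 h3

end XFMOD

open XFMOD M56

theorem st_FMOD : St_FMOD := by
  classical
  intro K κ σ ρ _ _ _ _ _ _ _ _ _ A d f hf
  obtain ⟨L, hL, A', e, B, E, nl, m, N, he, hE, hN, hN'⟩ :=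
    model All.a_SYM All.a_PK1 All.a_PK2 All.a_NEG0 K κ σ A
  have : NumberField L := NumberField.of_module_finite K L
  have hsg : ∀ P, B.Rep ((e.trans E) P) (sg A P) := fun P =>
    (hE _).of_par (uni_iff_ne_zero.2 (sg_ne A P)) (he P)
  have hh : ∀ j i, (col L f j i).IsHomogeneous d := fun j i => ((hf i).map _).rename_isHomogeneous
  let lam : Rm B.I ρ := ⟨σ, inferInstance, d, col L f, hh, fun a b i j => by
    refine All.a_GPT.ctr L κ _ _ _ (mem_of_pts (B := B) (B.gprime κ) B.hom.ext le_rfl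
      (exists_X (B.bc κ).o_ne (B.bc κ).o_mem)
      ((((hh a i).mul (hh b j)).sub ((hh a j).mul (hh b i))).map _) fun p _ => ?_)
    obtain ⟨P, rfl⟩ := (e.trans E).surjective p
    rw [aeval_map_tower, ← form_iff (hsg P) (B.rep_rp _)
      (((hh a i).mul (hh b j)).sub ((hh a j).mul (hh b i)))]
    unfold sg
    simp only [map_sub, map_mul, col_ev hf]
    ring⟩
  have iso := iso_sym All.a_LP A A' e.toEquiv he
  refine ⟨L, inferInstance, this, inferInstance, inferInstance, inferInstance, B, e.trans E, lam,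
    fun P l => ?_, fun P => ?_, fun J hJ => ?_, fun P x hx hP => ?_⟩
  · rw [← val_iff (hsg P) (B.rep_rp _)]
    exact val_iff' hf (Equiv.refl σ) (fun _ => rfl) _ (-P).1.rep_nonzero l
  · obtain ⟨⟨a, ha⟩, -⟩ := hN' P
    have hv : ∀ (P' : A.carrier) (ij : σ × σ), eval P'.1.rep
        (X ij.1 * MvPolynomial.map (algebraMap L κ) (N a ij.2)) =
          P'.1.rep ij.1 * aeval P'.1.rep (N a ij.2) := fun P' ij => by
      rw [map_mul, eval_X, ← ae, aeval_map_tower]
    refine ⟨1 + m, fun ij => X ij.1 * MvPolynomial.map (algebraMap L κ) (N a ij.2),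
      fun ij => (isHomogeneous_X κ _).mul ((hN a _).map _), ?_, fun P' h => ?_⟩
    · simp only [hv]
      exact T62.tn_ne.2 ⟨P.1.rep_nonzero, ha⟩
    · simp only [hv] at h ⊢
      obtain ⟨c, -, hc⟩ := smul_of_par ((hN' P').2 a).symm (-P').1.rep_nonzero (T62.tn_ne.1 h).2
      refine (hsg P').of_par (uni_iff_ne_zero.2 h) fun ij kl => ?_
      simp only [sg]
      rw [congrFun hc ij.2, congrFun hc kl.2]
      simp only [Pi.smul_apply, smul_eq_mul]
      ring
  · obtain ⟨hs, b, h2, h3⟩ := hJ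
    have hm : ∀ P, P ∈ (sbg hE hs).comap e.toAddMonoidHom ↔ Zr J (B.rp ((e.trans E) P)) :=
      fun P => zs_iff hE hs.hom (B.rep_rp _)
    have hcm : (((sbg hE hs).comap e.toAddMonoidHom : AddSubgroup A.carrier) : Set A.carrier) =
        e.toEquiv.symm '' Zs A' J := by
      rw [Equiv.image_eq_preimage_symm]
      rfl
    refine ⟨_, ⟨fun h => h3 ?_, ?_, ?_⟩, hm⟩
    · have h4 := (hm ((e.trans E).symm b)).2 (by rwa [AddEquiv.apply_symm_apply])
      rw [h, AddSubgroup.mem_bot] at h4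
      simpa using h4
    · rw [transl_zero, hcm]
      refine iso.cl' _ ?_
      unfold Cl
      rw [img_Zs hE hs.le]
      exact zclosed_zr hs.hom
    · rw [transl_zero, hcm]
      refine iso.ir' _ ?_
      unfold Ir
      rw [img_Zs hE hs.le]
      exact zirred_zr (M56.sub_prime hs) hs.hom (sub_irr hs)
  · let xL : σ → L := fun i => algebraMap K L (x i)
    have hxL : xL ≠ 0 := (map_ne_zero' (algebraMap K L)).2 hx
    have hxe : (fun i => algebraMap K κ (x i)) = fun i => algebraMap L κ (xL i) :=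
      funext fun i => IsScalarTower.algebraMap_apply K L _ _
    rw [hxe] at hP
    obtain ⟨c, hc0, hcx⟩ := smul_of_par hP.symm ((map_ne_zero' _).2 hxL) P.1.rep_nonzero
    obtain ⟨⟨a, ha⟩, hpar⟩ := hN' P
    let x' : σ → L := fun j => aeval xL (N a j)
    have hx' : (fun i => aeval P.1.rep (N a i)) = c ^ m • fun i => algebraMap L κ (x' i) := by
      funext i
      rw [hcx, aeval_smul_hom (hN a i)]
      exact congrArg _ (aeval_map_alg (Algebra.ofId L κ) xL (N a i))
    have hx'0 : x' ≠ 0 := fun h => ha (by rw [hx', h]; funext i; simp)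
    obtain ⟨c', -, hc'⟩ := smul_of_par (hpar a) ha (-P).1.rep_nonzero
    rw [hx', smul_smul] at hc'
    let z : σ × σ → L := fun ij => xL ij.1 * x' ij.2
    have hz0 : z ≠ 0 := T62.tn_ne.2 ⟨hxL, hx'0⟩
    have hr : B.Rep ((e.trans E) P) fun ij => algebraMap L κ (z ij) := by
      refine (hsg P).of_par (uni_iff_ne_zero.2 ((map_ne_zero' _).2 hz0)) fun ij kl => ?_
      simp only [sg, z, map_mul]
      rw [hcx, hc']
      simp only [Pi.smul_apply, smul_eq_mul]
      ring
    obtain ⟨p, hp⟩ := exists_pt (B := B) hz0 fun F hF => (algebraMap L κ).injective (by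
      rw [map_zero]
      exact (aeval_map_alg (Algebra.ofId L κ) z F).symm.trans (hr.zr F hF))
    refine ⟨p, (hp.map (Algebra.ofId L κ)).eq hr (Par.refl _), ?_, fun h => ?_⟩
    · rw [hp.ht, Height.logHeight_fun_mul_eq hxL hx'0, All.a_HEXT K L _ x]
      exact le_add_of_nonneg_right (Height.logHeight_nonneg _)
    · rw [← val_iff hp (B.rep_rp _), val_iff' hf (Equiv.refl σ) (fun _ => rfl) _ hx'0]
      have h5 : (fun i => aeval xL (f i)) = fun i => algebraMap K L (eval x (f i)) :=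
        funext fun i => aeval_map_alg (Algebra.ofId K L) x (f i)
      rw [h5]
      exact ⟨(map_ne_zero' _).2 h, (map_ne_zero' _).2 h, Par.refl _⟩

end D4C.SA
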