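import Pool.Agent.Lib.D4C.SDefs

/-! Morphisms, contracted translates and heights of algebraic points. -/

namespace D4C

open MvPolynomial

/-- A morphism to projective space: a map that is given near each point by forms. -/
def IsMor {κ σ τ : Type} [Field κ] {X : Set (Projectivization κ (σ → κ))}
    (φ : X → Projectivization κ (τ → κ)) : Prop :=
  ∀ p : X, ∃ (m : ℕ) (N : τ → MvPolynomial σ κ), (∀ i, (N i).IsHomogeneous m) ∧
    (fun i => eval p.1.rep (N i)) ≠ 0 ∧
    ∀ (p' : X) (h : (fun i => eval p'.1.rep (N i)) ≠ 0), φ p' = Projectivization.mk κ _ h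

/-- The map `(f 1 : ... : f r)` contracts `P + B`: its values at all points of `P + B` are
proportional to its value at `P`. -/
def AbVar.Contracts {K κ σ ρ : Type} [Field K] [Field κ] [Algebra K κ] (A : AbVar κ σ)
    (f : ρ → MvPolynomial σ K) (P : A.carrier) (B : AddSubgroup A.carrier) : Prop :=
  ∀ b ∈ B, ∀ i j, aeval (P + b).1.rep (f i) * aeval P.1.rep (f j) =
    aeval (P + b).1.rep (f j) * aeval P.1.rep (f i)

/-- Weil height, relative to `K`, of a tuple of algebraic numbers: the height relative to the
field `L` generated by the coordinates, divided by the degree of `L` over `K`. -/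
noncomputable def vecHt (K : Type) {κ τ : Type} [Field K] [NumberField K] [Field κ] [Algebra K κ]
    [Algebra.IsAlgebraic K κ] [Fintype τ] (y : τ → κ) : ℝ :=
  haveI : FiniteDimensional K (IntermediateField.adjoin K (Set.range y)) :=
    IntermediateField.finiteDimensional_adjoin fun a _ =>
      (Algebra.IsAlgebraic.isAlgebraic a).isIntegral
  haveI : NumberField (IntermediateField.adjoin K (Set.range y)) :=
    NumberField.of_module_finite K _
  Height.logHeight (fun i => (⟨y i, IntermediateField.subset_adjoin K _ ⟨i, rfl⟩⟩ :
    IntermediateField.adjoin K (Set.range y))) /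
    Module.finrank K (IntermediateField.adjoin K (Set.range y))

end D4C
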