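import Pool.Agent.Lib.D4C.All
import Pool.Agent.Lib.MV.UFD
import Pool.Agent.Lib.SA.SDefs

/-! sa56 blueprint: the sharp bound for every rational map. -/

set_option linter.unusedVariables false

namespace D4C.SA

open MvPolynomial Filter

/-! ### Definitions -/

/-- a rational map on the variety with ideal `I`: finitely many parallel tuples of forms -/
structure Rm {L σ : Type} [Field L] (I : Ideal (MvPolynomial σ L)) (τ : Type) where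
  ι : Type
  fin : Fintype ι
  D : ℕ
  S : ι → τ → MvPolynomial σ L
  hom : ∀ a i, (S a i).IsHomogeneous D
  compat : ∀ a b i j, S a i * S b j - S a j * S b i ∈ I

attribute [instance] Rm.fin

section rm

variable {L σ τ : Type} [Field L] {I : Ideal (MvPolynomial σ L)} (M : Rm I τ)

/-- value of one tuple -/
noncomputable def Rm.ev {R : Type} [CommRing R] [Algebra L R] (a : M.ι) (x : σ → R) : τ → R :=
  fun i => aeval x (M.S a i)

/-- the map is defined at `x` with value `y` -/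
def Rm.Val {Ω : Type} [Field Ω] [Algebra L Ω] (x : σ → Ω) (y : τ → Ω) : Prop :=
  y ≠ 0 ∧ ∃ a, M.ev a x ≠ 0 ∧ Par (M.ev a x) y

/-- the map is defined everywhere -/
def Rm.Mor : Prop := ∀ (Ω : Type) [Field Ω] [Algebra L Ω] (x : σ → Ω), Zr I x → x ≠ 0 →
  ∃ y, M.Val x y

end rm

/-- the local ring at the point `y` inside the function field with generic point `η` -/
def Oq {κ σ F : Type} [Field κ] [Field F] [Algebra κ F] (η : σ → F) (y : σ → κ) :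
    Subalgebra κ F where
  carrier := {u | ∃ (d : ℕ) (G H : MvPolynomial σ κ), G.IsHomogeneous d ∧ H.IsHomogeneous d ∧
    aeval y H ≠ 0 ∧ aeval η H ≠ 0 ∧ u * aeval η H = aeval η G}
  mul_mem' := by
    rintro u v ⟨d, G, H, a1, a2, a3, a4, a5⟩ ⟨d', G', H', b1, b2, b3, b4, b5⟩
    refine ⟨d + d', G * G', H * H', a1.mul b1, a2.mul b2, by rw [map_mul]; exact mul_ne_zero a3 b3,
      by rw [map_mul]; exact mul_ne_zero a4 b4, ?_⟩
    rw [map_mul, map_mul, ← a5, ← b5]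
    ring
  add_mem' := by
    rintro u v ⟨d, G, H, a1, a2, a3, a4, a5⟩ ⟨d', G', H', b1, b2, b3, b4, b5⟩
    refine ⟨d + d', G * H' + H * G', H * H', (a1.mul b2).add (a2.mul b1), a2.mul b2,
      by rw [map_mul]; exact mul_ne_zero a3 b3, by rw [map_mul]; exact mul_ne_zero a4 b4, ?_⟩
    rw [map_add, map_mul, map_mul, map_mul, ← a5, ← b5]
    ring
  algebraMap_mem' := fun c =>
    ⟨0, C c, 1, isHomogeneous_C _ _, isHomogeneous_one _ _, by simp, by simp, by simp⟩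

/-- `ρ` is evaluation at `y` -/
def IsRes {κ σ F : Type} [Field κ] [Field F] [Algebra κ F] {η : σ → F} {y : σ → κ}
    (ρ : Oq η y →ₐ[κ] κ) : Prop :=
  ∀ (u : Oq η y) (d : ℕ) (G H : MvPolynomial σ κ), G.IsHomogeneous d → H.IsHomogeneous d →
    (u : F) * aeval η H = aeval η G → ρ u * aeval y H = aeval y G

/-- no prime divides all members -/
def Cop {R ρ : Type} [CommRing R] (s : ρ → R) : Prop := ∀ π : R, Prime π → ∃ i, ¬ π ∣ s i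

section pk

variable {L σ : Type} [Field L] [Fintype σ] [DecidableEq σ]

/-- a nonzero abelian subvariety over `κ` -/
def NZ (B : Pkg L σ) {κ : Type} [Field κ] [Algebra L κ] (J : Ideal (MvPolynomial σ κ)) : Prop :=
  (B.bc κ).IsSub J ∧ ∃ b : B.Pt κ, Zr J (B.rp b) ∧ b ≠ 0

/-- the form `F (X + c)` by the law `a` -/
noncomputable def trF (B : Pkg L σ) {κ : Type} [Field κ] [Algebra L κ] (F : MvPolynomial σ κ)
    (c : σ → κ) (a : Fin B.nl) : MvPolynomial σ κ :=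
  aeval (ev2 (B.A a) X fun s => (C (c s) : MvPolynomial σ κ)) F

/-- the first block of `M` is the `m`-th power of `lam` -/
def Fst {κ ρ τ : Type} [Field κ] {I : Ideal (MvPolynomial σ κ)} (lam : Rm I ρ) (m : ℕ)
    (M : Rm I (ρ ⊕ τ)) : Prop :=
  ∀ (x : σ → κ) (l : ρ → κ) (y : ρ ⊕ τ → κ), Zr I x → x ≠ 0 → lam.Val x l → M.Val x y →
    ∃ a : κ, a ≠ 0 ∧ ∀ i, y (Sum.inl i) = a * l i ^ m

/-- the first block of `M` vanishes in codimension at least two -/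
def Cd2 {κ ρ τ : Type} [Field κ] {I : Ideal (MvPolynomial σ κ)} (M : Rm I (ρ ⊕ τ)) : Prop :=
  ∀ q : Ideal (MvPolynomial σ κ), q.IsPrime → I ≤ q → (∀ a i, M.S a (Sum.inl i) ∈ q) →
    cd q + 2 ≤ cd I

/-- a translate with a finite morphism extending a power of `lam` -/
structure Pc (B : Pkg L σ) (κ : Type) [Field κ] [Algebra L κ] {ρ : Type} (lam : Rm B.I ρ) where
  Q : B.Pt κ
  J : Ideal (MvPolynomial σ κ)
  nz : NZ B J
  m : ℕ
  N : ℕ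
  m_pos : 1 ≤ m
  M : Rm J (ρ ⊕ Fin N)
  mor : M.Mor
  fin : ∀ y : ρ ⊕ Fin N → κ, {b : B.Pt κ | Zr J (B.rp b) ∧ M.Val (B.rp b) y}.Finite
  fst : ∀ (b : B.Pt κ) (l : ρ → κ) (y : ρ ⊕ Fin N → κ), Zr J (B.rp b) →
    lam.Val (B.rp (Q + b)) l → M.Val (B.rp b) y → ∃ a : κ, a ≠ 0 ∧ ∀ i, y (Sum.inl i) = a * l i ^ m
  cod : Cd2 M

end pk

/-! ### Calculus of rational maps -/

/-- translation, negation, product, extension -/
structure St_RM : Prop where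
  tr : ∀ (L σ τ : Type) [Field L] [Fintype σ] [DecidableEq σ] (B : Pkg L σ) (M : Rm B.I τ)
    (κ : Type) [Field κ] [Algebra L κ] (c : B.Pt κ) (J : Ideal (MvPolynomial σ κ)), J.IsPrime →
    ext B.I κ ≤ J → ∃ M' : Rm J τ, ∀ (Ω : Type) [Field Ω] [Algebra L Ω] [Algebra κ Ω]
      [IsScalarTower L κ Ω] (p : B.Pt Ω) (x w : σ → Ω) (y : τ → Ω), B.Rep p x →
      B.Rep (B.map (IsScalarTower.toAlgHom L κ Ω) c + p) w → (M'.Val x y ↔ M.Val w y)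
  neg : ∀ (L σ τ : Type) [Field L] [Fintype σ] [DecidableEq σ] (B : Pkg L σ) (M : Rm B.I τ),
    ∃ M' : Rm B.I τ, ∀ (Ω : Type) [Field Ω] [Algebra L Ω] (x : σ → Ω) (y : τ → Ω),
      M'.Val x y ↔ M.Val (x ∘ B.π) y
  ten : ∀ (L σ τ τ' : Type) [Field L] (I : Ideal (MvPolynomial σ L)) (M : Rm I τ) (M' : Rm I τ'),
    ∃ M'' : Rm I (τ × τ'), ∀ (Ω : Type) [Field Ω] [Algebra L Ω] (x : σ → Ω) (z : τ × τ' → Ω),
      M''.Val x z ↔ ∃ y y', M.Val x y ∧ M'.Val x y' ∧ z = fun ij => y ij.1 * y' ij.2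
  idm : ∀ (L σ : Type) [Field L] (I : Ideal (MvPolynomial σ L)), ∃ M : Rm I σ, M.Mor ∧
    ∀ (Ω : Type) [Field Ω] [Algebra L Ω] (x : σ → Ω), x ≠ 0 → M.Val x x

/-- the graph of an even morphism is a package -/
def St_GRAPH : Prop := ∀ (κ σ τ : Type) [Field κ] [IsAlgClosed κ] [Fintype σ] [DecidableEq σ]
  [Fintype τ] [DecidableEq τ] (B : Pkg κ σ) (M : Rm B.I τ), M.Mor → ∀ π' : Equiv.Perm τ,
  (∀ (x : σ → κ) (y : τ → κ), Zr B.I x → x ≠ 0 → M.Val x y → M.Val (x ∘ B.π) (y ∘ π')) →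
  ∃ B' : Pkg κ (σ × τ), ∀ (Ω : Type) [Field Ω] [Algebra κ Ω], ∃ e : B.Pt Ω →+ B'.Pt Ω,
    ∀ (p : B.Pt Ω) (x : σ → Ω) (y : τ → Ω), B.Rep p x → M.Val x y →
      B'.Rep (e p) fun ij => x ij.1 * y ij.2

/-- from the cube for the even parts to the square for torsion points -/
def St_ALG : Prop := ∀ (G G₀ C : Type) [AddCommGroup G] [AddCommGroup G₀] [AddCommGroup C]
  (ι : G₀ →+ G) (Λ : G → C), (∀ a, Λ (ι a) = 0) → (∀ a : G₀, ∃ b, 2 • b = a) →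
  (∀ (a : G₀) (N : G → C), (∀ x, N x = Λ (ι a + x) + Λ (ι a - x)) → ∀ x y z,
    N (x + y + z) + N x + N y + N z = N (x + y) + N (x + z) + N (y + z)) →
  ∀ (c : G₀) (j : ℕ), 2 ^ j • c = 0 → ∀ x, Λ (x + ι c) + Λ (x - ι c) = Λ x + Λ x

/-- theorem of the square for a morphism and a point killed by a power of two -/
def St_SQ : Prop := ∀ (κ σ τ : Type) [Field κ] [CharZero κ] [IsAlgClosed κ] [Fintype σ]
  [DecidableEq σ] [Fintype τ] [DecidableEq τ] (B : Pkg κ σ) (M : Rm B.I τ), M.Mor →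
  ∀ (Ω : Type) [Field Ω] [IsAlgClosed Ω] [Algebra κ Ω] (c : B.Pt κ) (j : ℕ), 2 ^ j • c = 0 →
  ∀ (p : B.Pt Ω) (x x₁ x₂ : σ → Ω) (y y₁ y₂ : τ → Ω), B.Rep p x →
    B.Rep (p + B.map (Algebra.ofId κ Ω) c) x₁ → B.Rep (p - B.map (Algebra.ofId κ Ω) c) x₂ →
    M.Val x y → M.Val x₁ y₁ → M.Val x₂ y₂ → ∃ u : Ω, u ≠ 0 ∧ ∀ O : ValuationSubring Ω, Ov κ O →
      O.valuation u * (gv O y₁ * gv O y₂) = gv O y ^ 2

/-- the same over any field, after taking a norm -/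
def St_SQF : Prop := ∀ (κ σ τ : Type) [Field κ] [CharZero κ] [IsAlgClosed κ] [Fintype σ]
  [DecidableEq σ] [Fintype τ] [DecidableEq τ] (B : Pkg κ σ) (M : Rm B.I τ), M.Mor →
  ∀ (F : Type) [Field F] [Algebra κ F] (c : B.Pt κ) (j : ℕ), 2 ^ j • c = 0 →
  ∀ (p : B.Pt F) (x x₁ x₂ : σ → F) (y y₁ y₂ : τ → F), B.Rep p x →
    B.Rep (p + B.map (Algebra.ofId κ F) c) x₁ → B.Rep (p - B.map (Algebra.ofId κ F) c) x₂ →
    M.Val x y → M.Val x₁ y₁ → M.Val x₂ y₂ → ∃ (N : ℕ) (u : F), 1 ≤ N ∧ u ≠ 0 ∧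
      ∀ O : ValuationSubring F, Ov κ O →
        O.valuation u * (gv O y₁ * gv O y₂) ^ N = gv O y ^ (2 * N)

/-! ### Local rings -/

/-- basic facts on the local ring -/
def St_OQ : Prop := ∀ (κ σ F : Type) [Field κ] [Fintype σ] [Field F] [Algebra κ F]
  (I : Ideal (MvPolynomial σ κ)) (η : σ → F) (y : σ → κ), PGen I η → Zr I y → y ≠ 0 →
  IsLocalRing (Oq η y) ∧ (∃ ρ : Oq η y →ₐ[κ] κ, IsRes ρ ∧ ∀ u, IsUnit u ↔ ρ u ≠ 0) ∧
  (rat κ η = ⊤ → IsFractionRing (Oq η y) F) ∧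
  (∀ k, y k ≠ 0 → η k ≠ 0 ∧ (∀ (d : ℕ) (G : MvPolynomial σ κ), G.IsHomogeneous d →
      aeval η G / η k ^ d ∈ Oq η y) ∧
    ∀ V : ValuationSubring F, (∀ u ∈ Oq η y, u ∈ V) → gv V η = V.valuation (η k)) ∧
  (∀ (ι : Type) [Fintype ι] (u : ι → Oq η y), ∃ (d : ℕ) (G : ι → MvPolynomial σ κ)
    (H : MvPolynomial σ κ), (∀ i, (G i).IsHomogeneous d) ∧ H.IsHomogeneous d ∧ aeval y H ≠ 0 ∧
      aeval η H ≠ 0 ∧ ∀ i, (u i : F) * aeval η H = aeval η (G i)) ∧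
  (rat κ η = ⊤ → UniqueFactorizationMonoid (Oq η y) →
    ∀ u : F, (∀ V : ValuationSubring F, (∀ v ∈ Oq η y, v ∈ V) → u ∈ V) → u ∈ Oq η y)

/-- one factorial local ring -/
def St_UFD0 : Prop := ∀ (κ σ F : Type) [Field κ] [IsAlgClosed κ] [Fintype σ] [Field F]
  [Algebra κ F] (I : Ideal (MvPolynomial σ κ)) (η : σ → F), IsHom I → PGen I η →
  ∃ y : σ → κ, y ≠ 0 ∧ Zr I y ∧ UniqueFactorizationMonoid (Oq η y)

/-- translates of a generic point are generic and give the same local rings -/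
def St_TRG : Prop := ∀ (κ σ F : Type) [Field κ] [IsAlgClosed κ] [Fintype σ] [DecidableEq σ]
  [Field F] [Algebra κ F] (B : Pkg κ σ) (e : B.Pt F) (η η' : σ → F) (c : B.Pt κ), B.Rep e η →
  PGen B.I η → B.Rep (e + B.map (Algebra.ofId κ F) c) η' → PGen B.I η' ∧
    ∀ (p : B.Pt κ) (y y' : σ → κ), B.Rep p y → B.Rep (p + c) y' → Oq η' y' = Oq η y

/-- all local rings of an abelian variety are factorial -/
def St_UFD : Prop := ∀ (κ σ F : Type) [Field κ] [IsAlgClosed κ] [Fintype σ] [DecidableEq σ]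
  [Field F] [Algebra κ F] (B : Pkg κ σ) (η : σ → F), PGen B.I η → ∀ y : σ → κ, y ≠ 0 →
  Zr B.I y → UniqueFactorizationMonoid (Oq η y)

/-- the colon ideal -/
def St_COL : Prop := ∀ (κ σ ρ F : Type) [Field κ] [Fintype σ] [Fintype ρ] [Field F] [Algebra κ F]
  (I : Ideal (MvPolynomial σ κ)) (η : σ → F), PGen I η → rat κ η = ⊤ →
  (∀ y : σ → κ, y ≠ 0 → Zr I y → UniqueFactorizationMonoid (Oq η y)) →
  ∀ (γ : ρ → F) (i₀ : ρ), γ i₀ ≠ 0 → ∃ (N n : ℕ) (c : Fin N → MvPolynomial σ κ),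
    (∀ j, (c j).IsHomogeneous n) ∧ ∀ (y : σ → κ) (k : σ), Zr I y → y k ≠ 0 →
      ∃ (s : ρ → Oq η y) (t : F) (u : Fin N → Oq η y), t ≠ 0 ∧ (∀ i, γ i = t * s i) ∧ Cop s ∧
        Uni u ∧ ∀ j, aeval η (c j) = η k ^ n * s i₀ * u j

/-- a vector that is locally unimodular defines a morphism -/
def St_SYS : Prop := ∀ (κ σ τ F : Type) [Field κ] [IsAlgClosed κ] [Fintype σ] [Fintype τ] [Field F]
  [Algebra κ F] (I : Ideal (MvPolynomial σ κ)) (η : σ → F), IsHom I → PGen I η → ∀ w : τ → F,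
  (∀ y : σ → κ, y ≠ 0 → Zr I y → ∃ (u : τ → Oq η y) (t : F), t ≠ 0 ∧ Uni u ∧ ∀ j, w j = t * u j) →
  (∃ y : σ → κ, y ≠ 0 ∧ Zr I y) → ∃ M : Rm I τ, M.Mor ∧ M.Val η w

/-- the value at a point is the residue of a local unimodular vector -/
def St_LOCV : Prop := ∀ (κ σ τ F : Type) [Field κ] [Fintype σ] [Fintype τ] [Field F]
  [Algebra κ F] (I : Ideal (MvPolynomial σ κ)) (η : σ → F), PGen I η → Zr I η →
  ∀ (M : Rm I τ) (w : τ → F), M.Val η w → ∀ (y : σ → κ), y ≠ 0 → Zr I y →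
  ∀ (r : Oq η y →ₐ[κ] κ), IsRes r → (∀ u, IsUnit u ↔ r u ≠ 0) →
  ∀ (u : τ → Oq η y) (t : F), t ≠ 0 → (∀ j, w j = t * u j) →
    (∀ z : τ → κ, M.Val y z → (Uni u → ∃ a : κ, a ≠ 0 ∧ ∀ j, z j = a * r (u j)) ∧
      (Cop u → UniqueFactorizationMonoid (Oq η y) → Uni u)) ∧
    ∀ (q : Ideal (MvPolynomial σ κ)), q.IsPrime → I ≤ q → Zr q y → Uni u →
      ∀ a, M.ev a y ≠ 0 → ∀ j, M.S a j ∈ q → ∀ (d : ℕ) (G H : MvPolynomial σ κ),
        G.IsHomogeneous d → H.IsHomogeneous d → aeval y H ≠ 0 →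
        (u j : F) * aeval η H = aeval η G → G ∈ q

/-- the function with divisor `N (D (+c) + D (-c) - 2 D)` -/
def St_REG1 : Prop := ∀ (κ σ τ F : Type) [Field κ] [CharZero κ] [IsAlgClosed κ] [Fintype σ]
  [DecidableEq σ] [Fintype τ] [DecidableEq τ] [Field F] [Algebra κ F] (B : Pkg κ σ) (η : σ → F),
  PGen B.I η → rat κ η = ⊤ → ∀ (n : ℕ) (cf : τ → MvPolynomial σ κ),
  (∀ j, (cf j).IsHomogeneous n) → ∀ M : Rm B.I τ, M.Mor → (M.Val η fun j => aeval η (cf j)) →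
  ∀ (c : B.Pt κ) (j : ℕ), 2 ^ j • c = 0 → ∃ (N : ℕ) (u : F), 1 ≤ N ∧
    ∀ (p : B.Pt κ) (y : σ → κ) (k : σ), B.Rep p y → y k ≠ 0 → ∀ (s : Oq η y) (w : τ → Oq η y),
      Uni w → (∀ j, aeval η (cf j) = η k ^ n * s * w j) → ∃ v : Oq η y,
        (v : F) = (s : F) ^ (2 * N) * u ∧ ((fun j => aeval (B.rp (p + c)) (cf j)) ≠ 0 →
          (fun j => aeval (B.rp (p - c)) (cf j)) ≠ 0 → IsUnit v)

/-- finitely many torsion points suffice -/
def St_COV : Prop := ∀ (κ σ : Type) [Field κ] [CharZero κ] [IsAlgClosed κ] [Fintype σ]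
  [DecidableEq σ] (B : Pkg κ σ) (G : MvPolynomial σ κ) (n : ℕ), G.IsHomogeneous n → G ∉ B.I →
  ∃ (N : ℕ) (c : Fin N → B.Pt κ), (∀ a, ∃ j : ℕ, 2 ^ j • c a = 0) ∧ ∀ p : B.Pt κ, ∃ a,
    aeval (B.rp (p + c a)) G ≠ 0 ∧ aeval (B.rp (p - c a)) G ≠ 0

/-- a multiple of the moving part is free -/
def St_REG : Prop := ∀ (κ σ ρ F : Type) [Field κ] [CharZero κ] [IsAlgClosed κ] [Fintype σ]
  [DecidableEq σ] [Fintype ρ] [Field F] [Algebra κ F] (B : Pkg κ σ) (η : σ → F), PGen B.I η →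
  rat κ η = ⊤ → ∀ (γ : ρ → F) (i₀ : ρ), γ i₀ ≠ 0 → ∃ (m N : ℕ) (u : Fin N → F), 1 ≤ m ∧
    ∀ y : σ → κ, y ≠ 0 → Zr B.I y → ∃ (s : ρ → Oq η y) (t : F) (v : Fin N → Oq η y), t ≠ 0 ∧
      (∀ i, γ i = t * s i) ∧ Cop s ∧ Uni v ∧ ∀ a, (v a : F) = (s i₀ : F) ^ m * u a

/-- coprime elements vanish in codimension two -/
def St_CODQ : Prop := ∀ (κ σ ρ F : Type) [Field κ] [Fintype σ] [Field F] [Algebra κ F]
  (I : Ideal (MvPolynomial σ κ)) (η : σ → F), I.IsPrime → IsHom I → PGen I η →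
  ∀ y : σ → κ, y ≠ 0 → Zr I y → UniqueFactorizationMonoid (Oq η y) →
  ∀ (s : ρ → Oq η y), Cop s → (∃ i, s i ≠ 0) → ∀ q : Ideal (MvPolynomial σ κ), q.IsPrime →
  IsHom q → I ≤ q → Zr q y → (∀ i, ∃ (d : ℕ) (G H : MvPolynomial σ κ), G.IsHomogeneous d ∧
    H.IsHomogeneous d ∧ aeval y H ≠ 0 ∧ (s i : F) * aeval η H = aeval η G ∧ G ∈ q) →
  cd q + 2 ≤ cd I

/-- the morphism extending a power of the rational map -/
def St_GEO1 : Prop := ∀ (κ σ ρ : Type) [Field κ] [CharZero κ] [IsAlgClosed κ] [Fintype σ]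
  [DecidableEq σ] [Fintype ρ] (B : Pkg κ σ) (lam : Rm B.I ρ), (∃ a i, lam.S a i ∉ B.I) →
  (∃ b : B.Pt κ, b ≠ 0) →
  ∃ (m N : ℕ) (M : Rm B.I (ρ ⊕ Fin N)), 1 ≤ m ∧ M.Mor ∧ Fst lam m M ∧ Cd2 M

/-! ### Rigidity -/

/-- rigidity -/
def St_RIG : Prop := ∀ (κ σ τ : Type) [Field κ] [IsAlgClosed κ] [Fintype σ] [DecidableEq σ]
  [Fintype τ] (B : Pkg κ σ) (M : Rm B.I τ), M.Mor → ∀ q : Ideal (MvPolynomial σ κ), q.IsPrime →
  IsHom q → B.I ≤ q → ∀ y₀ : τ → κ, (∀ p : B.Pt κ, Zr q (B.rp p) → M.Val (B.rp p) y₀) →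
  ∀ (p p' t : B.Pt κ) (y : τ → κ), Zr q (B.rp p) → Zr q (B.rp p') →
    M.Val (B.rp (p + t)) y → M.Val (B.rp (p' + t)) y

/-- the invariant subvariety -/
def St_INV : Prop := ∀ (κ σ τ : Type) [Field κ] [IsAlgClosed κ] [Fintype σ] [DecidableEq σ]
  [Fintype τ] (B : Pkg κ σ) (M : Rm B.I τ), M.Mor → ∀ q : Ideal (MvPolynomial σ κ), q.IsPrime →
  IsHom q → B.I ≤ q → (∃ p p' : B.Pt κ, Zr q (B.rp p) ∧ Zr q (B.rp p') ∧ p ≠ p') →
  (∀ (p p' t : B.Pt κ) (y : τ → κ), Zr q (B.rp p) → Zr q (B.rp p') →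
    M.Val (B.rp (p + t)) y → M.Val (B.rp (p' + t)) y) →
  ∃ J, B.IsSub J ∧ (∃ b : B.Pt κ, Zr J (B.rp b) ∧ b ≠ 0) ∧
    ∀ (t b : B.Pt κ) (y : τ → κ), Zr J (B.rp b) → M.Val (B.rp t) y → M.Val (B.rp (t + b)) y

/-- removing the power -/
def St_ROOT : Prop := ∀ (κ σ ρ τ : Type) [Field κ] [CharZero κ] [IsAlgClosed κ] [Fintype σ]
  [DecidableEq σ] (B : Pkg κ σ) (lam : Rm B.I ρ) (m : ℕ) (M : Rm B.I (ρ ⊕ τ)), 1 ≤ m → M.Mor →
  Fst lam m M → ∀ J, B.IsSub J →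
  (∀ (t b : B.Pt κ) (y : ρ ⊕ τ → κ), Zr J (B.rp b) → M.Val (B.rp t) y →
    M.Val (B.rp (t + b)) y) →
  ∀ (t b : B.Pt κ) (l l' : ρ → κ), Zr J (B.rp b) → lam.Val (B.rp t) l →
    lam.Val (B.rp (t + b)) l' → Par l l'

/-- infinite fibres and infinite subvarieties -/
structure St_FIN : Prop where
  fib : ∀ (κ σ τ : Type) [Field κ] [IsAlgClosed κ] [Fintype σ] [DecidableEq σ] (B : Pkg κ σ)
    (M : Rm B.I τ), M.Mor → ∀ y₀ : τ → κ, {p : B.Pt κ | M.Val (B.rp p) y₀}.Infinite →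
    ∃ q : Ideal (MvPolynomial σ κ), q.IsPrime ∧ IsHom q ∧ B.I ≤ q ∧
      (∀ p : B.Pt κ, Zr q (B.rp p) → M.Val (B.rp p) y₀) ∧
      ∃ p p' : B.Pt κ, Zr q (B.rp p) ∧ Zr q (B.rp p') ∧ p ≠ p'
  inf : ∀ (L κ σ : Type) [Field L] [Field κ] [IsAlgClosed κ] [Algebra L κ] [Fintype σ]
    [DecidableEq σ] (B : Pkg L σ) (J : Ideal (MvPolynomial σ κ)), NZ B J →
    {b : B.Pt κ | Zr J (B.rp b)}.Infinite

/-- the geometric alternative on a translate -/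
def St_PIECE : Prop := ∀ (L κ σ ρ : Type) [Field L] [Field κ] [CharZero κ] [IsAlgClosed κ]
  [Algebra L κ] [Fintype σ] [DecidableEq σ] [Fintype ρ] (B : Pkg L σ) (lam : Rm B.I ρ)
  (Q : B.Pt κ) (J : Ideal (MvPolynomial σ κ)), NZ B J →
  (∃ (b : B.Pt κ) (l : ρ → κ), Zr J (B.rp b) ∧ lam.Val (B.rp (Q + b)) l) →
  (∃ J' : Ideal (MvPolynomial σ κ), NZ B J' ∧ ∀ (b b' : B.Pt κ) (l l' : ρ → κ), Zr J (B.rp b) → Zr J' (B.rp b') →
    lam.Val (B.rp (Q + b)) l → lam.Val (B.rp (Q + b + b')) l' → Par l l') ∨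
  ∃ P : Pc B κ lam, P.Q = Q ∧ P.J = J

/-! ### Mordell-Lang along an ultrafilter -/

/-- consequences of the structure theorem -/
def St_STRK : Prop := ∀ (L κ σ : Type) [Field L] [NumberField L] [Field κ] [IsAlgClosed κ]
  [Algebra L κ] [Fintype σ] [DecidableEq σ] (B : Pkg L σ) (U : Ultrafilter ℕ) (x : ℕ → B.Pt L),
  Tendsto (fun n => B.ht (x n)) U atTop → ∃ J : Ideal (MvPolynomial σ κ), NZ B J ∧
    (∀ (ι : Type) [Fintype ι] (d : ℕ) (Φ : ι → MvPolynomial σ L) (c : ℕ → ι → L),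
      (∀ u, (Φ u).IsHomogeneous d) →
      (Lo U (fun n => B.ht (x n)) fun n => Height.logHeight (c n)) →
      (∀ᶠ n in U, ∑ u, c n u * aeval (B.rp (x n)) (Φ u) = 0) →
      ∀ᶠ n in U, ∀ b : B.Pt κ, Zr J (B.rp b) → ∑ u, algebraMap L κ (c n u) *
        aeval (B.rp (B.map (Algebra.ofId L κ) (x n) + b)) (Φ u) = 0) ∧
    ∃ (L' : Type) (_ : Field L') (_ : NumberField L') (_ : Algebra L L') (_ : Algebra L' κ)
      (_ : IsScalarTower L L' κ) (z : ℕ → B.Pt L'),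
      (Lo U (fun n => B.ht (x n)) fun n => htM B (z n)) ∧ ∀ᶠ n in U,
        Zr J (B.rp (B.map (IsScalarTower.toAlgHom L L' κ)
          (B.map (Algebra.ofId L L') (x n) - z n)))

/-- sum of two abelian subvarieties -/
def St_SUM : Prop := ∀ (L κ σ : Type) [Field L] [Field κ] [IsAlgClosed κ] [Algebra L κ] [Fintype σ]
  [DecidableEq σ] (B : Pkg L σ) (J J' : Ideal (MvPolynomial σ κ)), (B.bc κ).IsSub J →
  (B.bc κ).IsSub J' → ∃ J'', (B.bc κ).IsSub J'' ∧ J'' ≤ J ∧ J'' ≤ J' ∧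
    ∀ (F : MvPolynomial σ κ) (d : ℕ), F.IsHomogeneous d →
      (∀ b b' : B.Pt κ, Zr J (B.rp b) → Zr J' (B.rp b') → aeval (B.rp (b + b')) F = 0) → F ∈ J''

/-- a height function on an abelian group -/
structure IsHt {G : Type} [AddCommGroup G] (h : G → ℝ) : Prop where
  fg : AddGroup.FG G
  nonneg : ∀ p, 0 ≤ h p
  neg : ∀ p, h (-p) = h p
  est : ∃ β C : ℝ, 1 ≤ β ∧ 0 ≤ C ∧ (∀ p q, h (p + q) ≤ β * h p + β * h q + C) ∧
    ∀ (k : ℕ) p, |h (2 ^ k • p) - 4 ^ k * h p| ≤ C * 4 ^ k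
  north : ∀ b, {p | h p ≤ b}.Finite

/-- distance to a subgroup in a group and in a bigger group -/
def St_RET : Prop := ∀ (G G' : Type) [AddCommGroup G] [AddCommGroup G'] (h : G → ℝ) (h' : G' → ℝ),
  IsHt h → IsHt h' → ∀ (ι : G →+ G') (H : AddSubgroup G'), ∃ C : ℝ, 0 ≤ C ∧
    ∀ (y : G) (z : G'), ι y - z ∈ H → ∃ y₁ : G, ι (y - y₁) ∈ H ∧ h y₁ ≤ C * (h' z + 1)

/-- Mordell-Lang -/
def St_ML : Prop := ∀ (L κ σ : Type) [Field L] [NumberField L] [Field κ] [IsAlgClosed κ]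
  [Algebra L κ] [Fintype σ] [DecidableEq σ] (B : Pkg L σ) (U : Ultrafilter ℕ) (x : ℕ → B.Pt L),
  Tendsto (fun n => B.ht (x n)) U atTop → ∃ (Q : B.Pt κ) (J : Ideal (MvPolynomial σ κ)), NZ B J ∧
    (∀ᶠ n in U, Zr J (B.rp (B.map (Algebra.ofId L κ) (x n) - Q))) ∧
    ∀ (F : MvPolynomial σ κ) (d : ℕ), F.IsHomogeneous d → F ∉ J →
      ∀ᶠ n in U, aeval (B.rp (B.map (Algebra.ofId L κ) (x n) - Q)) F ≠ 0

/-- small values force a contracted translate -/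
def St_PQ2 : Prop := ∀ (L κ σ ρ : Type) [Field L] [NumberField L] [Field κ] [IsAlgClosed κ]
  [Algebra L κ] [Fintype σ] [DecidableEq σ] [Fintype ρ] (B : Pkg L σ) (lam : Rm B.I ρ)
  (U : Ultrafilter ℕ) (x : ℕ → B.Pt L) (l : ℕ → ρ → L), Tendsto (fun n => B.ht (x n)) U atTop →
  (∀ᶠ n in U, lam.Val (B.rp (x n)) (l n)) →
  (Lo U (fun n => B.ht (x n)) fun n => Height.logHeight (l n)) →
  ∃ J : Ideal (MvPolynomial σ κ), NZ B J ∧ ∀ᶠ n in U, ∀ (b : B.Pt κ) (l' : ρ → κ),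
    Zr J (B.rp b) → lam.Val (B.rp (B.map (Algebra.ofId L κ) (x n) + b)) l' →
    Par (fun i => algebraMap L κ (l n i)) l'

/-! ### The gcd bound for generic sequences -/

/-- transcendence degrees -/
structure St_TD : Prop where
  exch : ∀ (k σ Ω₀ Ω : Type) [Field k] [Fintype σ] [Field Ω₀] [Field Ω] [Algebra k Ω₀] [Algebra k Ω]
    [Algebra Ω₀ Ω] [IsScalarTower k Ω₀ Ω] (x : σ → Ω₀) (w : σ → Ω), x ≠ 0 → w ≠ 0 →
    cd (loc k x) + cd (loc Ω₀ w) ≤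
      cd (loc k w) + cd (loc (rat k w) fun i => algebraMap Ω₀ Ω (x i))
  mono : ∀ (k k' σ Ω : Type) [Field k] [Field k'] [Fintype σ] [Field Ω] [Algebra k k'] [Algebra k Ω]
    [Algebra k' Ω] [IsScalarTower k k' Ω] (w : σ → Ω), w ≠ 0 → cd (loc k' w) ≤ cd (loc k w) ∧
      (Algebra.IsAlgebraic k k' → cd (loc k w) ≤ cd (loc k' w))
  free : ∀ (k σ Ω₀ : Type) [Field k] [Fintype σ] [Field Ω₀] [Algebra k Ω₀]
    (q : Ideal (MvPolynomial σ k)), q.IsPrime → IsHom q → (∃ i, X i ∉ q) →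
    ∃ (Ω : Type) (_ : Field Ω) (_ : Algebra k Ω) (_ : Algebra Ω₀ Ω) (_ : IsScalarTower k Ω₀ Ω)
      (b : σ → Ω), b ≠ 0 ∧ Zr q b ∧ cd q ≤ cd (loc Ω₀ b)

/-- codimension two on the ambient variety passes to the small field -/
def St_COD2 : Prop := ∀ (L σ : Type) [Field L] [NumberField L] [Fintype σ] [DecidableEq σ]
  (B : Pkg L σ) (r e : ℕ) (f : Fin r → MvPolynomial σ L), (∀ i, (f i).IsHomogeneous e) →
  (∀ q : Ideal (MvPolynomial σ L), q.IsPrime → B.I ≤ q → (∀ i, f i ∈ q) → cd q + 2 ≤ cd B.I) →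
  ∀ (U : Ultrafilter ℕ) (x : ℕ → B.Pt L) (xr : ℕ → σ → L), (∀ n, B.Rep (x n) (xr n)) →
  (∀ (F : MvPolynomial σ L) (d : ℕ), F.IsHomogeneous d → F ∉ B.I →
    ∀ᶠ n in U, aeval (xr n) F ≠ 0) →
  ∀ (L' : Type) [Field L'] [NumberField L'] [Algebra L L'] (B' : Pkg L' σ) (g : ℕ)
  (x' : ℕ → B'.Pt L') (y : ℕ → B.Pt L'), Dec B U x B' x' y → B'.IsDim (g + 1) →
  ∀ (κ : IntermediateField L' (Ul U L')) [Algebra L κ] [IsScalarTower L L' κ] (v : σ → κ),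
  UlRep B U y (fun i => (v i).1) → ∀ q' : Ideal (MvPolynomial σ κ), q'.IsPrime →
  ext B'.I κ ≤ q' → (∀ u, pullF B f v u ∈ q') → cd q' + 2 ≤ (g + 1 + 1 : ℕ)

/-- the first block carries the full height -/
def St_INEQ : Prop := ∀ (L σ ρ τ : Type) [Field L] [NumberField L] [Fintype σ] [DecidableEq σ]
  [Fintype ρ] [Fintype τ] (B : Pkg L σ) (M : Rm B.I (ρ ⊕ τ)), Cd2 M →
  ∀ (U : Ultrafilter ℕ) (x : ℕ → B.Pt L) (y : ℕ → ρ ⊕ τ → L),
  Tendsto (fun n => B.ht (x n)) U atTop →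
  (∀ (F : MvPolynomial σ L) (d : ℕ), F.IsHomogeneous d → F ∉ B.I →
    ∀ᶠ n in U, aeval (B.rp (x n)) F ≠ 0) → (∀ᶠ n in U, M.Val (B.rp (x n)) (y n)) →
  (∃ a i, M.S a (Sum.inl i) ∉ B.I) → Lo U (fun n => B.ht (x n)) fun n =>
    Height.logHeight (y n) - Height.logHeight fun i => y n (Sum.inl i)

/-! ### Assembly -/

/-- heights of algebraic vectors -/
structure St_ABSH : Prop where
  eq : ∀ (K κ τ L : Type) [Field K] [NumberField K] [Field κ] [Algebra K κ]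
    [Algebra.IsAlgebraic K κ] [Fintype τ] [Field L] [NumberField L] [Algebra K L] [Algebra L κ]
    [IsScalarTower K L κ] (y : τ → κ) (y' : τ → L), y ≠ 0 → y' ≠ 0 →
    Par (fun i => algebraMap L κ (y' i)) y →
    Height.logHeight y' = Module.finrank K L * vecHt K y
  tower : ∀ (K κ τ L : Type) [Field K] [NumberField K] [Field κ] [Algebra K κ]
    [Algebra.IsAlgebraic K κ] [Fintype τ] [Field L] [NumberField L] [Algebra K L] [Algebra L κ]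
    [IsScalarTower K L κ] [Algebra.IsAlgebraic L κ] (y : τ → κ), y ≠ 0 →
    vecHt L y = Module.finrank K L * vecHt K y

/-- descent of a translate and a morphism to a number field -/
def St_DSC : Prop := ∀ (L κ σ τ : Type) [Field L] [NumberField L] [Field κ] [IsAlgClosed κ]
  [Algebra L κ] [Algebra.IsAlgebraic L κ] [Fintype σ] [DecidableEq σ] [Fintype τ] (B : Pkg L σ)
  (Q : B.Pt κ) (J : Ideal (MvPolynomial σ κ)), (B.bc κ).IsSub J → ∀ M : Rm J τ,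
  ∃ (L' : Type) (_ : Field L') (_ : NumberField L') (_ : Algebra L L') (_ : Algebra L' κ)
    (_ : IsScalarTower L L' κ) (B' : Pkg L' σ) (M' : Rm B'.I τ) (e : M'.ι ≃ M.ι) (C : ℝ),
    Sub2 B B' ∧ ext B'.I κ = J ∧
    (∀ a i, MvPolynomial.map (algebraMap L' κ) (M'.S a i) = M.S (e a) i) ∧ 0 ≤ C ∧
    ∀ (p : B.Pt L) (b : B.Pt κ), B.map (Algebra.ofId L κ) p = Q + b → Zr J (B.rp b) →
      ∃ z : B'.Pt L', (B.Rep b fun i => algebraMap L' κ (B'.rp z i)) ∧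
        B.ht p ≤ C * (B'.ht z + 1) ∧ B'.ht z ≤ C * (B.ht p + 1)

/-- properties of a morphism descend -/
def St_DSM : Prop := ∀ (L κ σ τ : Type) [Field L] [Field κ] [IsAlgClosed κ] [Algebra L κ]
  [Algebra.IsAlgebraic L κ] [Fintype σ] (I : Ideal (MvPolynomial σ L))
  (J : Ideal (MvPolynomial σ κ)), I.IsPrime → J.IsPrime → IsHom I → ext I κ = J →
  (∀ (M' : Rm I τ) (M : Rm J τ) (e : M'.ι ≃ M.ι),
    (∀ a i, MvPolynomial.map (algebraMap L κ) (M'.S a i) = M.S (e a) i) →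
    (∀ (Ω : Type) [Field Ω] [Algebra L Ω] [Algebra κ Ω] [IsScalarTower L κ Ω] (x : σ → Ω)
      (y : τ → Ω), M'.Val x y ↔ M.Val x y) ∧ (M.Mor → M'.Mor)) ∧
  ∀ (ρ : Type) (M' : Rm I (ρ ⊕ τ)) (M : Rm J (ρ ⊕ τ)) (e : M'.ι ≃ M.ι),
    (∀ a i, MvPolynomial.map (algebraMap L κ) (M'.S a i) = M.S (e a) i) → Cd2 M → Cd2 M'

/-- the height of the image under a finite morphism -/
def St_AMP : Prop := ∀ (L κ σ ρ : Type) [Field L] [NumberField L] [Field κ] [IsAlgClosed κ]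
  [Algebra L κ] [Algebra.IsAlgebraic L κ] [Fintype σ] [DecidableEq σ] [Fintype ρ] (B : Pkg L σ)
  (lam : Rm B.I ρ) (P : Pc B κ lam), ∃ c C : ℝ, 0 < c ∧ ∀ (p : B.Pt L) (b : B.Pt κ)
    (y : ρ ⊕ Fin P.N → κ), B.map (Algebra.ofId L κ) p = P.Q + b → Zr P.J (B.rp b) →
    P.M.Val (B.rp b) y → c * B.ht p ≤ vecHt L y + C

/-- the sharp bound along a generic sequence -/
def St_FINP : Prop := ∀ (L κ σ ρ : Type) [Field L] [NumberField L] [Field κ] [IsAlgClosed κ]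
  [Algebra L κ] [Algebra.IsAlgebraic L κ] [Fintype σ] [DecidableEq σ] [Fintype ρ] (B : Pkg L σ)
  (lam : Rm B.I ρ) (P : Pc B κ lam) (U : Ultrafilter ℕ) (x : ℕ → B.Pt L) (l : ℕ → ρ → L),
  Tendsto (fun n => B.ht (x n)) U atTop → (∀ n, lam.Val (B.rp (x n)) (l n)) →
  (∀ᶠ n in U, Zr P.J (B.rp (B.map (Algebra.ofId L κ) (x n) - P.Q))) →
  (∀ (F : MvPolynomial σ κ) (d : ℕ), F.IsHomogeneous d → F ∉ P.J →
    ∀ᶠ n in U, aeval (B.rp (B.map (Algebra.ofId L κ) (x n) - P.Q)) F ≠ 0) →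
  ∀ ε : ℝ, 0 < ε → ∀ᶠ n in U, ∀ y : ρ ⊕ Fin P.N → κ,
    P.M.Val (B.rp (B.map (Algebra.ofId L κ) (x n) - P.Q)) y →
    (1 - ε) * vecHt L y ≤ P.m * Height.logHeight (l n)

/-- the theorem for packages -/
def St_MAIN : Prop := ∀ (L κ σ ρ : Type) [Field L] [NumberField L] [Field κ] [IsAlgClosed κ]
  [Algebra L κ] [Algebra.IsAlgebraic L κ] [Fintype σ] [DecidableEq σ] [Fintype ρ] (B : Pkg L σ)
  (lam : Rm B.I ρ) (ε : ℝ), 0 < ε → ∃ (C : ℝ) (JJ : Set (Ideal (MvPolynomial σ κ))) (k : ℕ)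
    (P : Fin k → Pc B κ lam), JJ.Finite ∧ (∀ J ∈ JJ, NZ B J) ∧
    ∀ (p : B.Pt L) (l : ρ → L), lam.Val (B.rp p) l → C ≤ B.ht p →
      (∀ J ∈ JJ, ∃ (b : B.Pt κ) (l' : ρ → κ), Zr J (B.rp b) ∧
        lam.Val (B.rp (B.map (Algebra.ofId L κ) p + b)) l' ∧
        ¬ Par (fun i => algebraMap L κ (l i)) l') →
      ∃ j, Zr (P j).J (B.rp (B.map (Algebra.ofId L κ) p - (P j).Q)) ∧
        ∀ y, (P j).M.Val (B.rp (B.map (Algebra.ofId L κ) p - (P j).Q)) y →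
          (1 - ε) * vecHt L y ≤ (P j).m * Height.logHeight l

/-- a package model of an abelian variety with a rational map -/
structure Mdl {K κ σ σ' ρ L : Type} [Field K] [NumberField K] [Field κ] [Algebra K κ] [Fintype σ]
    [Fintype σ'] [DecidableEq σ'] [Fintype ρ] [Field L] [NumberField L] [Algebra K L]
    [Algebra L κ] (A : AbVar κ σ) (f : ρ → MvPolynomial σ K) (B : Pkg L σ')
    (E : A.carrier ≃+ B.Pt κ) (lam : Rm B.I ρ) : Prop where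
  val : ∀ (P : A.carrier) (l : ρ → κ), lam.Val (B.rp (E P)) l ↔
    l ≠ 0 ∧ (fun i => aeval P.1.rep (f i)) ≠ 0 ∧ Par (fun i => aeval P.1.rep (f i)) l
  loc : ∀ P : A.carrier, ∃ (D : ℕ) (Φ : σ' → MvPolynomial σ κ), (∀ i, (Φ i).IsHomogeneous D) ∧
    (fun i => eval P.1.rep (Φ i)) ≠ 0 ∧ ∀ P' : A.carrier, (fun i => eval P'.1.rep (Φ i)) ≠ 0 →
      B.Rep (E P') fun i => eval P'.1.rep (Φ i)
  sub : ∀ J : Ideal (MvPolynomial σ' κ), NZ B J → ∃ G : AddSubgroup A.carrier, A.IsSubvar G ∧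
    ∀ P, P ∈ G ↔ Zr J (B.rp (E P))
  rat : ∀ (P : A.carrier) (x : σ → K), x ≠ 0 → Par P.1.rep (fun i => algebraMap K κ (x i)) →
    ∃ p : B.Pt L, B.map (Algebra.ofId L κ) p = E P ∧
      Module.finrank K L * Height.logHeight x ≤ B.ht p ∧
      ((fun i => eval x (f i)) ≠ 0 → lam.Val (B.rp p) fun i => algebraMap K L (eval x (f i)))

/-- models exist -/
def St_FMOD : Prop := ∀ (K κ σ ρ : Type) [Field K] [NumberField K] [Field κ] [IsAlgClosed κ]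
  [Algebra K κ] [Algebra.IsAlgebraic K κ] [Fintype σ] [DecidableEq σ] [Fintype ρ] (A : AbVar κ σ)
  (d : ℕ) (f : ρ → MvPolynomial σ K), (∀ i, (f i).IsHomogeneous d) →
  ∃ (L : Type) (_ : Field L) (_ : NumberField L) (_ : Algebra K L) (_ : Algebra L κ)
    (_ : IsScalarTower K L κ) (B : Pkg L (σ × σ)) (E : A.carrier ≃+ B.Pt κ) (lam : Rm B.I ρ),
    Mdl A f B E lam

/-- the morphism on the translate in the original embedding -/
def St_FPSI : Prop := ∀ (κ σ σ' τ L : Type) [Field κ] [Fintype σ] [Fintype σ'] [DecidableEq σ']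
  [Field L] [Algebra L κ] (A : AbVar κ σ) (B : Pkg L σ') (E : A.carrier ≃+ B.Pt κ),
  (∀ P : A.carrier, ∃ (D : ℕ) (Φ : σ' → MvPolynomial σ κ), (∀ i, (Φ i).IsHomogeneous D) ∧
    (fun i => eval P.1.rep (Φ i)) ≠ 0 ∧ ∀ P' : A.carrier, (fun i => eval P'.1.rep (Φ i)) ≠ 0 →
      B.Rep (E P') fun i => eval P'.1.rep (Φ i)) →
  ∀ (J : Ideal (MvPolynomial σ' κ)) (M : Rm J τ), IsHom J → M.Mor →
  ∀ (Q : A.carrier) (G : AddSubgroup A.carrier), (∀ P, P ∈ G ↔ Zr J (B.rp (E P))) →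
  ∃ ψ : A.transl Q G → Projectivization κ (τ → κ), IsMor ψ ∧
    ∀ (P : A.carrier) (h : P.1 ∈ A.transl Q G), M.Val (B.rp (E P - E Q)) (ψ ⟨P.1, h⟩).rep

/-- the final statement -/
def St_ALL : Prop := ∀ (K : Type) [Field K] [NumberField K] (n : ℕ)
    (A : AbVar (AlgebraicClosure K) (Fin (n + 1))) (r d : ℕ)
    (f : Fin r → MvPolynomial (Fin (n + 1)) K), (∀ i, (f i).IsHomogeneous d) → ∀ ε : ℝ, 0 < ε →
    ∃ (c C : ℝ) (BB : Set (AddSubgroup A.carrier)) (k : ℕ) (Q : Fin k → A.carrier)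
      (B : Fin k → AddSubgroup A.carrier) (m N : Fin k → ℕ)
      (ψ : ∀ j, A.transl (Q j) (B j) → Projectivization (AlgebraicClosure K)
        (Fin r ⊕ Fin (N j) → AlgebraicClosure K)),
      0 < c ∧ BB.Finite ∧ (∀ G ∈ BB, A.IsSubvar G) ∧
      (∀ j, A.IsSubvar (B j) ∧ 1 ≤ m j ∧ IsMor (ψ j) ∧ (∀ z, (ψ j ⁻¹' {z}).Finite) ∧
        (∀ p : A.transl (Q j) (B j), (fun i => aeval p.1.rep (f i)) ≠ 0 →
          ∃ a, a ≠ 0 ∧ ∀ i, (ψ j p).rep (Sum.inl i) = a * aeval p.1.rep (f i) ^ m j) ∧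
        ∀ (p : A.transl (Q j) (B j)) (x : Fin (n + 1) → K)
          (hx : (fun i => algebraMap K (AlgebraicClosure K) (x i)) ≠ 0),
          p.1 = Projectivization.mk (AlgebraicClosure K) _ hx →
          c * Height.logHeight x ≤ vecHt K (ψ j p).rep + C) ∧
      ∀ (P : A.carrier) (x : Fin (n + 1) → K)
        (hx : (fun i => algebraMap K (AlgebraicClosure K) (x i)) ≠ 0),
        P.1 = Projectivization.mk (AlgebraicClosure K) _ hx → (fun i => eval x (f i)) ≠ 0 →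
        C ≤ Height.logHeight x → (∀ G ∈ BB, ¬ A.Contracts f P G) →
        ∃ (j : Fin k) (h : P.1 ∈ A.transl (Q j) (B j)),
          (1 - ε) * vecHt K (ψ j ⟨P.1, h⟩).rep ≤ m j * Height.logHeight fun i => eval x (f i)

end D4C.SA
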