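import Pool.Agent.Lib.SA.SDefs

/-! Rational points and the canonical height. -/

namespace D4C

/-- The point has homogeneous coordinates in `K`. -/
def IsRat (K : Type) {κ σ : Type} [Field K] [Field κ] [Algebra K κ]
    (p : Projectivization κ (σ → κ)) : Prop :=
  ∃ (x : σ → K) (h : (fun i => algebraMap K κ (x i)) ≠ 0), p = Projectivization.mk κ _ h

/-- The canonical height by Tate's limit: the upper limit of `h (2 ^ k P) / 4 ^ k`. -/
noncomputable def AbVar.canHt (K : Type) {κ σ : Type} [Field K] [NumberField K] [Field κ]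
    [Algebra K κ] [Algebra.IsAlgebraic K κ] [Fintype σ] (A : AbVar κ σ) (P : A.carrier) : ℝ :=
  Filter.limsup (fun k : ℕ => vecHt K (2 ^ k • P).1.rep / 4 ^ k) Filter.atTop

end D4C
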