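import Pool.Agent.Lib.SA.B_ALL
import Pool.Agent.Lib.SA.B_FMOD
import Pool.Agent.Lib.SA.SDef2

/-! sa56: the final statement for a morphism on an open subset and the canonical height. -/

namespace D4C.SA

open MvPolynomial M56 XFMOD XALL

/-- the final statement -/
def St_ALL2 : Prop := ∀ (K : Type) [Field K] [NumberField K] (n : ℕ)
    (A : AbVar (AlgebraicClosure K) (Fin (n + 1))) (r : ℕ)
    (Z : Set (Projectivization (AlgebraicClosure K) (Fin (n + 1) → AlgebraicClosure K))),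
    ZClosed Z → ∀ lam : (A.carrier \ Z : Set _) →
      Projectivization (AlgebraicClosure K) (Fin r → AlgebraicClosure K), IsMor lam →
    ∀ ε : ℝ, 0 < ε →
    ∃ (c C : ℝ) (BB : Set (AddSubgroup A.carrier)) (k : ℕ) (Q : Fin k → A.carrier)
      (B : Fin k → AddSubgroup A.carrier) (m N : Fin k → ℕ)
      (ψ : ∀ j, A.transl (Q j) (B j) → Projectivization (AlgebraicClosure K)
        (Fin r ⊕ Fin (N j) → AlgebraicClosure K)),
      (∀ P : A.carrier, IsRat K P.1 →
        BddAbove (Set.range fun i : ℕ => vecHt K (2 ^ i • P).1.rep / 4 ^ i)) ∧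
      0 < c ∧ BB.Finite ∧ (∀ G ∈ BB, A.IsSubvar G) ∧
      (∀ j, A.IsSubvar (B j) ∧ 1 ≤ m j ∧ IsMor (ψ j) ∧ (∀ z, (ψ j ⁻¹' {z}).Finite) ∧
        (∀ (p : A.transl (Q j) (B j)) (h : p.1 ∈ A.carrier \ Z),
          ∃ a, a ≠ 0 ∧ ∀ i, (ψ j p).rep (Sum.inl i) = a * (lam ⟨p.1, h⟩).rep i ^ m j) ∧
        ∀ (P : A.carrier) (h : P.1 ∈ A.transl (Q j) (B j)), IsRat K P.1 →
          c * A.canHt K P ≤ vecHt K (ψ j ⟨P.1, h⟩).rep + C) ∧
      ∀ (P : A.carrier) (h : P.1 ∈ A.carrier \ Z), IsRat K P.1 → C ≤ A.canHt K P →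
        (∀ G ∈ BB, ∃ b ∈ G, ∃ h' : (P + b).1 ∈ A.carrier \ Z,
          lam ⟨(P + b).1, h'⟩ ≠ lam ⟨P.1, h⟩) →
        ∃ (j : Fin k) (h' : P.1 ∈ A.transl (Q j) (B j)),
          (1 - ε) * vecHt K (ψ j ⟨P.1, h'⟩).rep ≤ m j * vecHt K (lam ⟨P.1, h⟩).rep

namespace XF2

/-- finitely many tuples of one degree describe a morphism on an open subset -/
theorem cover {κ σ ρ : Type} [Field κ] [Fintype σ] (A : AbVar κ σ) {Z : Set (PP κ σ)}
    (hZ : ZClosed Z) {lam : (A.carrier \ Z : Set _) → PP κ ρ} (hl : IsMor lam) :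
    ∃ (ι : Type) (_ : Fintype ι) (D : ℕ) (g : ι → ρ → MvPolynomial σ κ),
      (∀ a i, (g a i).IsHomogeneous D) ∧
      (∀ p : (A.carrier \ Z : Set _), ∃ a, (fun i => eval p.1.rep (g a i)) ≠ 0 ∧
        Par (fun i => eval p.1.rep (g a i)) (lam p).rep) ∧
      ∀ (p : A.carrier) a b,
        Par (fun i => eval p.1.rep (g a i)) fun i => eval p.1.rep (g b i) := by
  classical
  choose m N hN hN0 hN1 using hl
  have hpar : ∀ q p : (A.carrier \ Z : Set _), Par (fun i => eval p.1.rep (N q i)) (lam p).rep :=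
    fun q p => by
      by_cases h : (fun i => eval p.1.rep (N q i)) = 0
      · intro i j
        simp [congrFun h i, congrFun h j]
      · exact (par_of_eq_mk (hN1 q p h)).symm
  have hA : ∀ (q q' : (A.carrier \ Z : Set _)) (p : A.carrier),
      Par (fun i => eval p.1.rep (N q i)) fun i => eval p.1.rep (N q' i) := by
    intro q q' p i j
    obtain ⟨T, hT, rfl⟩ := hZ
    have h1 := q.2.2
    rw [Set.mem_ofPred_eq] at h1
    push Not at h1
    obtain ⟨F, hF, h2⟩ := h1
    obtain ⟨d, hd⟩ := hT F hF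
    have h3 := (A.irred.2 F _ _ _ hd (((hN q i).mul (hN q' j)).sub ((hN q j).mul (hN q' i)))
      fun z hz => ?_).resolve_left fun h => h2 (h _ q.2.1)
    · have := h3 _ p.2
      rwa [map_sub, map_mul, map_mul, sub_eq_zero] at this
    · rw [map_mul]
      by_cases h : eval z.rep F = 0
      · rw [h, zero_mul]
      · have := par_trans (hpar q ⟨z, hz, fun h' => h (h' F hF)⟩) (Projectivization.rep_nonzero _)
          (hpar q' ⟨z, hz, fun h' => h (h' F hF)⟩).symm i j
        rw [map_sub, map_mul, map_mul, this, sub_self, mul_zero]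
  obtain ⟨s, hs, hs'⟩ := (Submodule.fg_span_iff_fg_span_finset_subset
    (Set.range fun qi : (A.carrier \ Z : Set _) × ρ => N qi.1 qi.2)).1
      (IsNoetherian.noetherian (R := MvPolynomial σ κ) _)
  choose t ht using fun F : s => hs F.2
  refine ⟨s × σ, inferInstance, ∑ F, m (t F).1,
    fun a i => X a.2 ^ (∑ F, m (t F).1 - m (t a.1).1) * N (t a.1).1 i, fun a i => ?_, fun p => ?_,
    fun p a b i j => ?_⟩
  · have := ((isHomogeneous_X κ a.2).pow (∑ F, m (t F).1 - m (t a.1).1)).mul (hN (t a.1).1 i)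
    rwa [one_mul, Nat.sub_add_cancel (Finset.single_le_sum (f := fun F => m (t F).1)
      (fun _ _ => Nat.zero_le _) (Finset.mem_univ a.1))] at this
  · obtain ⟨i, hi⟩ := Function.ne_iff.1 (hN0 p)
    obtain ⟨k, hk⟩ := Function.ne_iff.1 p.1.rep_nonzero
    have h1 : ∃ F : s, eval p.1.rep F.1 ≠ 0 := by
      by_contra! h
      have h2 : Ideal.span (s : Set (MvPolynomial σ κ)) ≤ RingHom.ker (eval p.1.rep) :=
        Ideal.span_le.2 fun F hF => h ⟨F, hF⟩
      exact hi (h2 (hs'.le (Submodule.subset_span ⟨(p, i), rfl⟩)))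
    obtain ⟨F, hF⟩ := h1
    rw [← ht F] at hF
    refine ⟨(F, k), Function.ne_iff.2 ⟨(t F).2, ?_⟩, fun i j => ?_⟩
    · simp only [map_mul, map_pow, eval_X]
      exact mul_ne_zero (pow_ne_zero _ hk) hF
    · simp only [map_mul, mul_assoc]
      rw [hpar (t F).1 p i j]
  · have := hA (t a.1).1 (t b.1).1 p i j
    simp only [map_mul] at this ⊢
    linear_combination (eval p.1.rep (X a.2 ^ (∑ F, m (t F).1 - m (t a.1).1)) *
      eval p.1.rep (X b.2 ^ (∑ F, m (t F).1 - m (t b.1).1))) * this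

/-- a symmetric model over a number field containing given elements -/
theorem model1 (K : Type) {κ σ : Type} [Field K] [NumberField K] [Field κ]
    [IsAlgClosed κ] [Algebra K κ] [Algebra.IsAlgebraic K κ] [Fintype σ] [DecidableEq σ]
    (A : AbVar κ σ) (T : Finset κ) :
    ∃ (L : Type) (_ : Field L) (_ : NumberField L) (_ : Algebra K L) (_ : Algebra L κ)
      (_ : IsScalarTower K L κ) (A' : AbVar κ (σ × σ)) (e : A.carrier ≃+ A'.carrier)
      (B : Pkg L (σ × σ)) (E : A'.carrier ≃+ B.Pt κ) (nl m : ℕ)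
      (N : Fin nl → σ → MvPolynomial σ L), (∀ a ∈ T, ∃ b : L, algebraMap L κ b = a) ∧
      (∀ p, Par (e p).1.rep (sg A p)) ∧ (∀ z, B.Rep (E z) z.1.rep) ∧
      (∀ a i, (N a i).IsHomogeneous m) ∧ ∀ p : A.carrier,
        (∃ a, (fun i => aeval p.1.rep (N a i)) ≠ 0) ∧
          ∀ a, Par (fun i => aeval p.1.rep (N a i)) (-p).1.rep := by
  obtain ⟨K', _, _, _, _, _, hT⟩ : ∃ (L : Type) (_ : Field L) (_ : NumberField L) (_ : Algebra K L)
      (_ : Algebra L κ) (_ : IsScalarTower K L κ), ∀ a ∈ T, ∃ b : L, algebraMap L κ b = a := by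
    have : FiniteDimensional K (IntermediateField.adjoin K (T : Set κ)) :=
      IntermediateField.finiteDimensional_adjoin fun a _ =>
        (Algebra.IsAlgebraic.isAlgebraic a).isIntegral
    exact ⟨IntermediateField.adjoin K (T : Set κ), inferInstance, NumberField.of_module_finite K _,
      inferInstance, inferInstance, inferInstance,
      fun a ha => ⟨⟨a, IntermediateField.subset_adjoin _ _ ha⟩, rfl⟩⟩
  have : Algebra.IsAlgebraic K' κ := Algebra.IsAlgebraic.tower_top (K := K) K'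
  obtain ⟨L, hL, A', e, B, E, nl, m, N, h⟩ :=
    model All.a_SYM All.a_PK1 All.a_PK2 All.a_NEG0 K' κ σ A
  refine ⟨L, inferInstance, NumberField.of_module_finite K' L,
    ((algebraMap K' L).comp (algebraMap K K')).toAlgebra, inferInstance, ?_, A', e, B, E, nl, m, N,
    fun a ha => ?_, h⟩
  · let _ : Algebra K L := ((algebraMap K' L).comp (algebraMap K K')).toAlgebra
    exact IsScalarTower.of_algebraMap_eq fun a => IsScalarTower.algebraMap_apply K K' κ a
  · obtain ⟨b, rfl⟩ := hT a ha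
    exact ⟨algebraMap K' L b, rfl⟩

/-- the package model -/
theorem model2 (hABSH : St_ABSH) (K : Type) {κ σ ρ : Type} [Field K] [NumberField K] [Field κ]
    [IsAlgClosed κ] [Algebra K κ] [Algebra.IsAlgebraic K κ] [Fintype σ] [DecidableEq σ] [Fintype ρ]
    (A : AbVar κ σ) {Z : Set (PP κ σ)} (hZ : ZClosed Z) {lam : (A.carrier \ Z : Set _) → PP κ ρ}
    (hl : IsMor lam) :
    ∃ (L : Type) (_ : Field L) (_ : NumberField L) (_ : Algebra K L) (_ : Algebra L κ)
      (_ : IsScalarTower K L κ) (B : Pkg L (σ × σ)) (E : A.carrier ≃+ B.Pt κ) (M : Rm B.I ρ),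
      (∀ (P : A.carrier) (h : P.1 ∈ A.carrier \ Z), M.Val (B.rp (E P)) (lam ⟨P.1, h⟩).rep) ∧
      (∀ P : A.carrier, ∃ (D : ℕ) (Φ : σ × σ → MvPolynomial σ κ), (∀ i, (Φ i).IsHomogeneous D) ∧
        (fun i => eval P.1.rep (Φ i)) ≠ 0 ∧ ∀ P' : A.carrier, (fun i => eval P'.1.rep (Φ i)) ≠ 0 →
          B.Rep (E P') fun i => eval P'.1.rep (Φ i)) ∧
      (∀ J : Ideal (MvPolynomial (σ × σ) κ), NZ B J → ∃ G : AddSubgroup A.carrier, A.IsSubvar G ∧
        ∀ P, P ∈ G ↔ Zr J (B.rp (E P))) ∧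
      (∀ P : A.carrier, IsRat K P.1 → ∃ p : B.Pt L, B.map (Algebra.ofId L κ) p = E P) ∧
      ∃ C : ℝ, 0 ≤ C ∧ ∀ (P : A.carrier) (p : B.Pt L), B.map (Algebra.ofId L κ) p = E P →
        ∀ i : ℕ, vecHt K (2 ^ i • P).1.rep / 4 ^ i ≤ (B.ht p + C) / Module.finrank K L := by
  classical
  obtain ⟨ι, _, d, g, hg, hg1, hg2⟩ := cover A hZ hl
  obtain ⟨L, _, hnf, _, _, hst, A', e, B, E, nl, m, N, hT, he, hE, hN, hN'⟩ :=
    model1 K A (Finset.univ.biUnion fun ai : ι × ρ => (g ai.1 ai.2).coeffs)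
  have hlift : ∀ a i, ∃ G : MvPolynomial σ L, MvPolynomial.map (algebraMap L κ) G = g a i := by
    intro a i
    obtain ⟨G, hG, -⟩ := T10.exists_lift (algebraMap L κ) (g a i) fun e => by
      by_cases h : coeff e (g a i) = 0
      · exact ⟨0, by rw [h, map_zero]⟩
      · exact hT _ (Finset.mem_biUnion.2 ⟨(a, i), Finset.mem_univ _, coeff_mem_coeffs _ h⟩)
    exact ⟨G, hG⟩
  choose f hf' using hlift
  have hf : ∀ a i, (f a i).IsHomogeneous d := fun a i e he => hg a i (by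
    rw [← hf', coeff_map]
    exact (map_ne_zero _).2 he)
  have hv : ∀ a i (x : σ → κ), eval x (g a i) = aeval x (f a i) := fun a i x => by
    rw [← hf', ← ae, aeval_map_tower]
  simp only [hv] at hg1 hg2
  have hsg : ∀ P, B.Rep ((e.trans E) P) (sg A P) := fun P =>
    (hE _).of_par (uni_iff_ne_zero.2 (sg_ne A P)) (he P)
  have hh : ∀ (u : ι × σ) i, (col L (f u.1) u.2 i).IsHomogeneous d := fun u i =>
    ((hf u.1 i).map _).rename_isHomogeneous
  let M : Rm B.I ρ := ⟨ι × σ, inferInstance, d, fun u => col L (f u.1) u.2, hh, fun a b i j => by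
    refine All.a_GPT.ctr L κ _ _ _ (mem_of_pts (B := B) (B.gprime κ) B.hom.ext le_rfl
      (exists_X (B.bc κ).o_ne (B.bc κ).o_mem)
      ((((hh a i).mul (hh b j)).sub ((hh a j).mul (hh b i))).map _) fun p _ => ?_)
    obtain ⟨P, rfl⟩ := (e.trans E).surjective p
    rw [aeval_map_tower, ← form_iff (hsg P) (B.rep_rp _)
      (((hh a i).mul (hh b j)).sub ((hh a j).mul (hh b i)))]
    unfold sg
    simp only [map_sub, map_mul, col_ev (hf _)]
    linear_combination ((-P).1.rep a.2 ^ d * (-P).1.rep b.2 ^ d) * hg2 P a.1 b.1 i j⟩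
  have iso := iso_sym All.a_LP A A' e.toEquiv he
  obtain ⟨C, hC, -, -, hC'⟩ := All.a_HT L _ B
  refine ⟨L, inferInstance, hnf, inferInstance, inferInstance, hst, B, e.trans E, M,
    fun P h => ?_, fun P => ?_, fun J hJ => ?_, fun P hP => ?_, C, hC, fun P p hp k => ?_⟩
  · rw [← val_iff (hsg P) (B.rep_rp _)]
    obtain ⟨a, h1, h2⟩ := hg1 ⟨P.1, h⟩
    obtain ⟨j, hj⟩ := Function.ne_iff.1 (-P).1.rep_nonzero
    have h3 : M.ev (a, j) (sg A P) = (-P).1.rep j ^ d • fun i => aeval P.1.rep (f a i) :=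
      funext fun i => col_ev (L := L) (hf a) P.1.rep (-P).1.rep j i
    refine ⟨Projectivization.rep_nonzero _, (a, j), ?_, ?_⟩ <;> rw [h3]
    · exact smul_ne_zero (pow_ne_zero _ hj) h1
    · exact par_trans (par_smul _ _).symm h1 h2
  · obtain ⟨⟨a, ha⟩, -⟩ := hN' P
    have hw : ∀ (P' : A.carrier) (ij : σ × σ), eval P'.1.rep
        (X ij.1 * MvPolynomial.map (algebraMap L κ) (N a ij.2)) =
          P'.1.rep ij.1 * aeval P'.1.rep (N a ij.2) := fun P' ij => by
      rw [map_mul, eval_X, ← ae, aeval_map_tower]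
    refine ⟨1 + m, fun ij => X ij.1 * MvPolynomial.map (algebraMap L κ) (N a ij.2),
      fun ij => (isHomogeneous_X κ _).mul ((hN a _).map _), ?_, fun P' h => ?_⟩
    · simp only [hw]
      exact T62.tn_ne.2 ⟨P.1.rep_nonzero, ha⟩
    · simp only [hw] at h ⊢
      obtain ⟨c, -, hc⟩ := smul_of_par ((hN' P').2 a).symm (-P').1.rep_nonzero (T62.tn_ne.1 h).2
      refine (hsg P').of_par (uni_iff_ne_zero.2 h) fun ij kl => ?_
      simp only [sg]
      rw [congrFun hc ij.2, congrFun hc kl.2]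
      simp only [Pi.smul_apply, smul_eq_mul]
      ring
  · obtain ⟨hs, b, h2, h3⟩ := hJ
    have hm : ∀ P, P ∈ (sbg hE hs).comap e.toAddMonoidHom ↔ Zr J (B.rp ((e.trans E) P)) :=
      fun P => zs_iff hE hs.hom (B.rep_rp _)
    have hcm : (((sbg hE hs).comap e.toAddMonoidHom : AddSubgroup A.carrier) : Set A.carrier) =
        e.toEquiv.symm '' Zs A' J := by
      rw [Equiv.image_eq_preimage_symm]
      rfl
    refine ⟨_, ⟨fun h => h3 ?_, ?_, ?_⟩, hm⟩
    · have h4 := (hm ((e.trans E).symm b)).2 (by rwa [AddEquiv.apply_symm_apply])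
      rw [h, AddSubgroup.mem_bot] at h4
      simpa using h4
    · rw [transl_zero, hcm]
      refine iso.cl' _ ?_
      unfold Cl
      rw [img_Zs hE hs.le]
      exact zclosed_zr hs.hom
    · rw [transl_zero, hcm]
      refine iso.ir' _ ?_
      unfold Ir
      rw [img_Zs hE hs.le]
      exact zirred_zr (M56.sub_prime hs) hs.hom (sub_irr hs)
  · obtain ⟨x, hx, hP⟩ := hP
    let xL : σ → L := fun i => algebraMap K L (x i)
    have hxe : (fun i => algebraMap K κ (x i)) = fun i => algebraMap L κ (xL i) :=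
      funext fun i => IsScalarTower.algebraMap_apply K L κ _
    have hxL : xL ≠ 0 := (map_ne_zero' (algebraMap L κ)).1 (hxe ▸ hx)
    obtain ⟨c, hc0, hcx⟩ := smul_of_par (par_of_eq_mk hP).symm hx P.1.rep_nonzero
    rw [hxe] at hcx
    obtain ⟨⟨a, ha⟩, hpar⟩ := hN' P
    let x' : σ → L := fun j => aeval xL (N a j)
    have hx' : (fun i => aeval P.1.rep (N a i)) = c ^ m • fun i => algebraMap L κ (x' i) := by
      funext i
      rw [hcx, aeval_smul_hom (hN a i)]
      exact congrArg _ (aeval_map_alg (Algebra.ofId L κ) xL (N a i))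
    have hx'0 : x' ≠ 0 := fun h => ha (by rw [hx', h]; funext i; simp)
    obtain ⟨c', -, hc'⟩ := smul_of_par (hpar a) ha (-P).1.rep_nonzero
    rw [hx', smul_smul] at hc'
    let z : σ × σ → L := fun ij => xL ij.1 * x' ij.2
    have hz0 : z ≠ 0 := T62.tn_ne.2 ⟨hxL, hx'0⟩
    have hr : B.Rep ((e.trans E) P) fun ij => algebraMap L κ (z ij) := by
      refine (hsg P).of_par (uni_iff_ne_zero.2 ((map_ne_zero' _).2 hz0)) fun ij kl => ?_
      simp only [sg, z, map_mul]
      rw [hcx, hc']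
      simp only [Pi.smul_apply, smul_eq_mul]
      ring
    obtain ⟨p, hp⟩ := exists_pt (B := B) hz0 fun F hF => (algebraMap L κ).injective (by
      rw [map_zero]
      exact (aeval_map_alg (Algebra.ofId L κ) z F).symm.trans (hr.zr F hF))
    exact ⟨p, (hp.map (Algebra.ofId L κ)).eq hr (Par.refl _)⟩
  · have key : ∀ (P : A.carrier) (p : B.Pt L), B.map (Algebra.ofId L κ) p = (e.trans E) P →
        Module.finrank K L * vecHt K P.1.rep ≤ B.ht p := by
      intro P p hp
      obtain ⟨t, ht, h1⟩ := rep_smul (hsg P) (hp ▸ rep_map_rp (Algebra.ofId L κ) p)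
      obtain ⟨j, hj⟩ := Function.ne_iff.1 (-P).1.rep_nonzero
      have h2 : (fun i => algebraMap L κ (B.rp p (i, j))) = (t * (-P).1.rep j) • P.1.rep :=
        funext fun i => (congrFun h1 (i, j)).trans (by
          simp only [sg, Pi.smul_apply, smul_eq_mul]
          ring)
      rw [← hABSH.eq K κ σ L P.1.rep (fun i => B.rp p (i, j)) P.1.rep_nonzero
        ((map_ne_zero' (algebraMap L κ)).1 (h2 ▸ smul_ne_zero (mul_ne_zero ht hj) P.1.rep_nonzero))
        (h2 ▸ (par_smul _ _).symm)]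
      exact Height.logHeight_comp_le (fun i => (i, j)) (B.rp p)
    have hD : (0 : ℝ) < Module.finrank K L := by
      have : FiniteDimensional K L := Module.Finite.of_restrictScalars_finite ℚ K L
      exact_mod_cast Module.finrank_pos
    have h1 := key (2 ^ k • P) (2 ^ k • p) (by rw [map_nsmul, map_nsmul, hp])
    have h2 := (abs_le.1 (hC' k p)).2
    rw [div_le_div_iff₀ (by positivity) hD]
    linarith

end XF2

open XF2

theorem st_ALL2 (hMAIN : St_MAIN) (hAMP : St_AMP) (hFPSI : St_FPSI) (hABSH : St_ABSH) :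
    St_ALL2 := by
  intro K _ _ n A r Z hZ lam hl ε hε
  obtain ⟨L, _, _, _, _, _, B, E, M, hval, hloc, hsub, hrat, C0, hC0, hht'⟩ :=
    model2 hABSH K A hZ hl
  have : Algebra.IsAlgebraic L (AlgebraicClosure K) := Algebra.IsAlgebraic.tower_top (K := K) L
  obtain ⟨C, JJ, k, P, hfin, hNZ, hb⟩ := hMAIN L (AlgebraicClosure K) _ _ B M ε hε
  have : Finite JJ := hfin
  choose G hG hG' using hsub
  choose c C1 hc hC1 using fun j => hAMP L (AlgebraicClosure K) _ _ B M (P j)
  choose ψ hψ hψ' using fun j => hFPSI (AlgebraicClosure K) _ _ _ L A B E hloc (P j).J (P j).M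
    (P j).nz.1.hom (P j).mor (E.symm (P j).Q) (G _ (P j).nz) (hG' _ (P j).nz)
  simp only [AddEquiv.apply_symm_apply] at hψ'
  obtain ⟨c0, hc0, hc1⟩ := exists_min c hc
  have hD : (1 : ℝ) ≤ Module.finrank K L := by
    have : FiniteDimensional K L := Module.Finite.of_restrictScalars_finite ℚ K L
    exact_mod_cast Module.finrank_pos
  have hht : ∀ (P : A.carrier) (p : B.Pt L), B.map (Algebra.ofId L _) p = E P →
      Module.finrank K L * A.canHt K P ≤ B.ht p + C0 := fun P p hp => by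
    rw [← le_div_iff₀' (by linarith)]
    exact Filter.limsup_le_of_le (Filter.isCoboundedUnder_le_of_le _ (x := 0) fun k =>
      div_nonneg (vecHt_nonneg K _) (by positivity)) (Filter.Eventually.of_forall (hht' P p hp))
  have hS : ∀ j, C1 j ≤ ∑ j, |C1 j| := fun j => (le_abs_self _).trans
    (Finset.single_le_sum (f := fun j => |C1 j|) (fun _ _ => abs_nonneg _) (Finset.mem_univ j))
  have hS0 : 0 ≤ ∑ j, |C1 j| := Finset.sum_nonneg fun _ _ => abs_nonneg _
  have hT : ∀ j (p : A.carrier), p.1 ∈ A.transl (E.symm (P j).Q) (G _ (P j).nz) ↔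
      Zr (P j).J (B.rp (E p - (P j).Q)) := fun j p => by
    rw [mem_transl, hG', map_sub, AddEquiv.apply_symm_apply]
  refine ⟨c0, |C| + C0 + c0 * C0 + ∑ j, |C1 j|, Set.range fun J : JJ => G _ (hNZ J.1 J.2), k,
    fun j => E.symm (P j).Q, fun j => G _ (P j).nz, fun j => (P j).m, fun j => (P j).N, ψ,
    fun p hx => ?_, hc0,
    Set.finite_range _, ?_, fun j => ⟨hG _ _, (P j).m_pos, hψ j, fun z => ?_, fun p hp => ?_,
      fun p hp hx => ?_⟩, fun p hp hx hC hn => ?_⟩
  · obtain ⟨q, h1⟩ := hrat p hx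
    exact ⟨_, Set.forall_mem_range.2 (hht' p q h1)⟩
  · rintro _ ⟨J, rfl⟩
    exact hG _ _
  · refine Set.Finite.of_finite_image (f := fun p => E ⟨p.1, mem_carrier p⟩ - (P j).Q)
      (((P j).fin z.rep).subset ?_) fun p _ q _ h => ?_
    · rintro _ ⟨p, hp, rfl⟩
      refine ⟨(hT j ⟨p.1, mem_carrier p⟩).1 p.2, ?_⟩
      have := hψ' j ⟨p.1, mem_carrier p⟩ p.2
      rwa [show ψ j ⟨p.1, p.2⟩ = z from hp] at this
    · exact Subtype.ext (Subtype.mk.inj (E.injective (sub_left_injective h)))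
  · refine (P j).fst _ _ _ ((hT j ⟨p.1, hp.1⟩).1 p.2) ?_ (hψ' j ⟨p.1, hp.1⟩ p.2)
    rw [add_sub_cancel]
    exact hval ⟨p.1, hp.1⟩ hp
  · obtain ⟨q, h1⟩ := hrat p hx
    have h2 := hht p q h1
    have h3 := hC1 j q _ _ (by rw [h1, add_sub_cancel]) ((hT j p).1 hp) (hψ' j p hp)
    rw [hABSH.tower K _ _ L _ (Projectivization.rep_nonzero _)] at h3
    have h4 : c0 * B.ht q ≤ c j * B.ht q :=
      mul_le_mul_of_nonneg_right (hc1 j) (Height.logHeight_nonneg _)
    have h5 := hS j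
    have h6 := mul_le_mul_of_nonneg_left h2 hc0.le
    have h7 : 0 ≤ c0 * C0 := mul_nonneg hc0.le hC0
    refine le_of_mul_le_mul_left ?_ (show (0 : ℝ) < Module.finrank K L by linarith)
    nlinarith [abs_nonneg C]
  · obtain ⟨q, h1⟩ := hrat p hx
    have h2 := hht p q h1
    have h3 := hval p hp
    rw [← h1, ← val_iff (rep_map_rp (Algebra.ofId L _) q) (B.rep_rp _)] at h3
    obtain ⟨-, a, h4, h5⟩ := h3
    rw [Rm.ev_map] at h4 h5
    have h6 := (map_ne_zero' _).1 h4
    have h7 : 0 ≤ c0 * C0 := mul_nonneg hc0.le hC0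
    obtain ⟨j, h8, h9⟩ := hb q _ (Rm.val_ev h6) (by
      nlinarith [le_abs_self C, abs_nonneg C]) fun J hJ => by
      obtain ⟨b, h10, h11, h12⟩ := hn _ ⟨⟨J, hJ⟩, rfl⟩
      refine ⟨E b, _, (hG' _ _ _).1 h10, ?_, fun h => h12 (eq_of_par (par_trans h.symm h4 h5))⟩
      rw [h1, ← map_add]
      exact hval _ h11
    rw [h1] at h8 h9
    refine ⟨j, (hT j p).2 h8, ?_⟩
    have h10 := h9 _ (hψ' j p ((hT j p).2 h8))
    rw [hABSH.tower K _ _ L _ (Projectivization.rep_nonzero _),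
      hABSH.eq K _ _ L _ _ (Projectivization.rep_nonzero _) h6 h5] at h10
    refine le_of_mul_le_mul_left ?_ (show (0 : ℝ) < Module.finrank K L by linarith)
    linarith

end D4C.SA
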