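import Pool.Agent.Lib.SA.All

/-! sa56: the final statement in short form. -/

namespace D4C.SA.Fin

open MvPolynomial M56 XALL XF2

theorem all3 (K κ σ ρ : Type) [Field K] [NumberField K] [Field κ] [IsAlgClosed κ] [Algebra K κ]
    [Algebra.IsAlgebraic K κ] [Fintype σ] [Fintype ρ] (A : AbVar κ σ)
    (Z : Set (Projectivization κ (σ → κ))) (hZ : ZClosed Z)
    (lam : Projectivization κ (σ → κ) → Projectivization κ (ρ → κ))
    (hl : IsMor fun p : (A.carrier \ Z : Set _) => lam p) (ε : ℝ) (hε : 0 < ε) :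
    ∃ (c C : ℝ) (BB : Set (AddSubgroup A.carrier)) (k : ℕ)
      (T : Fin k → Set (Projectivization κ (σ → κ))) (m N : Fin k → ℕ)
      (ψ : ∀ j, Projectivization κ (σ → κ) → Projectivization κ (ρ ⊕ Fin (N j) → κ)),
      (∀ P : A.carrier, IsRat K P.1 →
        BddAbove (Set.range fun i : ℕ => vecHt K (2 ^ i • P).1.rep / 4 ^ i)) ∧
      0 < c ∧ BB.Finite ∧ (∀ G ∈ BB, A.IsSubvar G) ∧
      (∀ j, (∃ Q B, A.IsSubvar B ∧ T j = A.transl Q B) ∧ 1 ≤ m j ∧
        (IsMor fun p : T j => ψ j p) ∧ (∀ z, {p ∈ T j | ψ j p = z}.Finite) ∧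
        (∀ p ∈ T j, p ∉ Z → ∃ a, a ≠ 0 ∧ ∀ i, (ψ j p).rep (Sum.inl i) = a * (lam p).rep i ^ m j) ∧
        ∀ P : A.carrier, P.1 ∈ T j → IsRat K P.1 →
          c * A.canHt K P ≤ vecHt K (ψ j P).rep + C) ∧
      ∀ P : A.carrier, P.1 ∉ Z → IsRat K P.1 → C ≤ A.canHt K P →
        (∀ G ∈ BB, ∃ p ∈ A.transl P G, p ∉ Z ∧ lam p ≠ lam P) →
        ∃ j, P.1 ∈ T j ∧ (1 - ε) * vecHt K (ψ j P).rep ≤ m j * vecHt K (lam P).rep := by
  classical
  obtain ⟨L, _, _, _, _, _, B, E, M, hval, hloc, hsub, hrat, C0, hC0, hht'⟩ :=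
    model2 st_ABSH K A hZ hl
  have : Algebra.IsAlgebraic L κ := Algebra.IsAlgebraic.tower_top (K := K) L
  obtain ⟨C, JJ, k, P, hfin, hNZ, hb⟩ := b_MAIN L κ _ _ B M ε hε
  have : Finite JJ := hfin
  choose G hG hG' using hsub
  choose c C1 hc hC1 using fun j => b_AMP L κ _ _ B M (P j)
  choose φ hφ hφ' using fun j => st_FPSI κ _ _ _ L A B E hloc (P j).J (P j).M
    (P j).nz.1.hom (P j).mor (E.symm (P j).Q) (G _ (P j).nz) (hG' _ (P j).nz)
  simp only [AddEquiv.apply_symm_apply] at hφ'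
  let ψ : ∀ j, PP κ σ → PP κ (ρ ⊕ Fin (P j).N) := fun j => Function.extend Subtype.val (φ j)
    fun _ => φ j ⟨(E.symm (P j).Q).1, mem_transl.2 (by rw [sub_self]; exact zero_mem _)⟩
  have hψ : ∀ j, (fun p : A.transl (E.symm (P j).Q) (G _ (P j).nz) => ψ j p) = φ j :=
    fun j => funext fun p => Subtype.val_injective.extend_apply _ _ p
  have hψ' : ∀ j (p : A.carrier), p.1 ∈ A.transl (E.symm (P j).Q) (G _ (P j).nz) →
      (P j).M.Val (B.rp (E p - (P j).Q)) (ψ j p).rep := fun j p h => by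
    have := hφ' j p h
    rwa [← hψ] at this
  obtain ⟨c0, hc0, hc1⟩ := exists_min c hc
  have hD : (1 : ℝ) ≤ Module.finrank K L := by
    have : FiniteDimensional K L := Module.Finite.of_restrictScalars_finite ℚ K L
    exact_mod_cast Module.finrank_pos
  have hht : ∀ (P : A.carrier) (p : B.Pt L), B.map (Algebra.ofId L _) p = E P →
      Module.finrank K L * A.canHt K P ≤ B.ht p + C0 := fun P p hp => by
    rw [← le_div_iff₀' (by linarith)]
    exact Filter.limsup_le_of_le (Filter.isCoboundedUnder_le_of_le _ (x := 0) fun k =>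
      div_nonneg (vecHt_nonneg K _) (by positivity)) (Filter.Eventually.of_forall (hht' P p hp))
  have hS : ∀ j, C1 j ≤ ∑ j, |C1 j| := fun j => (le_abs_self _).trans
    (Finset.single_le_sum (f := fun j => |C1 j|) (fun _ _ => abs_nonneg _) (Finset.mem_univ j))
  have hS0 : 0 ≤ ∑ j, |C1 j| := Finset.sum_nonneg fun _ _ => abs_nonneg _
  have hT : ∀ j (p : A.carrier), p.1 ∈ A.transl (E.symm (P j).Q) (G _ (P j).nz) ↔
      Zr (P j).J (B.rp (E p - (P j).Q)) := fun j p => by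
    rw [mem_transl, hG', map_sub, AddEquiv.apply_symm_apply]
  refine ⟨c0, |C| + C0 + c0 * C0 + ∑ j, |C1 j|, Set.range fun J : JJ => G _ (hNZ J.1 J.2), k,
    fun j => A.transl (E.symm (P j).Q) (G _ (P j).nz), fun j => (P j).m, fun j => (P j).N, ψ,
    fun p hx => ?_, hc0, Set.finite_range _, ?_, fun j => ⟨⟨_, _, hG _ _, rfl⟩, (P j).m_pos,
      hψ j ▸ hφ j, fun z => ?_, fun p hp hp' => ?_, fun p hp hx => ?_⟩,
    fun p hp hx hC hn => ?_⟩
  · obtain ⟨q, h1⟩ := hrat p hx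
    exact ⟨_, Set.forall_mem_range.2 (hht' p q h1)⟩
  · rintro _ ⟨J, rfl⟩
    exact hG _ _
  · refine (((P j).fin z.rep).image fun b => (E.symm ((P j).Q + b)).1).subset fun p hp => ?_
    have h1 : p ∈ A.carrier := mem_carrier ⟨p, hp.1⟩
    refine ⟨E ⟨p, h1⟩ - (P j).Q, ⟨(hT j ⟨p, h1⟩).1 hp.1, hp.2 ▸ hψ' j ⟨p, h1⟩ hp.1⟩, ?_⟩
    simp only [add_sub_cancel, AddEquiv.symm_apply_apply]
  · have h1 : p ∈ A.carrier := mem_carrier ⟨p, hp⟩
    refine (P j).fst _ _ _ ((hT j ⟨p, h1⟩).1 hp) ?_ (hψ' j ⟨p, h1⟩ hp)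
    rw [add_sub_cancel]
    exact hval ⟨p, h1⟩ ⟨h1, hp'⟩
  · obtain ⟨q, h1⟩ := hrat p hx
    have h2 := hht p q h1
    have h3 := hC1 j q _ _ (by rw [h1, add_sub_cancel]) ((hT j p).1 hp) (hψ' j p hp)
    rw [st_ABSH.tower K _ _ L _ (Projectivization.rep_nonzero _)] at h3
    have h4 : c0 * B.ht q ≤ c j * B.ht q :=
      mul_le_mul_of_nonneg_right (hc1 j) (Height.logHeight_nonneg _)
    have h5 := hS j
    have h6 := mul_le_mul_of_nonneg_left h2 hc0.le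
    have h7 : 0 ≤ c0 * C0 := mul_nonneg hc0.le hC0
    refine le_of_mul_le_mul_left ?_ (show (0 : ℝ) < Module.finrank K L by linarith)
    nlinarith [abs_nonneg C]
  · obtain ⟨q, h1⟩ := hrat p hx
    have h2 := hht p q h1
    have h3 := hval p ⟨p.2, hp⟩
    rw [← h1, ← val_iff (rep_map_rp (Algebra.ofId L _) q) (B.rep_rp _)] at h3
    obtain ⟨-, a, h4, h5⟩ := h3
    rw [Rm.ev_map] at h4 h5
    have h6 := (map_ne_zero' _).1 h4
    have h7 : 0 ≤ c0 * C0 := mul_nonneg hc0.le hC0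
    obtain ⟨j, h8, h9⟩ := hb q _ (Rm.val_ev h6) (by
      nlinarith [le_abs_self C, abs_nonneg C]) fun J hJ => by
      obtain ⟨_, ⟨b, h10, rfl⟩, h11, h12⟩ := hn _ ⟨⟨J, hJ⟩, rfl⟩
      refine ⟨E b, _, (hG' _ _ _).1 h10, ?_, fun h => h12 (eq_of_par (par_trans h.symm h4 h5))⟩
      rw [h1, ← map_add]
      exact hval _ ⟨(p + b).2, h11⟩
    rw [h1] at h8 h9
    refine ⟨j, (hT j p).2 h8, ?_⟩
    have h10 := h9 _ (hψ' j p ((hT j p).2 h8))
    rw [st_ABSH.tower K _ _ L _ (Projectivization.rep_nonzero _),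
      st_ABSH.eq K _ _ L _ _ (Projectivization.rep_nonzero _) h6 h5] at h10
    refine le_of_mul_le_mul_left ?_ (show (0 : ℝ) < Module.finrank K L by linarith)
    linarith

end D4C.SA.Fin
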