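import Pool.Agent.Lib.SA.Blue

/-! sa56 kit: ready lemmas for the rows. -/

set_option linter.unusedSectionVars false

namespace D4C.SA

open MvPolynomial Filter

/-! ### vectors -/

section vec

variable {τ Ω : Type} [Field Ω]

theorem par_trans {x y z : τ → Ω} (h : Par x y) (hy : y ≠ 0) (h' : Par y z) : Par x z :=
  h.trans (uni_iff_ne_zero.2 hy) h'

/-- a vector parallel to a nonzero one is a multiple of it -/
theorem par_smul' {x y : τ → Ω} (h : Par x y) (hx : x ≠ 0) : ∃ c : Ω, y = c • x :=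
  h.exists_smul (uni_iff_ne_zero.2 hx)

theorem par_of_smul {x y : τ → Ω} {c : Ω} (h : y = c • x) : Par x y := h ▸ par_smul c x

theorem map_ne_zero' {Ω' F : Type} [Field Ω'] [FunLike F Ω Ω'] [RingHomClass F Ω Ω'] (f : F)
    {x : τ → Ω} : (fun i => f (x i)) ≠ 0 ↔ x ≠ 0 :=
  ⟨fun h h0 => h (by funext i; simp [h0]),
    fun h => uni_iff_ne_zero.1 ((uni_iff_ne_zero.2 h).map f)⟩

theorem par_map_iff {Ω' F : Type} [Field Ω'] [FunLike F Ω Ω'] [RingHomClass F Ω Ω'] (f : F)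
    {x y : τ → Ω} : Par (fun i => f (x i)) (fun i => f (y i)) ↔ Par x y :=
  ⟨fun h i j => (f : Ω →+* Ω').injective (by simpa using h i j), fun h => h.map f⟩

end vec

/-! ### rational maps -/

section rm

variable {L σ τ : Type} [Field L] {I : Ideal (MvPolynomial σ L)} {M : Rm I τ}
  {Ω : Type} [Field Ω] [Algebra L Ω]

theorem Rm.ev_smul {R : Type} [CommRing R] [Algebra L R] (a : M.ι) (c : R) (x : σ → R) :
    M.ev a (c • x) = c ^ M.D • M.ev a x := funext fun i => aeval_smul_hom (M.hom a i) c x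

theorem Rm.ev_par {R : Type} [CommRing R] [Algebra L R] {x : σ → R} (hx : Zr I x) (a b : M.ι) :
    Par (M.ev a x) (M.ev b x) := fun i j => by
  have := hx _ (M.compat a b i j)
  rw [map_sub, map_mul, map_mul, sub_eq_zero] at this
  exact this

theorem Rm.ev_map {R R' : Type} [CommRing R] [Algebra L R] [CommRing R'] [Algebra L R']
    (f : R →ₐ[L] R') (a : M.ι) (x : σ → R) :
    M.ev a (fun i => f (x i)) = fun i => f (M.ev a x i) := funext fun _ => aeval_map_alg f x _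

theorem Rm.Val.ne {x : σ → Ω} {y : τ → Ω} (h : M.Val x y) : y ≠ 0 := h.1

theorem Rm.val_ev {x : σ → Ω} {a : M.ι} (h : M.ev a x ≠ 0) : M.Val x (M.ev a x) :=
  ⟨h, a, h, Par.refl _⟩

/-- every tuple is parallel to the value -/
theorem Rm.Val.par {x : σ → Ω} {y : τ → Ω} (h : M.Val x y) (hx : Zr I x) (a : M.ι) :
    Par (M.ev a x) y := by
  obtain ⟨-, b, h1, h2⟩ := h
  exact par_trans (M.ev_par hx a b) h1 h2

/-- every tuple is a multiple of the value -/
theorem Rm.Val.ev_eq {x : σ → Ω} {y : τ → Ω} (h : M.Val x y) (hx : Zr I x) (a : M.ι) :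
    ∃ c : Ω, M.ev a x = c • y := par_smul' (h.par hx a).symm h.ne

theorem Rm.Val.uniq {x : σ → Ω} {y y' : τ → Ω} (h : M.Val x y) (h' : M.Val x y') (hx : Zr I x) :
    Par y y' := by
  obtain ⟨-, b, h1, h2⟩ := h
  exact par_trans h2.symm h1 (h'.par hx b)

theorem Rm.Val.of_par {x : σ → Ω} {y y' : τ → Ω} (h : M.Val x y) (hy : y' ≠ 0) (hp : Par y y') :
    M.Val x y' := by
  obtain ⟨h0, b, h1, h2⟩ := h
  exact ⟨hy, b, h1, par_trans h2 h0 hp⟩

theorem Rm.Val.smul {x : σ → Ω} {y : τ → Ω} (h : M.Val x y) {c : Ω} (hc : c ≠ 0) :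
    M.Val (c • x) y := by
  obtain ⟨h0, b, h1, h2⟩ := h
  refine ⟨h0, b, ?_, ?_⟩ <;> rw [Rm.ev_smul]
  · exact smul_ne_zero (pow_ne_zero _ hc) h1
  · exact par_trans (par_smul _ _).symm h1 h2

theorem Rm.Val.of_par_left {x x' : σ → Ω} {y : τ → Ω} (h : M.Val x y) (hx : x ≠ 0) (hx' : x' ≠ 0)
    (hp : Par x x') : M.Val x' y := by
  obtain ⟨c, hc, rfl⟩ := M56.smul_of_par hp hx hx'
  exact h.smul hc

theorem Rm.val_map_iff {Ω' : Type} [Field Ω'] [Algebra L Ω'] (f : Ω →ₐ[L] Ω') {x : σ → Ω}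
    {y : τ → Ω} : M.Val (fun i => f (x i)) (fun i => f (y i)) ↔ M.Val x y := by
  simp only [Rm.Val, Rm.ev_map, map_ne_zero' f, par_map_iff f]

theorem Rm.Val.map {Ω' : Type} [Field Ω'] [Algebra L Ω'] (f : Ω →ₐ[L] Ω') {x : σ → Ω} {y : τ → Ω}
    (h : M.Val x y) : M.Val (fun i => f (x i)) fun i => f (y i) := (Rm.val_map_iff f).2 h

theorem Rm.Mor.ev (h : M.Mor) {x : σ → Ω} (hx : Zr I x) (h0 : x ≠ 0) : ∃ a, M.ev a x ≠ 0 := by
  obtain ⟨_, -, a, ha, -⟩ := h Ω x hx h0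
  exact ⟨a, ha⟩

/-- for a morphism it is enough that all tuples are parallel to `y` -/
theorem Rm.Mor.val (h : M.Mor) {x : σ → Ω} (hx : Zr I x) (h0 : x ≠ 0) {y : τ → Ω} (hy : y ≠ 0)
    (hp : ∀ a, Par (M.ev a x) y) : M.Val x y := by
  obtain ⟨a, ha⟩ := h.ev hx h0
  exact ⟨hy, a, ha, hp a⟩

end rm

/-! ### points -/

section pts

variable {L σ : Type} [Field L] [Fintype σ] [DecidableEq σ] {B : Pkg L σ}
  {Ω : Type} [Field Ω] [Algebra L Ω]

theorem rep_ne {p : B.Pt Ω} {x : σ → Ω} (h : B.Rep p x) : x ≠ 0 := uni_iff_ne_zero.1 h.uni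

theorem rp_ne (p : B.Pt Ω) : B.rp p ≠ 0 := rep_ne (B.rep_rp p)

theorem rp_zr (p : B.Pt Ω) : Zr B.I (B.rp p) := (B.rep_rp p).zr

theorem exists_pt {x : σ → Ω} (h0 : x ≠ 0) (hx : Zr B.I x) : ∃ p : B.Pt Ω, B.Rep p x :=
  ⟨_, Pkg.rep_pt x (uni_iff_ne_zero.2 h0) hx⟩

theorem rep_smul {p : B.Pt Ω} {x y : σ → Ω} (hx : B.Rep p x) (hy : B.Rep p y) :
    ∃ c : Ω, c ≠ 0 ∧ y = c • x := M56.smul_of_par (hx.par hy) (rep_ne hx) (rep_ne hy)

theorem form_iff {k : Type} [Field k] [Algebra k Ω] {p : B.Pt Ω} {x y : σ → Ω} (hx : B.Rep p x)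
    (hy : B.Rep p y) {F : MvPolynomial σ k} {d : ℕ} (hF : F.IsHomogeneous d) :
    aeval x F = 0 ↔ aeval y F = 0 := by
  obtain ⟨c, hc, rfl⟩ := rep_smul hx hy
  rw [aeval_smul_hom hF, mul_eq_zero_iff_left (pow_ne_zero _ hc)]

theorem zr_iff {k : Type} [Field k] [Algebra k Ω] {J : Ideal (MvPolynomial σ k)} (hJ : IsHom J)
    {p : B.Pt Ω} {x y : σ → Ω} (hx : B.Rep p x) (hy : B.Rep p y) : Zr J x ↔ Zr J y := by
  obtain ⟨c, -, h1⟩ := rep_smul hx hy
  obtain ⟨c', -, h2⟩ := rep_smul hy hx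
  exact ⟨fun h => h1 ▸ h.smul hJ c, fun h => h2 ▸ h.smul hJ c'⟩

theorem val_iff {k τ : Type} [Field k] [Algebra k Ω] {I : Ideal (MvPolynomial σ k)} {M : Rm I τ}
    {p : B.Pt Ω} {x x' : σ → Ω} (hx : B.Rep p x) (hx' : B.Rep p x') {y : τ → Ω} :
    M.Val x y ↔ M.Val x' y :=
  ⟨fun h => h.of_par_left (rep_ne hx) (rep_ne hx') (hx.par hx'),
    fun h => h.of_par_left (rep_ne hx') (rep_ne hx) (hx'.par hx)⟩

theorem rep_map_rp {Ω' : Type} [Field Ω'] [Algebra L Ω'] (f : Ω →ₐ[L] Ω') (p : B.Pt Ω) :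
    B.Rep (B.map f p) fun i => f (B.rp p i) := (B.rep_rp p).map f

theorem ht_rp [Height.AdmissibleAbsValues L] (p : B.Pt L) : B.ht p = Height.logHeight (B.rp p) :=
  rfl

theorem htM_rp {M : Type} [Field M] [Algebra L M] [Height.AdmissibleAbsValues M] (p : B.Pt M) :
    htM B p = Height.logHeight (B.rp p) := rfl

variable {κ : Type} [Field κ] [Algebra L κ]

theorem sub_prime {J : Ideal (MvPolynomial σ κ)} (hJ : (B.bc κ).IsSub J) : J.IsPrime :=
  M56.sub_prime hJ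

theorem sub_prime' {J : Ideal (MvPolynomial σ L)} (hJ : B.IsSub J) : J.IsPrime :=
  T39.prime_I (B.sub J hJ)

/-- Nullstellensatz in terms of points -/
theorem mem_of_pts [IsAlgClosed κ] {J : Ideal (MvPolynomial σ κ)} (hp : J.IsPrime) (hh : IsHom J)
    (hle : ext B.I κ ≤ J) (hi : ∃ i, X i ∉ J) {F : MvPolynomial σ κ} {d : ℕ}
    (hF : F.IsHomogeneous d) (h : ∀ b : B.Pt κ, Zr J (B.rp b) → aeval (B.rp b) F = 0) : F ∈ J := by
  refine M56.ns hp hh hi hF fun p hz => ?_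
  obtain ⟨b, hb⟩ := exists_pt (B := B) p.rep_nonzero (zr_ext.1 fun G hG => hz G (hle hG))
  rw [← M56.ae, form_iff hb (B.rep_rp b) hF]
  exact h b ((zr_iff hh hb (B.rep_rp b)).1 hz)

theorem mem_sub [IsAlgClosed κ] {J : Ideal (MvPolynomial σ κ)} (hJ : (B.bc κ).IsSub J)
    {F : MvPolynomial σ κ} {d : ℕ} (hF : F.IsHomogeneous d)
    (h : ∀ b : B.Pt κ, Zr J (B.rp b) → aeval (B.rp b) F = 0) : F ∈ J :=
  mem_of_pts (sub_prime hJ) hJ.hom hJ.le (M56.sub_irr hJ) hF h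

theorem exists_X {J : Ideal (MvPolynomial σ κ)} {R : Type} [Field R] [Algebra κ R] {x : σ → R}
    (h0 : x ≠ 0) (hx : Zr J x) : ∃ i, X i ∉ J := by
  obtain ⟨i, hi⟩ := Function.ne_iff.1 h0
  exact ⟨i, fun h => hi (by simpa using hx _ h)⟩

/-- the same over the base field -/
theorem mem_of_pts' [IsAlgClosed L] {J : Ideal (MvPolynomial σ L)} (hp : J.IsPrime) (hh : IsHom J)
    (hle : B.I ≤ J) (hi : ∃ i, X i ∉ J) {F : MvPolynomial σ L} {d : ℕ}
    (hF : F.IsHomogeneous d) (h : ∀ b : B.Pt L, Zr J (B.rp b) → aeval (B.rp b) F = 0) : F ∈ J :=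
  mem_of_pts hp hh (by rwa [T39.ext_self]) hi hF h

theorem mem_I [IsAlgClosed L] {F : MvPolynomial σ L} {d : ℕ} (hF : F.IsHomogeneous d)
    (h : ∀ b : B.Pt L, aeval (B.rp b) F = 0) : F ∈ B.I :=
  mem_of_pts' (T39.prime_I B) B.hom le_rfl (exists_X B.o_ne B.o_mem) hF fun b _ => h b

/-- the points on an abelian subvariety form a subgroup -/
def subG {J : Ideal (MvPolynomial σ κ)} (hJ : (B.bc κ).IsSub J) (Ω : Type) [Field Ω] [Algebra L Ω]
    [Algebra κ Ω] [IsScalarTower L κ Ω] : AddSubgroup (B.Pt Ω) where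
  carrier := {b | Zr J (B.rp b)}
  zero_mem' := by
    refine (zr_iff hJ.hom Pkg.rep_zero (B.rep_rp 0)).1 ?_
    have := hJ.o_mem.map (Algebra.ofId κ Ω)
    simpa only [Pkg.bc, Algebra.ofId_apply, ← IsScalarTower.algebraMap_apply] using this
  add_mem' := fun {p q} hp hq => by
    obtain ⟨a, ha⟩ := (B.rep_rp p).exists_add (B.rep_rp q)
    refine (zr_iff hJ.hom ha (B.rep_rp _)).1 ?_
    have := hJ.add_mem Ω _ _ hp hq a
    rwa [show (B.bc κ).A a = fun i => MvPolynomial.map (algebraMap L κ) (B.A a i) from rfl,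
      ev2_ext] at this
  neg_mem' := fun {p} hp =>
    (zr_iff hJ.hom (B.rep_rp p).neg (B.rep_rp _)).1 (hJ.neg_mem Ω _ hp)

theorem mem_subG {J : Ideal (MvPolynomial σ κ)} (hJ : (B.bc κ).IsSub J) [Algebra κ Ω]
    [IsScalarTower L κ Ω] {b : B.Pt Ω} : b ∈ subG hJ Ω ↔ Zr J (B.rp b) := Iff.rfl

/-- points of a subpackage -/
theorem hom_surj {L' : Type} [Field L'] [Algebra L L'] {B' : Pkg L' σ} (h : Sub2 B B')
    [Algebra L' Ω] [IsScalarTower L L' Ω] {p : B.Pt Ω} {x : σ → Ω} (hx : B.Rep p x)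
    (hz : Zr B'.I x) : ∃ q : B'.Pt Ω, B'.Rep q x ∧ h.hom Ω q = p := by
  obtain ⟨q, hq⟩ := exists_pt (B := B') (rep_ne hx) hz
  exact ⟨q, hq, (h.rep hq).eq hx (Par.refl _)⟩

theorem hom_inj {L' : Type} [Field L'] [Algebra L L'] {B' : Pkg L' σ} (h : Sub2 B B')
    [Algebra L' Ω] [IsScalarTower L L' Ω] : Function.Injective (h.hom Ω) :=
  Pkg.transfer_injective _ _ _ _

theorem rep_hom_rp {L' : Type} [Field L'] [Algebra L L'] {B' : Pkg L' σ} (h : Sub2 B B')
    [Algebra L' Ω] [IsScalarTower L L' Ω] (q : B'.Pt Ω) : B.Rep (h.hom Ω q) (B'.rp q) :=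
  h.rep (B'.rep_rp q)

theorem hom_map {L' : Type} [Field L'] [Algebra L L'] {B' : Pkg L' σ} (h : Sub2 B B')
    [Algebra L' Ω] [IsScalarTower L L' Ω] {Ω' : Type} [Field Ω'] [Algebra L Ω'] [Algebra L' Ω']
    [IsScalarTower L L' Ω'] (f : Ω →ₐ[L'] Ω') (q : B'.Pt Ω) :
    h.hom Ω' (B'.map f q) = B.map (f.restrictScalars L) (h.hom Ω q) :=
  (h.rep (rep_map_rp f q)).eq ((rep_hom_rp h q).map _) (Par.refl _)

theorem sub2_bc (B : Pkg L σ) (L' : Type) [Field L'] [Algebra L L'] : Sub2 B (B.bc L') :=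
  ⟨le_rfl, rfl, rfl, fun a => ⟨a, rfl⟩, fun a => ⟨a, rfl⟩⟩

/-! ### translated forms -/

theorem trF_hom {F : MvPolynomial σ κ} {d : ℕ} (hF : F.IsHomogeneous d) (c : σ → κ)
    (a : Fin B.nl) : (trF B F c a).IsHomogeneous (B.β * d) :=
  hF.aeval _ fun i => T34.hom_half (B.A_hom a i) c

theorem trF_ev {R : Type} [CommRing R] [Algebra L R] [Algebra κ R] [IsScalarTower L κ R]
    (F : MvPolynomial σ κ) (c : σ → κ) (a : Fin B.nl) (x : σ → R) :
    aeval x (trF B F c a) = aeval (ev2 (B.A a) x fun i => algebraMap κ R (c i)) F := by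
  have h1 := aeval_map_alg (aeval x : MvPolynomial σ κ →ₐ[κ] R)
    (ev2 (B.A a) X fun s => (C (c s) : MvPolynomial σ κ)) F
  have h2 := ev2_map ((aeval x : MvPolynomial σ κ →ₐ[κ] R).restrictScalars L) (B.A a) X
    fun s => (C (c s) : MvPolynomial σ κ)
  simp only [AlgHom.coe_restrictScalars', aeval_X, aeval_C] at h2
  rw [h2]
  exact h1.symm

/-- values of all translated forms; some law does not degenerate -/
theorem trF_val [Algebra κ Ω] [IsScalarTower L κ Ω] {p q : B.Pt Ω} {x w : σ → Ω} {c : σ → κ}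
    (hx : B.Rep p x) (hc : B.Rep q fun i => algebraMap κ Ω (c i)) (hw : B.Rep (p + q) w) :
    ∃ t : Fin B.nl → Ω, (∃ a, t a ≠ 0) ∧
      (∀ a, ev2 (B.A a) x (fun i => algebraMap κ Ω (c i)) = t a • w) ∧
      ∀ (a : Fin B.nl) (F : MvPolynomial σ κ) (d : ℕ), F.IsHomogeneous d →
        aeval x (trF B F c a) = t a ^ d * aeval w F := by
  choose t ht using hx.law_eq_smul hc hw
  obtain ⟨a, ha⟩ := hx.exists_add hc
  refine ⟨t, ⟨a, fun h => rep_ne ha (by rw [ht, h, zero_smul])⟩, ht, fun a F d hF => ?_⟩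
  rw [trF_ev, ht, aeval_smul_hom hF]

theorem trF_iff [Algebra κ Ω] [IsScalarTower L κ Ω] {p q : B.Pt Ω} {x w : σ → Ω} {c : σ → κ}
    (hx : B.Rep p x) (hc : B.Rep q fun i => algebraMap κ Ω (c i)) (hw : B.Rep (p + q) w)
    {F : MvPolynomial σ κ} {d : ℕ} (hF : F.IsHomogeneous d) :
    aeval w F = 0 ↔ ∀ a, aeval x (trF B F c a) = 0 := by
  obtain ⟨t, ⟨a, ha⟩, -, h⟩ := trF_val hx hc hw
  refine ⟨fun h0 a => by rw [h a F d hF, h0, mul_zero], fun h0 => ?_⟩
  have := h0 a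
  rwa [h a F d hF, mul_eq_zero_iff_left (pow_ne_zero _ ha)] at this

/-- the case of points over `κ` -/
theorem trF_pts (p q : B.Pt κ) {F : MvPolynomial σ κ} {d : ℕ} (hF : F.IsHomogeneous d) :
    aeval (B.rp (p + q)) F = 0 ↔ ∀ a, aeval (B.rp p) (trF B F (B.rp q) a) = 0 :=
  trF_iff (B.rep_rp p) (B.rep_rp q) (B.rep_rp _) hF

/-! ### generic points, dimension, cube, heights -/

theorem pgen_zr {I : Ideal (MvPolynomial σ L)} (hI : IsHom I) {x : σ → Ω} (h : PGen I x) :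
    Zr I x := T32.zr_of_pgen hI h

/-- the function field with its generic point -/
theorem exists_gen {I : Ideal (MvPolynomial σ L)} (hp : I.IsPrime) (hi : ∃ i, X i ∉ I) :
    ∃ (F : Type) (_ : Field F) (_ : Algebra L F) (η : σ → F), PGen I η ∧ rat L η = ⊤ := by
  obtain ⟨Ω, _, _, _, x, hx0, hx⟩ := All.a_GPT.ex L σ I hp hi
  obtain ⟨k, hk⟩ := Function.ne_iff.1 hx0
  have hk : x k ≠ 0 := hk
  have hmem : ∀ i, x i / x k ∈ rat L x := fun i =>
    IntermediateField.subset_adjoin _ _ ⟨(i, k), rfl⟩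
  let η : σ → rat L x := fun i => ⟨x i / x k, hmem i⟩
  have h1 : (fun i => (rat L x).val (η i)) = (x k)⁻¹ • x := funext fun i => by
    simp [η, div_eq_inv_mul]
  have h2 : η k = 1 := Subtype.ext (div_self hk)
  refine ⟨rat L x, inferInstance, inferInstance, η,
    ⟨Function.ne_iff.2 ⟨k, by rw [h2]; exact one_ne_zero⟩, fun F n hF => ?_⟩, ?_⟩
  · rw [← hx, ← map_eq_zero_iff (rat L x).val (rat L x).val.injective, ← aeval_map_alg, h1,
      aeval_smul_hom hF, mul_eq_zero_iff_left (pow_ne_zero _ (inv_ne_zero hk))]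
  · apply IntermediateField.map_injective (rat L x).val
    rw [← AlgHom.fieldRange_eq_map, IntermediateField.fieldRange_val]
    have h3 : ∀ ij : σ × σ, (rat L x).val (η ij.1 / η ij.2) = x ij.1 / x ij.2 := fun ij => by
      simp only [map_div₀, η, IntermediateField.val_mk]
      rw [div_div_div_cancel_right₀ hk]
    have h4 : (rat L η).map (rat L x).val = IntermediateField.adjoin L
        ((rat L x).val '' Set.range fun ij : σ × σ => η ij.1 / η ij.2) :=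
      IntermediateField.adjoin_map _ _ _
    rw [h4, ← Set.range_comp]
    exact congrArg (fun g : σ × σ → Ω => IntermediateField.adjoin L (Set.range g)) (funext h3)

theorem cd_fin {I : Ideal (MvPolynomial σ L)} (hp : I.IsPrime) : ∃ n : ℕ, cd I = n :=
  (All.a_DIM L σ I hp).1

theorem two_le_cd {b : B.Pt L} (hb : b ≠ 0) : 2 ≤ cd B.I := by
  obtain ⟨l1, l2, l3, l4, l5⟩ := All.a_LOC L σ L B.o B.o_ne
  have h1 : B.I < loc L B.o := by
    refine lt_of_le_of_ne (T57.le_loc B.hom B.o_mem) fun h => hb ?_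
    refine (B.rep_rp b).eq Pkg.rep_zero fun i j => ?_
    have h2 : C (B.o j) * X i - C (B.o i) * X j ∈ B.I := by
      rw [h, ← l3.2 _ 1]
      · simp [mul_comm]
      · exact ((isHomogeneous_X L i).C_mul _).sub ((isHomogeneous_X L j).C_mul _)
    have h3 := rp_zr b _ h2
    simp only [map_sub, map_mul, aeval_C, aeval_X] at h3
    linear_combination h3
  have h2 := (All.a_DIM L σ B.I (T39.prime_I B)).2.2 _ l2 h1
  rw [l5, trdeg_eq_zero, zero_add] at h2
  obtain ⟨n, hn⟩ := cd_fin (T39.prime_I B)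
  rw [hn] at h2 ⊢
  exact_mod_cast h2

/-- theorem of the cube -/
theorem cube [CharZero L] [IsAlgClosed L] [IsAlgClosed Ω] (x y z : B.Pt Ω) : B.Cube x y z := by
  obtain ⟨j, q, hq, hsum⟩ := All.a_CSUM L σ B
  obtain ⟨h0, hadd⟩ := All.a_SUBG L σ B Ω
  obtain ⟨u, hu, rfl⟩ := hsum Ω x
  exact Finset.sum_induction u (fun w => ∀ y z, B.Cube w y z) hadd h0 (fun i _ y z =>
    All.a_CURVE L σ B (q i) (hq i).1 (hq i).2.1 (hq i).2.2.1 (hq i).2.2.2.1 (hq i).2.2.2.2 Ω _ y z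
      (hu i)) y z

theorem isHt_ht [NumberField L] (B : Pkg L σ) : IsHt B.ht := by
  obtain ⟨C, hC, h1, h2, h3⟩ := All.a_HT L σ B
  exact ⟨All.a_MW L σ B, fun _ => Height.logHeight_nonneg _, h1,
    ⟨B.β, C, by exact_mod_cast B.β_pos, hC, h2, h3⟩, T32.northcott B⟩

theorem isHt_htM (B : Pkg L σ) (L' : Type) [Field L'] [NumberField L'] [Algebra L L'] :
    IsHt (htM B : B.Pt L' → ℝ) := by
  obtain ⟨h1, h2, h3, ⟨β, C, h4, h5, h6, h7⟩, h8⟩ := isHt_ht (B.bc L')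
  have e : ∀ p : B.Pt L', htM B p = (B.bc L').ht (B.toBc L' p) := fun p => (T99.ht_to B p).symm
  have hs : Function.Surjective (B.ofBc L' : (B.bc L').Pt L' →+ B.Pt L') :=
    fun p => ⟨_, T99.of_to B p⟩
  refine ⟨AddGroup.fg_of_surjective hs, fun p => by rw [e]; exact h2 _,
    fun p => by rw [e, e, map_neg, h3], ⟨β, C, h4, h5, fun p q => by rw [e, e, e, map_add]; exact h6 _ _,
      fun k p => by rw [e, e, map_nsmul]; exact h7 _ _⟩, fun b => ?_⟩
  refine ((h8 b).image (B.ofBc L')).subset fun p hp => ⟨B.toBc L' p, ?_, T99.of_to B p⟩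
  rw [Set.mem_ofPred_eq, ← e]
  exact hp

end pts

theorem vecHt_nonneg (K : Type) {κ τ : Type} [Field K] [NumberField K] [Field κ] [Algebra K κ]
    [Algebra.IsAlgebraic K κ] [Fintype τ] (y : τ → κ) : 0 ≤ vecHt K y := by
  have : FiniteDimensional K (IntermediateField.adjoin K (Set.range y)) :=
    IntermediateField.finiteDimensional_adjoin fun a _ =>
      (Algebra.IsAlgebraic.isAlgebraic a).isIntegral
  have : NumberField (IntermediateField.adjoin K (Set.range y)) :=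
    NumberField.of_module_finite K _
  exact div_nonneg (Height.logHeight_nonneg _) (Nat.cast_nonneg _)

/-- parallel vectors have the same height -/
theorem ht_par {L τ : Type} [Field L] [Height.AdmissibleAbsValues L] [Fintype τ] {x y : τ → L}
    (h : Par x y) (hx : x ≠ 0) (hy : y ≠ 0) : Height.logHeight y = Height.logHeight x := by
  obtain ⟨c, hc, rfl⟩ := M56.smul_of_par h hx hy
  exact Height.logHeight_smul_eq_logHeight _ hc

end D4C.SA
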